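import Pool.Agent.Helper70.U8a

/-!
# U8: smoothing along the modular group
-/

open scoped InnerProductSpace Topology BoundedContinuousFunction
open ContinuousLinearMap Filter MeasureTheory

namespace Pool.Agent.Helper70.U8

open Pool.Agent.Helper23

variable {H : Type*} [NormedAddCommGroup H] [InnerProductSpace ℂ H] [CompleteSpace H]
variable {A : VonNeumannAlgebra H} {ξ : H} {R : H →L[ℂ] H} {D : H →L[ℝ] H}
  {Ψ : (ℝ →ᵇ ℂ) →⋆ₐ[ℂ] (H →L[ℂ] H)} {J : H →L[ℝ] H}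

open Pool.Agent.Helper43.TTF (FC JD FT FT_apply FR_apply)

lemma cj_norm (hJ : JD D Ψ J) (x : H →L[ℂ] H) : ‖hJ.cj x‖ ≤ ‖x‖ := by
  refine ContinuousLinearMap.opNorm_le_bound _ (norm_nonneg _) fun v => ?_
  rw [hJ.cj_apply, hJ.J_norm]
  refine (x.le_opNorm _).trans ?_
  rw [hJ.J_norm]

lemma J_xi (h' : TTData A ξ R D) (hJ : JD D Ψ J) (h : Modular A ξ R D Ψ) : J ξ = ξ := by
  have h1 : Ψ FT ξ = ξ := by
    rw [h.psi_xi, FT_apply, zero_div, Real.cosh_zero, inv_one, Complex.ofReal_one, one_smul]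
  have h2 := hJ.J_T ξ
  rw [h1] at h2
  have h3 := h'.D_comm 1 (one_mem _)
  rw [one_apply_eq_self, star_one, one_apply_eq_self, Pool.Agent.Helper43.TTF.R_xi h'] at h3
  rw [h2, h3]

/-- the key identity of the kernels -/
lemma two_sub_FR (ρ : ℝ) : (2 - FR : ℝ →ᵇ ℂ) ρ = FT ρ * ((Real.exp (ρ / 2) : ℝ) : ℂ) := by
  have h3 : (2 : ℝ →ᵇ ℂ) ρ = 2 := rfl
  rw [BoundedContinuousFunction.sub_apply, FT_apply, FR_apply, h3,
    Pool.Agent.Helper43.TTF.cosh_half]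
  have h1 : Real.exp ρ = Real.exp (ρ / 2) * Real.exp (ρ / 2) := by
    rw [← Real.exp_add]; ring_nf
  have h2 : (0 : ℝ) < Real.exp (ρ / 2) := Real.exp_pos _
  have h4 : (0 : ℝ) < 1 + Real.exp ρ := by positivity
  have h5 : 2 - 2 / (1 + Real.exp ρ) =
      ((1 + Real.exp ρ) / (2 * Real.exp (ρ / 2)))⁻¹ * Real.exp (ρ / 2) := by
    rw [h1] at h4 ⊢
    field_simp
    ring
  rw [← Complex.ofReal_mul, ← h5]
  push_cast
  ring

lemma key_mul {ε : ℝ} (hε : 0 < ε) :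
    GB ε hε (-(1 / 2)) * (2 - FR) = FT * GB ε hε 0 := by
  ext ρ
  rw [BoundedContinuousFunction.mul_apply, BoundedContinuousFunction.mul_apply, two_sub_FR,
    GB_apply, GB_apply]
  have h1 : Real.exp (-(ε * ρ ^ 2) + 0 * ρ) =
      Real.exp (-(ε * ρ ^ 2) + -(1 / 2) * ρ) * Real.exp (ρ / 2) := by
    rw [← Real.exp_add]
    congr 1
    ring
  rw [h1]
  push_cast
  ring

lemma J_psi (h' : TTData A ξ R D) (hF : FC R D Ψ) (hJ : JD D Ψ J) {ε : ℝ} (hε : 0 < ε)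
    {z : H →L[ℂ] H} (hz : z ∈ A) :
    J (Ψ (GB ε hε (1 / 2)) ((star z) ξ)) = Ψ (GB ε hε 0) (z ξ) := by
  rw [← sub_eq_zero]
  refine hF.T_inj h' _ ?_
  rw [map_sub, hJ.T_J]
  have h1 : D (Ψ (GB ε hε (1 / 2)) ((star z) ξ)) =
      Ψ (GB ε hε (-(1 / 2))) (D ((star z) ξ)) := by
    refine hF.psi_D _ _ (fun ρ => ?_) _
    rw [GB_apply, GB_apply, Complex.conj_ofReal]
    congr 2
    ring
  have h2 : D ((star z) ξ) = Ψ (2 - FR) (z ξ) := by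
    rw [h'.D_mem _ (star_mem hz), star_star, map_sub, hF.psi_FR,
      Pool.Agent.Helper43.TTF.psi_two, sub_apply, smul_apply, one_apply_eq_self]
  rw [h1, h2, ← psi_mul_apply, ← psi_mul_apply, key_mul, sub_self]

/-- right boundedness of the smoothed vectors -/
lemma smooth_right (h : Modular A ξ R D Ψ) (hF : FC R D Ψ) (hJ : JD D Ψ J)
    (hcj : ∀ a ∈ A, hJ.cj a ∈ A.commutant) {ε : ℝ} (hε : 0 < ε)
    {z : H →L[ℂ] H} (hz : z ∈ A) :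
    ∃ r ∈ A.commutant, ‖r‖ ≤ Real.exp ((1 / 2) ^ 2 / (4 * ε)) * ‖z‖ ∧
      r ξ = sm h (kg_int hε 0) z ξ := by
  refine ⟨hJ.cj (sm h (kg_int hε (1 / 2)) (star z)), hcj _ (sm_mem h _ h.mem (star_mem hz)),
    ?_, ?_⟩
  · refine (cj_norm hJ _).trans ((sm_norm h _ _).trans ?_)
    rw [kg_integral_norm hε, norm_star]
  · rw [hJ.cj_apply, J_xi h.data hJ h, sm_xi h _ (K := GB ε hε (1 / 2))
      (fun ρ => by rw [GB_apply]; exact kg_fourier hε _ ρ),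
      sm_xi h _ (K := GB ε hε 0) (fun ρ => by rw [GB_apply]; exact kg_fourier hε _ ρ),
      J_psi h.data hF hJ hε hz]

/-! ### estimates -/

lemma one_sub_norm_apply {ε : ℝ} (hε : 0 < ε) (ρ : ℝ) :
    ‖(1 - GB ε hε 0 : ℝ →ᵇ ℂ) ρ‖ ≤ min 1 (ε * ρ ^ 2) := by
  have h1 : (1 - GB ε hε 0 : ℝ →ᵇ ℂ) ρ = ((1 - Real.exp (-(ε * ρ ^ 2)) : ℝ) : ℂ) := by
    rw [BoundedContinuousFunction.sub_apply, GB_apply, Pool.Agent.Helper43.TTF.one_bcf]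
    push_cast
    rw [zero_mul, add_zero]
  have h2 : Real.exp (-(ε * ρ ^ 2)) ≤ 1 := Real.exp_le_one_iff.2 (by
    have : 0 ≤ ε * ρ ^ 2 := by positivity
    linarith)
  have h3 := Real.add_one_le_exp (-(ε * ρ ^ 2))
  have h4 := Real.exp_pos (-(ε * ρ ^ 2))
  rw [h1, Complex.norm_real, Real.norm_of_nonneg (by linarith)]
  refine le_min (by linarith) (by linarith)

lemma one_sub_norm {ε : ℝ} (hε : 0 < ε) : ‖(1 - GB ε hε 0 : ℝ →ᵇ ℂ)‖ ≤ 1 := by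
  refine (BoundedContinuousFunction.norm_le zero_le_one).2 fun ρ => ?_
  exact (one_sub_norm_apply hε ρ).trans (min_le_left _ _)

lemma FT_mul_norm {ε : ℝ} (hε : 0 < ε) : ‖(FT * (1 - GB ε hε 0) : ℝ →ᵇ ℂ)‖ ≤ 8 * ε := by
  refine (BoundedContinuousFunction.norm_le (by positivity)).2 fun ρ => ?_
  rw [BoundedContinuousFunction.mul_apply, norm_mul, FT_apply, Complex.norm_real,
    Real.norm_of_nonneg (by have := Real.cosh_pos (ρ / 2); positivity)]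
  have h1 := (one_sub_norm_apply hε ρ).trans (min_le_right _ _)
  have h2 : ρ ^ 2 / 8 ≤ Real.cosh (ρ / 2) := by
    have e1 : Real.cosh (ρ / 2) = 1 + 2 * Real.sinh (ρ / 4) ^ 2 := by
      have := Real.cosh_two_mul (ρ / 4)
      have e2 : 2 * (ρ / 4) = ρ / 2 := by ring
      rw [e2, Real.cosh_sq] at this
      rw [this]
      ring
    rw [e1]
    have e3 : (ρ / 4) ^ 2 ≤ Real.sinh (ρ / 4) ^ 2 := by
      rw [sq_le_sq, Real.abs_sinh]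
      exact Real.self_le_sinh_iff.2 (abs_nonneg _)
    nlinarith
  have h3 := Real.cosh_pos (ρ / 2)
  rw [inv_mul_le_iff₀ h3]
  calc ‖(1 - GB ε hε 0 : ℝ →ᵇ ℂ) ρ‖ ≤ ε * ρ ^ 2 := h1
    _ ≤ Real.cosh (ρ / 2) * (8 * ε) := by nlinarith

lemma psi_D_norm (h' : TTData A ξ R D) (hF : FC R D Ψ) {ε : ℝ} (hε : 0 < ε) (v : H) :
    ‖Ψ (1 - GB ε hε 0) (D v)‖ ≤ 8 * ε * ‖v‖ := by
  have h1 : Ψ (1 - GB ε hε 0) (D v) = D (Ψ (1 - GB ε hε 0) v) := by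
    refine (hF.psi_D _ _ (fun ρ => ?_) _).symm
    rw [BoundedContinuousFunction.sub_apply, BoundedContinuousFunction.sub_apply, map_sub,
      GB_apply, GB_apply, Complex.conj_ofReal, Pool.Agent.Helper43.TTF.one_bcf,
      Pool.Agent.Helper43.TTF.one_bcf, map_one]
    congr 3
    ring
  rw [h1, hF.D_norm h', ← psi_mul_apply]
  refine ((Ψ _).le_opNorm v).trans ?_
  gcongr
  exact (psi_norm_le Ψ _).trans (FT_mul_norm hε)

lemma est (h' : TTData A ξ R D) (hF : FC R D Ψ) (hξ : ‖ξ‖ = 1) {ε : ℝ} (hε : 0 < ε)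
    {a r : H →L[ℂ] H} (ha : a ∈ A) (hr : r ∈ A.commutant) :
    ‖Ψ (1 - GB ε hε 0) (a ξ)‖ ≤ 2 * ‖a ξ - r ξ‖ + 8 * ε * (‖a‖ + ‖r‖) := by
  have e1 : D ((star a) ξ) = (2 : ℂ) • a ξ - R (a ξ) := by
    rw [h'.D_mem _ (star_mem ha), star_star]
  have e2 : D ((star r) ξ) = R (r ξ) := by
    rw [h'.D_comm _ (star_mem hr), star_star]
  have e3 : (2 : ℂ) • a ξ = D ((star a) ξ) + (R (a ξ - r ξ) + D ((star r) ξ)) := by
    rw [e1, e2, map_sub]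
    abel
  have n1 : ‖(star a) ξ‖ ≤ ‖a‖ := by
    have := (star a).le_opNorm ξ
    rwa [hξ, mul_one, norm_star] at this
  have n2 : ‖(star r) ξ‖ ≤ ‖r‖ := by
    have := (star r).le_opNorm ξ
    rwa [hξ, mul_one, norm_star] at this
  have e4 : (2 : ℂ) • Ψ (1 - GB ε hε 0) (a ξ) = Ψ (1 - GB ε hε 0) (D ((star a) ξ)) +
      (Ψ (1 - GB ε hε 0) (R (a ξ - r ξ)) + Ψ (1 - GB ε hε 0) (D ((star r) ξ))) := by
    rw [← map_smul, e3, map_add, map_add]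
  have n3 : ‖FR‖ ≤ 2 := by
    refine (BoundedContinuousFunction.norm_le zero_le_two).2 fun ρ => ?_
    rw [FR_apply, Complex.norm_real, Real.norm_of_nonneg (by positivity)]
    rw [div_le_iff₀ (by positivity)]
    nlinarith [Real.exp_pos ρ]
  have n4 : ‖Ψ (1 - GB ε hε 0) (R (a ξ - r ξ))‖ ≤ 2 * ‖a ξ - r ξ‖ := by
    rw [← hF.psi_FR, ← psi_mul_apply]
    refine ((Ψ _).le_opNorm _).trans ?_
    gcongr
    refine (psi_norm_le Ψ _).trans ((norm_mul_le _ _).trans ?_)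
    calc ‖(1 - GB ε hε 0 : ℝ →ᵇ ℂ)‖ * ‖FR‖ ≤ 1 * 2 :=
          mul_le_mul (one_sub_norm hε) n3 (norm_nonneg _) zero_le_one
      _ = 2 := one_mul 2
  have n5 := psi_D_norm h' hF hε ((star a) ξ)
  have n6 := psi_D_norm h' hF hε ((star r) ξ)
  have n7 : 2 * ‖Ψ (1 - GB ε hε 0) (a ξ)‖ ≤ ‖Ψ (1 - GB ε hε 0) (D ((star a) ξ))‖ +
      (‖Ψ (1 - GB ε hε 0) (R (a ξ - r ξ))‖ + ‖Ψ (1 - GB ε hε 0) (D ((star r) ξ))‖) := by
    have h1 : 2 * ‖Ψ (1 - GB ε hε 0) (a ξ)‖ = ‖(2 : ℂ) • Ψ (1 - GB ε hε 0) (a ξ)‖ := by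
      rw [norm_smul]
      norm_num
    rw [h1, e4]
    refine (norm_add_le _ _).trans ?_
    gcongr
    exact norm_add_le _ _
  have n8 : 8 * ε * ‖(star a) ξ‖ ≤ 8 * ε * ‖a‖ := by gcongr
  have n9 : 8 * ε * ‖(star r) ξ‖ ≤ 8 * ε * ‖r‖ := by gcongr
  have n10 := norm_nonneg (a ξ - r ξ)
  have n11 : 0 ≤ 8 * ε * ‖a‖ := by positivity
  have n12 : 0 ≤ 8 * ε * ‖r‖ := by positivity
  linarith

lemma sub_eq (h : Modular A ξ R D Ψ) {ε : ℝ} (hε : 0 < ε) (z : H →L[ℂ] H) :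
    z ξ - sm h (kg_int hε 0) z ξ = Ψ (1 - GB ε hε 0) (z ξ) := by
  rw [sm_xi h _ (K := GB ε hε 0) (fun ρ => by rw [GB_apply]; exact kg_fourier hε _ ρ), map_sub,
    map_one, sub_apply, one_apply_eq_self]

lemma G_star {ε : ℝ} (hε : 0 < ε) : star (1 - GB ε hε 0) = 1 - GB ε hε 0 := by
  ext ρ
  rw [BoundedContinuousFunction.star_apply, BoundedContinuousFunction.sub_apply, GB_apply,
    Pool.Agent.Helper43.TTF.one_bcf, Complex.star_def, map_sub, map_one, Complex.conj_ofReal]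

end Pool.Agent.Helper70.U8

namespace Pool.Agent.Helper23

open Pool.Agent.Helper70.U8 Pool.Agent.Helper43.TTF

variable {H : Type*} [NormedAddCommGroup H] [InnerProductSpace ℂ H] [CompleteSpace H]
variable {M N : VonNeumannAlgebra H} {ξ : H} {E : (H →L[ℂ] H) → (H →L[ℂ] H)}

/-- the modular data of a setting, with the modular conjugation -/
theorem Setting.exists_modular_J (S : Setting M N E ξ) :
    ∃ (R : H →L[ℂ] H) (D : H →L[ℝ] H) (Ψ : (ℝ →ᵇ ℂ) →⋆ₐ[ℂ] (H →L[ℂ] H)) (J : H →L[ℝ] H),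
      Modular M ξ R D Ψ ∧ FC R D Ψ ∧ (∃ hJ : JD D Ψ J, ∀ a ∈ M, hJ.cj a ∈ M.commutant) ∧
      ∀ (t : ℝ), ∀ a ∈ N, Ψ (expB t) * a * Ψ (expB (-t)) ∈ N := by
  have h' := ttdata M ξ S.cyc S.sep
  obtain ⟨Ψ, h⟩ := exists_FC h'
  obtain ⟨J, hJ⟩ := h.exists_J h'
  have hmod := modular_of h' S.cyc S.sep h
  refine ⟨_, _, Ψ, J, hmod, h, ⟨hJ, fun a ha => cj_mem h' S.cyc S.dense_comm h hJ ha⟩,
    fun t a ha => ?_⟩
  set x := Ψ (expB t) * a * Ψ (expB (-t)) with hx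
  have hxM : x ∈ M := hmod.mem t a (S.le a ha)
  have hcomm := h.psi_comm _ (p0_R S)
  have hxξ : x ξ = Ψ (expB t) (a ξ) := by
    rw [hx, mul_apply_eq_comp, mul_apply_eq_comp, hmod.psi_xi,
      Pool.Agent.Helper43.TTF.expB_apply, mul_zero,
      Complex.ofReal_zero, zero_mul, Complex.exp_zero, one_smul]
  have h1 : p0 N ξ (x ξ) = x ξ := by
    have h2 := congrArg (fun T : H →L[ℂ] H => T (a ξ)) (hcomm (expB t))
    simp only [mul_apply_eq_comp] at h2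
    rw [hxξ, h2, p0_of_mem (mem_K0 ha)]
  have h3 : (E x - x) ξ = 0 := by
    rw [sub_apply, ← E_apply S hxM, h1, sub_self]
  have h4 := S.sep _ (sub_mem (S.le _ (S.E_mem x hxM)) hxM) h3
  rw [← sub_eq_zero.1 h4]
  exact S.E_mem x hxM

/-- U8: smoothing along the modular group -/
theorem Setting.exists_smooth (S : Setting M N E ξ) :
    ∃ (s : ℕ → (H →L[ℂ] H) → (H →L[ℂ] H)) (C ρ : ℕ → ℝ), Tendsto ρ atTop (𝓝 0) ∧
      (∀ j, ∀ z ∈ N, s j z ∈ N ∧ ‖s j z‖ ≤ ‖z‖ ∧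
        (∃ r ∈ M.commutant, ‖r‖ ≤ C j * ‖z‖ ∧ r ξ = s j z ξ) ∧
        (∃ r ∈ M.commutant, ‖r‖ ≤ C j * ‖z‖ ∧ r ξ = (star (s j z)) ξ)) ∧
      (∀ j, ∀ z ∈ N, ∀ a ∈ M, ∀ r ∈ M.commutant,
        ‖⟪ξ, (s j z) (a ξ)⟫_ℂ - ⟪ξ, z (a ξ)⟫_ℂ‖ ≤
          ‖z‖ * (2 * ‖a ξ - r ξ‖ + ρ j * (‖a‖ + ‖r‖))) ∧
      (∀ j, ∀ z ∈ N, ∀ a ∈ M, ∀ r ∈ M.commutant,
        ‖⟪ξ, a ((s j z) ξ)⟫_ℂ - ⟪ξ, a (z ξ)⟫_ℂ‖ ≤
          ‖z‖ * (2 * ‖(star a) ξ - r ξ‖ + ρ j * (‖a‖ + ‖r‖))) := by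
  obtain ⟨R, D, Ψ, J, h, hF, ⟨hJ, hcj⟩, hN⟩ := S.exists_modular_J
  have hε : ∀ j : ℕ, (0 : ℝ) < 1 / ((j : ℝ) + 1) := fun j => Nat.one_div_pos_of_nat
  refine ⟨fun j z => sm h (kg_int (hε j) 0) z,
    fun j => Real.exp ((1 / 2) ^ 2 / (4 * (1 / ((j : ℝ) + 1)))),
    fun j => 8 * (1 / ((j : ℝ) + 1)), ?_, ?_, ?_, ?_⟩
  · simpa using (tendsto_one_div_add_atTop_nhds_zero_nat (𝕜 := ℝ)).const_mul 8
  · intro j z hz
    refine ⟨sm_mem h _ hN hz, ?_, smooth_right h hF hJ hcj (hε j) (S.le z hz), ?_⟩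
    · have h1 := sm_norm h (kg_int (hε j) 0) z
      rw [kg_integral_norm (hε j)] at h1
      simpa using h1
    · obtain ⟨r, hr, hr1, hr2⟩ := smooth_right h hF hJ hcj (hε j) (star_mem (S.le z hz))
      refine ⟨r, hr, ?_, ?_⟩
      · rwa [norm_star] at hr1
      · rw [hr2, sm_star h _ (kg_real _)]
  · intro j z hz a ha r hr
    have e1 : ⟪ξ, (sm h (kg_int (hε j) 0) z) (a ξ)⟫_ℂ - ⟪ξ, z (a ξ)⟫_ℂ =
        -⟪(star z) ξ, Ψ (1 - GB _ (hε j) 0) (a ξ)⟫_ℂ := by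
      rw [← G_star, ← psi_adj, ← sub_eq h, ← sm_star h _ (kg_real _), inner_sub_left,
        inner_star_left, inner_star_left]
      ring
    change ‖⟪ξ, (sm h (kg_int (hε j) 0) z) (a ξ)⟫_ℂ - ⟪ξ, z (a ξ)⟫_ℂ‖ ≤ _
    rw [e1, norm_neg]
    refine (norm_inner_le_norm _ _).trans ?_
    refine mul_le_mul ?_ (est h.data hF S.norm_one (hε j) ha hr) (norm_nonneg _) (norm_nonneg _)
    have := (star z).le_opNorm ξ
    rwa [S.norm_one, mul_one, norm_star] at this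
  · intro j z hz a ha r hr
    have e1 : ⟪ξ, a ((sm h (kg_int (hε j) 0) z) ξ)⟫_ℂ - ⟪ξ, a (z ξ)⟫_ℂ =
        -⟪Ψ (1 - GB _ (hε j) 0) ((star a) ξ), z ξ⟫_ℂ := by
      rw [psi_adj, G_star, ← sub_eq h, inner_sub_right, inner_star_left, inner_star_left]
      ring
    change ‖⟪ξ, a ((sm h (kg_int (hε j) 0) z) ξ)⟫_ℂ - ⟪ξ, a (z ξ)⟫_ℂ‖ ≤ _
    rw [e1, norm_neg]
    refine (norm_inner_le_norm _ _).trans ?_
    rw [mul_comm]
    have h2 := est h.data hF S.norm_one (hε j) (star_mem ha) hr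
    rw [norm_star] at h2
    refine mul_le_mul ?_ h2 (norm_nonneg _) (norm_nonneg _)
    have := z.le_opNorm ξ
    rwa [S.norm_one, mul_one] at this

end Pool.Agent.Helper23
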