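import Pool.Agent.Helper23.Amp2

/-!
# The `L²` Fourier transform commutes with `lift` / `ten` and turns translations into modulations
(module TT-E)
-/

open scoped InnerProductSpace Topology BoundedContinuousFunction FourierTransform SchwartzMap
open ContinuousLinearMap Filter MeasureTheory

set_option linter.unusedSectionVars false

namespace Pool.Agent.Helper23

variable {G : Type*} [NormedAddCommGroup G] [InnerProductSpace ℂ G] [CompleteSpace G]
variable {G' : Type*} [NormedAddCommGroup G'] [InnerProductSpace ℂ G'] [CompleteSpace G']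
variable {H : Type*} [NormedAddCommGroup H] [InnerProductSpace ℂ H] [CompleteSpace H]

/-- two continuous maps on `L²(ℝ; G)` agreeing on Schwartz functions agree -/
lemma L2R_ext_schwartz {X : Type*} [TopologicalSpace X] [T2Space X] {φ ψ : L2R G → X}
    (hφ : Continuous φ) (hψ : Continuous ψ)
    (h : ∀ f : 𝓢(ℝ, G), φ (f.toLp 2) = ψ (f.toLp 2)) (F : L2R G) : φ F = ψ F := by
  refine DenseRange.induction_on (p := fun F => φ F = ψ F)
    (SchwartzMap.denseRange_toLpCLM (E := ℝ) (F := G) (p := 2) (μ := volume)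
      ENNReal.ofNat_ne_top) F (isClosed_eq hφ hψ) ?_
  intro f
  exact h f

lemma lift_toLp (a : G →L[ℂ] G') (f : 𝓢(ℝ, G)) :
    lift a (f.toLp 2) = (f.postcompCLM a).toLp 2 := by
  ext1
  filter_upwards [lift_coe a (f.toLp 2), f.coeFn_toLp 2, (f.postcompCLM a).coeFn_toLp 2]
    with s h1 h2 h3
  rw [h1, h2, h3, SchwartzMap.postcompCLM_apply]

lemma fourier_postcomp (a : G →L[ℂ] G') (f : 𝓢(ℝ, G)) :
    𝓕 (f.postcompCLM a) = (𝓕 f).postcompCLM a := by
  ext w
  rw [SchwartzMap.postcompCLM_apply, SchwartzMap.fourier_coe, SchwartzMap.fourier_coe,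
    Real.fourier_eq, Real.fourier_eq, ← ContinuousLinearMap.integral_comp_comm]
  · refine integral_congr_ae (Eventually.of_forall fun v => ?_)
    simp only [SchwartzMap.postcompCLM_apply]
    rw [Circle.smul_def, Circle.smul_def, map_smul]
  · rw [Real.fourierIntegral_convergent_iff]
    exact f.integrable

theorem fourier_lift' (a : G →L[ℂ] G') (F : L2R G) : 𝓕 (lift a F) = lift a (𝓕 F) := by
  refine L2R_ext_schwartz (φ := fun F : L2R G => (𝓕 (lift a F) : L2R G'))
    (ψ := fun F : L2R G => lift a (𝓕 F)) ?_ ?_ (fun f => ?_) F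
  · exact (Lp.fourierTransformₗᵢ ℝ G').continuous.comp (lift a).continuous
  · exact (lift a).continuous.comp (Lp.fourierTransformₗᵢ ℝ G).continuous
  · rw [lift_toLp, SchwartzMap.toLp_fourier_eq, SchwartzMap.toLp_fourier_eq, lift_toLp,
      fourier_postcomp]

/-- MODULE TT-E: the `L²` Fourier transform and the operators `lift`, `ten`, `tr` -/
theorem fourier_lift (a : H →L[ℂ] H) (F : L2R H) : 𝓕 (lift a F) = lift a (𝓕 F) :=
  fourier_lift' a F

theorem fourier_ten (f : L2R ℂ) (η : H) : 𝓕 (ten f η) = ten (𝓕 f) η :=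
  fourier_lift' (toSpanSingleton ℂ η) f

/-- `s ↦ exp(-2 π i t s)` -/
noncomputable def chr (t : ℝ) (s : ℝ) : ℂ := Complex.exp (-(2 * Real.pi * t * s : ℝ) * Complex.I)

lemma chr_norm (t s : ℝ) : ‖chr t s‖ = 1 := by
  unfold chr
  rw [← Complex.ofReal_neg, Complex.norm_exp_ofReal_mul_I]

lemma chr_bm (t : ℝ) : BM (chr t) := by
  refine ⟨?_, 1, zero_le_one, fun s => (chr_norm t s).le⟩
  unfold chr
  fun_prop

/-- the translate of a Schwartz function -/
noncomputable def trS (t : ℝ) (f : 𝓢(ℝ, G)) : 𝓢(ℝ, G) :=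
  SchwartzMap.compCLMOfAntilipschitz ℂ (K := 1) (g := fun s : ℝ => s - t)
    (by fun_prop) (AntilipschitzWith.of_le_mul_dist fun x y => by
      rw [dist_sub_right, NNReal.coe_one, one_mul]) f

lemma trS_apply (t : ℝ) (f : 𝓢(ℝ, G)) (s : ℝ) : trS t f s = f (s - t) := rfl

lemma tr_toLp (t : ℝ) (f : 𝓢(ℝ, G)) : tr G t (f.toLp 2) = (trS t f).toLp 2 := by
  have h0 : ∀ᵐ s : ℝ, f.toLp 2 (volume : Measure ℝ) (s - t) = f (s - t) :=
    ae_tr (p := fun s => f.toLp 2 (volume : Measure ℝ) s = f s) t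
      (f.coeFn_toLp 2 (volume : Measure ℝ))
  ext1
  filter_upwards [tr_coe t (f.toLp 2), h0, (trS t f).coeFn_toLp 2] with s h1 h2 h3
  rw [h1, h2, h3, trS_apply]

lemma fourier_trS (t : ℝ) (f : 𝓢(ℝ, G)) (w : ℝ) : 𝓕 (trS t f) w = chr t w • 𝓕 f w := by
  rw [SchwartzMap.fourier_coe, SchwartzMap.fourier_coe]
  have h := congrFun (VectorFourier.fourierIntegral_comp_add_right Real.fourierChar
    (volume : Measure ℝ) (innerₗ ℝ) (f : ℝ → G) (-t)) w
  have h1 : ((f : ℝ → G) ∘ fun v => v + -t) = (trS t f : ℝ → G) := by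
    ext v
    rw [trS_apply, Function.comp_apply, sub_eq_add_neg]
  rw [h1] at h
  refine h.trans ?_
  rw [Circle.smul_def, Real.fourierChar_apply]
  congr 1
  unfold chr
  congr 1
  simp
  ring

theorem fourier_tr (t : ℝ) (F : L2R H) : 𝓕 (tr H t F) = mulOp H (chr t) (𝓕 F) := by
  refine L2R_ext_schwartz (φ := fun F : L2R H => (𝓕 (tr H t F) : L2R H))
    (ψ := fun F : L2R H => mulOp H (chr t) (𝓕 F)) ?_ ?_ (fun f => ?_) F
  · exact (Lp.fourierTransformₗᵢ ℝ H).continuous.comp (tr H t).continuous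
  · exact (mulOp H (chr t)).continuous.comp (Lp.fourierTransformₗᵢ ℝ H).continuous
  · rw [tr_toLp, SchwartzMap.toLp_fourier_eq, SchwartzMap.toLp_fourier_eq]
    ext1
    filter_upwards [mulOp_coe (chr_bm t) ((𝓕 f).toLp 2), (𝓕 f).coeFn_toLp 2,
      (𝓕 (trS t f)).coeFn_toLp 2] with s h1 h2 h3
    rw [h1, h2, h3, fourier_trS]

end Pool.Agent.Helper23
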