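import Mathlib

set_option autoImplicit false

/-!
Gamma kernels and convergence of the Poisson-sampled values.
-/

open MeasureTheory Filter Topology Set

namespace Pool.Agent.Helper70

/-- the Gamma density with shape `n + 1` and rate `θ` -/
noncomputable def gk (θ : ℝ) (n : ℕ) (t : ℝ) : ℝ :=
  θ * ((θ * t) ^ n / (n.factorial : ℝ) * Real.exp (-(θ * t)))

theorem int3 {μ : Measure ℝ} {f g h : ℝ → ℝ} (hf : Integrable f μ) (hg : Integrable g μ)
    (hh : Integrable h μ) (a b c : ℝ) :
    ∫ t, (a * f t + b * g t + c * h t) ∂μ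
      = a * (∫ t, f t ∂μ) + b * (∫ t, g t ∂μ) + c * (∫ t, h t ∂μ) := by
  have h1 : Integrable (fun t => a * f t + b * g t) μ :=
    (Integrable.const_mul hf a).add (Integrable.const_mul hg b)
  have h2 : Integrable (fun t => c * h t) μ := Integrable.const_mul hh c
  rw [integral_add h1 h2, integral_add (Integrable.const_mul hf a) (Integrable.const_mul hg b),
    integral_const_mul, integral_const_mul, integral_const_mul]

theorem gk_nonneg {θ : ℝ} (hθ : 0 ≤ θ) (n : ℕ) {t : ℝ} (ht : 0 ≤ t) : 0 ≤ gk θ n t := by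
  unfold gk
  positivity

theorem continuous_gk (θ : ℝ) (n : ℕ) : Continuous (gk θ n) := by
  unfold gk
  fun_prop

theorem gk_eq_rpow {θ : ℝ} (n : ℕ) {t : ℝ} :
    gk θ n t = (θ ^ (n + 1) / (n.factorial : ℝ)) * (t ^ (((n : ℝ) + 1) - 1) * Real.exp (-(θ * t))) := by
  unfold gk
  have : ((n : ℝ) + 1) - 1 = (n : ℝ) := by ring
  rw [this, Real.rpow_natCast, mul_pow, pow_succ]
  ring

theorem gk_integrable {θ : ℝ} (hθ : 0 < θ) (n : ℕ) : IntegrableOn (gk θ n) (Ioi 0) := by
  have h1 : IntegrableOn (fun t : ℝ => t ^ (((n : ℝ) + 1) - 1) * Real.exp (-(θ * t))) (Ioi 0) := by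
    have h := Real.integral_rpow_mul_exp_neg_mul_Ioi (a := (n : ℝ) + 1) (r := θ) (by positivity) hθ
    by_contra hcon
    rw [integral_undef hcon] at h
    have : 0 < (1 / θ) ^ ((n : ℝ) + 1) * Real.Gamma ((n : ℝ) + 1) := by
      have := Real.Gamma_pos_of_pos (show 0 < (n : ℝ) + 1 by positivity)
      positivity
    linarith
  have h2 : IntegrableOn (fun t : ℝ => (θ ^ (n + 1) / (n.factorial : ℝ))
      * (t ^ (((n : ℝ) + 1) - 1) * Real.exp (-(θ * t)))) (Ioi 0) := Integrable.const_mul h1 _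
  refine h2.congr_fun (fun t _ => ?_) measurableSet_Ioi
  exact (gk_eq_rpow n).symm

theorem gk_integral {θ : ℝ} (hθ : 0 < θ) (n : ℕ) : ∫ t in Ioi (0 : ℝ), gk θ n t = 1 := by
  have h := Real.integral_rpow_mul_exp_neg_mul_Ioi (a := (n : ℝ) + 1) (r := θ) (by positivity) hθ
  have e : ∫ t in Ioi (0 : ℝ), gk θ n t
      = ∫ t in Ioi (0 : ℝ), (θ ^ (n + 1) / (n.factorial : ℝ))
        * (t ^ (((n : ℝ) + 1) - 1) * Real.exp (-(θ * t))) := by
    refine setIntegral_congr_fun measurableSet_Ioi fun t _ => ?_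
    exact gk_eq_rpow n
  rw [e, integral_const_mul, h, Real.Gamma_nat_eq_factorial]
  have : (1 / θ) ^ ((n : ℝ) + 1) = (θ ^ (n + 1))⁻¹ := by
    have e1 : ((n : ℝ) + 1) = ((n + 1 : ℕ) : ℝ) := by push_cast; ring
    rw [e1, Real.rpow_natCast, one_div, inv_pow]
  rw [this]
  have h1 : (n.factorial : ℝ) ≠ 0 := by exact_mod_cast n.factorial_ne_zero
  field_simp

theorem gk_mul_self {θ : ℝ} (hθ : 0 < θ) (n : ℕ) (t : ℝ) :
    t * gk θ n t = (((n : ℝ) + 1) / θ) * gk θ (n + 1) t := by
  unfold gk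
  rw [Nat.factorial_succ, pow_succ]
  have h1 : (n.factorial : ℝ) ≠ 0 := by exact_mod_cast n.factorial_ne_zero
  push_cast
  field_simp

theorem gk_var {θ : ℝ} (hθ : 0 < θ) (n : ℕ) (t0 : ℝ) :
    IntegrableOn (fun t => (t - t0) ^ 2 * gk θ n t) (Ioi 0) ∧
    ∫ t in Ioi (0 : ℝ), (t - t0) ^ 2 * gk θ n t
      = (((n : ℝ) + 1) / θ) * (((n : ℝ) + 2) / θ) - 2 * t0 * (((n : ℝ) + 1) / θ) + t0 ^ 2 := by
  have e : ∀ t : ℝ, (t - t0) ^ 2 * gk θ n t
      = ((((n : ℝ) + 1) / θ) * (((n : ℝ) + 2) / θ)) * gk θ (n + 2) t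
        + (-(2 * t0 * (((n : ℝ) + 1) / θ))) * gk θ (n + 1) t + t0 ^ 2 * gk θ n t := by
    intro t
    have h1 := gk_mul_self hθ n t
    have h2 := gk_mul_self hθ (n + 1) t
    push_cast at h2
    have e3 : (n : ℝ) + 1 + 1 = (n : ℝ) + 2 := by ring
    rw [e3] at h2
    have e4 : n + 1 + 1 = n + 2 := by ring
    rw [e4] at h2
    calc (t - t0) ^ 2 * gk θ n t = t * (t * gk θ n t) - 2 * t0 * (t * gk θ n t) + t0 ^ 2 * gk θ n t := by ring
      _ = t * ((((n : ℝ) + 1) / θ) * gk θ (n + 1) t) - 2 * t0 * ((((n : ℝ) + 1) / θ) * gk θ (n + 1) t)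
          + t0 ^ 2 * gk θ n t := by rw [h1]
      _ = (((n : ℝ) + 1) / θ) * (t * gk θ (n + 1) t) - 2 * t0 * ((((n : ℝ) + 1) / θ) * gk θ (n + 1) t)
          + t0 ^ 2 * gk θ n t := by ring
      _ = _ := by rw [h2]; ring
  have i0 := gk_integrable hθ n
  have i1 := gk_integrable hθ (n + 1)
  have i2 := gk_integrable hθ (n + 2)
  have I : IntegrableOn (fun t => ((((n : ℝ) + 1) / θ) * (((n : ℝ) + 2) / θ)) * gk θ (n + 2) t
        + (-(2 * t0 * (((n : ℝ) + 1) / θ))) * gk θ (n + 1) t + t0 ^ 2 * gk θ n t) (Ioi 0) :=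
    ((Integrable.const_mul i2 _).add (Integrable.const_mul i1 _)).add (Integrable.const_mul i0 _)
  constructor
  · refine I.congr_fun (fun t _ => ?_) measurableSet_Ioi
    exact (e t).symm
  · have : ∫ t in Ioi (0 : ℝ), (t - t0) ^ 2 * gk θ n t
        = ∫ t in Ioi (0 : ℝ), (((((n : ℝ) + 1) / θ) * (((n : ℝ) + 2) / θ)) * gk θ (n + 2) t
        + (-(2 * t0 * (((n : ℝ) + 1) / θ))) * gk θ (n + 1) t + t0 ^ 2 * gk θ n t) :=
      setIntegral_congr_fun measurableSet_Ioi fun t _ => e t
    rw [this, int3 i2 i1 i0, gk_integral hθ, gk_integral hθ, gk_integral hθ]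
    ring

/-- exponential smallness of the kernel far to the right -/
theorem gk_far {θ t0 t : ℝ} (hθ : 4 ≤ θ) (ht0 : 0 < t0) {n : ℕ} (hn : (n : ℝ) ≤ θ * (t0 + 1))
    (ht : 8 * (t0 + 1) ≤ t) : gk θ n t ≤ θ * Real.exp (-θ) * Real.exp (-t) := by
  have ht' : 0 < t := by linarith
  have hθ' : 0 < θ := by linarith
  unfold gk
  have h1 := Real.pow_div_factorial_le_exp (θ * t / 2) (by positivity) n
  have h2 : (θ * t) ^ n / (n.factorial : ℝ) ≤ 2 ^ n * Real.exp (θ * t / 2) := by
    have e : (θ * t) ^ n = 2 ^ n * (θ * t / 2) ^ n := by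
      rw [← mul_pow]
      congr 1
      ring
    rw [e, mul_div_assoc]
    gcongr
  have h3 : (2 : ℝ) ^ n ≤ Real.exp n := by
    have : (2 : ℝ) ≤ Real.exp 1 := by
      have := Real.add_one_le_exp (1 : ℝ)
      linarith
    calc (2 : ℝ) ^ n ≤ (Real.exp 1) ^ n := pow_le_pow_left₀ (by norm_num) this n
      _ = Real.exp n := by rw [← Real.exp_nat_mul, mul_one]
  rw [mul_assoc θ]
  refine mul_le_mul_of_nonneg_left ?_ hθ'.le
  calc (θ * t) ^ n / (n.factorial : ℝ) * Real.exp (-(θ * t))
      ≤ (Real.exp n * Real.exp (θ * t / 2)) * Real.exp (-(θ * t)) := by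
        refine mul_le_mul_of_nonneg_right (h2.trans ?_) (Real.exp_pos _).le
        gcongr
    _ = Real.exp (n + θ * t / 2 + -(θ * t)) := by rw [Real.exp_add, Real.exp_add]
    _ ≤ Real.exp (-θ + -t) := by
        apply Real.exp_le_exp.2
        have h4 : (n : ℝ) ≤ θ * t / 8 := by nlinarith
        have h5 : (8 : ℝ) ≤ t := by linarith
        nlinarith
    _ = _ := by rw [Real.exp_add]

/-- convergence of Gamma averages -/
theorem gk_tendsto {p : ℝ → ℝ} (hp : ContinuousOn p (Ici 0))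
    (hint : IntegrableOn (fun t => Real.exp (-t) * p t) (Ioi 0)) {t0 : ℝ} (ht0 : 0 < t0)
    {n : ℕ → ℕ} {θ : ℕ → ℝ} (hθ : Tendsto θ atTop atTop)
    (hn : Tendsto (fun k => ((n k : ℝ) + 1) / θ k) atTop (𝓝 t0)) :
    (∀ᶠ k in atTop, IntegrableOn (fun t => gk (θ k) (n k) t * p t) (Ioi 0)) ∧
    Tendsto (fun k => ∫ t in Ioi (0 : ℝ), gk (θ k) (n k) t * p t) atTop (𝓝 (p t0)) := by
  -- bounded on a compact interval
  set A : ℝ := 8 * (t0 + 1) with hA
  have hcont : ContinuousOn p (Icc 0 A) := hp.mono Icc_subset_Ici_self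
  obtain ⟨C0, hC0⟩ := isCompact_Icc.exists_bound_of_continuousOn hcont
  set C : ℝ := |C0| + |p t0| with hC
  have hCnn : 0 ≤ C := by positivity
  have hpC : ∀ t ∈ Icc (0 : ℝ) A, |p t| ≤ C := by
    intro t ht
    have := hC0 t ht
    rw [Real.norm_eq_abs] at this
    have h2 := le_abs_self C0
    have h3 := abs_nonneg (p t0)
    linarith
  have hpt0 : |p t0| ≤ C := by
    have := abs_nonneg C0
    linarith
  -- measurability
  have hmeas : AEStronglyMeasurable p (volume.restrict (Ioi 0)) :=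
    (hp.mono Ioi_subset_Ici_self).aestronglyMeasurable measurableSet_Ioi
  have hint' : IntegrableOn (fun t => Real.exp (-t) * |p t|) (Ioi 0) := by
    have := hint.abs
    refine this.congr ?_
    filter_upwards with t
    rw [abs_mul, abs_of_pos (Real.exp_pos _)]
  set I0 : ℝ := ∫ t in Ioi (0 : ℝ), Real.exp (-t) * |p t| with hI0
  have hI0nn : 0 ≤ I0 := by
    refine setIntegral_nonneg measurableSet_Ioi fun t _ => ?_
    positivity
  have hev1 : ∀ᶠ k in atTop, 4 ≤ θ k := hθ.eventually_ge_atTop 4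
  have hev2 : ∀ᶠ k in atTop, ((n k : ℝ) + 1) / θ k < t0 + 1 :=
    hn.eventually_lt_const (by linarith)
  have hnle : ∀ᶠ k in atTop, (n k : ℝ) ≤ θ k * (t0 + 1) := by
    filter_upwards [hev1, hev2] with k h1 h2
    rw [div_lt_iff₀ (by linarith)] at h2
    linarith
  -- pointwise estimates for integrability
  have hintk : ∀ᶠ k in atTop, IntegrableOn (fun t => gk (θ k) (n k) t * p t) (Ioi 0) := by
    filter_upwards [hev1, hnle] with k h1 h2
    have hθk : 0 < θ k := by linarith
    have hbd : Integrable (fun t => C * gk (θ k) (n k) t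
        + (θ k * Real.exp (-(θ k))) * (Real.exp (-t) * |p t|)) (volume.restrict (Ioi 0)) :=
      (Integrable.const_mul (gk_integrable hθk _) _).add (Integrable.const_mul hint' _)
    refine Integrable.mono' hbd ?_ ?_
    · exact ((continuous_gk _ _).aestronglyMeasurable).mul hmeas
    · filter_upwards [ae_restrict_mem measurableSet_Ioi] with t ht
      have ht' : (0 : ℝ) < t := ht
      have hg := gk_nonneg hθk.le (n k) ht'.le
      rw [Real.norm_eq_abs, abs_mul, abs_of_nonneg hg]
      rcases le_total t A with hle | hge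
      · have h3 := mul_le_mul_of_nonneg_left (hpC t ⟨ht'.le, hle⟩) hg
        have h4 : 0 ≤ (θ k * Real.exp (-(θ k))) * (Real.exp (-t) * |p t|) := by positivity
        linarith
      · have h3 := gk_far h1 ht0 h2 hge
        have h4 := mul_le_mul_of_nonneg_right h3 (abs_nonneg (p t))
        have h5 := mul_nonneg hCnn hg
        linarith
  refine ⟨hintk, ?_⟩
  rw [Metric.tendsto_atTop]
  intro ε hε
  -- continuity at t0
  have hcat : ContinuousAt p t0 := hp.continuousAt (Ici_mem_nhds ht0)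
  obtain ⟨η, hη0, hη⟩ := Metric.continuousAt_iff.1 hcat (ε / 4) (by positivity)
  -- the quantities tending to zero
  have hV : Tendsto (fun k => (((n k : ℝ) + 1) / θ k) * (((n k : ℝ) + 2) / θ k)
      - 2 * t0 * (((n k : ℝ) + 1) / θ k) + t0 ^ 2) atTop (𝓝 0) := by
    have hinv : Tendsto (fun k => 1 / θ k) atTop (𝓝 0) := by
      have := hθ.inv_tendsto_atTop
      refine this.congr fun k => ?_
      simp
    have h2 : Tendsto (fun k => ((n k : ℝ) + 2) / θ k) atTop (𝓝 (t0 + 0)) := by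
      have := hn.add hinv
      refine this.congr fun k => ?_
      ring
    have h3 := ((hn.mul h2).sub (hn.const_mul (2 * t0))).add_const (t0 ^ 2)
    have e : t0 * (t0 + 0) - 2 * t0 * t0 + t0 ^ 2 = 0 := by ring
    rw [e] at h3
    exact h3
  have hB : Tendsto (fun k => θ k * Real.exp (-(θ k))) atTop (𝓝 0) := by
    have h1 : Tendsto (fun x : ℝ => x ^ 1 * Real.exp (-x)) atTop (𝓝 0) :=
      Real.tendsto_pow_mul_exp_neg_atTop_nhds_zero 1
    have := h1.comp hθ
    refine this.congr fun k => ?_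
    simp
  have hV2 : Tendsto (fun k => (2 * C / η ^ 2) * ((((n k : ℝ) + 1) / θ k) * (((n k : ℝ) + 2) / θ k)
      - 2 * t0 * (((n k : ℝ) + 1) / θ k) + t0 ^ 2)) atTop (𝓝 0) := by
    simpa using hV.const_mul (2 * C / η ^ 2)
  have hB2 : Tendsto (fun k => θ k * Real.exp (-(θ k)) * I0) atTop (𝓝 0) := by
    simpa using hB.mul_const I0
  have hfin : ∀ᶠ k in atTop, dist (∫ t in Ioi (0 : ℝ), gk (θ k) (n k) t * p t) (p t0) < ε := by
    filter_upwards [hev1, hnle, hintk, hV2.eventually_lt_const (show (0 : ℝ) < ε / 4 by positivity),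
      hB2.eventually_lt_const (show (0 : ℝ) < ε / 4 by positivity)] with k h1 h2 h3 h4 h5
    have hθk : 0 < θ k := by linarith
    have gi := gk_integrable hθk (n k)
    obtain ⟨vi, ve⟩ := gk_var hθk (n k) t0
    have e1 : (∫ t in Ioi (0 : ℝ), gk (θ k) (n k) t * p t) - p t0
        = ∫ t in Ioi (0 : ℝ), gk (θ k) (n k) t * (p t - p t0) := by
      have : (fun t => gk (θ k) (n k) t * (p t - p t0))
          = fun t => gk (θ k) (n k) t * p t - p t0 * gk (θ k) (n k) t := by
        funext t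
        ring
      rw [this, integral_sub h3 (Integrable.const_mul gi _), integral_const_mul, gk_integral hθk,
        mul_one]
    rw [Real.dist_eq, e1]
    have hbd : Integrable (fun t => (ε / 4) * gk (θ k) (n k) t
        + (2 * C / η ^ 2) * ((t - t0) ^ 2 * gk (θ k) (n k) t)
        + (θ k * Real.exp (-(θ k))) * (Real.exp (-t) * |p t|)) (volume.restrict (Ioi 0)) :=
      ((Integrable.const_mul gi _).add (Integrable.const_mul vi _)).add (Integrable.const_mul hint' _)
    have hle : |∫ t in Ioi (0 : ℝ), gk (θ k) (n k) t * (p t - p t0)|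
        ≤ ∫ t in Ioi (0 : ℝ), ((ε / 4) * gk (θ k) (n k) t
        + (2 * C / η ^ 2) * ((t - t0) ^ 2 * gk (θ k) (n k) t)
        + (θ k * Real.exp (-(θ k))) * (Real.exp (-t) * |p t|)) := by
      rw [← Real.norm_eq_abs]
      refine norm_integral_le_of_norm_le hbd ?_
      filter_upwards [ae_restrict_mem measurableSet_Ioi] with t ht
      have ht' : (0 : ℝ) < t := ht
      have hg := gk_nonneg hθk.le (n k) ht'.le
      rw [Real.norm_eq_abs, abs_mul, abs_of_nonneg hg]
      have q1 : 0 ≤ (ε / 4) * gk (θ k) (n k) t := by positivity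
      have q2 : 0 ≤ (2 * C / η ^ 2) * ((t - t0) ^ 2 * gk (θ k) (n k) t) := by positivity
      have q3 : 0 ≤ (θ k * Real.exp (-(θ k))) * (Real.exp (-t) * |p t|) := by positivity
      by_cases hclose : |t - t0| < η
      · have h6 : dist (p t) (p t0) < ε / 4 := hη (by rwa [Real.dist_eq])
        rw [Real.dist_eq] at h6
        have := mul_le_mul_of_nonneg_left h6.le hg
        linarith
      · have hη2 : η ^ 2 ≤ (t - t0) ^ 2 := by
          rw [← sq_abs (t - t0)]
          exact pow_le_pow_left₀ hη0.le (not_lt.1 hclose) 2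
        have h7 : 1 ≤ (t - t0) ^ 2 / η ^ 2 := by
          rw [le_div_iff₀ (by positivity)]
          linarith
        rcases le_total t A with hle | hge
        · have h8 : |p t - p t0| ≤ 2 * C := by
            have := abs_sub (p t) (p t0)
            have h9 := hpC t ⟨ht'.le, hle⟩
            linarith
          have h10 : gk (θ k) (n k) t * |p t - p t0|
              ≤ gk (θ k) (n k) t * (2 * C * ((t - t0) ^ 2 / η ^ 2)) := by
            refine mul_le_mul_of_nonneg_left (h8.trans ?_) hg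
            nlinarith
          have h11 : gk (θ k) (n k) t * (2 * C * ((t - t0) ^ 2 / η ^ 2))
              = (2 * C / η ^ 2) * ((t - t0) ^ 2 * gk (θ k) (n k) t) := by ring
          linarith
        · have h8 : |p t - p t0| ≤ |p t| + C := by
            have := abs_sub (p t) (p t0)
            linarith
          have h9 := gk_far h1 ht0 h2 hge
          have h10 := mul_le_mul_of_nonneg_right h9 (abs_nonneg (p t))
          have h11 : gk (θ k) (n k) t * C ≤ (2 * C / η ^ 2) * ((t - t0) ^ 2 * gk (θ k) (n k) t) := by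
            have e : (2 * C / η ^ 2) * ((t - t0) ^ 2 * gk (θ k) (n k) t)
                = (gk (θ k) (n k) t * C) * (2 * ((t - t0) ^ 2 / η ^ 2)) := by ring
            rw [e]
            have h12 : 0 ≤ gk (θ k) (n k) t * C := mul_nonneg hg hCnn
            nlinarith
          have h12 := mul_le_mul_of_nonneg_left h8 hg
          linarith
    rw [int3 gi vi hint', gk_integral hθk, ve, ← hI0] at hle
    linarith
  exact eventually_atTop.1 hfin

end Pool.Agent.Helper70
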