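import Mathlib

set_option autoImplicit false

/-!
Discrete renewal sequences as power series with nonnegative coefficients: basic calculus.
-/

open Finset

namespace Pool.Agent.Helper70

/-- all coefficients are nonnegative -/
def NN (φ : PowerSeries ℝ) : Prop := ∀ n, 0 ≤ PowerSeries.coeff n φ

/-- partial sums of the coefficients -/
noncomputable def ps (φ : PowerSeries ℝ) (n : ℕ) : ℝ := ∑ i ∈ range n, PowerSeries.coeff i φ

/-- all partial sums of the coefficients are at most `a` -/
def Mass (φ : PowerSeries ℝ) (a : ℝ) : Prop := ∀ n, ps φ n ≤ a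

/-- all coefficients are at most `a` -/
def Bdd (φ : PowerSeries ℝ) (a : ℝ) : Prop := ∀ n, PowerSeries.coeff n φ ≤ a

theorem coeff_mul_range (φ ψ : PowerSeries ℝ) (n : ℕ) :
    PowerSeries.coeff n (φ * ψ)
      = ∑ k ∈ range (n + 1), PowerSeries.coeff k φ * PowerSeries.coeff (n - k) ψ := by
  rw [PowerSeries.coeff_mul]
  exact Finset.Nat.sum_antidiagonal_eq_sum_range_succ
    (fun i j => PowerSeries.coeff i φ * PowerSeries.coeff j ψ) n

theorem ps_mul (φ ψ : PowerSeries ℝ) (n : ℕ) :
    ps (φ * ψ) n = ∑ i ∈ range n, PowerSeries.coeff i φ * ps ψ (n - i) := by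
  unfold ps
  simp_rw [coeff_mul_range]
  rw [Finset.sum_range_diag_flip n
    (fun i j => PowerSeries.coeff i φ * PowerSeries.coeff j ψ)]
  simp_rw [Finset.mul_sum]

theorem ps_nonneg {φ : PowerSeries ℝ} (h : NN φ) (n : ℕ) : 0 ≤ ps φ n :=
  Finset.sum_nonneg fun i _ => h i

theorem ps_mono {φ : PowerSeries ℝ} (h : NN φ) : Monotone (ps φ) := by
  intro a b hab
  unfold ps
  exact Finset.sum_le_sum_of_subset_of_nonneg (Finset.range_mono hab) fun i _ _ => h i

theorem ps_succ (φ : PowerSeries ℝ) (n : ℕ) :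
    ps φ (n + 1) = ps φ n + PowerSeries.coeff n φ := by
  unfold ps
  rw [Finset.sum_range_succ]

@[simp] theorem ps_zero (φ : PowerSeries ℝ) : ps φ 0 = 0 := by simp [ps]

theorem NN.mul {φ ψ : PowerSeries ℝ} (h1 : NN φ) (h2 : NN ψ) : NN (φ * ψ) := by
  intro n
  rw [coeff_mul_range]
  exact Finset.sum_nonneg fun i _ => mul_nonneg (h1 _) (h2 _)

theorem NN.add {φ ψ : PowerSeries ℝ} (h1 : NN φ) (h2 : NN ψ) : NN (φ + ψ) := by
  intro n
  rw [map_add]
  exact add_nonneg (h1 _) (h2 _)

theorem NN.one : NN 1 := by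
  intro n
  rw [PowerSeries.coeff_one]
  split_ifs <;> norm_num

theorem NN.pow {φ : PowerSeries ℝ} (h : NN φ) (k : ℕ) : NN (φ ^ k) := by
  induction k with
  | zero => simpa using NN.one
  | succ k ih => rw [pow_succ]; exact ih.mul h

theorem NN.smul {φ : PowerSeries ℝ} (h : NN φ) {c : ℝ} (hc : 0 ≤ c) : NN (c • φ) := by
  intro n
  rw [map_smul, smul_eq_mul]
  exact mul_nonneg hc (h n)

theorem NN.sum {ι : Type*} {s : Finset ι} {φ : ι → PowerSeries ℝ} (h : ∀ i ∈ s, NN (φ i)) :
    NN (∑ i ∈ s, φ i) := by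
  intro n
  rw [map_sum]
  exact Finset.sum_nonneg fun i hi => h i hi n

theorem NN.X : NN (PowerSeries.X : PowerSeries ℝ) := by
  intro n
  rw [PowerSeries.coeff_X]
  split_ifs <;> norm_num

theorem Mass.nonneg {φ : PowerSeries ℝ} {a : ℝ} (h : Mass φ a) : 0 ≤ a := by
  simpa using h 0

theorem Mass.mono {φ : PowerSeries ℝ} {a b : ℝ} (h : Mass φ a) (hab : a ≤ b) : Mass φ b :=
  fun n => (h n).trans hab

theorem Mass.mul {φ ψ : PowerSeries ℝ} {a b : ℝ} (h1 : NN φ)
    (m1 : Mass φ a) (m2 : Mass ψ b) : Mass (φ * ψ) (a * b) := by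
  intro n
  rw [ps_mul]
  calc ∑ i ∈ range n, PowerSeries.coeff i φ * ps ψ (n - i)
      ≤ ∑ i ∈ range n, PowerSeries.coeff i φ * b := by
        refine Finset.sum_le_sum fun i _ => ?_
        exact mul_le_mul_of_nonneg_left (m2 _) (h1 i)
    _ = ps φ n * b := by rw [← Finset.sum_mul]; rfl
    _ ≤ a * b := mul_le_mul_of_nonneg_right (m1 n) m2.nonneg

theorem Mass.one : Mass 1 1 := by
  intro n
  unfold ps
  simp_rw [PowerSeries.coeff_one]
  rw [Finset.sum_ite_eq' (range n) 0 (fun _ => (1 : ℝ))]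
  split_ifs <;> norm_num

theorem Mass.pow {φ : PowerSeries ℝ} {a : ℝ} (h : NN φ) (m : Mass φ a) (k : ℕ) :
    Mass (φ ^ k) (a ^ k) := by
  induction k with
  | zero => simpa using Mass.one
  | succ k ih => rw [pow_succ, pow_succ]; exact Mass.mul (h.pow k) ih m

theorem Mass.smul {φ : PowerSeries ℝ} {a c : ℝ} (hc : 0 ≤ c) (m : Mass φ a) :
    Mass (c • φ) (c * a) := by
  intro n
  have : ps (c • φ) n = c * ps φ n := by
    unfold ps
    rw [Finset.mul_sum]
    refine Finset.sum_congr rfl fun i _ => ?_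
    rw [map_smul, smul_eq_mul]
  rw [this]
  exact mul_le_mul_of_nonneg_left (m n) hc

theorem coeff_le_ps_succ {φ : PowerSeries ℝ} (h : NN φ) (n : ℕ) :
    PowerSeries.coeff n φ ≤ ps φ (n + 1) := by
  rw [ps_succ]
  linarith [ps_nonneg h n]

theorem Mass.bdd {φ : PowerSeries ℝ} {a : ℝ} (h : NN φ) (m : Mass φ a) : Bdd φ a :=
  fun n => (coeff_le_ps_succ h n).trans (m _)

theorem Bdd.mul {φ ψ : PowerSeries ℝ} {a c : ℝ} (h1 : NN φ) (m1 : Mass φ a)
    (hc : 0 ≤ c) (b2 : Bdd ψ c) : Bdd (φ * ψ) (a * c) := by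
  intro n
  rw [coeff_mul_range]
  calc ∑ k ∈ range (n + 1), PowerSeries.coeff k φ * PowerSeries.coeff (n - k) ψ
      ≤ ∑ k ∈ range (n + 1), PowerSeries.coeff k φ * c := by
        refine Finset.sum_le_sum fun i _ => ?_
        exact mul_le_mul_of_nonneg_left (b2 _) (h1 i)
    _ = ps φ (n + 1) * c := by rw [← Finset.sum_mul]; rfl
    _ ≤ a * c := mul_le_mul_of_nonneg_right (m1 _) hc

theorem Bdd.mono {φ : PowerSeries ℝ} {a b : ℝ} (h : Bdd φ a) (hab : a ≤ b) : Bdd φ b :=
  fun n => (h n).trans hab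

/-- a (possibly defective) step distribution on the positive integers -/
structure Ren (f : PowerSeries ℝ) : Prop where
  nn : NN f
  zero : PowerSeries.coeff 0 f = 0
  mass : Mass f 1

/-- the renewal sequence of `f` -/
noncomputable def u (f : PowerSeries ℝ) : PowerSeries ℝ := (1 - f)⁻¹

/-- the tail `P (step > n)` -/
noncomputable def r (f : PowerSeries ℝ) (n : ℕ) : ℝ := 1 - ps f (n + 1)

/-- the truncated mean -/
noncomputable def RR (f : PowerSeries ℝ) (n : ℕ) : ℝ := ∑ i ∈ range n, r f i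

section basic

variable {f : PowerSeries ℝ}

theorem one_sub_mul_u (h0 : PowerSeries.coeff 0 f = 0) : (1 - f) * u f = 1 := by
  unfold u
  apply PowerSeries.mul_inv_cancel
  rw [map_sub, map_one, ← PowerSeries.coeff_zero_eq_constantCoeff_apply, h0]
  norm_num

theorem u_eq (h0 : PowerSeries.coeff 0 f = 0) : u f = 1 + f * u f := by
  have := one_sub_mul_u h0
  linear_combination this

theorem u_unique (h0 : PowerSeries.coeff 0 f = 0) {φ ψ : PowerSeries ℝ}
    (h : (1 - f) * φ = ψ) : φ = u f * ψ := by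
  have := one_sub_mul_u h0
  calc φ = ((1 - f) * u f) * φ := by rw [this, one_mul]
    _ = u f * ((1 - f) * φ) := by ring
    _ = u f * ψ := by rw [h]

@[simp] theorem u_zero (h0 : PowerSeries.coeff 0 f = 0) : PowerSeries.coeff 0 (u f) = 1 := by
  rw [u_eq h0, map_add, coeff_mul_range]
  simp only [zero_add, Finset.range_one, Finset.sum_singleton, h0, zero_mul, add_zero]
  simp

theorem u_rec (h0 : PowerSeries.coeff 0 f = 0) (n : ℕ) :
    PowerSeries.coeff (n + 1) (u f)
      = ∑ k ∈ range (n + 1), PowerSeries.coeff (k + 1) f * PowerSeries.coeff (n - k) (u f) := by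
  conv_lhs => rw [u_eq h0]
  rw [map_add, PowerSeries.coeff_one, if_neg (Nat.succ_ne_zero n), zero_add, coeff_mul_range,
    Finset.sum_range_succ']
  simp [h0]

theorem u_nn (hf : NN f) (h0 : PowerSeries.coeff 0 f = 0) : NN (u f) := by
  intro n
  induction n using Nat.strong_induction_on with
  | _ n ih =>
    cases n with
    | zero => rw [u_zero h0]; norm_num
    | succ n =>
      rw [u_rec h0]
      refine Finset.sum_nonneg fun k hk => mul_nonneg (hf _) (ih _ ?_)
      omega

theorem r_nonneg (h : Ren f) (n : ℕ) : 0 ≤ r f n := by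
  unfold r
  linarith [h.mass (n + 1)]

theorem r_anti (h : Ren f) : Antitone (r f) := by
  intro a b hab
  unfold r
  linarith [ps_mono h.nn (Nat.succ_le_succ hab)]

theorem r_zero (h0 : PowerSeries.coeff 0 f = 0) : r f 0 = 1 := by
  simp [r, ps, h0]

theorem r_le_one (h : Ren f) (n : ℕ) : r f n ≤ 1 := by
  rw [← r_zero h.zero]
  exact r_anti h (Nat.zero_le n)

theorem r_sub (f : PowerSeries ℝ) (n : ℕ) :
    r f n - r f (n + 1) = PowerSeries.coeff (n + 1) f := by
  unfold r
  rw [ps_succ f (n + 1)]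
  ring

/-- the fundamental renewal identity -/
theorem renewal_identity (h0 : PowerSeries.coeff 0 f = 0) (n : ℕ) :
    ∑ k ∈ range (n + 1), PowerSeries.coeff k (u f) * r f (n - k) = 1 := by
  have h1 : ps ((1 - f) * u f) (n + 1) = 1 := by
    rw [one_sub_mul_u h0]
    unfold ps
    simp_rw [PowerSeries.coeff_one]
    rw [Finset.sum_ite_eq' (range (n + 1)) 0 (fun _ => (1 : ℝ))]
    simp
  rw [mul_comm, ps_mul] at h1
  rw [← h1]
  refine Finset.sum_congr rfl fun k hk => ?_
  congr 1
  have hk' : k ≤ n := by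
    have := Finset.mem_range.1 hk
    omega
  have e1 : n + 1 - k = (n - k) + 1 := by omega
  rw [e1]
  unfold r ps
  rw [eq_comm]
  simp only [map_sub, Finset.sum_sub_distrib, PowerSeries.coeff_one]
  rw [Finset.sum_ite_eq' (range (n - k + 1)) 0 (fun _ => (1 : ℝ))]
  simp

theorem u_le_one (h : Ren f) : Bdd (u f) 1 := by
  intro n
  have h1 := renewal_identity h.zero n
  rw [Finset.sum_range_succ] at h1
  have h2 : 0 ≤ ∑ k ∈ range n, PowerSeries.coeff k (u f) * r f (n - k) :=
    Finset.sum_nonneg fun k _ => mul_nonneg (u_nn h.nn h.zero _) (r_nonneg h _)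
  rw [Nat.sub_self, r_zero h.zero, mul_one] at h1
  linarith

/-- supermultiplicativity -/
theorem u_super (h : Ren f) (m n : ℕ) :
    PowerSeries.coeff m (u f) * PowerSeries.coeff n (u f) ≤ PowerSeries.coeff (m + n) (u f) := by
  induction m using Nat.strong_induction_on with
  | _ m ih =>
    cases m with
    | zero => rw [u_zero h.zero]; simp
    | succ m =>
      have e : m + 1 + n = (m + n) + 1 := by omega
      rw [e, u_rec h.zero m, u_rec h.zero (m + n), Finset.sum_mul]
      calc ∑ k ∈ range (m + 1), PowerSeries.coeff (k + 1) f * PowerSeries.coeff (m - k) (u f)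
            * PowerSeries.coeff n (u f)
          ≤ ∑ k ∈ range (m + 1), PowerSeries.coeff (k + 1) f
            * PowerSeries.coeff (m + n - k) (u f) := by
            refine Finset.sum_le_sum fun k hk => ?_
            rw [mul_assoc]
            refine mul_le_mul_of_nonneg_left ?_ (h.nn _)
            have hk' := Finset.mem_range.1 hk
            have := ih (m - k) (by omega)
            have e2 : m - k + n = m + n - k := by omega
            rwa [e2] at this
        _ ≤ ∑ k ∈ range (m + n + 1), PowerSeries.coeff (k + 1) f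
            * PowerSeries.coeff (m + n - k) (u f) := by
            refine Finset.sum_le_sum_of_subset_of_nonneg ?_ ?_
            · exact Finset.range_mono (by omega)
            · intro k _ _
              exact mul_nonneg (h.nn _) (u_nn h.nn h.zero _)

end basic

end Pool.Agent.Helper70
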