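import Mathlib
import Pool.Agent.Helper70.Ren1

set_option autoImplicit false

/-!
Passage decomposition, window bounds and truncation for discrete renewal sequences.
-/

open Finset

namespace Pool.Agent.Helper70

/-- truncation to indices `< t` -/
noncomputable def below (t : ℕ) (φ : PowerSeries ℝ) : PowerSeries ℝ :=
  PowerSeries.mk fun n => if n < t then PowerSeries.coeff n φ else 0

/-- restriction to indices `≥ t` -/
noncomputable def above (t : ℕ) (φ : PowerSeries ℝ) : PowerSeries ℝ :=
  PowerSeries.mk fun n => if n < t then 0 else PowerSeries.coeff n φ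

theorem coeff_below (t n : ℕ) (φ : PowerSeries ℝ) :
    PowerSeries.coeff n (below t φ) = if n < t then PowerSeries.coeff n φ else 0 := by
  simp [below]

theorem coeff_above (t n : ℕ) (φ : PowerSeries ℝ) :
    PowerSeries.coeff n (above t φ) = if n < t then 0 else PowerSeries.coeff n φ := by
  simp [above]

theorem below_add_above (t : ℕ) (φ : PowerSeries ℝ) : below t φ + above t φ = φ := by
  ext n
  rw [map_add, coeff_below, coeff_above]
  split_ifs <;> simp

theorem NN.below {φ : PowerSeries ℝ} (h : NN φ) (t : ℕ) : NN (below t φ) := by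
  intro n
  rw [coeff_below]
  split_ifs
  · exact h n
  · exact le_refl _

theorem NN.above {φ : PowerSeries ℝ} (h : NN φ) (t : ℕ) : NN (above t φ) := by
  intro n
  rw [coeff_above]
  split_ifs
  · exact le_refl _
  · exact h n

theorem ps_below_of_le {φ : PowerSeries ℝ} {n t : ℕ} (h : n ≤ t) :
    ps (below t φ) n = ps φ n := by
  unfold ps
  refine Finset.sum_congr rfl fun i hi => ?_
  rw [coeff_below, if_pos (lt_of_lt_of_le (Finset.mem_range.1 hi) h)]

theorem ps_below_of_ge {φ : PowerSeries ℝ} {n t : ℕ} (h : t ≤ n) :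
    ps (below t φ) n = ps φ t := by
  unfold ps
  rw [← Finset.sum_subset (Finset.range_mono h)]
  · refine Finset.sum_congr rfl fun i hi => ?_
    rw [coeff_below, if_pos (Finset.mem_range.1 hi)]
  · intro i _ hi
    rw [coeff_below, if_neg]
    simpa using hi

theorem ps_below (φ : PowerSeries ℝ) (n t : ℕ) :
    ps (below t φ) n = ps φ (min n t) := by
  rcases le_total n t with h | h
  · rw [ps_below_of_le h, min_eq_left h]
  · rw [ps_below_of_ge h, min_eq_right h]

theorem Mass.below {φ : PowerSeries ℝ} (h : NN φ) (t : ℕ) : Mass (below t φ) (ps φ t) := by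
  intro n
  rw [ps_below]
  exact ps_mono h (min_le_right _ _)

theorem ps_above_of_le {φ : PowerSeries ℝ} {n t : ℕ} (h : n ≤ t) :
    ps (above t φ) n = 0 := by
  unfold ps
  refine Finset.sum_eq_zero fun i hi => ?_
  rw [coeff_above, if_pos (lt_of_lt_of_le (Finset.mem_range.1 hi) h)]

theorem ps_above_of_ge {φ : PowerSeries ℝ} {n t : ℕ} (h : t ≤ n) :
    ps (above t φ) n = ps φ n - ps φ t := by
  have h1 : ps (below t φ) n + ps (above t φ) n = ps φ n := by
    conv_rhs => rw [← below_add_above t φ]
    unfold ps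
    rw [← Finset.sum_add_distrib]
    refine Finset.sum_congr rfl fun i _ => ?_
    rw [map_add]
  rw [ps_below_of_ge h] at h1
  linarith

/-- distribution of the first point `≥ t` -/
noncomputable def HH (f : PowerSeries ℝ) (t : ℕ) : PowerSeries ℝ :=
  above t (f * below t (u f))

section passage

variable {f : PowerSeries ℝ}

theorem passage (h0 : PowerSeries.coeff 0 f = 0) {t : ℕ} (ht : 1 ≤ t) :
    u f = below t (u f) + u f * HH f t := by
  have key : (1 - f) * below t (u f) = 1 - HH f t := by
    ext n
    rw [sub_mul, one_mul, map_sub, map_sub]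
    by_cases hn : n < t
    · have e1 : PowerSeries.coeff n (f * below t (u f)) = PowerSeries.coeff n (f * u f) := by
        rw [coeff_mul_range, coeff_mul_range]
        refine Finset.sum_congr rfl fun k _ => ?_
        rw [coeff_below, if_pos (by omega)]
      have e2 : PowerSeries.coeff n (u f) - PowerSeries.coeff n (f * u f)
          = PowerSeries.coeff n (1 : PowerSeries ℝ) := by
        rw [← map_sub]
        congr 1
        have := one_sub_mul_u h0
        linear_combination this
      rw [e1, coeff_below, if_pos hn, e2, HH, coeff_above, if_pos hn, sub_zero]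
    · rw [coeff_below, if_neg hn, HH, coeff_above, if_neg hn, PowerSeries.coeff_one,
        if_neg (by omega)]
  have h2 := u_unique h0 key
  rw [h2]
  ring

theorem HH_nn (hf : NN f) (h0 : PowerSeries.coeff 0 f = 0) (t : ℕ) : NN (HH f t) :=
  (hf.mul ((u_nn hf h0).below t)).above t

theorem ps_HH_of_ge {t n : ℕ} (h : t ≤ n) :
    ps (HH f t) n = ∑ i ∈ range t, PowerSeries.coeff i (u f) * (ps f (n - i) - ps f (t - i)) := by
  unfold HH
  rw [ps_above_of_ge h, mul_comm, ps_mul, ps_mul]
  have e1 : ∑ i ∈ range n, PowerSeries.coeff i (below t (u f)) * ps f (n - i)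
      = ∑ i ∈ range t, PowerSeries.coeff i (u f) * ps f (n - i) := by
    rw [← Finset.sum_subset (Finset.range_mono h)]
    · refine Finset.sum_congr rfl fun i hi => ?_
      rw [coeff_below, if_pos (Finset.mem_range.1 hi)]
    · intro i _ hi
      rw [coeff_below, if_neg, zero_mul]
      simpa using hi
  have e2 : ∑ i ∈ range t, PowerSeries.coeff i (below t (u f)) * ps f (t - i)
      = ∑ i ∈ range t, PowerSeries.coeff i (u f) * ps f (t - i) := by
    refine Finset.sum_congr rfl fun i hi => ?_
    rw [coeff_below, if_pos (Finset.mem_range.1 hi)]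
  rw [e1, e2, ← Finset.sum_sub_distrib]
  refine Finset.sum_congr rfl fun i _ => ?_
  ring

theorem HH_mass (hf : NN f) (h0 : PowerSeries.coeff 0 f = 0) {a : ℝ} (ha : Mass f a) (t : ℕ) :
    Mass (HH f t) (∑ i ∈ range t, PowerSeries.coeff i (u f) * (a - ps f (t - i))) := by
  intro n
  rcases le_total n t with h | h
  · unfold HH
    rw [ps_above_of_le h]
    refine Finset.sum_nonneg fun i _ => mul_nonneg (u_nn hf h0 _) ?_
    linarith [ha (t - i)]
  · rw [ps_HH_of_ge h]
    refine Finset.sum_le_sum fun i _ => mul_le_mul_of_nonneg_left ?_ (u_nn hf h0 _)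
    linarith [ha (n - i)]

theorem sum_u_tail (h0 : PowerSeries.coeff 0 f = 0) {t : ℕ} (ht : 1 ≤ t) :
    ∑ i ∈ range t, PowerSeries.coeff i (u f) * (1 - ps f (t - i)) = 1 := by
  obtain ⟨n, rfl⟩ : ∃ n, t = n + 1 := ⟨t - 1, by omega⟩
  refine Eq.trans ?_ (renewal_identity h0 n)
  refine Finset.sum_congr rfl fun i hi => ?_
  have : n + 1 - i = (n - i) + 1 := by
    have := Finset.mem_range.1 hi
    omega
  rw [this]
  rfl

theorem HH_mass_one (h : Ren f) {t : ℕ} (ht : 1 ≤ t) : Mass (HH f t) 1 := by
  have := HH_mass h.nn h.zero h.mass t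
  rwa [sum_u_tail h.zero ht] at this

theorem window_gen (hf : NN f) (h0 : PowerSeries.coeff 0 f = 0) {a : ℝ} {t : ℕ} (ht : 1 ≤ t)
    (hH : Mass (HH f t) a) (w : ℕ) :
    ps (u f) (t + w) ≤ ps (u f) t + a * ps (u f) w := by
  have h1 : ps (u f) (t + w) = ps (below t (u f)) (t + w) + ps (HH f t * u f) (t + w) := by
    conv_lhs => rw [passage h0 ht]
    unfold ps
    rw [← Finset.sum_add_distrib]
    refine Finset.sum_congr rfl fun i _ => ?_
    rw [map_add, mul_comm (u f)]
  rw [h1, ps_below_of_ge (by omega), ps_mul]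
  have h2 : ∑ i ∈ range (t + w), PowerSeries.coeff i (HH f t) * ps (u f) (t + w - i)
      ≤ ∑ i ∈ range (t + w), PowerSeries.coeff i (HH f t) * ps (u f) w := by
    refine Finset.sum_le_sum fun i _ => ?_
    by_cases hi : i < t
    · have : PowerSeries.coeff i (HH f t) = 0 := by
        unfold HH
        rw [coeff_above, if_pos hi]
      rw [this, zero_mul, zero_mul]
    · exact mul_le_mul_of_nonneg_left (ps_mono (u_nn hf h0) (by omega)) (HH_nn hf h0 t i)
  rw [← Finset.sum_mul] at h2
  have h3 := mul_le_mul_of_nonneg_right (hH (t + w)) (ps_nonneg (u_nn hf h0) w)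
  unfold ps at h3 h2 ⊢
  linarith

/-- the expected number of points in a window is at most that in the initial window -/
theorem window (h : Ren f) (t w : ℕ) :
    ps (u f) (t + w) ≤ ps (u f) t + ps (u f) w := by
  rcases Nat.eq_zero_or_pos t with rfl | ht
  · simp
  · have := window_gen h.nn h.zero ht (HH_mass_one h ht) w
    linarith

theorem passage_bound (hf : NN f) (h0 : PowerSeries.coeff 0 f = 0) {a c : ℝ} {t T : ℕ}
    (ht : 1 ≤ t) (hT : t ≤ T) (hH : Mass (HH f t) a) (hc : 0 ≤ c) (hu : Bdd (u f) c) :
    PowerSeries.coeff T (u f) ≤ a * c := by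
  have h1 : PowerSeries.coeff T (u f) = PowerSeries.coeff T (HH f t * u f) := by
    conv_lhs => rw [passage h0 ht]
    rw [map_add, coeff_below, if_neg (by omega), zero_add, mul_comm]
  rw [h1]
  exact Bdd.mul (HH_nn hf h0 t) hH hc hu T

end passage

section URbounds

variable {f : PowerSeries ℝ}

/-- the tail series -/
noncomputable def rs (f : PowerSeries ℝ) : PowerSeries ℝ := PowerSeries.mk (r f)

theorem ps_rs (n : ℕ) : ps (rs f) n = RR f n := by
  unfold ps RR rs
  simp

theorem RR_nonneg (h : Ren f) (n : ℕ) : 0 ≤ RR f n :=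
  Finset.sum_nonneg fun i _ => r_nonneg h i

theorem RR_mono (h : Ren f) : Monotone (RR f) := by
  intro a b hab
  unfold RR
  exact Finset.sum_le_sum_of_subset_of_nonneg (Finset.range_mono hab) fun i _ _ => r_nonneg h i

theorem RR_succ (n : ℕ) : RR f (n + 1) = RR f n + r f n := by
  unfold RR
  rw [Finset.sum_range_succ]

theorem RR_zero : RR f 0 = 0 := by simp [RR]

theorem ps_u_rs (h0 : PowerSeries.coeff 0 f = 0) (n : ℕ) : ps (u f * rs f) n = n := by
  have : ∀ m, PowerSeries.coeff m (u f * rs f) = 1 := by
    intro m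
    rw [coeff_mul_range, ← renewal_identity h0 m]
    refine Finset.sum_congr rfl fun i _ => ?_
    simp [rs]
  unfold ps
  simp [this]

theorem UR_ge (h : Ren f) (n : ℕ) : (n : ℝ) ≤ ps (u f) n * RR f n := by
  rw [← ps_u_rs h.zero n, ps_mul]
  have : ps (u f) n * RR f n = ∑ i ∈ range n, PowerSeries.coeff i (u f) * RR f n := by
    rw [← Finset.sum_mul]; rfl
  rw [this]
  refine Finset.sum_le_sum fun i _ => ?_
  rw [ps_rs]
  exact mul_le_mul_of_nonneg_left (RR_mono h (by omega)) (u_nn h.nn h.zero _)

theorem UR_le (h : Ren f) (n : ℕ) : ps (u f) n * RR f n ≤ 2 * n := by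
  have h1 := ps_u_rs h.zero (2 * n)
  push_cast at h1
  rw [← h1, ps_mul]
  have : ps (u f) n * RR f n = ∑ i ∈ range n, PowerSeries.coeff i (u f) * RR f n := by
    rw [← Finset.sum_mul]; rfl
  rw [this]
  calc ∑ i ∈ range n, PowerSeries.coeff i (u f) * RR f n
      ≤ ∑ i ∈ range n, PowerSeries.coeff i (u f) * ps (rs f) (2 * n - i) := by
        refine Finset.sum_le_sum fun i hi => ?_
        rw [ps_rs]
        have := Finset.mem_range.1 hi
        exact mul_le_mul_of_nonneg_left (RR_mono h (by omega)) (u_nn h.nn h.zero _)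
    _ ≤ ∑ i ∈ range (2 * n), PowerSeries.coeff i (u f) * ps (rs f) (2 * n - i) := by
        refine Finset.sum_le_sum_of_subset_of_nonneg (Finset.range_mono (by omega)) ?_
        intro i _ _
        rw [ps_rs]
        exact mul_nonneg (u_nn h.nn h.zero _) (RR_nonneg h _)

/-- truncated means are subadditive, in the doubled form -/
theorem RR_double (h : Ren f) (n : ℕ) : RR f (2 * n) ≤ 2 * RR f n := by
  have : RR f (2 * n) = RR f n + ∑ i ∈ range n, r f (n + i) := by
    unfold RR
    rw [two_mul, Finset.sum_range_add]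
  rw [this]
  have h2 : ∑ i ∈ range n, r f (n + i) ≤ RR f n :=
    Finset.sum_le_sum fun i _ => r_anti h (by omega)
  linarith

theorem mul_r_le_RR (h : Ren f) (n : ℕ) : (n : ℝ) * r f (n - 1) ≤ RR f n := by
  have : (n : ℝ) * r f (n - 1) = ∑ _i ∈ range n, r f (n - 1) := by simp
  rw [this]
  refine Finset.sum_le_sum fun i hi => r_anti h ?_
  have := Finset.mem_range.1 hi
  omega

end URbounds

section trunc

variable {f : PowerSeries ℝ}

theorem below_zero' (h0 : PowerSeries.coeff 0 f = 0) (b : ℕ) :
    PowerSeries.coeff 0 (below b f) = 0 := by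
  rw [coeff_below, h0]
  simp

theorem Ren.below (h : Ren f) (b : ℕ) : Ren (below b f) where
  nn := h.nn.below b
  zero := below_zero' h.zero b
  mass := (Mass.below h.nn b).mono (h.mass b)

theorem u_below_eq (h0 : PowerSeries.coeff 0 f = 0) {b n : ℕ} (hn : n < b) :
    PowerSeries.coeff n (u (below b f)) = PowerSeries.coeff n (u f) := by
  induction n using Nat.strong_induction_on with
  | _ n ih =>
    cases n with
    | zero => rw [u_zero h0, u_zero (below_zero' h0 b)]
    | succ n =>
      rw [u_rec h0, u_rec (below_zero' h0 b)]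
      refine Finset.sum_congr rfl fun k hk => ?_
      have := Finset.mem_range.1 hk
      rw [coeff_below, if_pos (by omega), ih (n - k) (by omega) (by omega)]

theorem u_mono {g : PowerSeries ℝ} (hg : NN g) (g0 : PowerSeries.coeff 0 g = 0)
    (hf : NN f) (h0 : PowerSeries.coeff 0 f = 0)
    (hgf : ∀ n, PowerSeries.coeff n g ≤ PowerSeries.coeff n f) (n : ℕ) :
    PowerSeries.coeff n (u g) ≤ PowerSeries.coeff n (u f) := by
  induction n using Nat.strong_induction_on with
  | _ n ih =>
    cases n with
    | zero => rw [u_zero h0, u_zero g0]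
    | succ n =>
      rw [u_rec h0, u_rec g0]
      refine Finset.sum_le_sum fun k hk => ?_
      have := Finset.mem_range.1 hk
      exact mul_le_mul (hgf _) (ih _ (by omega)) (u_nn hg g0 _) (hf _)

theorem u_below_le (h : Ren f) (b n : ℕ) :
    PowerSeries.coeff n (u (below b f)) ≤ PowerSeries.coeff n (u f) := by
  refine u_mono (h.below b).nn (h.below b).zero h.nn h.zero ?_ n
  intro m
  rw [coeff_below]
  split_ifs
  · exact le_refl _
  · exact h.nn m

/-- probability that no step of size `≥ b` starts before position `b` -/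
noncomputable def sg (f : PowerSeries ℝ) (b : ℕ) : ℝ := 1 - r f (b - 1) * ps (u f) b

theorem r_pred {b : ℕ} (hb : 1 ≤ b) : r f (b - 1) = 1 - ps f b := by
  unfold r
  rw [Nat.sub_add_cancel hb]

theorem sg_eq (h0 : PowerSeries.coeff 0 f = 0) {b : ℕ} (hb : 1 ≤ b) :
    sg f b = ∑ i ∈ range b, PowerSeries.coeff i (u f) * (ps f b - ps f (b - i)) := by
  have h1 := sum_u_tail h0 hb
  have h2 : (1 - ps f b) * ps (u f) b
      = ∑ i ∈ range b, PowerSeries.coeff i (u f) * (1 - ps f b) := by
    rw [← Finset.sum_mul, mul_comm]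
    rfl
  unfold sg
  rw [r_pred hb, h2]
  calc 1 - ∑ i ∈ range b, PowerSeries.coeff i (u f) * (1 - ps f b)
      = ∑ i ∈ range b, PowerSeries.coeff i (u f) * (1 - ps f (b - i))
        - ∑ i ∈ range b, PowerSeries.coeff i (u f) * (1 - ps f b) := by rw [h1]
    _ = _ := by
      rw [← Finset.sum_sub_distrib]
      refine Finset.sum_congr rfl fun i _ => ?_
      ring

theorem HH_below_mass (h : Ren f) {b : ℕ} (hb : 1 ≤ b) :
    Mass (HH (below b f) b) (sg f b) := by
  have h1 := HH_mass (h.below b).nn (h.below b).zero (Mass.below h.nn b) b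
  refine h1.mono ?_
  rw [sg_eq h.zero hb]
  refine le_of_eq (Finset.sum_congr rfl fun i hi => ?_)
  rw [u_below_eq h.zero (Finset.mem_range.1 hi), ps_below_of_le (by omega)]

/-- the sequence without steps `≥ b` is at most `sg f b` beyond `b` -/
theorem u_below_le_sg (h : Ren f) {b T : ℕ} (hb : 1 ≤ b) (hT : b ≤ T) :
    PowerSeries.coeff T (u (below b f)) ≤ sg f b := by
  have := passage_bound (h.below b).nn (h.below b).zero hb hT (HH_below_mass h hb)
    zero_le_one (u_le_one (h.below b))
  simpa using this

theorem sg_nonneg (h : Ren f) {b : ℕ} (hb : 1 ≤ b) : 0 ≤ sg f b :=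
  (HH_below_mass h hb).nonneg

/-- total weight of crossings of `b` by steps `< b'` -/
noncomputable def SS (f : PowerSeries ℝ) (b' b : ℕ) : ℝ :=
  ∑ i ∈ range b, PowerSeries.coeff i (u f) * max (ps f b' - ps f (b - i)) 0

theorem SS_bound (h : Ren f) {b' b : ℕ} (hbb : b' ≤ b) {d' d : ℝ} (hd' : 0 < d')
    (h1 : ∀ v, v < b' → d' ≤ PowerSeries.coeff v (u f))
    (h2 : PowerSeries.coeff b (u f) ≤ d) : SS f b' b ≤ d / d' ^ 2 := by
  have hd : 0 ≤ d := (u_nn h.nn h.zero b).trans h2
  have hR : RR f (b' - 1) ≤ 1 / d' := by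
    rcases Nat.lt_or_ge b' 2 with hlt | hge
    · have : b' - 1 = 0 := by omega
      rw [this, RR_zero]
      positivity
    · obtain ⟨n, rfl⟩ : ∃ n, b' = n + 2 := ⟨b' - 2, by omega⟩
      have e : n + 2 - 1 = n + 1 := by omega
      rw [e, le_div_iff₀ hd']
      rw [← renewal_identity h.zero n]
      unfold RR
      rw [← Finset.sum_range_reflect, Finset.sum_mul]
      refine Finset.sum_le_sum fun k hk => ?_
      have hk' := Finset.mem_range.1 hk
      have e2 : n + 1 - 1 - k = n - k := by omega
      rw [e2, mul_comm]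
      exact mul_le_mul_of_nonneg_right (h1 k (by omega)) (r_nonneg h _)
  have key : SS f b' b ≤ (d / d') * RR f (b' - 1) := by
    unfold SS
    rw [← Finset.sum_range_reflect]
    have hsub : range (b' - 1) ⊆ range b := Finset.range_mono (by omega)
    have hz : ∀ j ∈ range b, j ∉ range (b' - 1) →
        PowerSeries.coeff (b - 1 - j) (u f)
          * max (ps f b' - ps f (b - (b - 1 - j))) 0 = 0 := by
      intro j hj hj'
      have a1 := Finset.mem_range.1 hj
      have a2 : b' - 1 ≤ j := by simpa using hj'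
      have e : b - (b - 1 - j) = j + 1 := by omega
      rw [e, max_eq_right, mul_zero]
      have := ps_mono h.nn (show b' ≤ j + 1 by omega)
      linarith
    rw [← Finset.sum_subset hsub hz]
    unfold RR
    rw [Finset.mul_sum]
    refine Finset.sum_le_sum fun j hj => ?_
    have a1 := Finset.mem_range.1 hj
    have e : b - (b - 1 - j) = j + 1 := by omega
    rw [e]
    have s1 := u_super h (b - 1 - j) (j + 1)
    have e2 : b - 1 - j + (j + 1) = b := by omega
    rw [e2] at s1
    have s2 : PowerSeries.coeff (b - 1 - j) (u f) ≤ d / d' := by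
      rw [le_div_iff₀ hd']
      calc PowerSeries.coeff (b - 1 - j) (u f) * d'
          ≤ PowerSeries.coeff (b - 1 - j) (u f) * PowerSeries.coeff (j + 1) (u f) :=
            mul_le_mul_of_nonneg_left (h1 _ (by omega)) (u_nn h.nn h.zero _)
        _ ≤ PowerSeries.coeff b (u f) := s1
        _ ≤ d := h2
    refine mul_le_mul s2 ?_ (le_max_right _ _) (by positivity)
    refine max_le ?_ (r_nonneg h _)
    unfold r
    linarith [h.mass b']
  calc SS f b' b ≤ (d / d') * RR f (b' - 1) := key
    _ ≤ (d / d') * (1 / d') := mul_le_mul_of_nonneg_left hR (by positivity)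
    _ = d / d' ^ 2 := by field_simp

theorem HH_below_mass' (h : Ren f) (b' b : ℕ) :
    Mass (HH (below b' f) b) (SS f b' b) := by
  have h1 := HH_mass (h.below b').nn (h.below b').zero (Mass.below h.nn b') b
  refine h1.mono ?_
  unfold SS
  refine Finset.sum_le_sum fun i hi => ?_
  have hi' := Finset.mem_range.1 hi
  refine mul_le_mul (u_below_le h b' i) ?_ ?_ (u_nn h.nn h.zero _)
  · rw [ps_below]
    rcases le_total (b - i) b' with hc | hc
    · rw [min_eq_left hc]
      exact le_max_left _ _
    · rw [min_eq_right hc, sub_self]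
      exact le_max_right _ _
  · rw [ps_below]
    linarith [ps_mono h.nn (min_le_right (b - i) b')]

theorem u_below_le_SS (h : Ren f) {b' b T : ℕ} (hb : 1 ≤ b) (hT : b ≤ T) :
    PowerSeries.coeff T (u (below b' f)) ≤ SS f b' b := by
  have := passage_bound (h.below b').nn (h.below b').zero hb hT (HH_below_mass' h b' b)
    zero_le_one (u_le_one (h.below b'))
  simpa using this

theorem sg_le (h : Ren f) {b' b : ℕ} (hb' : 1 ≤ b') (hbb : b' ≤ b) :
    sg f b ≤ SS f b' b + (r f (b' - 1) - r f (b - 1)) * ps (u f) b := by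
  rw [sg_eq h.zero (hb'.trans hbb)]
  unfold SS
  rw [r_pred hb', r_pred (hb'.trans hbb)]
  have : (1 - ps f b' - (1 - ps f b)) * ps (u f) b
      = ∑ i ∈ range b, PowerSeries.coeff i (u f) * (ps f b - ps f b') := by
    rw [← Finset.sum_mul]
    unfold ps
    ring
  rw [this, ← Finset.sum_add_distrib]
  refine Finset.sum_le_sum fun i _ => ?_
  rw [← mul_add]
  refine mul_le_mul_of_nonneg_left ?_ (u_nn h.nn h.zero _)
  linarith [le_max_left (ps f b' - ps f (b - i)) 0]

/-- crossings by a step in `[b', b)` -/
theorem sg_le' (h : Ren f) {b' b : ℕ} (hb' : 1 ≤ b') (hbb : b' ≤ b) :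
    sg f b ≤ SS f b' b + ∑ x ∈ Ico b' b, (x : ℝ) * PowerSeries.coeff x f := by
  rw [sg_eq h.zero (hb'.trans hbb)]
  unfold SS
  have hps : ∀ m n : ℕ, m ≤ n → ps f n - ps f m = ∑ x ∈ Ico m n, PowerSeries.coeff x f := by
    intro m n hmn
    unfold ps
    rw [Finset.sum_Ico_eq_sub _ hmn]
  have h2 : ∀ i ∈ range b, ps f b - ps f (b - i) ≤ max (ps f b' - ps f (b - i)) 0
      + ∑ x ∈ Ico b' b, (if b ≤ x + i then PowerSeries.coeff x f else 0) := by
    intro i hi
    have hi' := Finset.mem_range.1 hi
    rcases le_total (b - i) b' with hc | hc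
    · have e1 : ∑ x ∈ Ico b' b, (if b ≤ x + i then PowerSeries.coeff x f else 0)
          = ∑ x ∈ Ico b' b, PowerSeries.coeff x f := by
        refine Finset.sum_congr rfl fun x hx => ?_
        have := Finset.mem_Ico.1 hx
        rw [if_pos (by omega)]
      rw [e1, ← hps b' b hbb]
      linarith [le_max_left (ps f b' - ps f (b - i)) 0]
    · have e1 : ∑ x ∈ Ico (b - i) b, PowerSeries.coeff x f
          ≤ ∑ x ∈ Ico b' b, (if b ≤ x + i then PowerSeries.coeff x f else 0) := by
        have : ∑ x ∈ Ico (b - i) b, PowerSeries.coeff x f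
            = ∑ x ∈ Ico (b - i) b, (if b ≤ x + i then PowerSeries.coeff x f else 0) := by
          refine Finset.sum_congr rfl fun x hx => ?_
          have := Finset.mem_Ico.1 hx
          rw [if_pos (by omega)]
        rw [this]
        refine Finset.sum_le_sum_of_subset_of_nonneg ?_ ?_
        · exact Finset.Ico_subset_Ico hc le_rfl
        · intro x _ _
          split_ifs
          · exact h.nn x
          · exact le_refl _
      rw [hps (b - i) b (by omega)]
      linarith [le_max_right (ps f b' - ps f (b - i)) 0]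
  calc ∑ i ∈ range b, PowerSeries.coeff i (u f) * (ps f b - ps f (b - i))
      ≤ ∑ i ∈ range b, PowerSeries.coeff i (u f) * (max (ps f b' - ps f (b - i)) 0
      + ∑ x ∈ Ico b' b, (if b ≤ x + i then PowerSeries.coeff x f else 0)) := by
        refine Finset.sum_le_sum fun i hi => ?_
        exact mul_le_mul_of_nonneg_left (h2 i hi) (u_nn h.nn h.zero _)
    _ = SS f b' b + ∑ i ∈ range b, PowerSeries.coeff i (u f)
          * ∑ x ∈ Ico b' b, (if b ≤ x + i then PowerSeries.coeff x f else 0) := by
        unfold SS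
        rw [← Finset.sum_add_distrib]
        refine Finset.sum_congr rfl fun i _ => ?_
        ring
    _ ≤ SS f b' b + ∑ i ∈ range b,
          ∑ x ∈ Ico b' b, (if b ≤ x + i then PowerSeries.coeff x f else 0) := by
        refine add_le_add le_rfl (Finset.sum_le_sum fun i _ => ?_)
        have hn : 0 ≤ ∑ x ∈ Ico b' b, (if b ≤ x + i then PowerSeries.coeff x f else 0) := by
          refine Finset.sum_nonneg fun x _ => ?_
          split_ifs
          · exact h.nn x
          · exact le_refl _
        calc _ ≤ 1 * ∑ x ∈ Ico b' b, (if b ≤ x + i then PowerSeries.coeff x f else 0) :=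
              mul_le_mul_of_nonneg_right (u_le_one h i) hn
          _ = _ := one_mul _
    _ = SS f b' b + ∑ x ∈ Ico b' b, (x : ℝ) * PowerSeries.coeff x f := by
        congr 1
        rw [Finset.sum_comm]
        refine Finset.sum_congr rfl fun x hx => ?_
        have hx' := Finset.mem_Ico.1 hx
        rw [← Finset.sum_filter]
        rw [Finset.sum_const, nsmul_eq_mul]
        congr 1
        have : (range b).filter (fun i => b ≤ x + i) = Ico (b - x) b := by
          ext i
          simp only [Finset.mem_filter, Finset.mem_range, Finset.mem_Ico]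
          omega
        rw [this, Nat.card_Ico]
        congr 1
        omega
    _ = _ := by unfold SS; rfl

end trunc

end Pool.Agent.Helper70
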