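import Mathlib
import Pool.Agent.Helper70.Ren2

set_option autoImplicit false

/-!
Expansion of powers of renewal series, binomial weights, unimodal summation.
-/

open Finset

namespace Pool.Agent.Helper70

theorem coeff_pow_mul_zero {g : PowerSeries ℝ} (g0 : PowerSeries.coeff 0 g = 0) {l t : ℕ}
    (h : t < l) (φ : PowerSeries ℝ) : PowerSeries.coeff t (φ * g ^ l) = 0 := by
  have h1 : PowerSeries.X ∣ g := by
    rw [PowerSeries.X_dvd_iff, ← PowerSeries.coeff_zero_eq_constantCoeff_apply, g0]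
  have h2 : (PowerSeries.X : PowerSeries ℝ) ^ l ∣ φ * g ^ l :=
    (pow_dvd_pow_of_dvd h1 l).mul_left φ
  exact PowerSeries.X_pow_dvd_iff.1 h2 t h

theorem coeff_pow_zero {g : PowerSeries ℝ} (g0 : PowerSeries.coeff 0 g = 0) {l t : ℕ}
    (h : t < l) : PowerSeries.coeff t (g ^ l) = 0 := by
  have := coeff_pow_mul_zero g0 h 1
  rwa [one_mul] at this

theorem coeff_mul_congr {χ φ ψ : PowerSeries ℝ} {t : ℕ}
    (h : ∀ s ≤ t, PowerSeries.coeff s φ = PowerSeries.coeff s ψ) :
    PowerSeries.coeff t (χ * φ) = PowerSeries.coeff t (χ * ψ) := by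
  rw [coeff_mul_range, coeff_mul_range]
  refine Finset.sum_congr rfl fun k _ => ?_
  rw [h _ (Nat.sub_le _ _)]

theorem telescope (g : PowerSeries ℝ) (j M : ℕ) :
    (1 - g) * ∑ l ∈ range M, ((l + (j + 1)).choose (j + 1) : ℝ) • g ^ l
      = ∑ l ∈ range M, ((l + j).choose j : ℝ) • g ^ l - ((M + j).choose (j + 1) : ℝ) • g ^ M := by
  induction M with
  | zero => simp
  | succ M ih =>
    rw [Finset.sum_range_succ, mul_add, ih, Finset.sum_range_succ]
    have e1 : M + (j + 1) = (M + j) + 1 := by omega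
    have e2 : M + 1 + j = (M + j) + 1 := by omega
    rw [e1, e2, Nat.choose_succ_succ]
    push_cast
    simp only [PowerSeries.smul_eq_C_mul, map_add]
    ring

/-- expansion of powers of `u g` -/
theorem pow_exp {g : PowerSeries ℝ} (g0 : PowerSeries.coeff 0 g = 0) (j : ℕ) {t N : ℕ}
    (ht : t ≤ N) :
    PowerSeries.coeff t (u g ^ (j + 1))
      = ∑ l ∈ range (N + 1), ((l + j).choose j : ℝ) * PowerSeries.coeff t (g ^ l) := by
  induction j generalizing t with
  | zero =>
    have h1 : (1 - g) * ∑ l ∈ range (N + 1), g ^ l = 1 - g ^ (N + 1) := by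
      rw [mul_comm]
      exact geom_sum_mul_neg g (N + 1)
    have h2 := u_unique g0 h1
    have h3 : PowerSeries.coeff t (∑ l ∈ range (N + 1), g ^ l)
        = PowerSeries.coeff t (u g) := by
      rw [h2, mul_sub, mul_one, map_sub, coeff_pow_mul_zero g0 (by omega), sub_zero]
    rw [zero_add, pow_one, ← h3, map_sum]
    simp
  | succ j ih =>
    have h2 := u_unique g0 (telescope g j (N + 1))
    have h3 : PowerSeries.coeff t (∑ l ∈ range (N + 1), ((l + (j + 1)).choose (j + 1) : ℝ) • g ^ l)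
        = PowerSeries.coeff t (u g * ∑ l ∈ range (N + 1), ((l + j).choose j : ℝ) • g ^ l) := by
      rw [h2, mul_sub, map_sub, mul_smul_comm, map_smul, coeff_pow_mul_zero g0 (by omega),
        smul_zero, sub_zero]
    have h4 : PowerSeries.coeff t (u g ^ (j + 1 + 1))
        = PowerSeries.coeff t (u g * ∑ l ∈ range (N + 1), ((l + j).choose j : ℝ) • g ^ l) := by
      rw [pow_succ' (u g) (j + 1)]
      refine coeff_mul_congr fun s hs => ?_
      rw [ih (hs.trans ht), map_sum]
      simp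
    rw [h4, ← h3, map_sum]
    simp

theorem u_exp {g : PowerSeries ℝ} (g0 : PowerSeries.coeff 0 g = 0) {t N : ℕ} (ht : t ≤ N) :
    PowerSeries.coeff t (u g) = ∑ l ∈ range (N + 1), PowerSeries.coeff t (g ^ l) := by
  have := pow_exp g0 0 ht
  simpa using this

/-- binomial weight -/
noncomputable def ww (β : ℝ) (j l : ℕ) : ℝ := ((l + j).choose j : ℝ) * β ^ j * (1 - β) ^ l

theorem ww_nonneg {β : ℝ} (h0 : 0 ≤ β) (h1 : β ≤ 1) (j l : ℕ) : 0 ≤ ww β j l := by
  unfold ww
  have : 0 ≤ 1 - β := by linarith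
  positivity

theorem ww_le_aux {β : ℝ} (h0 : 0 ≤ β) (h1 : β ≤ 1) (j l : ℕ) :
    ww β j l ≤ (β * (l + j)) ^ j / (j.factorial : ℝ) * Real.exp (-(β * l)) := by
  unfold ww
  have e1 : ((l + j).choose j : ℝ) ≤ ((l + j : ℕ) : ℝ) ^ j / (j.factorial : ℝ) :=
    Nat.choose_le_pow_div j (l + j)
  have e2 : (1 - β) ^ l ≤ Real.exp (-(β * l)) := by
    have : 1 - β ≤ Real.exp (-β) := Real.one_sub_le_exp_neg β
    calc (1 - β) ^ l ≤ (Real.exp (-β)) ^ l := pow_le_pow_left₀ (by linarith) this l
      _ = Real.exp (-(β * l)) := by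
        rw [← Real.exp_nat_mul]
        congr 1
        ring
  calc ((l + j).choose j : ℝ) * β ^ j * (1 - β) ^ l
      ≤ (((l + j : ℕ) : ℝ) ^ j / (j.factorial : ℝ)) * β ^ j * Real.exp (-(β * l)) := by
        have : 0 ≤ 1 - β := by linarith
        gcongr
    _ = _ := by
        push_cast
        rw [mul_pow]
        ring

theorem pow_mul_exp_le (j : ℕ) {x : ℝ} (hx : 0 ≤ x) :
    x ^ j * Real.exp (-x) ≤ (j : ℝ) ^ j * Real.exp (-(j : ℝ)) := by
  rcases Nat.eq_zero_or_pos j with rfl | hj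
  · simp [hx]
  · have hj' : (0 : ℝ) < j := by exact_mod_cast hj
    have h1 : x / j ≤ Real.exp (x / j - 1) := by
      have := Real.add_one_le_exp (x / j - 1)
      linarith
    have h2 : (x / j) ^ j ≤ Real.exp (x - j) := by
      calc (x / j) ^ j ≤ (Real.exp (x / j - 1)) ^ j := pow_le_pow_left₀ (by positivity) h1 j
        _ = Real.exp (x - j) := by
          rw [← Real.exp_nat_mul]
          congr 1
          field_simp
    have h3 : x ^ j ≤ (j : ℝ) ^ j * Real.exp (x - j) := by
      rw [div_pow, div_le_iff₀ (by positivity)] at h2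
      linarith
    calc x ^ j * Real.exp (-x) ≤ ((j : ℝ) ^ j * Real.exp (x - j)) * Real.exp (-x) := by
          gcongr
      _ = (j : ℝ) ^ j * Real.exp (-(j : ℝ)) := by
          rw [mul_assoc, ← Real.exp_add]
          congr 2
          ring

theorem mode_le {j : ℕ} (hj : 1 ≤ j) :
    (j : ℝ) ^ j * Real.exp (-(j : ℝ)) / (j.factorial : ℝ) ≤ 1 / Real.sqrt (2 * Real.pi * j) := by
  have h1 := Stirling.le_factorial_stirling j
  have hj' : (0 : ℝ) < j := by exact_mod_cast hj
  have h2 : ((j : ℝ) / Real.exp 1) ^ j = (j : ℝ) ^ j * Real.exp (-(j : ℝ)) := by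
    rw [div_pow, div_eq_mul_inv, ← Real.exp_nat_mul, mul_one, Real.exp_neg]
  rw [h2] at h1
  have hs : 0 < Real.sqrt (2 * Real.pi * j) := Real.sqrt_pos.2 (by positivity)
  have hf : (0 : ℝ) < (j.factorial : ℝ) := by exact_mod_cast j.factorial_pos
  rw [div_le_div_iff₀ hf hs]
  linarith

theorem mode_le_exp {j : ℕ} (hj : 1 ≤ j) :
    (j : ℝ) ^ j * Real.exp (-(j : ℝ)) / (j.factorial : ℝ) ≤ Real.exp (-1) := by
  rcases Nat.lt_or_ge j 2 with h | h
  · have : j = 1 := by omega
    subst this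
    simp
  · refine (mode_le hj).trans ?_
    have hj' : (2 : ℝ) ≤ j := by exact_mod_cast h
    have h3 : Real.exp 1 ≤ Real.sqrt (2 * Real.pi * j) := by
      apply Real.le_sqrt_of_sq_le
      have h4 : Real.exp 1 < 2.7182818286 := Real.exp_one_lt_d9
      have h5 : (3.14 : ℝ) < Real.pi := Real.pi_gt_d2
      have h6 : Real.exp 1 ^ 2 ≤ 2.7182818286 ^ 2 :=
        pow_le_pow_left₀ (Real.exp_pos 1).le h4.le 2
      nlinarith
    rw [Real.exp_neg, ← one_div]
    exact one_div_le_one_div_of_le (Real.exp_pos 1) h3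

theorem ww_le_mode {β : ℝ} (h0 : 0 ≤ β) (h1 : β ≤ 1) (j l : ℕ) :
    ww β j l ≤ Real.exp (β * j) * ((j : ℝ) ^ j * Real.exp (-(j : ℝ)) / (j.factorial : ℝ)) := by
  refine (ww_le_aux h0 h1 j l).trans ?_
  have hx : 0 ≤ β * (l + j) := by positivity
  have h2 := pow_mul_exp_le j hx
  have e : Real.exp (-(β * l)) = Real.exp (β * j) * Real.exp (-(β * (l + j))) := by
    rw [← Real.exp_add]
    congr 1
    ring
  rw [e]
  have hf : (0 : ℝ) < (j.factorial : ℝ) := by exact_mod_cast j.factorial_pos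
  calc (β * (l + j)) ^ j / (j.factorial : ℝ) * (Real.exp (β * j) * Real.exp (-(β * (l + j))))
      = Real.exp (β * j) * ((β * (l + j)) ^ j * Real.exp (-(β * (l + j))) / (j.factorial : ℝ)) := by
        ring
    _ ≤ _ := by gcongr

theorem ww_le_exp {β : ℝ} (h0 : 0 ≤ β) (h1 : β ≤ 1) {j : ℕ} (hj : 1 ≤ j) (l : ℕ) :
    ww β j l ≤ Real.exp (β * j) * Real.exp (-1) :=
  (ww_le_mode h0 h1 j l).trans (mul_le_mul_of_nonneg_left (mode_le_exp hj) (Real.exp_pos _).le)

theorem ww_le_sqrt {β : ℝ} (h0 : 0 ≤ β) (h1 : β ≤ 1) {j : ℕ} (hj : 1 ≤ j) (l : ℕ) :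
    ww β j l ≤ Real.exp (β * j) * (1 / Real.sqrt (2 * Real.pi * j)) :=
  (ww_le_mode h0 h1 j l).trans (mul_le_mul_of_nonneg_left (mode_le hj) (Real.exp_pos _).le)

theorem ww_le_crude {β : ℝ} (h0 : 0 ≤ β) (h1 : β ≤ 1) (j l : ℕ) :
    ww β j l ≤ Real.exp (β * j) := by
  refine (ww_le_aux h0 h1 j l).trans ?_
  have hx : 0 ≤ β * (l + j) := by positivity
  have h2 := Real.pow_div_factorial_le_exp _ hx j
  calc (β * (l + j)) ^ j / (j.factorial : ℝ) * Real.exp (-(β * l))
      ≤ Real.exp (β * (l + j)) * Real.exp (-(β * l)) := by gcongr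
    _ = Real.exp (β * j) := by
        rw [← Real.exp_add]
        congr 1
        ring

theorem ww_le_tail {β : ℝ} (h0 : 0 ≤ β) (h1 : β ≤ 1) (j l : ℕ) :
    ww β j l ≤ 2 ^ j * Real.exp (β * j / 2) * Real.exp (-(β * l) / 2) := by
  refine (ww_le_aux h0 h1 j l).trans ?_
  have hx : 0 ≤ β * (l + j) / 2 := by positivity
  have h2 := Real.pow_div_factorial_le_exp _ hx j
  have e1 : (β * (l + j)) ^ j = 2 ^ j * (β * (l + j) / 2) ^ j := by
    rw [← mul_pow]
    congr 1
    ring
  calc (β * (l + j)) ^ j / (j.factorial : ℝ) * Real.exp (-(β * l))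
      = 2 ^ j * ((β * (l + j) / 2) ^ j / (j.factorial : ℝ)) * Real.exp (-(β * l)) := by
        rw [e1]; ring
    _ ≤ 2 ^ j * Real.exp (β * (l + j) / 2) * Real.exp (-(β * l)) := by gcongr
    _ = _ := by
        rw [mul_assoc, mul_assoc, ← Real.exp_add, ← Real.exp_add]
        congr 2
        ring

/-- summation by parts against a unimodal weight, one shift -/
theorem unimodal_shift_one (a G : ℕ → ℝ) (A : ℝ) (k : ℕ)
    (hup : ∀ l, l < k → a l ≤ a (l + 1)) (hdown : ∀ l, k ≤ l → a (l + 1) ≤ a l)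
    (ha : ∀ l, 0 ≤ a l) (hA : ∀ l, a l ≤ A) (hG0 : ∀ l, 0 ≤ G l) (hG1 : ∀ l, G l ≤ 1) (N : ℕ) :
    ∑ l ∈ range N, a l * G l ≤ A + ∑ l ∈ range N, a l * G (l + 1) := by
  -- stronger claim by induction
  have key : ∀ N, ∑ l ∈ range N, a l * (G l - G (l + 1))
      ≤ a (min (N - 1) k) - a (N - 1) * G N ∨ N = 0 := by
    intro N
    induction N with
    | zero => right; rfl
    | succ N ih =>
      left
      rw [Finset.sum_range_succ]
      rcases Nat.eq_zero_or_pos N with rfl | hN
      · simp only [Finset.range_zero, Finset.sum_empty, zero_add, Nat.sub_self,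
          Nat.zero_min]
        nlinarith [ha 0, hG1 0]
      · rcases ih with ih | ih
        · have e : N + 1 - 1 = N := by omega
          rw [e]
          rcases Nat.lt_or_ge k N with hk | hk
          · -- decreasing part
            have m1 : min (N - 1) k = k := by omega
            have m2 : min N k = k := by omega
            rw [m1] at ih
            rw [m2]
            have h3 := hdown (N - 1) (by omega)
            have e3 : N - 1 + 1 = N := by omega
            rw [e3] at h3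
            nlinarith [hG0 N]
          · have m1 : min (N - 1) k = N - 1 := by omega
            have m2 : min N k = N := by omega
            rw [m1] at ih
            rw [m2]
            have h3 := hup (N - 1) (by omega)
            have e3 : N - 1 + 1 = N := by omega
            rw [e3] at h3
            nlinarith [hG1 N]
        · omega
  rcases key N with h | h
  · have h2 : ∑ l ∈ range N, a l * (G l - G (l + 1))
        = ∑ l ∈ range N, a l * G l - ∑ l ∈ range N, a l * G (l + 1) := by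
      rw [← Finset.sum_sub_distrib]
      refine Finset.sum_congr rfl fun l _ => ?_
      ring
    rw [h2] at h
    have h3 := hA (min (N - 1) k)
    have h4 := mul_nonneg (ha (N - 1)) (hG0 N)
    linarith
  · subst h
    simpa using (ha 0).trans (hA 0)

theorem unimodal_shift (a G : ℕ → ℝ) (A : ℝ) (k : ℕ)
    (hup : ∀ l, l < k → a l ≤ a (l + 1)) (hdown : ∀ l, k ≤ l → a (l + 1) ≤ a l)
    (ha : ∀ l, 0 ≤ a l) (hA : ∀ l, a l ≤ A) (hG0 : ∀ l, 0 ≤ G l) (hG1 : ∀ l, G l ≤ 1)
    (N m : ℕ) :
    ∑ l ∈ range N, a l * G l ≤ m * A + ∑ l ∈ range N, a l * G (l + m) := by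
  induction m with
  | zero => simp
  | succ m ih =>
    have := unimodal_shift_one a (fun l => G (l + m)) A k hup hdown ha hA
      (fun l => hG0 _) (fun l => hG1 _) N
    have e : ∀ l, l + 1 + m = l + (m + 1) := by intro l; omega
    simp only [e] at this
    push_cast
    linarith

/-- negative binomial weights are unimodal -/
theorem ww_unimodal {β : ℝ} (h0 : 0 < β) (h1 : β ≤ 1) (j : ℕ) :
    ∃ k, (∀ l, l < k → ww β j l ≤ ww β j (l + 1)) ∧ (∀ l, k ≤ l → ww β j (l + 1) ≤ ww β j l) := by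
  have hrec : ∀ l : ℕ, ((l : ℝ) + 1) * ww β j (l + 1) = ((l : ℝ) + 1 + j) * (1 - β) * ww β j l := by
    intro l
    unfold ww
    have h2 : ((l + 1 + j).choose j : ℝ) * ((l : ℝ) + 1) = ((l : ℝ) + 1 + j) * ((l + j).choose j : ℝ) := by
      have e := Nat.add_one_mul_choose_eq (l + j) l
      have s1 : (l + j + 1).choose (l + 1) = (l + 1 + j).choose j := by
        have : l + j + 1 = (l + 1) + j := by omega
        rw [this]
        exact Nat.choose_symm_add
      have s2 : (l + j).choose l = (l + j).choose j := Nat.choose_symm_add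
      rw [s1, s2] at e
      have : ((l + j + 1 : ℕ) : ℝ) * ((l + j).choose j : ℝ) = ((l + 1 + j).choose j : ℝ) * ((l + 1 : ℕ) : ℝ) := by
        exact_mod_cast e
      push_cast at this
      linarith
    rw [pow_succ]
    linear_combination (β ^ j * (1 - β) ^ l * (1 - β)) * h2
  have hw := ww_nonneg h0.le h1 j
  by_cases hex : ∃ l : ℕ, ((l : ℝ) + 1 + j) * (1 - β) < (l : ℝ) + 1
  · classical
    refine ⟨Nat.find hex, ?_, ?_⟩
    · intro l hl
      have h3 := Nat.find_min hex hl
      push Not at h3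
      have h4 := hrec l
      have h5 : (0 : ℝ) < (l : ℝ) + 1 := by positivity
      have : ((l : ℝ) + 1) * ww β j l ≤ ((l : ℝ) + 1) * ww β j (l + 1) := by
        rw [h4]
        exact mul_le_mul_of_nonneg_right h3 (hw l)
      exact le_of_mul_le_mul_left this h5
    · intro l hl
      have h3 := Nat.find_spec hex
      have h6 : ((Nat.find hex : ℕ) : ℝ) ≤ l := by exact_mod_cast hl
      have h7 : ((l : ℝ) + 1 + j) * (1 - β) ≤ (l : ℝ) + 1 := by nlinarith
      have h4 := hrec l
      have h5 : (0 : ℝ) < (l : ℝ) + 1 := by positivity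
      have : ((l : ℝ) + 1) * ww β j (l + 1) ≤ ((l : ℝ) + 1) * ww β j l := by
        rw [h4]
        exact mul_le_mul_of_nonneg_right h7 (hw l)
      exact le_of_mul_le_mul_left this h5
  · exfalso
    push Not at hex
    obtain ⟨l, hl⟩ := exists_nat_gt ((1 + j) * (1 - β) / β)
    have := hex l
    rw [div_lt_iff₀ h0] at hl
    nlinarith

end Pool.Agent.Helper70
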