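import Mathlib
import Pool.Agent.Helper70.Ren3

set_option autoImplicit false

/-!
First alternative: steps `≥ b` almost surely start before position `b`.
-/

open Finset

namespace Pool.Agent.Helper70

theorem decomp {f : PowerSeries ℝ} (h0 : PowerSeries.coeff 0 f = 0) (b J : ℕ) :
    u f = ∑ j ∈ range J, u (below b f) ^ (j + 1) * above b f ^ j
      + u (below b f) ^ J * above b f ^ J * u f := by
  have g0 := below_zero' h0 b
  have h1 : (1 - below b f) * u f = 1 + above b f * u f := by
    have e1 := one_sub_mul_u h0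
    have e2 := below_add_above b f
    linear_combination e1 - e2 * u f
  have h2 : u f = u (below b f) + u (below b f) * above b f * u f := by
    have := u_unique g0 h1
    linear_combination this
  induction J with
  | zero => simp
  | succ J ih =>
    rw [Finset.sum_range_succ]
    linear_combination ih + u (below b f) ^ J * above b f ^ J * h2

section caseI

variable {f : PowerSeries ℝ} {b : ℕ}

/-- the normalised small-step distribution -/
noncomputable def fh (f : PowerSeries ℝ) (b : ℕ) : PowerSeries ℝ :=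
  (1 - r f (b - 1))⁻¹ • below b f

/-- the normalised big-step distribution -/
noncomputable def FB (f : PowerSeries ℝ) (b : ℕ) : PowerSeries ℝ :=
  (r f (b - 1))⁻¹ • above b f

theorem fh_ren (h : Ren f) (hb : 1 ≤ b) (hβ : r f (b - 1) < 1) : Ren (fh f b) where
  nn := (h.nn.below b).smul (inv_nonneg.2 (by linarith))
  zero := by simp [fh, below_zero' h.zero b]
  mass := by
    have hφ : 0 < 1 - r f (b - 1) := by linarith
    have h1 := Mass.smul (inv_nonneg.2 hφ.le) (Mass.below h.nn b)
    have h2 : ps f b = 1 - r f (b - 1) := by rw [r_pred hb]; ring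
    rw [h2, inv_mul_cancel₀ hφ.ne'] at h1
    exact h1

theorem FB_ren (h : Ren f) (hb : 1 ≤ b) (hβ : 0 < r f (b - 1)) : Ren (FB f b) where
  nn := (h.nn.above b).smul (inv_nonneg.2 hβ.le)
  zero := by
    unfold FB
    rw [map_smul, coeff_above, if_pos (by omega), smul_zero]
  mass := by
    have h0 : Mass (above b f) (r f (b - 1)) := by
      intro n
      rw [r_pred hb]
      rcases le_total n b with hn | hn
      · rw [ps_above_of_le hn]
        linarith [h.mass b]
      · rw [ps_above_of_ge hn]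
        linarith [h.mass n]
    have h1 := Mass.smul (inv_nonneg.2 hβ.le) h0
    rw [inv_mul_cancel₀ hβ.ne'] at h1
    exact h1

theorem below_pow (hβ : r f (b - 1) < 1) (l : ℕ) :
    below b f ^ l = (1 - r f (b - 1)) ^ l • fh f b ^ l := by
  have hφ : 1 - r f (b - 1) ≠ 0 := by linarith
  unfold fh
  rw [smul_pow, smul_smul, ← mul_pow, mul_inv_cancel₀ hφ, one_pow, one_smul]

theorem above_pow (hβ : 0 < r f (b - 1)) (l : ℕ) :
    above b f ^ l = r f (b - 1) ^ l • FB f b ^ l := by
  unfold FB
  rw [smul_pow, smul_smul, ← mul_pow, mul_inv_cancel₀ hβ.ne', one_pow, one_smul]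

theorem sum_pow_le_one {F : PowerSeries ℝ} (h : Ren F) (N t : ℕ) :
    ∑ l ∈ range N, PowerSeries.coeff t (F ^ l) ≤ 1 := by
  have h1 := u_exp h.zero (show t ≤ N + t by omega)
  have h2 : ∑ l ∈ range N, PowerSeries.coeff t (F ^ l)
      ≤ ∑ l ∈ range (N + t + 1), PowerSeries.coeff t (F ^ l) := by
    refine Finset.sum_le_sum_of_subset_of_nonneg (Finset.range_mono (by omega)) ?_
    intro i _ _
    exact h.nn.pow i t
  rw [← h1] at h2
  exact h2.trans (u_le_one h t)

theorem E_expand (h : Ren f) (hβ : r f (b - 1) < 1) (j : ℕ) {t N : ℕ} (ht : t ≤ N) :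
    r f (b - 1) ^ j * PowerSeries.coeff t (u (below b f) ^ (j + 1))
      = ∑ l ∈ range (N + 1), ww (r f (b - 1)) j l * PowerSeries.coeff t (fh f b ^ l) := by
  rw [pow_exp (below_zero' h.zero b) j ht, Finset.mul_sum]
  refine Finset.sum_congr rfl fun l _ => ?_
  rw [below_pow hβ, map_smul, smul_eq_mul]
  unfold ww
  ring

theorem E_bound (h : Ren f) (hb : 1 ≤ b) (hβ1 : r f (b - 1) < 1) {j : ℕ} (hj : 1 ≤ j)
    (t : ℕ) :
    r f (b - 1) ^ j * PowerSeries.coeff t (u (below b f) ^ (j + 1))
      ≤ Real.exp (r f (b - 1) * j) * Real.exp (-1) := by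
  rw [E_expand h hβ1 j (le_refl t)]
  have hF := fh_ren h hb hβ1
  calc ∑ l ∈ range (t + 1), ww (r f (b - 1)) j l * PowerSeries.coeff t (fh f b ^ l)
      ≤ ∑ l ∈ range (t + 1), (Real.exp (r f (b - 1) * j) * Real.exp (-1))
          * PowerSeries.coeff t (fh f b ^ l) := by
        refine Finset.sum_le_sum fun l _ => ?_
        exact mul_le_mul_of_nonneg_right (ww_le_exp (r_nonneg h _) hβ1.le hj l) (hF.nn.pow l t)
    _ = (Real.exp (r f (b - 1) * j) * Real.exp (-1))
          * ∑ l ∈ range (t + 1), PowerSeries.coeff t (fh f b ^ l) := by rw [Finset.mul_sum]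
    _ ≤ (Real.exp (r f (b - 1) * j) * Real.exp (-1)) * 1 :=
        mul_le_mul_of_nonneg_left (sum_pow_le_one hF _ t) (by positivity)
    _ = _ := mul_one _

theorem E_small (h : Ren f) (hb : 1 ≤ b) (hβ1 : r f (b - 1) < 1) (j l1 : ℕ)
    {t : ℕ} (ht : b ≤ t) :
    r f (b - 1) ^ j * PowerSeries.coeff t (u (below b f) ^ (j + 1))
      ≤ Real.exp (r f (b - 1) * j) * ((1 - r f (b - 1)) ^ l1)⁻¹ * sg f b
        + 2 ^ j * Real.exp (r f (b - 1) * j / 2) * Real.exp (-(r f (b - 1) * l1) / 2) := by
  rw [E_expand h hβ1 j (le_refl t)]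
  have hF := fh_ren h hb hβ1
  set β := r f (b - 1) with hβdef
  have hβ0 : 0 ≤ β := r_nonneg h _
  have hφ : 0 < 1 - β := by linarith
  have hφ1 : 1 - β ≤ 1 := by linarith
  have key : ∀ l ∈ range (t + 1), ww β j l * PowerSeries.coeff t (fh f b ^ l)
      ≤ (Real.exp (β * j) * ((1 - β) ^ l1)⁻¹) * ((1 - β) ^ l * PowerSeries.coeff t (fh f b ^ l))
        + (2 ^ j * Real.exp (β * j / 2) * Real.exp (-(β * l1) / 2))
          * PowerSeries.coeff t (fh f b ^ l) := by
    intro l _
    have hD := hF.nn.pow l t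
    rcases Nat.lt_or_ge l l1 with hl | hl
    · have h1 : (1 - β) ^ l1 ≤ (1 - β) ^ l := pow_le_pow_of_le_one hφ.le hφ1 hl.le
      have h2 : 1 ≤ ((1 - β) ^ l1)⁻¹ * (1 - β) ^ l := by
        rw [inv_mul_eq_div, le_div_iff₀ (by positivity)]
        linarith
      have h3 := ww_le_crude hβ0 hβ1.le j l
      have h4 : ww β j l * PowerSeries.coeff t (fh f b ^ l)
          ≤ Real.exp (β * j) * 1 * PowerSeries.coeff t (fh f b ^ l) := by
        rw [mul_one]
        exact mul_le_mul_of_nonneg_right h3 hD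
      have h5 : Real.exp (β * j) * 1 * PowerSeries.coeff t (fh f b ^ l)
          ≤ Real.exp (β * j) * (((1 - β) ^ l1)⁻¹ * (1 - β) ^ l)
            * PowerSeries.coeff t (fh f b ^ l) := by
        gcongr
      have h6 : 0 ≤ (2 ^ j * Real.exp (β * j / 2) * Real.exp (-(β * l1) / 2))
          * PowerSeries.coeff t (fh f b ^ l) := by positivity
      calc _ ≤ _ := h4.trans h5
        _ ≤ _ := by
          have e : Real.exp (β * j) * (((1 - β) ^ l1)⁻¹ * (1 - β) ^ l)
              * PowerSeries.coeff t (fh f b ^ l)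
              = (Real.exp (β * j) * ((1 - β) ^ l1)⁻¹)
                * ((1 - β) ^ l * PowerSeries.coeff t (fh f b ^ l)) := by ring
          rw [e]
          linarith
    · have h3 := ww_le_tail hβ0 hβ1.le j l
      have h4 : Real.exp (-(β * l) / 2) ≤ Real.exp (-(β * l1) / 2) := by
        apply Real.exp_le_exp.2
        have : (l1 : ℝ) ≤ l := by exact_mod_cast hl
        nlinarith
      have h5 : ww β j l ≤ 2 ^ j * Real.exp (β * j / 2) * Real.exp (-(β * l1) / 2) :=
        h3.trans (by gcongr)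
      have h6 := mul_le_mul_of_nonneg_right h5 hD
      have h7 : 0 ≤ (Real.exp (β * j) * ((1 - β) ^ l1)⁻¹)
          * ((1 - β) ^ l * PowerSeries.coeff t (fh f b ^ l)) := by positivity
      linarith
  refine (Finset.sum_le_sum key).trans ?_
  rw [Finset.sum_add_distrib, ← Finset.mul_sum, ← Finset.mul_sum]
  have s1 : ∑ l ∈ range (t + 1), (1 - β) ^ l * PowerSeries.coeff t (fh f b ^ l)
      = PowerSeries.coeff t (u (below b f)) := by
    rw [u_exp (below_zero' h.zero b) (le_refl t)]
    refine Finset.sum_congr rfl fun l _ => ?_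
    rw [below_pow hβ1, map_smul, smul_eq_mul]
  have s2 := u_below_le_sg h hb ht
  have s3 := sum_pow_le_one hF (t + 1) t
  rw [s1]
  refine add_le_add ?_ ?_
  · exact mul_le_mul_of_nonneg_left s2 (by positivity)
  · calc _ ≤ (2 ^ j * Real.exp (β * j / 2) * Real.exp (-(β * l1) / 2)) * 1 :=
        mul_le_mul_of_nonneg_left s3 (by positivity)
      _ = _ := mul_one _

theorem ps_uF (h : Ren f) (hb : 1 ≤ b) (hβ : 0 < r f (b - 1)) : ps (u (FB f b)) b = 1 := by
  have hF := FB_ren h hb hβ
  have h1 : below b (FB f b) = 0 := by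
    ext n
    rw [coeff_below, map_zero]
    split_ifs with hn
    · unfold FB
      rw [map_smul, coeff_above, if_pos hn, smul_zero]
    · rfl
  have h2 : u (0 : PowerSeries ℝ) = 1 := by simp [u]
  have h3 : ∀ i ∈ range b, PowerSeries.coeff i (u (FB f b)) = if i = 0 then 1 else 0 := by
    intro i hi
    rw [← u_below_eq hF.zero (Finset.mem_range.1 hi), h1, h2, PowerSeries.coeff_one]
  unfold ps
  rw [Finset.sum_congr rfl h3, Finset.sum_ite_eq' (range b) 0 (fun _ => (1 : ℝ))]
  rw [if_pos (Finset.mem_range.2 hb)]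

/-- contribution of paths with between one and `J-1` big steps -/
theorem mid_bound (h : Ren f) (hb : 1 ≤ b) (hβ0 : 0 < r f (b - 1)) (hβ1 : r f (b - 1) < 1)
    (J T : ℕ) {κ ε : ℝ} (hκ : 0 ≤ κ) (hε : 0 ≤ ε)
    (h1 : ∀ j, 1 ≤ j → j < J → ∀ t,
      r f (b - 1) ^ j * PowerSeries.coeff t (u (below b f) ^ (j + 1)) ≤ κ)
    (h2 : ∀ j, 1 ≤ j → j < J → ∀ t, b ≤ t →
      r f (b - 1) ^ j * PowerSeries.coeff t (u (below b f) ^ (j + 1)) ≤ ε) :
    ∑ j ∈ Ico 1 J, PowerSeries.coeff T (u (below b f) ^ (j + 1) * above b f ^ j)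
      ≤ κ + J * ε := by
  have hF := FB_ren h hb hβ0
  have hun : NN (u (FB f b)) := u_nn hF.nn hF.zero
  have step : ∀ j ∈ Ico 1 J, PowerSeries.coeff T (u (below b f) ^ (j + 1) * above b f ^ j)
      ≤ κ * ∑ y ∈ Ico (T + 1 - b) (T + 1), PowerSeries.coeff y (FB f b ^ j) + ε := by
    intro j hj
    have hj' := Finset.mem_Ico.1 hj
    have e1 : u (below b f) ^ (j + 1) * above b f ^ j
        = FB f b ^ j * (r f (b - 1) ^ j • u (below b f) ^ (j + 1)) := by
      rw [above_pow hβ0, mul_smul_comm, mul_smul_comm, mul_comm]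
    rw [e1, coeff_mul_range]
    have hsub : Ico (T + 1 - b) (T + 1) ⊆ range (T + 1) := by
      intro y hy
      have := Finset.mem_Ico.1 hy
      exact Finset.mem_range.2 this.2
    have e2 : ∑ k ∈ range (T + 1), PowerSeries.coeff k (FB f b ^ j)
          * PowerSeries.coeff (T - k) (r f (b - 1) ^ j • u (below b f) ^ (j + 1))
        ≤ ∑ k ∈ range (T + 1), (κ * (if T + 1 - b ≤ k then PowerSeries.coeff k (FB f b ^ j) else 0)
          + ε * PowerSeries.coeff k (FB f b ^ j)) := by
      refine Finset.sum_le_sum fun k hk => ?_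
      have hk' := Finset.mem_range.1 hk
      have hn := hF.nn.pow j k
      rw [map_smul, smul_eq_mul]
      split_ifs with hc
      · have := mul_le_mul_of_nonneg_left (h1 j hj'.1 hj'.2 (T - k)) hn
        have h3 := mul_nonneg hε hn
        linarith
      · have := mul_le_mul_of_nonneg_left (h2 j hj'.1 hj'.2 (T - k) (by omega)) hn
        linarith
    refine e2.trans ?_
    rw [Finset.sum_add_distrib, ← Finset.mul_sum, ← Finset.mul_sum]
    have e3 : ∑ k ∈ range (T + 1), (if T + 1 - b ≤ k then PowerSeries.coeff k (FB f b ^ j) else 0)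
        = ∑ y ∈ Ico (T + 1 - b) (T + 1), PowerSeries.coeff y (FB f b ^ j) := by
      rw [← Finset.sum_filter]
      congr 1
      ext y
      simp only [Finset.mem_filter, Finset.mem_range, Finset.mem_Ico]
      omega
    rw [e3]
    have e4 : ∑ k ∈ range (T + 1), PowerSeries.coeff k (FB f b ^ j) ≤ 1 := by
      have := Mass.pow hF.nn hF.mass j (T + 1)
      rw [one_pow] at this
      exact this
    have e5 := mul_le_mul_of_nonneg_left e4 hε
    linarith
  refine (Finset.sum_le_sum step).trans ?_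
  rw [Finset.sum_add_distrib, ← Finset.mul_sum]
  refine add_le_add ?_ ?_
  · have e6 : ∑ j ∈ Ico 1 J, ∑ y ∈ Ico (T + 1 - b) (T + 1), PowerSeries.coeff y (FB f b ^ j)
        ≤ 1 := by
      rw [Finset.sum_comm]
      have e7 : ∀ y ∈ Ico (T + 1 - b) (T + 1),
          ∑ j ∈ Ico 1 J, PowerSeries.coeff y (FB f b ^ j) ≤ PowerSeries.coeff y (u (FB f b)) := by
        intro y _
        rw [u_exp hF.zero (show y ≤ J + y by omega)]
        refine Finset.sum_le_sum_of_subset_of_nonneg ?_ ?_
        · intro i hi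
          have := Finset.mem_Ico.1 hi
          exact Finset.mem_range.2 (by omega)
        · intro i _ _
          exact hF.nn.pow i y
      refine (Finset.sum_le_sum e7).trans ?_
      rw [Finset.sum_Ico_eq_sub _ (by omega : T + 1 - b ≤ T + 1)]
      have hw := window hF (T + 1 - b) b
      rw [ps_uF h hb hβ0] at hw
      have hm : ps (u (FB f b)) (T + 1) ≤ ps (u (FB f b)) (T + 1 - b + b) :=
        ps_mono hun (by omega)
      unfold ps at hw hm
      linarith
    calc κ * _ ≤ κ * 1 := mul_le_mul_of_nonneg_left e6 hκ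
      _ = κ := mul_one _
  · rw [Finset.sum_const, nsmul_eq_mul, Nat.card_Ico]
    refine mul_le_mul_of_nonneg_right ?_ hε
    exact_mod_cast Nat.sub_le J 1

theorem ps_pow_anti {F : PowerSeries ℝ} (h : Ren F) (b : ℕ) : Antitone (fun l => ps (F ^ l) b) := by
  refine antitone_nat_of_succ_le fun l => ?_
  rw [pow_succ, ps_mul]
  calc ∑ i ∈ range b, PowerSeries.coeff i (F ^ l) * ps F (b - i)
      ≤ ∑ i ∈ range b, PowerSeries.coeff i (F ^ l) * 1 :=
        Finset.sum_le_sum fun i _ => mul_le_mul_of_nonneg_left (h.mass _) (h.nn.pow l i)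
    _ = ps (F ^ l) b := by simp [ps]

theorem ps_u_below_exp (h : Ren f) (hb : 1 ≤ b) (hβ1 : r f (b - 1) < 1) :
    ps (u f) b = ∑ l ∈ range b, (1 - r f (b - 1)) ^ l * ps (fh f b ^ l) b := by
  have e1 : ps (u f) b = ∑ t ∈ range b, ∑ l ∈ range b,
      (1 - r f (b - 1)) ^ l * PowerSeries.coeff t (fh f b ^ l) := by
    unfold ps
    refine Finset.sum_congr rfl fun t ht => ?_
    have ht' := Finset.mem_range.1 ht
    rw [← u_below_eq h.zero ht', u_exp (below_zero' h.zero b) (show t ≤ b - 1 by omega),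
      Nat.sub_add_cancel hb]
    refine Finset.sum_congr rfl fun l _ => ?_
    rw [below_pow hβ1, map_smul, smul_eq_mul]
  rw [e1, Finset.sum_comm]
  refine Finset.sum_congr rfl fun l _ => ?_
  unfold ps
  rw [Finset.mul_sum]

theorem cm_bound (h : Ren f) (hb : 1 ≤ b) (hβ1 : r f (b - 1) < 1) (m : ℕ) :
    (1 - r f (b - 1)) ^ m * (1 - ps (fh f b ^ m) b) ≤ sg f b := by
  have hF := fh_ren h hb hβ1
  have hβ0 : 0 ≤ r f (b - 1) := r_nonneg h _
  unfold sg
  rw [ps_u_below_exp h hb hβ1]
  set β := r f (b - 1) with hβ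
  have hφ : 0 < 1 - β := by linarith
  have hφ1 : 1 - β ≤ 1 := by linarith
  have hgeo : ∀ n : ℕ, β * ∑ l ∈ range n, (1 - β) ^ l = 1 - (1 - β) ^ n := by
    intro n
    have := mul_neg_geom_sum (1 - β) n
    linear_combination this
  have hc1 : ∀ l, ps (fh f b ^ l) b ≤ 1 := by
    intro l
    have := Mass.pow hF.nn hF.mass l b
    simpa using this
  have hanti := ps_pow_anti hF b
  set c := ps (fh f b ^ m) b with hc
  have hc0 : 0 ≤ c := ps_nonneg (hF.nn.pow m) b
  rcases Nat.lt_or_ge m b with hm | hm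
  · have e1 : ∑ l ∈ range b, (1 - β) ^ l * ps (fh f b ^ l) b
        ≤ ∑ l ∈ range m, (1 - β) ^ l + c * ∑ l ∈ Ico m b, (1 - β) ^ l := by
      rw [Finset.range_eq_Ico, ← Finset.sum_Ico_consecutive _ (Nat.zero_le m) hm.le]
      refine add_le_add ?_ ?_
      · rw [Finset.range_eq_Ico]
        refine Finset.sum_le_sum fun l _ => ?_
        calc (1 - β) ^ l * ps (fh f b ^ l) b ≤ (1 - β) ^ l * 1 :=
              mul_le_mul_of_nonneg_left (hc1 l) (by positivity)
          _ = _ := mul_one _
      · rw [Finset.mul_sum]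
        refine Finset.sum_le_sum fun l hl => ?_
        have := hanti (Finset.mem_Ico.1 hl).1
        rw [mul_comm]
        exact mul_le_mul_of_nonneg_right this (by positivity)
    have e2 : β * ∑ l ∈ Ico m b, (1 - β) ^ l = (1 - β) ^ m - (1 - β) ^ b := by
      rw [Finset.sum_Ico_eq_sub _ hm.le, mul_sub, hgeo, hgeo]
      ring
    have e3 := mul_le_mul_of_nonneg_left e1 hβ0
    have e4 : β * (∑ l ∈ range m, (1 - β) ^ l + c * ∑ l ∈ Ico m b, (1 - β) ^ l)
        = (1 - (1 - β) ^ m) + c * ((1 - β) ^ m - (1 - β) ^ b) := by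
      rw [mul_add, hgeo, ← e2]
      ring
    rw [e4] at e3
    have e5 : 0 ≤ c * (1 - β) ^ b := by positivity
    nlinarith
  · have e1 : ∑ l ∈ range b, (1 - β) ^ l * ps (fh f b ^ l) b ≤ ∑ l ∈ range b, (1 - β) ^ l := by
      refine Finset.sum_le_sum fun l _ => ?_
      calc (1 - β) ^ l * ps (fh f b ^ l) b ≤ (1 - β) ^ l * 1 :=
            mul_le_mul_of_nonneg_left (hc1 l) (by positivity)
        _ = _ := mul_one _
    have e2 := mul_le_mul_of_nonneg_left e1 hβ0
    rw [hgeo] at e2
    have e3 : (1 - β) ^ m ≤ (1 - β) ^ b := pow_le_pow_of_le_one hφ.le hφ1 hm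
    have e4 : (1 - β) ^ m * (1 - c) ≤ (1 - β) ^ m * 1 :=
      mul_le_mul_of_nonneg_left (by linarith) (by positivity)
    linarith

/-- lower bound for `sg` -/
theorem sg_ge_pow (h : Ren f) (hb : 1 ≤ b) (hβ1 : r f (b - 1) < 1) :
    (1 - r f (b - 1)) ^ b ≤ sg f b := by
  have h1 := cm_bound h hb hβ1 b
  have hF := fh_ren h hb hβ1
  have h2 : ps (fh f b ^ b) b = 0 := by
    unfold ps
    refine Finset.sum_eq_zero fun t ht => ?_
    exact coeff_pow_zero hF.zero (Finset.mem_range.1 ht)
  rw [h2, sub_zero, mul_one] at h1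
  exact h1

theorem ps_u_mul_r_le (h : Ren f) (hb : 1 ≤ b) : r f (b - 1) * ps (u f) b ≤ 1 := by
  have := sg_nonneg h hb
  unfold sg at this
  linarith

theorem coeff_below_geom_mul_u (h : Ren f) (b t : ℕ) :
    PowerSeries.coeff t (below b (PowerSeries.mk fun _ => (1 : ℝ)) * u f) ≤ ps (u f) b := by
  have hun := u_nn h.nn h.zero
  rw [coeff_mul_range]
  have e1 : ∑ k ∈ range (t + 1), PowerSeries.coeff k (below b (PowerSeries.mk fun _ => (1 : ℝ)))
        * PowerSeries.coeff (t - k) (u f)
      = ∑ k ∈ range (t + 1), (if k < b then PowerSeries.coeff (t - k) (u f) else 0) := by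
    refine Finset.sum_congr rfl fun k _ => ?_
    rw [coeff_below]
    split_ifs <;> simp
  rw [e1, ← Finset.sum_range_reflect]
  have e2 : ∑ j ∈ range (t + 1), (if t + 1 - 1 - j < b then
        PowerSeries.coeff (t - (t + 1 - 1 - j)) (u f) else 0)
      = ∑ j ∈ Ico (t + 1 - b) (t + 1), PowerSeries.coeff j (u f) := by
    rw [← Finset.sum_filter]
    have : (range (t + 1)).filter (fun j => t + 1 - 1 - j < b) = Ico (t + 1 - b) (t + 1) := by
      ext j
      simp only [Finset.mem_filter, Finset.mem_range, Finset.mem_Ico]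
      omega
    rw [this]
    refine Finset.sum_congr rfl fun j hj => ?_
    have := Finset.mem_Ico.1 hj
    congr 2
    omega
  rw [e2, Finset.sum_Ico_eq_sub _ (by omega : t + 1 - b ≤ t + 1)]
  have hw := window h (t + 1 - b) b
  have hm : ps (u f) (t + 1) ≤ ps (u f) (t + 1 - b + b) := ps_mono hun (by omega)
  unfold ps at hw hm ⊢
  linarith

theorem smooth_bound (h : Ren f) (hb : 1 ≤ b) (hβ0 : 0 < r f (b - 1)) (hβ1 : r f (b - 1) < 1)
    (m1 : ℕ) :
    Bdd ((∑ m ∈ range m1, fh f b ^ m) * u f)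
      (1 / r f (b - 1) + m1 * (((1 - r f (b - 1)) ^ m1)⁻¹ * sg f b)) := by
  have hF := fh_ren h hb hβ1
  have hun := u_nn h.nn h.zero
  set P := ∑ m ∈ range m1, fh f b ^ m with hP
  have hPn : NN P := NN.sum fun m _ => hF.nn.pow m
  have hP1 : ∀ v, PowerSeries.coeff v P ≤ 1 := by
    intro v
    rw [hP, map_sum]
    exact sum_pow_le_one hF m1 v
  intro t
  have e0 : P * u f = below b P * u f + above b P * u f := by
    rw [← add_mul, below_add_above]
  rw [e0, map_add]
  refine add_le_add ?_ ?_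
  · have e1 : PowerSeries.coeff t (below b P * u f)
        ≤ PowerSeries.coeff t (below b (PowerSeries.mk fun _ => (1 : ℝ)) * u f) := by
      rw [coeff_mul_range, coeff_mul_range]
      refine Finset.sum_le_sum fun k _ => mul_le_mul_of_nonneg_right ?_ (hun _)
      rw [coeff_below, coeff_below]
      split_ifs
      · simpa using hP1 k
      · exact le_refl _
    refine e1.trans ((coeff_below_geom_mul_u h b t).trans ?_)
    rw [le_div_iff₀ hβ0]
    linarith [ps_u_mul_r_le h hb]
  · have hm : Mass (above b P) (m1 * (((1 - r f (b - 1)) ^ m1)⁻¹ * sg f b)) := by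
      have hs := sg_nonneg h hb
      have hφ : 0 < 1 - r f (b - 1) := by linarith
      intro n
      rcases le_total n b with hn | hn
      · rw [ps_above_of_le hn]
        positivity
      · rw [ps_above_of_ge hn]
        have e2 : ps P n - ps P b
            = ∑ m ∈ range m1, (ps (fh f b ^ m) n - ps (fh f b ^ m) b) := by
          rw [Finset.sum_sub_distrib]
          congr 1
          · unfold ps
            rw [Finset.sum_comm]
            refine Finset.sum_congr rfl fun i _ => ?_
            rw [hP, map_sum]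
          · unfold ps
            rw [Finset.sum_comm]
            refine Finset.sum_congr rfl fun i _ => ?_
            rw [hP, map_sum]
        rw [e2]
        calc ∑ m ∈ range m1, (ps (fh f b ^ m) n - ps (fh f b ^ m) b)
            ≤ ∑ m ∈ range m1, (((1 - r f (b - 1)) ^ m1)⁻¹ * sg f b) := by
              refine Finset.sum_le_sum fun m hm => ?_
              have hm' := Finset.mem_range.1 hm
              have c1 := cm_bound h hb hβ1 m
              have c2 : ps (fh f b ^ m) n ≤ 1 := by
                have := Mass.pow hF.nn hF.mass m n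
                simpa using this
              have c3 : 1 - ps (fh f b ^ m) b ≤ ((1 - r f (b - 1)) ^ m)⁻¹ * sg f b := by
                rw [inv_mul_eq_div, le_div_iff₀ (by positivity)]
                linarith
              have c4 : ((1 - r f (b - 1)) ^ m)⁻¹ ≤ ((1 - r f (b - 1)) ^ m1)⁻¹ := by
                refine inv_anti₀ (by positivity) ?_
                exact pow_le_pow_of_le_one hφ.le (by linarith) hm'.le
              have c5 := mul_le_mul_of_nonneg_right c4 hs
              linarith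
          _ = _ := by simp
    have := Bdd.mul (hPn.above b) hm zero_le_one (u_le_one h) t
    simpa using this

theorem nb_sum (β : ℝ) (h0 : 0 < β) (h1 : β < 1) (j N : ℕ) :
    ∑ l ∈ range N, β * ww β j l ≤ 1 := by
  set g : PowerSeries ℝ := (1 - β) • PowerSeries.X with hg
  have g0 : PowerSeries.coeff 0 g = 0 := by simp [hg]
  have hgp : ∀ i l, PowerSeries.coeff l (g ^ i) = if l = i then (1 - β) ^ i else 0 := by
    intro i l
    rw [hg, smul_pow, map_smul, PowerSeries.coeff_X_pow, smul_eq_mul]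
    split_ifs <;> simp
  have hcoef : ∀ j l, PowerSeries.coeff l (u g ^ (j + 1)) = ((l + j).choose j : ℝ) * (1 - β) ^ l := by
    intro j l
    rw [pow_exp g0 j (le_refl l)]
    simp_rw [hgp]
    rw [Finset.sum_eq_single l]
    · simp
    · intro i _ hi
      rw [if_neg (Ne.symm hi), mul_zero]
    · intro hl
      exact absurd (Finset.mem_range.2 (Nat.lt_succ_self l)) hl
  have hφ : 0 < 1 - β := by linarith
  have gnn : NN g := NN.X.smul hφ.le
  have hM : Mass (β • u g) 1 := by
    intro n
    have : ps (β • u g) n = 1 - (1 - β) ^ n := by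
      have e := mul_neg_geom_sum (1 - β) n
      unfold ps
      have e2 : ∀ i ∈ range n, PowerSeries.coeff i (β • u g) = β * (1 - β) ^ i := by
        intro i _
        have := hcoef 0 i
        rw [zero_add, pow_one] at this
        rw [map_smul, this, smul_eq_mul]
        simp
      rw [Finset.sum_congr rfl e2, ← Finset.mul_sum]
      linear_combination e
    rw [this]
    have : 0 < (1 - β) ^ n := by positivity
    linarith
  have hM2 := Mass.pow ((u_nn gnn g0).smul h0.le) hM (j + 1) N
  rw [one_pow] at hM2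
  refine le_trans (le_of_eq ?_) hM2
  unfold ps
  refine Finset.sum_congr rfl fun l _ => ?_
  rw [smul_pow, map_smul, hcoef, smul_eq_mul]
  unfold ww
  ring

/-- contribution of paths with at least `J+1` big steps -/
theorem high_bound (h : Ren f) (hb : 1 ≤ b) (hβ0 : 0 < r f (b - 1)) (hβ1 : r f (b - 1) < 1)
    (j T m1 : ℕ) (hm1 : 1 ≤ m1) {A : ℝ} (hA : ∀ l, r f (b - 1) * ww (r f (b - 1)) j l ≤ A) :
    PowerSeries.coeff T (u (below b f) ^ (j + 1) * above b f ^ (j + 1) * u f)
      ≤ m1 * A + (1 / r f (b - 1) + m1 * (((1 - r f (b - 1)) ^ m1)⁻¹ * sg f b)) / m1 := by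
  have hF := fh_ren h hb hβ1
  have hB := FB_ren h hb hβ0
  have hun := u_nn h.nn h.zero
  have hs := sg_nonneg h hb
  set β := r f (b - 1) with hβ
  have hφ : 0 < 1 - β := by linarith
  set Y := FB f b ^ (j + 1) * u f with hY
  have hYn : NN Y := (hB.nn.pow _).mul hun
  have hMB : Mass (FB f b ^ (j + 1)) 1 := by
    have := Mass.pow hB.nn hB.mass (j + 1)
    simpa using this
  have hYb : Bdd Y 1 := by
    have := Bdd.mul (hB.nn.pow (j + 1)) hMB zero_le_one (u_le_one h)
    simpa using this
  set S : ℝ := 1 / β + m1 * (((1 - β) ^ m1)⁻¹ * sg f b) with hS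
  have hS0 : 0 ≤ S := by positivity
  set G : ℕ → ℝ := fun l => PowerSeries.coeff T (fh f b ^ l * Y) with hG
  have hG0 : ∀ l, 0 ≤ G l := fun l => ((hF.nn.pow l).mul hYn) T
  have hMF : ∀ l, Mass (fh f b ^ l) 1 := by
    intro l
    have := Mass.pow hF.nn hF.mass l
    simpa using this
  have hG1 : ∀ l, G l ≤ 1 := by
    intro l
    have := Bdd.mul (hF.nn.pow l) (hMF l) zero_le_one hYb T
    simpa using this
  set a : ℕ → ℝ := fun l => β * ww β j l with ha
  have ha0 : ∀ l, 0 ≤ a l := fun l => mul_nonneg hβ0.le (ww_nonneg hβ0.le hβ1.le j l)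
  have hA0 : 0 ≤ A := (ha0 0).trans (hA 0)
  -- rewrite the coefficient
  have e1 : PowerSeries.coeff T (u (below b f) ^ (j + 1) * above b f ^ (j + 1) * u f)
      = ∑ l ∈ range (T + 1), a l * G l := by
    have s1 : u (below b f) ^ (j + 1) * above b f ^ (j + 1) * u f
        = Y * (β ^ (j + 1) • u (below b f) ^ (j + 1)) := by
      rw [above_pow hβ0, hY, mul_smul_comm, mul_smul_comm, smul_mul_assoc]
      congr 1
      ring
    have s2 : PowerSeries.coeff T (Y * (β ^ (j + 1) • u (below b f) ^ (j + 1)))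
        = PowerSeries.coeff T (Y * ∑ l ∈ range (T + 1), a l • fh f b ^ l) := by
      refine coeff_mul_congr fun t ht => ?_
      have s3 := E_expand h hβ1 j ht
      rw [map_smul, smul_eq_mul, pow_succ, mul_comm (β ^ j) β, mul_assoc, s3, map_sum,
        Finset.mul_sum]
      refine Finset.sum_congr rfl fun l _ => ?_
      rw [map_smul, smul_eq_mul, ha]
      ring
    rw [s1, s2, Finset.mul_sum, map_sum]
    refine Finset.sum_congr rfl fun l _ => ?_
    rw [mul_smul_comm, map_smul, smul_eq_mul, hG, mul_comm Y]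
  rw [e1]
  obtain ⟨k, hup, hdown⟩ := ww_unimodal hβ0 hβ1.le j
  have hup' : ∀ l, l < k → a l ≤ a (l + 1) :=
    fun l hl => mul_le_mul_of_nonneg_left (hup l hl) hβ0.le
  have hdown' : ∀ l, k ≤ l → a (l + 1) ≤ a l :=
    fun l hl => mul_le_mul_of_nonneg_left (hdown l hl) hβ0.le
  have hshift := unimodal_shift a G A k hup' hdown' ha0 hA hG0 hG1 (T + 1)
  set X := ∑ l ∈ range (T + 1), a l * G l with hX
  have hsum : m1 * X ≤ m1 * (m1 * A) + S := by
    have t1 : (m1 : ℝ) * X = ∑ m ∈ range m1, X := by simp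
    have t2 : ∑ m ∈ range m1, X ≤ ∑ m ∈ range m1, (m1 * A + ∑ l ∈ range (T + 1), a l * G (l + m)) := by
      refine Finset.sum_le_sum fun m hm => (hshift m).trans ?_
      have : (m : ℝ) ≤ m1 := by exact_mod_cast (Finset.mem_range.1 hm).le
      have := mul_le_mul_of_nonneg_right this hA0
      linarith
    have t3 : ∑ m ∈ range m1, (m1 * A + ∑ l ∈ range (T + 1), a l * G (l + m))
        = m1 * (m1 * A) + ∑ l ∈ range (T + 1), a l * ∑ m ∈ range m1, G (l + m) := by
      rw [Finset.sum_add_distrib, Finset.sum_const, nsmul_eq_mul, Finset.card_range,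
        Finset.sum_comm]
      congr 1
      refine Finset.sum_congr rfl fun l _ => ?_
      rw [Finset.mul_sum]
    have t4 : ∀ l, ∑ m ∈ range m1, G (l + m) ≤ S := by
      intro l
      have s1 : ∑ m ∈ range m1, G (l + m)
          = PowerSeries.coeff T ((fh f b ^ l * FB f b ^ (j + 1))
              * ((∑ m ∈ range m1, fh f b ^ m) * u f)) := by
        have : (fh f b ^ l * FB f b ^ (j + 1)) * ((∑ m ∈ range m1, fh f b ^ m) * u f)
            = ∑ m ∈ range m1, fh f b ^ (l + m) * Y := by
          rw [Finset.sum_mul, Finset.mul_sum]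
          refine Finset.sum_congr rfl fun m _ => ?_
          rw [hY, pow_add]
          ring
        rw [this, map_sum]
      rw [s1]
      have s2 := Mass.mul (hF.nn.pow l) (hMF l) hMB
      have s3 := Bdd.mul ((hF.nn.pow l).mul (hB.nn.pow (j + 1))) s2 hS0
        (smooth_bound h hb hβ0 hβ1 m1) T
      simpa using s3
    have t5 : ∑ l ∈ range (T + 1), a l * ∑ m ∈ range m1, G (l + m) ≤ S := by
      calc ∑ l ∈ range (T + 1), a l * ∑ m ∈ range m1, G (l + m)
          ≤ ∑ l ∈ range (T + 1), a l * S :=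
            Finset.sum_le_sum fun l _ => mul_le_mul_of_nonneg_left (t4 l) (ha0 l)
        _ = (∑ l ∈ range (T + 1), a l) * S := by rw [Finset.sum_mul]
        _ ≤ 1 * S := mul_le_mul_of_nonneg_right (nb_sum β hβ0 hβ1 j _) hS0
        _ = S := one_mul _
    linarith
  have hm1' : (0 : ℝ) < m1 := by exact_mod_cast hm1
  have : X ≤ (m1 * (m1 * A) + S) / m1 := by
    rw [le_div_iff₀ hm1']
    linarith
  calc X ≤ (m1 * (m1 * A) + S) / m1 := this
    _ = m1 * A + S / m1 := by field_simp

/-- the quantitative first alternative -/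
theorem caseI_quant (h : Ren f) (hb : 1 ≤ b) (hβ0 : 0 < r f (b - 1)) (hβ1 : r f (b - 1) < 1)
    (j l1 m1 T : ℕ) (hj : 1 ≤ j) (hm1 : 1 ≤ m1) (hT : b ≤ T) :
    PowerSeries.coeff T (u f) ≤ sg f b
      + (Real.exp (r f (b - 1) * (j + 1)) * Real.exp (-1)
        + (j + 1) * (Real.exp (r f (b - 1) * (j + 1)) * ((1 - r f (b - 1)) ^ l1)⁻¹ * sg f b
          + 2 ^ (j + 1) * Real.exp (r f (b - 1) * (j + 1) / 2)
            * Real.exp (-(r f (b - 1) * l1) / 2)))
      + (m1 * (r f (b - 1) * (Real.exp (r f (b - 1) * j) * (1 / Real.sqrt (2 * Real.pi * j))))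
        + (1 / r f (b - 1) + m1 * (((1 - r f (b - 1)) ^ m1)⁻¹ * sg f b)) / m1) := by
  have hs := sg_nonneg h hb
  have hdec := decomp h.zero b (j + 1)
  have h1 := congrArg (PowerSeries.coeff T) hdec
  rw [map_add, map_sum, Finset.sum_range_succ'] at h1
  set β := r f (b - 1) with hβ
  have hφ : 0 < 1 - β := by linarith
  have hz : PowerSeries.coeff T (u (below b f) ^ (0 + 1) * above b f ^ 0) ≤ sg f b := by
    rw [pow_zero, mul_one, zero_add, pow_one]
    exact u_below_le_sg h hb hT
  have hmid : ∑ i ∈ range j, PowerSeries.coeff T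
        (u (below b f) ^ (i + 1 + 1) * above b f ^ (i + 1))
      ≤ Real.exp (β * (j + 1)) * Real.exp (-1)
        + (j + 1 : ℕ) * (Real.exp (β * (j + 1)) * ((1 - β) ^ l1)⁻¹ * sg f b
          + 2 ^ (j + 1) * Real.exp (β * (j + 1) / 2) * Real.exp (-(β * l1) / 2)) := by
    have e1 : ∑ i ∈ range j, PowerSeries.coeff T
          (u (below b f) ^ (i + 1 + 1) * above b f ^ (i + 1))
        = ∑ i ∈ Ico 1 (j + 1), PowerSeries.coeff T (u (below b f) ^ (i + 1) * above b f ^ i) := by
      rw [Finset.sum_Ico_eq_sum_range, Nat.add_sub_cancel]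
      refine Finset.sum_congr rfl fun i _ => ?_
      have : 1 + i = i + 1 := by omega
      rw [this]
    rw [e1]
    refine mid_bound h hb hβ0 hβ1 (j + 1) T (by positivity) (by positivity) ?_ ?_
    · intro i hi1 hi2 t
      refine (E_bound h hb hβ1 hi1 t).trans ?_
      have : (i : ℝ) ≤ j + 1 := by
        have : i ≤ j + 1 := hi2.le
        exact_mod_cast this
      gcongr
    · intro i hi1 hi2 t ht
      refine (E_small h hb hβ1 i l1 ht).trans ?_
      have h3 : (i : ℝ) ≤ j + 1 := by
        have : i ≤ j + 1 := hi2.le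
        exact_mod_cast this
      have h4 : (2 : ℝ) ^ i ≤ 2 ^ (j + 1) := pow_le_pow_right₀ (by norm_num) hi2.le
      have h5 : Real.exp (β * i) ≤ Real.exp (β * (j + 1)) := by gcongr
      have h6 : Real.exp (β * i / 2) ≤ Real.exp (β * (j + 1) / 2) := by gcongr
      gcongr
  have hhigh := high_bound h hb hβ0 hβ1 j T m1 hm1
    (A := β * (Real.exp (β * j) * (1 / Real.sqrt (2 * Real.pi * j))))
    (fun l => mul_le_mul_of_nonneg_left (ww_le_sqrt hβ0.le hβ1.le hj l) hβ0.le)
  push_cast at hmid
  rw [h1]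
  linarith

end caseI

end Pool.Agent.Helper70
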