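import Mathlib
import Pool.Agent.Helper70.Ren4

set_option autoImplicit false

/-!
First alternative, with the parameters chosen; uniform lower bound on small scales.
-/

open Finset

namespace Pool.Agent.Helper70

theorem exp_neg_two_mul_le {β : ℝ} (h0 : 0 ≤ β) (h1 : β ≤ 1 / 2) :
    Real.exp (-(2 * β)) ≤ 1 - β := by
  rw [Real.exp_neg, inv_le_comm₀ (Real.exp_pos _) (by linarith)]
  have h2 : 2 * β + 1 ≤ Real.exp (2 * β) := Real.add_one_le_exp _
  refine le_trans ?_ h2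
  rw [inv_le_iff_one_le_mul₀ (by linarith)]
  nlinarith

theorem inv_pow_le_exp {β : ℝ} (h0 : 0 ≤ β) (h1 : β ≤ 1 / 2) (m : ℕ) {C : ℝ}
    (hm : β * m ≤ C) : ((1 - β) ^ m)⁻¹ ≤ Real.exp (2 * C) := by
  have h2 := exp_neg_two_mul_le h0 h1
  have h3 : (Real.exp (-(2 * β))) ^ m ≤ (1 - β) ^ m := pow_le_pow_left₀ (Real.exp_pos _).le h2 m
  have h4 : (Real.exp (-(2 * β))) ^ m = Real.exp (-(2 * (β * m))) := by
    rw [← Real.exp_nat_mul]
    congr 1
    ring
  rw [h4] at h3
  have h5 : ((1 - β) ^ m)⁻¹ ≤ (Real.exp (-(2 * (β * m))))⁻¹ := inv_anti₀ (Real.exp_pos _) h3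
  rw [Real.exp_neg, inv_inv] at h5
  refine h5.trans (Real.exp_le_exp.2 ?_)
  linarith

theorem exp_le_one_add_two_mul {x : ℝ} (h0 : 0 ≤ x) (h1 : x ≤ 1) : Real.exp x ≤ 1 + 2 * x := by
  have h2 : Real.exp x - 1 - x ≤ x ^ 2 := by
    have := Real.abs_exp_sub_one_sub_id_le (x := x) (by rw [abs_of_nonneg h0]; exact h1)
    exact (le_abs_self _).trans this
  nlinarith

/-- first alternative -/
theorem caseI {γ : ℝ} (hγ : 0 < γ) : ∃ η q0 : ℝ, 0 < η ∧ η ≤ 1 / 2 ∧ 0 < q0 ∧ q0 ≤ 1 / 2 ∧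
    ∀ f : PowerSeries ℝ, Ren f → r f 1 ≤ q0 → ∀ b T : ℕ, 2 ≤ b → b ≤ T → sg f b ≤ η →
      PowerSeries.coeff T (u f) ≤ Real.exp (-1) + γ := by
  set U : ℝ := 8 / γ with hU
  have hU0 : 0 < U := by positivity
  -- choice of j
  obtain ⟨j, hj1, hj⟩ : ∃ j : ℕ, 1 ≤ j ∧
      (U + 1) * (Real.exp 1 * (1 / Real.sqrt (2 * Real.pi * j))) ≤ γ / 8 := by
    obtain ⟨j, hj⟩ := exists_nat_ge ((8 * ((U + 1) * Real.exp 1) / γ) ^ 2)
    refine ⟨j + 1, by omega, ?_⟩
    have hx : 0 < 8 * ((U + 1) * Real.exp 1) / γ := by positivity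
    have h1 : 8 * ((U + 1) * Real.exp 1) / γ ≤ Real.sqrt (2 * Real.pi * ((j + 1 : ℕ) : ℝ)) := by
      apply Real.le_sqrt_of_sq_le
      have h5 : (3 : ℝ) < Real.pi := Real.pi_gt_three
      push_cast
      nlinarith [hx]
    rw [div_le_iff₀ hγ] at h1
    have hs : 0 < Real.sqrt (2 * Real.pi * ((j + 1 : ℕ) : ℝ)) := by
      apply Real.sqrt_pos.2
      positivity
    rw [mul_one_div, mul_div_assoc', div_le_iff₀ hs]
    linarith
  -- choice of Λ
  obtain ⟨Λ, hΛ⟩ : ∃ Λ : ℕ, ((j : ℝ) + 1) * (2 ^ (j + 1) * Real.exp 1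
      * Real.exp (-(Λ : ℝ) / 2)) ≤ γ / 8 := by
    set C : ℝ := ((j : ℝ) + 1) * (2 ^ (j + 1) * Real.exp 1) with hC
    have hC0 : 0 < C := by positivity
    obtain ⟨Λ, hΛ⟩ := exists_nat_ge (2 * (8 * C / γ))
    refine ⟨Λ, ?_⟩
    have h1 : 8 * C / γ ≤ Real.exp ((Λ : ℝ) / 2) := by
      have := Real.add_one_le_exp ((Λ : ℝ) / 2)
      linarith
    rw [div_le_iff₀ hγ] at h1
    have h2 : Real.exp (-(Λ : ℝ) / 2) = (Real.exp ((Λ : ℝ) / 2))⁻¹ := by
      rw [← Real.exp_neg]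
      congr 1
      ring
    have h3 : ((j : ℝ) + 1) * (2 ^ (j + 1) * Real.exp 1 * Real.exp (-(Λ : ℝ) / 2))
        = C * (Real.exp ((Λ : ℝ) / 2))⁻¹ := by
      rw [h2, hC]
      ring
    rw [h3, ← div_eq_mul_inv, div_le_iff₀ (Real.exp_pos _)]
    linarith
  set E1 : ℝ := ((j : ℝ) + 1) * (Real.exp 1 * Real.exp (2 * ((Λ : ℝ) + 1))) with hE1
  set E2 : ℝ := Real.exp (2 * (U + 1)) with hE2
  have hE10 : 0 < E1 := by positivity
  have hE20 : 0 < E2 := Real.exp_pos _
  set η : ℝ := min (1 / 2) (min (γ / 8) (min (γ / 8 / E1) (γ / 8 / E2))) with hη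
  set q0 : ℝ := min (1 / 2) (min (1 / ((j : ℝ) + 1)) (γ / (16 * ((j : ℝ) + 1)))) with hq0
  have hη0 : 0 < η := by
    rw [hη]
    refine lt_min (by norm_num) (lt_min (by positivity) (lt_min (by positivity) (by positivity)))
  have hq00 : 0 < q0 := by
    rw [hq0]
    refine lt_min (by norm_num) (lt_min (by positivity) (by positivity))
  refine ⟨η, q0, hη0, min_le_left _ _, hq00, min_le_left _ _, ?_⟩
  intro f h hr b T hb hT hs
  have hη1 : η ≤ 1 / 2 := min_le_left _ _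
  have hη2 : η ≤ γ / 8 := (min_le_right _ _).trans (min_le_left _ _)
  have hη3 : η ≤ γ / 8 / E1 :=
    (min_le_right _ _).trans ((min_le_right _ _).trans (min_le_left _ _))
  have hη4 : η ≤ γ / 8 / E2 :=
    (min_le_right _ _).trans ((min_le_right _ _).trans (min_le_right _ _))
  have hq1 : q0 ≤ 1 / 2 := min_le_left _ _
  have hq2 : q0 ≤ 1 / ((j : ℝ) + 1) := (min_le_right _ _).trans (min_le_left _ _)
  have hq3 : q0 ≤ γ / (16 * ((j : ℝ) + 1)) := (min_le_right _ _).trans (min_le_right _ _)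
  have hb1 : 1 ≤ b := by omega
  have hβle : r f (b - 1) ≤ q0 := (r_anti h (by omega : 1 ≤ b - 1)).trans hr
  have hβnn : 0 ≤ r f (b - 1) := r_nonneg h _
  have hsn := sg_nonneg h hb1
  have hβ0 : 0 < r f (b - 1) := by
    rcases lt_or_eq_of_le hβnn with hlt | heq
    · exact hlt
    · exfalso
      have : sg f b = 1 := by
        unfold sg
        rw [← heq]
        ring
      linarith
  have hβ1 : r f (b - 1) < 1 := by linarith
  set β := r f (b - 1) with hβ
  have hβh : β ≤ 1 / 2 := hβle.trans hq1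
  -- choice of m1, l1
  set m1 : ℕ := ⌈U / β⌉₊ with hm1
  set l1 : ℕ := ⌈(Λ : ℝ) / β⌉₊ with hl1
  have hm1a : U ≤ β * m1 := by
    have := Nat.le_ceil (U / β)
    rw [div_le_iff₀ hβ0] at this
    linarith
  have hm1b : β * m1 ≤ U + 1 := by
    have := (Nat.ceil_lt_add_one (show 0 ≤ U / β by positivity)).le
    have h2 := mul_le_mul_of_nonneg_left this hβ0.le
    have h3 : β * (U / β + 1) = U + β := by field_simp
    rw [h3] at h2
    linarith
  have hl1a : (Λ : ℝ) ≤ β * l1 := by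
    have := Nat.le_ceil ((Λ : ℝ) / β)
    rw [div_le_iff₀ hβ0] at this
    linarith
  have hl1b : β * l1 ≤ Λ + 1 := by
    have := (Nat.ceil_lt_add_one (show 0 ≤ (Λ : ℝ) / β by positivity)).le
    have h2 := mul_le_mul_of_nonneg_left this hβ0.le
    have h3 : β * ((Λ : ℝ) / β + 1) = Λ + β := by field_simp
    rw [h3] at h2
    linarith
  have hm1pos : 1 ≤ m1 := by
    apply Nat.one_le_iff_ne_zero.2
    intro h0
    rw [h0] at hm1a
    simp at hm1a
    linarith
  have hq := caseI_quant h hb1 hβ0 hβ1 j l1 m1 T hj1 hm1pos hT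
  refine hq.trans ?_
  have hj' : (0 : ℝ) < (j : ℝ) + 1 := by positivity
  -- β (j+1) ≤ 1
  have hβj : β * ((j : ℝ) + 1) ≤ 1 := by
    calc β * ((j : ℝ) + 1) ≤ (1 / ((j : ℝ) + 1)) * ((j : ℝ) + 1) :=
          mul_le_mul_of_nonneg_right (hβle.trans hq2) hj'.le
      _ = 1 := by field_simp
  have hβj2 : β * ((j : ℝ) + 1) ≤ γ / 16 := by
    calc β * ((j : ℝ) + 1) ≤ (γ / (16 * ((j : ℝ) + 1))) * ((j : ℝ) + 1) :=
          mul_le_mul_of_nonneg_right (hβle.trans hq3) hj'.le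
      _ = γ / 16 := by field_simp
  have a1 : Real.exp (β * ((j : ℝ) + 1)) ≤ 1 + γ / 8 := by
    have := exp_le_one_add_two_mul (by positivity) hβj
    linarith
  have a2 : Real.exp (β * ((j : ℝ) + 1)) ≤ Real.exp 1 := Real.exp_le_exp.2 hβj
  have a3 : Real.exp (β * ((j : ℝ) + 1) / 2) ≤ Real.exp 1 := by
    apply Real.exp_le_exp.2
    linarith
  have a4 : Real.exp (β * j) ≤ Real.exp 1 := by
    apply Real.exp_le_exp.2
    have e : β * ((j : ℝ) + 1) = β * j + β := by ring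
    linarith
  have he1 : Real.exp (-1) ≤ 1 := by
    rw [Real.exp_le_one_iff]
    norm_num
  -- term 2
  have t2 : Real.exp (β * ((j : ℝ) + 1)) * Real.exp (-1) ≤ Real.exp (-1) + γ / 8 := by
    have h1 := mul_le_mul_of_nonneg_right a1 (Real.exp_pos (-1)).le
    have h2 : γ / 8 * Real.exp (-1) ≤ γ / 8 * 1 :=
      mul_le_mul_of_nonneg_left he1 (by positivity)
    calc Real.exp (β * ((j : ℝ) + 1)) * Real.exp (-1) ≤ (1 + γ / 8) * Real.exp (-1) := h1
      _ = Real.exp (-1) + γ / 8 * Real.exp (-1) := by ring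
      _ ≤ Real.exp (-1) + γ / 8 * 1 := add_le_add le_rfl h2
      _ = _ := by ring
  -- term 3
  have i1 := inv_pow_le_exp hβ0.le hβh l1 hl1b
  have i2 := inv_pow_le_exp hβ0.le hβh m1 hm1b
  have hil : 0 ≤ ((1 - β) ^ l1)⁻¹ := inv_nonneg.2 (pow_nonneg (by linarith) _)
  have him : 0 ≤ ((1 - β) ^ m1)⁻¹ := inv_nonneg.2 (pow_nonneg (by linarith) _)
  have t3 : ((j : ℝ) + 1) * (Real.exp (β * ((j : ℝ) + 1)) * ((1 - β) ^ l1)⁻¹ * sg f b)
      ≤ γ / 8 := by
    calc ((j : ℝ) + 1) * (Real.exp (β * ((j : ℝ) + 1)) * ((1 - β) ^ l1)⁻¹ * sg f b)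
        ≤ ((j : ℝ) + 1) * (Real.exp 1 * Real.exp (2 * ((Λ : ℝ) + 1)) * (γ / 8 / E1)) := by
          have := hs.trans hη3
          gcongr
      _ = E1 * (γ / 8 / E1) := by rw [hE1]; ring
      _ = γ / 8 := by field_simp
  have t4 : ((j : ℝ) + 1) * (2 ^ (j + 1) * Real.exp (β * ((j : ℝ) + 1) / 2)
      * Real.exp (-(β * l1) / 2)) ≤ γ / 8 := by
    refine le_trans ?_ hΛ
    have : Real.exp (-(β * l1) / 2) ≤ Real.exp (-(Λ : ℝ) / 2) := by
      apply Real.exp_le_exp.2
      linarith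
    gcongr
  have t5 : (m1 : ℝ) * (β * (Real.exp (β * j) * (1 / Real.sqrt (2 * Real.pi * j)))) ≤ γ / 8 := by
    refine le_trans ?_ hj
    have : (m1 : ℝ) * (β * (Real.exp (β * j) * (1 / Real.sqrt (2 * Real.pi * j))))
        = (β * m1) * (Real.exp (β * j) * (1 / Real.sqrt (2 * Real.pi * j))) := by ring
    rw [this]
    gcongr
  have hm1' : (0 : ℝ) < m1 := by exact_mod_cast hm1pos
  have t6 : (1 / β + m1 * (((1 - β) ^ m1)⁻¹ * sg f b)) / m1 ≤ γ / 8 + γ / 8 := by
    have e : (1 / β + m1 * (((1 - β) ^ m1)⁻¹ * sg f b)) / m1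
        = 1 / (β * m1) + ((1 - β) ^ m1)⁻¹ * sg f b := by
      field_simp
    rw [e]
    refine add_le_add ?_ ?_
    · calc 1 / (β * m1) ≤ 1 / U := one_div_le_one_div_of_le hU0 hm1a
        _ = γ / 8 := by rw [hU]; field_simp
    · calc ((1 - β) ^ m1)⁻¹ * sg f b ≤ Real.exp (2 * (U + 1)) * (γ / 8 / E2) := by
            have := hs.trans hη4
            gcongr
        _ = γ / 8 := by rw [hE2]; field_simp
  have t1 : sg f b ≤ γ / 8 := hs.trans hη2
  have t34 : ((j : ℝ) + 1) * (Real.exp (β * ((j : ℝ) + 1)) * ((1 - β) ^ l1)⁻¹ * sg f b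
          + 2 ^ (j + 1) * Real.exp (β * ((j : ℝ) + 1) / 2) * Real.exp (-(β * l1) / 2))
      ≤ γ / 8 + γ / 8 := by
    rw [mul_add]
    exact add_le_add t3 t4
  linarith

/-- the first index at which the renewal sequence is at most `d` -/
noncomputable def first (f : PowerSeries ℝ) (d : ℝ) : ℕ :=
  sInf {n | PowerSeries.coeff n (u f) ≤ d}

section first

variable {f : PowerSeries ℝ} {d : ℝ} {s : ℕ}

theorem first_spec (hs : PowerSeries.coeff s (u f) ≤ d) :
    PowerSeries.coeff (first f d) (u f) ≤ d := by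
  have : first f d ∈ {n | PowerSeries.coeff n (u f) ≤ d} := Nat.sInf_mem ⟨s, hs⟩
  exact this

theorem first_le (hs : PowerSeries.coeff s (u f) ≤ d) : first f d ≤ s := Nat.sInf_le hs

theorem lt_of_lt_first {n : ℕ} (hn : n < first f d) : d < PowerSeries.coeff n (u f) := by
  have : n ∉ {n | PowerSeries.coeff n (u f) ≤ d} := Nat.notMem_of_lt_sInf hn
  simpa using this

theorem coeff_one_u (h0 : PowerSeries.coeff 0 f = 0) :
    PowerSeries.coeff 1 (u f) = 1 - r f 1 := by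
  have := u_rec h0 0
  rw [this]
  simp only [zero_add, Finset.range_one, Finset.sum_singleton, Nat.sub_self, u_zero h0]
  unfold r ps
  rw [Finset.sum_range_succ, Finset.sum_range_one, h0]
  ring

theorem two_le_first (h : Ren f) (hr : r f 1 ≤ 1 / 2) (hd : d < 1 / 2)
    (hs : PowerSeries.coeff s (u f) ≤ d) : 2 ≤ first f d := by
  have h1 := first_spec hs
  rcases Nat.lt_or_ge (first f d) 2 with hlt | hge
  · exfalso
    have : first f d = 0 ∨ first f d = 1 := by omega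
    rcases this with h2 | h2
    · rw [h2, u_zero h.zero] at h1
      linarith
    · rw [h2, coeff_one_u h.zero] at h1
      linarith
  · exact hge

end first

theorem sum_mul_le_RR {f : PowerSeries ℝ} (h : Ren f) (t : ℕ) :
    ∑ x ∈ range t, (x : ℝ) * PowerSeries.coeff x f ≤ RR f t := by
  have e1 : ∑ x ∈ range t, (x : ℝ) * PowerSeries.coeff x f
      = ∑ x ∈ range t, ∑ i ∈ range t, (if i < x then PowerSeries.coeff x f else 0) := by
    refine Finset.sum_congr rfl fun x hx => ?_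
    have hx' := Finset.mem_range.1 hx
    rw [← Finset.sum_filter, Finset.sum_const, nsmul_eq_mul]
    congr 1
    have : (range t).filter (fun i => i < x) = range x := by
      ext i
      simp only [Finset.mem_filter, Finset.mem_range]
      omega
    rw [this, Finset.card_range]
  rw [e1, Finset.sum_comm]
  unfold RR
  refine Finset.sum_le_sum fun i hi => ?_
  have hi' := Finset.mem_range.1 hi
  rw [← Finset.sum_filter]
  have : (range t).filter (fun x => i < x) = Ico (i + 1) t := by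
    ext x
    simp only [Finset.mem_filter, Finset.mem_range, Finset.mem_Ico]
    omega
  rw [this, Finset.sum_Ico_eq_sub _ (by omega : i + 1 ≤ t)]
  unfold r
  have := h.mass t
  unfold ps at this ⊢
  linarith

/-- the scale exponents -/
noncomputable def dd (δ : ℝ) (k : ℕ) : ℝ := δ ^ (3 ^ k)

section dd

variable {δ : ℝ}

theorem dd_pos (h : 0 < δ) (k : ℕ) : 0 < dd δ k := pow_pos h _

theorem dd_zero : dd δ 0 = δ := by simp [dd]

theorem dd_succ (k : ℕ) : dd δ (k + 1) = dd δ k ^ 3 := by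
  unfold dd
  rw [pow_succ, pow_mul]

theorem dd_anti (h : 0 < δ) (h1 : δ ≤ 1) : Antitone (dd δ) := by
  intro a b hab
  unfold dd
  exact pow_le_pow_of_le_one h.le h1 (Nat.pow_le_pow_right (by norm_num) hab)

theorem dd_div (h : 0 < δ) (k : ℕ) : dd δ (k + 1) / dd δ k ^ 2 = dd δ k := by
  have := dd_pos h k
  rw [dd_succ]
  field_simp

theorem SS_dd {f : PowerSeries ℝ} (h : Ren f) (h0 : 0 < δ) (h1 : δ ≤ 1) {s k : ℕ}
    (hs : PowerSeries.coeff s (u f) ≤ dd δ (k + 1)) :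
    SS f (first f (dd δ k)) (first f (dd δ (k + 1))) ≤ dd δ k := by
  have hs' : PowerSeries.coeff s (u f) ≤ dd δ k := hs.trans (dd_anti h0 h1 (Nat.le_succ k))
  have h2 : PowerSeries.coeff (first f (dd δ (k + 1))) (u f) ≤ dd δ (k + 1) := first_spec hs
  have h3 : first f (dd δ k) ≤ first f (dd δ (k + 1)) :=
    first_le (h2.trans (dd_anti h0 h1 (Nat.le_succ k)))
  have := SS_bound h h3 (dd_pos h0 k) (fun v hv => (lt_of_lt_first hv).le) h2
  rwa [dd_div h0] at this

end dd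

/-- on scales where the truncated mean is bounded the renewal sequence is bounded below -/
theorem lower_bound {Θ : ℝ} (hΘ : 1 ≤ Θ) : ∃ c : ℝ, 0 < c ∧ c ≤ 1 ∧
    ∀ f : PowerSeries ℝ, Ren f → r f 1 ≤ 1 / 2 → ∀ t : ℕ, RR f t ≤ Θ →
      c < PowerSeries.coeff t (u f) := by
  set e : ℝ := Real.exp (-(2 * Θ)) with he
  have he0 : 0 < e := Real.exp_pos _
  have he1 : e < 1 := by
    rw [he, Real.exp_lt_one_iff]
    linarith
  set δ : ℝ := e / 4 with hδ
  have hδ0 : 0 < δ := by positivity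
  have hδ1 : δ ≤ 1 := by linarith
  obtain ⟨K, hK⟩ := exists_nat_ge (4 * Θ / e)
  have hKpos : 0 < K := by
    rcases Nat.eq_zero_or_pos K with h0 | h0
    · exfalso
      rw [h0] at hK
      have : 0 < 4 * Θ / e := by positivity
      simp at hK
      linarith
    · exact h0
  have hK' : (0 : ℝ) < K := by exact_mod_cast hKpos
  have hΘK : Θ / K ≤ e / 4 := by
    rw [div_le_iff₀ he0] at hK
    rw [div_le_iff₀ hK']
    linarith
  refine ⟨dd δ K, dd_pos hδ0 K, ?_, ?_⟩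
  · calc dd δ K ≤ dd δ 0 := dd_anti hδ0 hδ1 (Nat.zero_le K)
      _ = δ := dd_zero
      _ ≤ 1 := hδ1
  intro f h hr t hR
  by_contra hcon
  have hs : PowerSeries.coeff t (u f) ≤ dd δ K := not_lt.1 hcon
  set B : ℕ → ℕ := fun k => first f (dd δ k) with hB
  have hsk : ∀ k, k ≤ K → PowerSeries.coeff t (u f) ≤ dd δ k :=
    fun k hk => hs.trans (dd_anti hδ0 hδ1 hk)
  have hBt : ∀ k, k ≤ K → B k ≤ t := fun k hk => first_le (hsk k hk)
  have hBmono : ∀ k, k < K → B k ≤ B (k + 1) := by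
    intro k hk
    have h2 := first_spec (hsk (k + 1) hk)
    exact first_le (h2.trans (dd_anti hδ0 hδ1 (Nat.le_succ k)))
  have hB0 : ∀ k, k ≤ K → B 0 ≤ B k := by
    intro k
    induction k with
    | zero => intro _; exact le_rfl
    | succ k ih => intro hk; exact (ih (by omega)).trans (hBmono k (by omega))
  -- total class sum
  have htot : ∑ k ∈ range K, ∑ x ∈ Ico (B k) (B (k + 1)), (x : ℝ) * PowerSeries.coeff x f ≤ Θ := by
    have e1 : ∀ m, m ≤ K → ∑ k ∈ range m, ∑ x ∈ Ico (B k) (B (k + 1)), (x : ℝ) * PowerSeries.coeff x f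
        = ∑ x ∈ Ico (B 0) (B m), (x : ℝ) * PowerSeries.coeff x f := by
      intro m
      induction m with
      | zero => intro _; simp
      | succ m ih =>
        intro hm
        rw [Finset.sum_range_succ, ih (by omega)]
        exact Finset.sum_Ico_consecutive _ (hB0 m (by omega)) (hBmono m (by omega))
    rw [e1 K le_rfl]
    calc ∑ x ∈ Ico (B 0) (B K), (x : ℝ) * PowerSeries.coeff x f
        ≤ ∑ x ∈ range t, (x : ℝ) * PowerSeries.coeff x f := by
          refine Finset.sum_le_sum_of_subset_of_nonneg ?_ ?_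
          · intro x hx
            have h1 := Finset.mem_Ico.1 hx
            have h2 := hBt K le_rfl
            exact Finset.mem_range.2 (by omega)
          · intro x _ _
            exact mul_nonneg (Nat.cast_nonneg x) (h.nn x)
      _ ≤ RR f t := sum_mul_le_RR h t
      _ ≤ Θ := hR
  obtain ⟨k, hk, hkc⟩ : ∃ k ∈ range K,
      ∑ x ∈ Ico (B k) (B (k + 1)), (x : ℝ) * PowerSeries.coeff x f ≤ Θ / K := by
    by_contra hno
    push Not at hno
    have h3 : ∑ k ∈ range K, (Θ / K)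
        < ∑ k ∈ range K, ∑ x ∈ Ico (B k) (B (k + 1)), (x : ℝ) * PowerSeries.coeff x f :=
      Finset.sum_lt_sum_of_nonempty (Finset.nonempty_range_iff.2 (by omega)) hno
    rw [Finset.sum_const, Finset.card_range, nsmul_eq_mul, mul_div_cancel₀ _ hK'.ne'] at h3
    linarith
  have hkK := Finset.mem_range.1 hk
  have hd12 : ∀ k, dd δ k < 1 / 2 := by
    intro k
    calc dd δ k ≤ dd δ 0 := dd_anti hδ0 hδ1 (Nat.zero_le k)
      _ = δ := dd_zero
      _ < 1 / 2 := by linarith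
  have hb2 : 2 ≤ B (k + 1) := two_le_first h hr (hd12 (k + 1)) (hsk (k + 1) hkK)
  have hb1' : 1 ≤ B k := by
    have := two_le_first h hr (hd12 k) (hsk k hkK.le)
    exact le_trans (by norm_num) this
  have h1 : sg f (B (k + 1)) ≤ dd δ k + Θ / K := by
    have := sg_le' h hb1' (hBmono k hkK)
    have h2 := SS_dd h hδ0 hδ1 (hsk (k + 1) hkK)
    linarith
  have hβh : r f (B (k + 1) - 1) ≤ 1 / 2 := (r_anti h (by omega : 1 ≤ B (k + 1) - 1)).trans hr
  have hβ1 : r f (B (k + 1) - 1) < 1 := by linarith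
  have hβ0 := r_nonneg h (B (k + 1) - 1)
  have h2 := sg_ge_pow h (show 1 ≤ B (k + 1) by omega) hβ1
  have h3 : e ≤ (1 - r f (B (k + 1) - 1)) ^ (B (k + 1)) := by
    have h4 := mul_r_le_RR h (B (k + 1))
    have h5 : RR f (B (k + 1)) ≤ Θ := (RR_mono h (hBt (k + 1) hkK)).trans hR
    have h6 : r f (B (k + 1) - 1) * (B (k + 1) : ℕ) ≤ Θ := by linarith
    have h7 := inv_pow_le_exp hβ0 hβh (B (k + 1)) h6
    rw [he, Real.exp_neg]
    rw [inv_le_comm₀ (pow_pos (by linarith) _) (Real.exp_pos _)] at h7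
    exact h7
  have h8 : dd δ k ≤ e / 4 := by
    calc dd δ k ≤ dd δ 0 := dd_anti hδ0 hδ1 (Nat.zero_le k)
      _ = e / 4 := dd_zero
  linarith

end Pool.Agent.Helper70
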