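import Mathlib
import Pool.Agent.Helper70.Ren5

set_option autoImplicit false

/-!
Slow variation of the renewal sequence on small scales, seen from far away.
-/

open Finset

namespace Pool.Agent.Helper70

/-- central binomial weights are small -/
theorem choose_mid_sq (i : ℕ) : ((i.choose (i / 2) : ℝ)) ^ 2 * (i + 1) ≤ 4 ^ i := by
  -- even case
  have heven : ∀ k : ℕ, (((2 * k).choose k : ℝ)) ^ 2 * (2 * k + 1) ≤ 4 ^ (2 * k) := by
    intro k
    induction k with
    | zero => simp
    | succ k ih =>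
      have h1 : ((k + 1 : ℕ) : ℝ) * ((2 * (k + 1)).choose (k + 1) : ℝ)
          = 2 * (2 * k + 1) * ((2 * k).choose k : ℝ) := by
        have := Nat.succ_mul_centralBinom_succ k
        unfold Nat.centralBinom at this
        exact_mod_cast this
      push_cast at h1
      have hk : (0 : ℝ) < (k : ℝ) + 1 := by positivity
      have h2 : ((k : ℝ) + 1) ^ 2 * (((2 * (k + 1)).choose (k + 1) : ℝ) ^ 2 * (2 * ((k : ℝ) + 1) + 1))
          ≤ ((k : ℝ) + 1) ^ 2 * 4 ^ (2 * (k + 1)) := by
        have e1 : ((k : ℝ) + 1) ^ 2 * (((2 * (k + 1)).choose (k + 1) : ℝ) ^ 2 * (2 * ((k : ℝ) + 1) + 1))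
            = (((2 * k).choose k : ℝ) ^ 2 * (2 * k + 1)) * (4 * (2 * k + 1) * (2 * k + 3)) := by
          have : ((k : ℝ) + 1) ^ 2 * (((2 * (k + 1)).choose (k + 1) : ℝ) ^ 2 * (2 * ((k : ℝ) + 1) + 1))
              = (((k : ℝ) + 1) * ((2 * (k + 1)).choose (k + 1) : ℝ)) ^ 2 * (2 * ((k : ℝ) + 1) + 1) := by
            ring
          rw [this, h1]
          ring
        rw [e1]
        calc (((2 * k).choose k : ℝ) ^ 2 * (2 * k + 1)) * (4 * (2 * k + 1) * (2 * k + 3))
            ≤ 4 ^ (2 * k) * (4 * (2 * k + 1) * (2 * k + 3)) :=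
              mul_le_mul_of_nonneg_right ih (by positivity)
          _ ≤ 4 ^ (2 * k) * (16 * ((k : ℝ) + 1) ^ 2) := by
              refine mul_le_mul_of_nonneg_left ?_ (by positivity)
              nlinarith
          _ = ((k : ℝ) + 1) ^ 2 * 4 ^ (2 * (k + 1)) := by
              rw [mul_add, pow_add]
              ring
      have h3 := le_of_mul_le_mul_left h2 (by positivity)
      push_cast
      exact h3
  rcases Nat.even_or_odd' i with ⟨k, rfl | rfl⟩
  · have : 2 * k / 2 = k := by omega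
    rw [this]
    have := heven k
    push_cast
    exact this
  · have e0 : (2 * k + 1) / 2 = k := by omega
    rw [e0]
    have h1 := heven (k + 1)
    have h2 : ((2 * (k + 1)).choose (k + 1) : ℝ) = 2 * ((2 * k + 1).choose k : ℝ) := by
      have e1 : 2 * (k + 1) = (2 * k + 1) + 1 := by ring
      have e2 : (2 * k + 1).choose (k + 1) = (2 * k + 1).choose k := by
        have := Nat.choose_symm_half k
        exact this
      rw [e1, Nat.choose_succ_succ, e2]
      push_cast
      ring
    rw [h2] at h1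
    push_cast at h1 ⊢
    have e3 : (4 : ℝ) ^ (2 * (k + 1)) = 4 * 4 ^ (2 * k + 1) := by
      rw [← pow_succ']
      congr 1
    rw [e3] at h1
    have hk : (0 : ℝ) ≤ k := Nat.cast_nonneg k
    have hc : 0 ≤ ((2 * k + 1).choose k : ℝ) ^ 2 := sq_nonneg _
    nlinarith

theorem choose_mid_le (i : ℕ) : (i.choose (i / 2) : ℝ) / 2 ^ i ≤ 1 / Real.sqrt (i + 1) := by
  have h1 := choose_mid_sq i
  have hi : (0 : ℝ) < (i : ℝ) + 1 := by positivity
  have hs : 0 < Real.sqrt ((i : ℝ) + 1) := Real.sqrt_pos.2 hi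
  rw [div_le_div_iff₀ (by positivity) hs, one_mul]
  have h2 : ((i.choose (i / 2) : ℝ) * Real.sqrt ((i : ℝ) + 1)) ^ 2 ≤ ((2 : ℝ) ^ i) ^ 2 := by
    rw [mul_pow, Real.sq_sqrt hi.le, ← pow_mul, mul_comm i 2, pow_mul]
    norm_num
    exact h1
  exact le_of_sq_le_sq h2 (by positivity)

/-- summation by parts with a general bound on the second factor -/
theorem unimodal_shift_gen (a G : ℕ → ℝ) (A M : ℝ) (k : ℕ)
    (hup : ∀ l, l < k → a l ≤ a (l + 1)) (hdown : ∀ l, k ≤ l → a (l + 1) ≤ a l)
    (ha : ∀ l, 0 ≤ a l) (hA : ∀ l, a l ≤ A) (hM : 0 ≤ M)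
    (hG0 : ∀ l, 0 ≤ G l) (hG1 : ∀ l, G l ≤ M) (N : ℕ) :
    ∑ l ∈ range N, a l * G l ≤ A * M + ∑ l ∈ range N, a l * G (l + 1) := by
  rcases eq_or_lt_of_le hM with h | h
  · have hG : ∀ l, G l = 0 := fun l => le_antisymm (by rw [h]; exact hG1 l) (hG0 l)
    simp [hG, ← h]
  · have := unimodal_shift_one a (fun l => G l / M) A k hup hdown ha hA
      (fun l => div_nonneg (hG0 l) hM) (fun l => by rw [div_le_one h]; exact hG1 l) N
    have e1 : ∑ l ∈ range N, a l * (G l / M) = (∑ l ∈ range N, a l * G l) / M := by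
      rw [Finset.sum_div]
      refine Finset.sum_congr rfl fun l _ => ?_
      ring
    have e2 : ∑ l ∈ range N, a l * (G (l + 1) / M) = (∑ l ∈ range N, a l * G (l + 1)) / M := by
      rw [Finset.sum_div]
      refine Finset.sum_congr rfl fun l _ => ?_
      ring
    rw [e1, e2, div_le_iff₀ h, add_mul, div_mul_cancel₀ _ h.ne'] at this
    exact this

/-- binomial coefficients divided by a power of two -/
noncomputable def bb (i k : ℕ) : ℝ := (i.choose k : ℝ) / 2 ^ i

theorem bb_up (i k : ℕ) (h : k < i / 2) : bb i k ≤ bb i (k + 1) := by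
  unfold bb
  have : i.choose k ≤ i.choose (k + 1) := Nat.choose_le_succ_of_lt_half_left h
  have h2 : (i.choose k : ℝ) ≤ (i.choose (k + 1) : ℝ) := by exact_mod_cast this
  gcongr

theorem bb_down (i k : ℕ) (h : i / 2 ≤ k) : bb i (k + 1) ≤ bb i k := by
  unfold bb
  have h1 := Nat.choose_succ_right_eq i k
  have h3 : i.choose (k + 1) * (k + 1) ≤ i.choose k * (k + 1) := by
    rw [h1]
    exact Nat.mul_le_mul_left _ (by omega)
  have h4 : i.choose (k + 1) ≤ i.choose k := Nat.le_of_mul_le_mul_right h3 (Nat.succ_pos k)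
  have h2 : (i.choose (k + 1) : ℝ) ≤ (i.choose k : ℝ) := by exact_mod_cast h4
  gcongr

theorem bb_le (i k : ℕ) : bb i k ≤ 1 / Real.sqrt (i + 1) := by
  refine le_trans ?_ (choose_mid_le i)
  unfold bb
  have : (i.choose k : ℝ) ≤ (i.choose (i / 2) : ℝ) := by exact_mod_cast Nat.choose_le_middle k i
  gcongr

theorem bb_nonneg (i k : ℕ) : 0 ≤ bb i k := by
  unfold bb
  positivity

theorem half_pow (y i : ℕ) :
    ((1 / 2 : ℝ) • (1 + PowerSeries.X ^ y) : PowerSeries ℝ) ^ i
      = ∑ k ∈ range (i + 1), bb i k • (PowerSeries.X ^ (k * y) : PowerSeries ℝ) := by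
  rw [smul_pow, add_comm, add_pow, Finset.smul_sum]
  refine Finset.sum_congr rfl fun k _ => ?_
  unfold bb
  rw [one_pow, mul_one, ← pow_mul, mul_comm y k]
  have : (PowerSeries.X ^ (k * y) * ((i.choose k : ℕ) : PowerSeries ℝ) : PowerSeries ℝ)
      = (i.choose k : ℝ) • PowerSeries.X ^ (k * y) := by
    rw [PowerSeries.smul_eq_C_mul, mul_comm]
    congr 1
  rw [this, smul_smul]
  congr 1
  rw [one_div, inv_pow]
  field_simp

theorem binom_sqrt_sum (n : ℕ) {c α : ℝ} (hc : 0 < c) (hc1 : c ≤ 1) (hα : 0 < α) :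
    ∑ i ∈ range (n + 1), (n.choose i : ℝ) * (1 / Real.sqrt (i + 1)) * (c ^ i * (1 - c) ^ (n - i))
      ≤ α / 2 + 1 / (2 * α * ((n + 1) * c)) := by
  have h1 : ∀ i : ℕ, 1 / Real.sqrt ((i : ℝ) + 1) ≤ α / 2 + 1 / (2 * α * ((i : ℝ) + 1)) := by
    intro i
    have hi : (0 : ℝ) < (i : ℝ) + 1 := by positivity
    have hs : 0 < Real.sqrt ((i : ℝ) + 1) := Real.sqrt_pos.2 hi
    have hsq : Real.sqrt ((i : ℝ) + 1) ^ 2 = (i : ℝ) + 1 := Real.sq_sqrt hi.le
    set x := Real.sqrt ((i : ℝ) + 1) with hx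
    have : α / 2 + 1 / (2 * α * ((i : ℝ) + 1)) - 1 / x = (α * x - 1) ^ 2 / (2 * α * x ^ 2) := by
      rw [← hsq]
      field_simp
      ring
    have h2 : 0 ≤ (α * x - 1) ^ 2 / (2 * α * x ^ 2) := by positivity
    linarith
  have hc' : 0 ≤ 1 - c := by linarith
  have hbin : ∑ i ∈ range (n + 1), (n.choose i : ℝ) * (c ^ i * (1 - c) ^ (n - i)) = 1 := by
    have := add_pow c (1 - c) n
    have e : c + (1 - c) = 1 := by ring
    rw [e, one_pow] at this
    refine Eq.trans ?_ this.symm
    refine Finset.sum_congr rfl fun i _ => ?_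
    ring
  have hbin2 : ∑ i ∈ range (n + 1), (n.choose i : ℝ) * (1 / ((i : ℝ) + 1)) * (c ^ i * (1 - c) ^ (n - i))
      ≤ 1 / ((n + 1) * c) := by
    have h3 : ∀ i ∈ range (n + 1), (n.choose i : ℝ) * (1 / ((i : ℝ) + 1)) * (c ^ i * (1 - c) ^ (n - i))
        = (1 / (((n : ℝ) + 1) * c)) * (((n + 1).choose (i + 1) : ℝ)
          * (c ^ (i + 1) * (1 - c) ^ (n + 1 - (i + 1)))) := by
      intro i hi
      have e1 : ((n : ℝ) + 1) * (n.choose i : ℝ) = ((n + 1).choose (i + 1) : ℝ) * ((i : ℝ) + 1) := by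
        have := Nat.add_one_mul_choose_eq n i
        exact_mod_cast this
      have e2 : n + 1 - (i + 1) = n - i := by omega
      have hn : (0 : ℝ) < (n : ℝ) + 1 := by positivity
      have hi' : (0 : ℝ) < (i : ℝ) + 1 := by positivity
      rw [e2, pow_succ]
      have e3 : (n.choose i : ℝ) = ((n + 1).choose (i + 1) : ℝ) * ((i : ℝ) + 1) / ((n : ℝ) + 1) := by
        field_simp
        linarith
      rw [e3]
      field_simp
    rw [Finset.sum_congr rfl h3, ← Finset.mul_sum]
    have h5 : ∑ i ∈ range (n + 1), ((n + 1).choose (i + 1) : ℝ)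
          * (c ^ (i + 1) * (1 - c) ^ (n + 1 - (i + 1))) ≤ 1 := by
      have h6 := add_pow c (1 - c) (n + 1)
      have e : c + (1 - c) = 1 := by ring
      rw [e, one_pow, Finset.sum_range_succ'] at h6
      have h7 : ∑ i ∈ range (n + 1), c ^ (i + 1) * (1 - c) ^ (n + 1 - (i + 1))
            * ((n + 1).choose (i + 1) : ℝ)
          = ∑ i ∈ range (n + 1), ((n + 1).choose (i + 1) : ℝ)
          * (c ^ (i + 1) * (1 - c) ^ (n + 1 - (i + 1))) := by
        refine Finset.sum_congr rfl fun i _ => ?_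
        ring
      rw [h7] at h6
      have h8 : 0 ≤ c ^ 0 * (1 - c) ^ (n + 1 - 0) * ((n + 1).choose 0 : ℝ) := by positivity
      linarith
    calc (1 / (((n : ℝ) + 1) * c)) * _ ≤ (1 / (((n : ℝ) + 1) * c)) * 1 :=
          mul_le_mul_of_nonneg_left h5 (by positivity)
      _ = _ := by rw [mul_one]
  calc ∑ i ∈ range (n + 1), (n.choose i : ℝ) * (1 / Real.sqrt (i + 1)) * (c ^ i * (1 - c) ^ (n - i))
      ≤ ∑ i ∈ range (n + 1), ((α / 2) * ((n.choose i : ℝ) * (c ^ i * (1 - c) ^ (n - i)))
        + (1 / (2 * α)) * ((n.choose i : ℝ) * (1 / ((i : ℝ) + 1)) * (c ^ i * (1 - c) ^ (n - i)))) := by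
        refine Finset.sum_le_sum fun i _ => ?_
        have h2 := h1 i
        have h3 : 0 ≤ (n.choose i : ℝ) * (c ^ i * (1 - c) ^ (n - i)) := by positivity
        have h4 := mul_le_mul_of_nonneg_right h2 h3
        calc (n.choose i : ℝ) * (1 / Real.sqrt (i + 1)) * (c ^ i * (1 - c) ^ (n - i))
            = 1 / Real.sqrt ((i : ℝ) + 1) * ((n.choose i : ℝ) * (c ^ i * (1 - c) ^ (n - i))) := by ring
          _ ≤ _ := h4
          _ = _ := by
            field_simp
    _ = (α / 2) * 1 + (1 / (2 * α)) * ∑ i ∈ range (n + 1),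
          ((n.choose i : ℝ) * (1 / ((i : ℝ) + 1)) * (c ^ i * (1 - c) ^ (n - i))) := by
        rw [Finset.sum_add_distrib, ← Finset.mul_sum, ← Finset.mul_sum, hbin]
    _ ≤ (α / 2) * 1 + (1 / (2 * α)) * (1 / ((n + 1) * c)) := by
        refine add_le_add le_rfl (mul_le_mul_of_nonneg_left hbin2 (by positivity))
    _ = _ := by
        rw [mul_one]
        congr 1
        field_simp

/-- smoothing: if `ρ ≥ θ` on `[0, 2w)` then `ρ ^ n` is nearly invariant under shifts by `y ≤ w` -/
theorem mineka {ρ Y : PowerSeries ℝ} (hρ : NN ρ) (mρ : Mass ρ 1) (hY : NN Y) (bY : Bdd Y 1)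
    {w y : ℕ} (hy : y ≤ w) {θ : ℝ} (hθ : 0 ≤ θ)
    (h1 : ∀ t, t < 2 * w → θ ≤ PowerSeries.coeff t ρ) (n T : ℕ) :
    PowerSeries.coeff T (ρ ^ n * Y) ≤ PowerSeries.coeff T (PowerSeries.X ^ y * (ρ ^ n * Y))
      + ∑ i ∈ range (n + 1), (n.choose i : ℝ) * (1 / Real.sqrt (i + 1))
          * ((θ * w) ^ i * (1 - θ * w) ^ (n - i)) := by
  set κ : PowerSeries ℝ := θ • below w (PowerSeries.mk fun _ => (1 : ℝ)) with hκ
  have κn : NN κ := by
    refine NN.smul (NN.below ?_ w) hθ
    intro t
    simp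
  have κc : ∀ t, PowerSeries.coeff t κ = if t < w then θ else 0 := by
    intro t
    rw [hκ, map_smul, coeff_below, smul_eq_mul]
    split_ifs <;> simp
  have κm : Mass κ (θ * w) := by
    intro t
    unfold ps
    simp_rw [κc]
    rw [← Finset.sum_filter, Finset.sum_const, nsmul_eq_mul, mul_comm]
    refine mul_le_mul_of_nonneg_left ?_ hθ
    have : ((range t).filter (fun i => i < w)).card ≤ w := by
      calc ((range t).filter (fun i => i < w)).card ≤ (range w).card := by
            refine Finset.card_le_card ?_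
            intro i hi
            exact Finset.mem_range.2 (Finset.mem_filter.1 hi).2
        _ = w := Finset.card_range w
    exact_mod_cast this
  set χ : PowerSeries ℝ := (1 / 2 : ℝ) • (1 + PowerSeries.X ^ y) * κ with hχ
  have χc : ∀ t, PowerSeries.coeff t χ
      = (1 / 2) * (PowerSeries.coeff t κ + if y ≤ t then PowerSeries.coeff (t - y) κ else 0) := by
    intro t
    rw [hχ, smul_mul_assoc, map_smul, smul_eq_mul, add_mul, one_mul, map_add,
      PowerSeries.coeff_X_pow_mul']
  have χle : ∀ t, PowerSeries.coeff t χ ≤ PowerSeries.coeff t ρ := by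
    intro t
    rw [χc, κc]
    by_cases ht : t < 2 * w
    · have h2 := h1 t ht
      have h3 : (if y ≤ t then PowerSeries.coeff (t - y) κ else 0) ≤ θ := by
        split_ifs
        · rw [κc]
          split_ifs
          · exact le_rfl
          · exact hθ
        · exact hθ
      have h4 : (if t < w then θ else 0) ≤ θ := by
        split_ifs
        · exact le_rfl
        · exact hθ
      linarith
    · have h3 : (if y ≤ t then PowerSeries.coeff (t - y) κ else 0) = 0 := by
        split_ifs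
        · rw [κc, if_neg (by omega)]
        · rfl
      rw [h3, if_neg (by omega)]
      have := hρ t
      linarith
  set ρ' : PowerSeries ℝ := ρ - χ with hρ'
  have ρ'n : NN ρ' := by
    intro t
    rw [hρ', map_sub]
    linarith [χle t]
  have χps : ps χ (2 * w) = θ * w := by
    unfold ps
    simp_rw [χc]
    rw [← Finset.mul_sum, Finset.sum_add_distrib]
    have s1 : ∑ i ∈ range (2 * w), PowerSeries.coeff i κ = θ * w := by
      simp_rw [κc]
      rw [← Finset.sum_filter, Finset.sum_const, nsmul_eq_mul, mul_comm]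
      congr 1
      have : (range (2 * w)).filter (fun i => i < w) = range w := by
        ext i
        simp only [Finset.mem_filter, Finset.mem_range]
        omega
      rw [this, Finset.card_range]
    have s2 : ∑ i ∈ range (2 * w), (if y ≤ i then PowerSeries.coeff (i - y) κ else 0) = θ * w := by
      simp_rw [κc]
      have e1 : ∀ i ∈ range (2 * w), (if y ≤ i then (if i - y < w then θ else 0) else 0)
          = if (y ≤ i ∧ i - y < w) then θ else 0 := by
        intro i _
        split_ifs <;> first | rfl | omega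
      rw [Finset.sum_congr rfl e1, ← Finset.sum_filter, Finset.sum_const, nsmul_eq_mul, mul_comm]
      congr 1
      have : (range (2 * w)).filter (fun i => y ≤ i ∧ i - y < w) = Ico y (y + w) := by
        ext i
        simp only [Finset.mem_filter, Finset.mem_range, Finset.mem_Ico]
        omega
      rw [this, Nat.card_Ico]
      congr 1
      omega
    rw [s1, s2]
    ring
  have ρ'm : Mass ρ' (1 - θ * w) := by
    intro t
    have h2 : ps ρ' (max t (2 * w)) ≤ 1 - θ * w := by
      have e1 : ps ρ' (max t (2 * w)) = ps ρ (max t (2 * w)) - ps χ (max t (2 * w)) := by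
        unfold ps
        rw [← Finset.sum_sub_distrib]
        refine Finset.sum_congr rfl fun i _ => ?_
        rw [hρ', map_sub]
      have χn : NN χ := by
        intro t
        rw [χc]
        have h3 := κn t
        have h4 : 0 ≤ (if y ≤ t then PowerSeries.coeff (t - y) κ else 0) := by
          split_ifs
          · exact κn _
          · exact le_rfl
        linarith
      have h3 := ps_mono χn (le_max_right t (2 * w))
      rw [χps] at h3
      have h4 := mρ (max t (2 * w))
      linarith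
    exact (ps_mono ρ'n (le_max_left t (2 * w))).trans h2
  have h0 : 0 ≤ 1 - θ * w := ρ'm.nonneg
  have hθw : 0 ≤ θ * w := by positivity
  -- expansion
  have hexp : ρ ^ n = ∑ i ∈ range (n + 1), (n.choose i : ℝ) • (χ ^ i * ρ' ^ (n - i)) := by
    have : ρ = χ + ρ' := by rw [hρ']; ring
    conv_lhs => rw [this]
    rw [add_pow]
    refine Finset.sum_congr rfl fun i _ => ?_
    rw [PowerSeries.smul_eq_C_mul, mul_comm]
    congr 1
  set G : ℕ → ℕ → ℝ := fun i k =>
    PowerSeries.coeff T (PowerSeries.X ^ (k * y) * (κ ^ i * ρ' ^ (n - i) * Y)) with hG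
  have hZn : ∀ i, NN (κ ^ i * ρ' ^ (n - i) * Y) := fun i =>
    ((κn.pow i).mul (ρ'n.pow _)).mul hY
  have hZb : ∀ i, Bdd (κ ^ i * ρ' ^ (n - i) * Y) ((θ * w) ^ i * (1 - θ * w) ^ (n - i)) := by
    intro i
    have a1 := Mass.pow κn κm i
    have a2 := Mass.pow ρ'n ρ'm (n - i)
    have a3 := Mass.mul (κn.pow i) a1 a2
    have := Bdd.mul ((κn.pow i).mul (ρ'n.pow _)) a3 zero_le_one bY
    simpa using this
  have hG0 : ∀ i k, 0 ≤ G i k := by
    intro i k
    rw [hG]
    simp only [PowerSeries.coeff_X_pow_mul']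
    split_ifs
    · exact hZn i _
    · exact le_rfl
  have hG1 : ∀ i k, G i k ≤ (θ * w) ^ i * (1 - θ * w) ^ (n - i) := by
    intro i k
    rw [hG]
    simp only [PowerSeries.coeff_X_pow_mul']
    split_ifs
    · exact hZb i _
    · positivity
  have hχpow : ∀ i, χ ^ i = ∑ k ∈ range (i + 1), bb i k • (PowerSeries.X ^ (k * y) * κ ^ i) := by
    intro i
    rw [hχ, mul_pow, half_pow, Finset.sum_mul]
    refine Finset.sum_congr rfl fun k _ => ?_
    rw [smul_mul_assoc]
  have hL : PowerSeries.coeff T (ρ ^ n * Y)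
      = ∑ i ∈ range (n + 1), (n.choose i : ℝ) * ∑ k ∈ range (i + 1), bb i k * G i k := by
    rw [hexp, Finset.sum_mul, map_sum]
    refine Finset.sum_congr rfl fun i _ => ?_
    rw [smul_mul_assoc, map_smul, smul_eq_mul, hχpow]
    congr 1
    rw [Finset.sum_mul, Finset.sum_mul, map_sum]
    refine Finset.sum_congr rfl fun k _ => ?_
    rw [smul_mul_assoc, smul_mul_assoc, map_smul, smul_eq_mul, hG]
    congr 2
    ring
  have hR : PowerSeries.coeff T (PowerSeries.X ^ y * (ρ ^ n * Y))
      = ∑ i ∈ range (n + 1), (n.choose i : ℝ) * ∑ k ∈ range (i + 1), bb i k * G i (k + 1) := by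
    rw [hexp, Finset.sum_mul, Finset.mul_sum, map_sum]
    refine Finset.sum_congr rfl fun i _ => ?_
    rw [smul_mul_assoc, mul_smul_comm, map_smul, smul_eq_mul, hχpow]
    congr 1
    rw [Finset.sum_mul, Finset.sum_mul, Finset.mul_sum, map_sum]
    refine Finset.sum_congr rfl fun k _ => ?_
    rw [smul_mul_assoc, smul_mul_assoc, mul_smul_comm, map_smul, smul_eq_mul, hG]
    congr 2
    have : (k + 1) * y = y + k * y := by ring
    simp only [this, pow_add]
    ring
  rw [hL, hR, ← Finset.sum_add_distrib]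
  refine Finset.sum_le_sum fun i _ => ?_
  have key := unimodal_shift_gen (bb i) (G i) (1 / Real.sqrt (i + 1))
    ((θ * w) ^ i * (1 - θ * w) ^ (n - i)) (i / 2) (bb_up i) (bb_down i) (bb_nonneg i) (bb_le i)
    (by positivity) (hG0 i) (hG1 i) (i + 1)
  have := mul_le_mul_of_nonneg_left key (Nat.cast_nonneg (α := ℝ) (n.choose i))
  linarith

end Pool.Agent.Helper70
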