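import Mathlib
import Pool.Agent.Helper70.Ren6

set_option autoImplicit false

/-!
Second alternative and the main theorem on discrete renewal sequences.
-/

open Finset

namespace Pool.Agent.Helper70

section killed

variable {f : PowerSeries ℝ} {lam : ℝ}

/-- killed renewal series -/
noncomputable def vv (f : PowerSeries ℝ) (lam : ℝ) : PowerSeries ℝ := u ((1 - lam) • f)

/-- position after a geometric number of steps -/
noncomputable def rho (f : PowerSeries ℝ) (lam : ℝ) : PowerSeries ℝ := lam • vv f lam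

theorem smul_ren (h : Ren f) (h0 : 0 ≤ lam) (h1 : lam ≤ 1) : Ren ((1 - lam) • f) where
  nn := h.nn.smul (by linarith)
  zero := by rw [map_smul, h.zero, smul_zero]
  mass := by
    have := Mass.smul (by linarith : (0 : ℝ) ≤ 1 - lam) h.mass
    refine this.mono ?_
    linarith

theorem vv_nn (h : Ren f) (h0 : 0 ≤ lam) (h1 : lam ≤ 1) : NN (vv f lam) :=
  u_nn (smul_ren h h0 h1).nn (smul_ren h h0 h1).zero

theorem rho_nn (h : Ren f) (h0 : 0 ≤ lam) (h1 : lam ≤ 1) : NN (rho f lam) :=
  (vv_nn h h0 h1).smul h0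

theorem vv_eq (h : Ren f) (h0 : 0 ≤ lam) (h1 : lam ≤ 1) :
    vv f lam = 1 + (1 - lam) • (vv f lam * f) := by
  have := u_eq (smul_ren h h0 h1).zero
  unfold vv
  conv_lhs => rw [this]
  rw [smul_mul_assoc, mul_comm f]

theorem rho_mass (h : Ren f) (h0 : 0 < lam) (h1 : lam ≤ 1) : Mass (rho f lam) 1 := by
  intro n
  have hv := vv_nn h h0.le h1
  have e1 : ps (rho f lam) n = lam * ps (vv f lam) n := by
    unfold rho ps
    rw [Finset.mul_sum]
    refine Finset.sum_congr rfl fun i _ => ?_
    rw [map_smul, smul_eq_mul]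
  have e2 : ps (vv f lam) n = ps 1 n + (1 - lam) * ps (vv f lam * f) n := by
    conv_lhs => rw [vv_eq h h0.le h1]
    unfold ps
    rw [Finset.mul_sum, ← Finset.sum_add_distrib]
    refine Finset.sum_congr rfl fun i _ => ?_
    rw [map_add, map_smul, smul_eq_mul]
  have e3 : ps (vv f lam * f) n ≤ ps (vv f lam) n := by
    rw [ps_mul]
    calc ∑ i ∈ range n, PowerSeries.coeff i (vv f lam) * ps f (n - i)
        ≤ ∑ i ∈ range n, PowerSeries.coeff i (vv f lam) * 1 :=
          Finset.sum_le_sum fun i _ => mul_le_mul_of_nonneg_left (h.mass _) (hv i)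
      _ = _ := by simp [ps]
  have e4 := Mass.one n
  have e5 : 0 ≤ 1 - lam := by linarith
  have e6 := mul_le_mul_of_nonneg_left e3 e5
  rw [e1]
  linarith

theorem rho_u (h : Ren f) (h0 : 0 ≤ lam) (h1 : lam ≤ 1) :
    u f = rho f lam * u f + (1 - lam) • vv f lam := by
  have g0 := (smul_ren h h0 h1).zero
  have e1 := one_sub_mul_u h.zero
  have e2 : (1 - (1 - lam) • f) * vv f lam = 1 := one_sub_mul_u g0
  have e3 : (1 - f) * (rho f lam * u f + (1 - lam) • vv f lam) = 1 := by
    unfold rho
    simp only [PowerSeries.smul_eq_C_mul, map_sub, map_one] at *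
    linear_combination (PowerSeries.C lam * vv f lam) * e1 + e2
  have := u_unique h.zero e3
  rw [mul_one] at this
  exact this.symm

theorem rho_pow_u (h : Ren f) (h0 : 0 ≤ lam) (h1 : lam ≤ 1) (n : ℕ) :
    u f = rho f lam ^ n * u f + (1 - lam) • ∑ i ∈ range n, rho f lam ^ i * vv f lam := by
  induction n with
  | zero => simp
  | succ n ih =>
    rw [Finset.sum_range_succ, smul_add]
    have e := rho_u h h0 h1
    have e2 : rho f lam ^ n * u f
        = rho f lam ^ (n + 1) * u f + (1 - lam) • (rho f lam ^ n * vv f lam) := by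
      conv_lhs => rw [e]
      rw [mul_add, mul_smul_comm]
      ring
    conv_lhs => rw [ih, e2]
    ring

theorem rho_lower (h : Ren f) (h0 : 0 ≤ lam) (h1 : lam ≤ 1) (t : ℕ) :
    lam * ((1 - lam) ^ t * PowerSeries.coeff t (u f)) ≤ PowerSeries.coeff t (rho f lam) := by
  unfold rho
  rw [map_smul, smul_eq_mul]
  refine mul_le_mul_of_nonneg_left ?_ h0
  unfold vv
  rw [u_exp (smul_ren h h0 h1).zero (le_refl t), u_exp h.zero (le_refl t), Finset.mul_sum]
  refine Finset.sum_le_sum fun l hl => ?_
  have hl' := Finset.mem_range.1 hl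
  rw [smul_pow, map_smul, smul_eq_mul]
  refine mul_le_mul_of_nonneg_right ?_ (h.nn.pow l t)
  exact pow_le_pow_of_le_one (by linarith) (by linarith) (by omega)

theorem rho_term (h : Ren f) (h0 : 0 ≤ lam) (h1 : lam ≤ 1) (i l0 T : ℕ) :
    PowerSeries.coeff T (rho f lam ^ i * vv f lam)
      ≤ Real.exp (lam * i) * (∑ l ∈ range l0, PowerSeries.coeff T (f ^ l))
        + 2 ^ i * Real.exp (lam * i / 2) * Real.exp (-(lam * l0) / 2) := by
  have e1 : rho f lam ^ i * vv f lam = lam ^ i • u ((1 - lam) • f) ^ (i + 1) := by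
    unfold rho vv
    rw [smul_pow, smul_mul_assoc, ← pow_succ]
  rw [e1, map_smul, smul_eq_mul, pow_exp (smul_ren h h0 h1).zero i (le_refl T), Finset.mul_sum]
  have key : ∀ l ∈ range (T + 1), lam ^ i * (((l + i).choose i : ℝ)
        * PowerSeries.coeff T (((1 - lam) • f) ^ l))
      ≤ Real.exp (lam * i) * (if l < l0 then PowerSeries.coeff T (f ^ l) else 0)
        + (2 ^ i * Real.exp (lam * i / 2) * Real.exp (-(lam * l0) / 2))
          * PowerSeries.coeff T (f ^ l) := by
    intro l _
    have hn := h.nn.pow l T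
    have e2 : lam ^ i * (((l + i).choose i : ℝ) * PowerSeries.coeff T (((1 - lam) • f) ^ l))
        = ww lam i l * PowerSeries.coeff T (f ^ l) := by
      rw [smul_pow, map_smul, smul_eq_mul]
      unfold ww
      ring
    rw [e2]
    split_ifs with hl
    · have a1 := mul_le_mul_of_nonneg_right (ww_le_crude h0 h1 i l) hn
      have a2 : 0 ≤ (2 ^ i * Real.exp (lam * i / 2) * Real.exp (-(lam * l0) / 2))
          * PowerSeries.coeff T (f ^ l) := by positivity
      linarith
    · have a1 := mul_le_mul_of_nonneg_right (ww_le_tail h0 h1 i l) hn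
      have a3 : Real.exp (-(lam * l) / 2) ≤ Real.exp (-(lam * l0) / 2) := by
        apply Real.exp_le_exp.2
        have : (l0 : ℝ) ≤ l := by exact_mod_cast not_lt.1 hl
        nlinarith
      have a2 : (2 ^ i * Real.exp (lam * i / 2) * Real.exp (-(lam * l) / 2))
          * PowerSeries.coeff T (f ^ l)
          ≤ (2 ^ i * Real.exp (lam * i / 2) * Real.exp (-(lam * l0) / 2))
          * PowerSeries.coeff T (f ^ l) := by gcongr
      rw [mul_zero, zero_add]
      exact a1.trans a2
  refine (Finset.sum_le_sum key).trans ?_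
  rw [Finset.sum_add_distrib, ← Finset.mul_sum, ← Finset.mul_sum]
  refine add_le_add ?_ ?_
  · refine mul_le_mul_of_nonneg_left ?_ (Real.exp_pos _).le
    rw [← Finset.sum_filter]
    refine Finset.sum_le_sum_of_subset_of_nonneg ?_ ?_
    · intro l hl
      exact Finset.mem_range.2 (Finset.mem_filter.1 hl).2
    · intro l _ _
      exact h.nn.pow l T
  · have := sum_pow_le_one h (T + 1) T
    calc _ ≤ (2 ^ i * Real.exp (lam * i / 2) * Real.exp (-(lam * l0) / 2)) * 1 :=
          mul_le_mul_of_nonneg_left this (by positivity)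
      _ = _ := mul_one _

end killed

section few

variable {f : PowerSeries ℝ}

/-- reaching a far point in few steps -/
theorem few_steps (h : Ren f) {b' : ℕ} (hb : 1 ≤ b') (l0 T : ℕ) :
    ∑ l ∈ range l0, PowerSeries.coeff T (f ^ l)
      ≤ PowerSeries.coeff T (u (below b' f)) + l0 * r f (b' - 1) := by
  have hg := h.below b'
  have hBn : NN (above b' f) := h.nn.above b'
  have hBm : Mass (above b' f) (r f (b' - 1)) := by
    intro n
    rw [r_pred hb]
    rcases le_total n b' with hn | hn
    · rw [ps_above_of_le hn]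
      linarith [h.mass b']
    · rw [ps_above_of_ge hn]
      linarith [h.mass n]
  have hr0 := r_nonneg h (b' - 1)
  have hZ : ∀ l0 T, PowerSeries.coeff T (∑ l ∈ range l0, f ^ l) ≤ 1 := by
    intro l0 T
    rw [map_sum]
    exact sum_pow_le_one h l0 T
  have key : ∀ l0 T, PowerSeries.coeff T (∑ l ∈ range l0, f ^ l)
      ≤ PowerSeries.coeff T (u (below b' f)) + l0 * r f (b' - 1) := by
    intro l0
    induction l0 with
    | zero =>
      intro T
      have := u_nn hg.nn hg.zero T
      simpa using this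
    | succ l0 ih =>
      intro T
      have e1 : ∑ l ∈ range (l0 + 1), f ^ l = 1 + below b' f * (∑ l ∈ range l0, f ^ l)
          + above b' f * ∑ l ∈ range l0, f ^ l := by
        have e2 : ∑ l ∈ range (l0 + 1), f ^ l = 1 + f * ∑ l ∈ range l0, f ^ l := by
          rw [Finset.sum_range_succ', pow_zero, add_comm, Finset.mul_sum]
          congr 1
          refine Finset.sum_congr rfl fun l _ => ?_
          rw [pow_succ']
        rw [e2]
        have e3 := below_add_above b' f
        linear_combination -(∑ l ∈ range l0, f ^ l) * e3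
      rw [e1, map_add, map_add]
      have s1 : PowerSeries.coeff T (above b' f * ∑ l ∈ range l0, f ^ l) ≤ r f (b' - 1) := by
        have := Bdd.mul hBn hBm zero_le_one (hZ l0) T
        simpa using this
      have s2 : PowerSeries.coeff T (below b' f * ∑ l ∈ range l0, f ^ l)
          ≤ PowerSeries.coeff T (below b' f * u (below b' f)) + l0 * r f (b' - 1) := by
        rw [coeff_mul_range, coeff_mul_range]
        calc ∑ k ∈ range (T + 1), PowerSeries.coeff k (below b' f)
              * PowerSeries.coeff (T - k) (∑ l ∈ range l0, f ^ l)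
            ≤ ∑ k ∈ range (T + 1), (PowerSeries.coeff k (below b' f)
              * PowerSeries.coeff (T - k) (u (below b' f))
              + PowerSeries.coeff k (below b' f) * (l0 * r f (b' - 1))) := by
              refine Finset.sum_le_sum fun k _ => ?_
              rw [← mul_add]
              exact mul_le_mul_of_nonneg_left (ih (T - k)) (hg.nn k)
          _ ≤ _ := by
              rw [Finset.sum_add_distrib, ← Finset.sum_mul]
              refine add_le_add le_rfl ?_
              have := hg.mass (T + 1)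
              unfold ps at this
              calc _ ≤ 1 * (l0 * r f (b' - 1)) :=
                    mul_le_mul_of_nonneg_right this (by positivity)
                _ = _ := one_mul _
      have s3 : PowerSeries.coeff T (u (below b' f))
          = PowerSeries.coeff T (1 : PowerSeries ℝ)
            + PowerSeries.coeff T (below b' f * u (below b' f)) := by
        conv_lhs => rw [u_eq hg.zero]
        rw [map_add]
      push_cast
      linarith
  have := key l0 T
  rwa [map_sum] at this

end few

/-- slow variation: a point that is hard to reach in few steps has small probability -/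
theorem slow_point {c : ℝ} (hc : 0 < c) (hc1 : c ≤ 1) {ζ : ℝ} (hζ : 0 < ζ) :
    ∃ (C : ℕ) (z : ℝ), 0 < z ∧ ∀ f : PowerSeries ℝ, Ren f → ∀ w T : ℕ, 1 ≤ w → w ≤ T →
      (∀ t, t < 2 * w → c ≤ PowerSeries.coeff t (u f)) →
      (∑ l ∈ range (2 * w * C), PowerSeries.coeff T (f ^ l) ≤ z) →
      PowerSeries.coeff T (u f) ≤ ζ + ps (u f) w / w := by
  -- parameters
  set c7 : ℝ := c / 8 with hc7
  have hc70 : 0 < c7 := by positivity
  have hc71 : c7 ≤ 1 := by linarith
  set α : ℝ := ζ / 2 with hα
  have hα0 : 0 < α := by positivity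
  obtain ⟨n, hn⟩ := exists_nat_ge (1 / (α ^ 2 * c7))
  have hsum : α / 2 + 1 / (2 * α * ((n + 1) * c7)) ≤ ζ / 2 := by
    have h1 : 1 / (2 * α * (((n : ℝ) + 1) * c7)) ≤ α / 2 := by
      rw [div_le_iff₀ (by positivity)]
      rw [div_le_iff₀ (by positivity)] at hn
      nlinarith
    linarith
  obtain ⟨C, hC⟩ : ∃ C : ℕ, (n : ℝ) * (2 ^ n * Real.exp n * Real.exp (-(C : ℝ) / 2)) ≤ ζ / 4 := by
    set D : ℝ := (n : ℝ) * (2 ^ n * Real.exp n) with hD
    have hD0 : 0 ≤ D := by positivity
    obtain ⟨C, hC⟩ := exists_nat_ge (2 * (4 * D / ζ))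
    refine ⟨C, ?_⟩
    have h1 : 4 * D / ζ ≤ Real.exp ((C : ℝ) / 2) := by
      have := Real.add_one_le_exp ((C : ℝ) / 2)
      linarith
    rw [div_le_iff₀ hζ] at h1
    have h2 : Real.exp (-(C : ℝ) / 2) = (Real.exp ((C : ℝ) / 2))⁻¹ := by
      rw [← Real.exp_neg]
      congr 1
      ring
    have h3 : (n : ℝ) * (2 ^ n * Real.exp n * Real.exp (-(C : ℝ) / 2))
        = D * (Real.exp ((C : ℝ) / 2))⁻¹ := by
      rw [h2, hD]
      ring
    rw [h3, ← div_eq_mul_inv, div_le_iff₀ (Real.exp_pos _)]
    linarith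
  set z : ℝ := ζ / 4 / ((n : ℝ) * Real.exp n + 1) with hz
  have hz0 : 0 < z := by positivity
  refine ⟨C, z, hz0, ?_⟩
  intro f h w T hw hwT hlow hfew
  have hw' : (1 : ℝ) ≤ w := by exact_mod_cast hw
  have hw0 : (0 : ℝ) < w := by linarith
  set lam : ℝ := 1 / (2 * w) with hlam
  have hl0 : 0 < lam := by positivity
  have hl1 : lam ≤ 1 := by
    rw [hlam, div_le_one (by positivity)]
    linarith
  have hun := u_nn h.nn h.zero
  set ρ := rho f lam with hρ
  have ρn : NN ρ := rho_nn h hl0.le hl1
  have ρm : Mass ρ 1 := rho_mass h hl0 hl1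
  -- lower bound for ρ
  set θ : ℝ := c7 / w with hθ
  have hθ0 : 0 ≤ θ := by positivity
  have hθw : θ * w = c7 := by rw [hθ]; field_simp
  have hρlow : ∀ t, t < 2 * w → θ ≤ PowerSeries.coeff t ρ := by
    intro t ht
    refine le_trans ?_ (rho_lower h hl0.le hl1 t)
    have h1 : (1 : ℝ) / 4 ≤ (1 - lam) ^ t := by
      have h2 : (1 : ℝ) / 2 ≤ (1 - lam) ^ w := by
        have := one_add_mul_le_pow (a := -lam) (by linarith) w
        have e : 1 + (w : ℝ) * (-lam) = 1 / 2 := by
          rw [hlam]
          field_simp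
          ring
        rw [e] at this
        have e2 : 1 + -lam = 1 - lam := by ring
        rwa [e2] at this
      have h3 : (1 : ℝ) / 4 ≤ (1 - lam) ^ (2 * w) := by
        rw [two_mul, pow_add]
        nlinarith
      exact h3.trans (pow_le_pow_of_le_one (by linarith) (by linarith) ht.le)
    have h4 := hlow t ht
    have e : θ = lam * ((1 / 4) * c) := by
      rw [hθ, hlam, hc7]
      field_simp
      ring
    rw [e]
    gcongr
  -- the remainder
  have hrem : PowerSeries.coeff T (u f) ≤ PowerSeries.coeff T (ρ ^ n * u f) + ζ / 2 := by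
    have e1 := congrArg (PowerSeries.coeff T) (rho_pow_u h hl0.le hl1 n)
    rw [map_add, map_smul, map_sum, smul_eq_mul] at e1
    have e2 : ∑ i ∈ range n, PowerSeries.coeff T (rho f lam ^ i * vv f lam)
        ≤ (n : ℝ) * (Real.exp n * z + 2 ^ n * Real.exp n * Real.exp (-(C : ℝ) / 2)) := by
      have e3 : ∀ i ∈ range n, PowerSeries.coeff T (rho f lam ^ i * vv f lam)
          ≤ Real.exp n * z + 2 ^ n * Real.exp n * Real.exp (-(C : ℝ) / 2) := by
        intro i hi
        have hi' : (i : ℝ) ≤ n := by exact_mod_cast (Finset.mem_range.1 hi).le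
        refine (rho_term h hl0.le hl1 i (2 * w * C) T).trans ?_
        have a1 : Real.exp (lam * i) ≤ Real.exp n := by
          apply Real.exp_le_exp.2
          nlinarith [Nat.cast_nonneg (α := ℝ) i]
        have a2 : Real.exp (lam * i / 2) ≤ Real.exp n := by
          apply Real.exp_le_exp.2
          nlinarith [Nat.cast_nonneg (α := ℝ) i]
        have a3 : (2 : ℝ) ^ i ≤ 2 ^ n :=
          pow_le_pow_right₀ (by norm_num) (Finset.mem_range.1 hi).le
        have a4 : Real.exp (-(lam * ((2 * w * C : ℕ) : ℝ)) / 2) = Real.exp (-(C : ℝ) / 2) := by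
          congr 2
          rw [hlam]
          push_cast
          field_simp
        rw [a4]
        have a5 : 0 ≤ ∑ l ∈ range (2 * w * C), PowerSeries.coeff T (f ^ l) :=
          Finset.sum_nonneg fun l _ => h.nn.pow l T
        gcongr
      calc _ ≤ ∑ i ∈ range n, (Real.exp n * z + 2 ^ n * Real.exp n * Real.exp (-(C : ℝ) / 2)) :=
            Finset.sum_le_sum e3
        _ = _ := by rw [Finset.sum_const, Finset.card_range, nsmul_eq_mul]
    have e4 : 0 ≤ ∑ i ∈ range n, PowerSeries.coeff T (rho f lam ^ i * vv f lam) :=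
      Finset.sum_nonneg fun i _ => ((rho_nn h hl0.le hl1).pow i).mul (vv_nn h hl0.le hl1) T
    have e5 : (1 - lam) * ∑ i ∈ range n, PowerSeries.coeff T (rho f lam ^ i * vv f lam)
        ≤ 1 * ∑ i ∈ range n, PowerSeries.coeff T (rho f lam ^ i * vv f lam) :=
      mul_le_mul_of_nonneg_right (by linarith) e4
    have e6 : (n : ℝ) * (Real.exp n * z) ≤ ζ / 4 := by
      have : (n : ℝ) * (Real.exp n * z) = ((n : ℝ) * Real.exp n) * z := by ring
      rw [this, hz]
      have h7 : 0 ≤ (n : ℝ) * Real.exp n := by positivity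
      rw [mul_div_assoc', div_le_iff₀ (by positivity)]
      nlinarith
    have e7 : (n : ℝ) * (Real.exp n * z + 2 ^ n * Real.exp n * Real.exp (-(C : ℝ) / 2))
        ≤ ζ / 4 + ζ / 4 := by
      rw [mul_add]
      exact add_le_add e6 hC
    rw [e1]
    linarith
  -- comparison with shifts
  have hshift : ∀ y, y < w → PowerSeries.coeff T (u f)
      ≤ PowerSeries.coeff (T - y) (u f) + ζ := by
    intro y hy
    have h1 := mineka ρn ρm hun (u_le_one h) hy.le hθ0 hρlow n T
    rw [hθw] at h1
    have h2 := binom_sqrt_sum n hc70 hc71 hα0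
    rw [PowerSeries.coeff_X_pow_mul', if_pos (by omega)] at h1
    have h3 : PowerSeries.coeff (T - y) (ρ ^ n * u f) ≤ PowerSeries.coeff (T - y) (u f) := by
      have e1 := congrArg (PowerSeries.coeff (T - y)) (rho_pow_u h hl0.le hl1 n)
      rw [map_add, map_smul, map_sum, smul_eq_mul] at e1
      have e4 : 0 ≤ ∑ i ∈ range n, PowerSeries.coeff (T - y) (rho f lam ^ i * vv f lam) :=
        Finset.sum_nonneg fun i _ => ((rho_nn h hl0.le hl1).pow i).mul (vv_nn h hl0.le hl1) _
      have e5 : 0 ≤ 1 - lam := by linarith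
      have e6 := mul_nonneg e5 e4
      linarith
    linarith
  -- average
  have hav : (w : ℝ) * PowerSeries.coeff T (u f) ≤ ps (u f) w + w * ζ := by
    have e1 : (w : ℝ) * PowerSeries.coeff T (u f) = ∑ y ∈ range w, PowerSeries.coeff T (u f) := by
      simp
    have e2 : ∑ y ∈ range w, PowerSeries.coeff T (u f)
        ≤ ∑ y ∈ range w, (PowerSeries.coeff (T - y) (u f) + ζ) :=
      Finset.sum_le_sum fun y hy => hshift y (Finset.mem_range.1 hy)
    have e3 : ∑ y ∈ range w, PowerSeries.coeff (T - y) (u f)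
        = ps (u f) (T + 1) - ps (u f) (T + 1 - w) := by
      unfold ps
      rw [← Finset.sum_Ico_eq_sub _ (by omega : T + 1 - w ≤ T + 1), Finset.sum_Ico_eq_sum_range]
      have e4 : T + 1 - (T + 1 - w) = w := by omega
      rw [e4, ← Finset.sum_range_reflect]
      refine Finset.sum_congr rfl fun y hy => ?_
      have := Finset.mem_range.1 hy
      congr 2
      omega
    have e5 := window h (T + 1 - w) w
    have e6 : T + 1 - w + w = T + 1 := by omega
    rw [e6] at e5
    have e7 : ∑ _y ∈ range w, ζ = w * ζ := by simp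
    rw [Finset.sum_add_distrib, e3, e7, ← e1] at e2
    linarith
  have : PowerSeries.coeff T (u f) ≤ (ps (u f) w + w * ζ) / w := by
    rw [le_div_iff₀ hw0]
    linarith
  calc PowerSeries.coeff T (u f) ≤ (ps (u f) w + w * ζ) / w := this
    _ = ζ + ps (u f) w / w := by
      field_simp
      ring

/-- **Main theorem on discrete renewal sequences.** -/
theorem renewal_main {M0 : ℝ} (hM : Real.exp (-1) < M0) :
    ∃ ε q0 : ℝ, 0 < ε ∧ 0 < q0 ∧ q0 ≤ 1 / 2 ∧ ∀ f : PowerSeries ℝ, Ren f → r f 1 ≤ q0 →
      ∀ s T : ℕ, s ≤ T → PowerSeries.coeff s (u f) ≤ ε → PowerSeries.coeff T (u f) ≤ M0 := by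
  obtain ⟨η, q0, hη0, hη1, hq0, hq1, hI⟩ := caseI (sub_pos.2 hM)
  -- scale constants
  obtain ⟨c, hc0, hc1, hlow⟩ := lower_bound (Θ := 32) (by norm_num)
  obtain ⟨C, z, hz0, hslow⟩ := slow_point hc0 hc1 (ζ := 1 / 10) (by norm_num)
  set δ : ℝ := min (c / 1) (min (η / 2) (min (z / 2) (1 / 4))) with hδ
  have hδ0 : 0 < δ := by
    rw [hδ]
    refine lt_min (by positivity) (lt_min (by positivity) (lt_min (by positivity) (by norm_num)))
  have hδc : δ ≤ c := by
    have : δ ≤ c / 1 := min_le_left _ _
    simpa using this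
  have hδη : δ ≤ η / 2 := (min_le_right _ _).trans (min_le_left _ _)
  have hδz : δ ≤ z / 2 := (min_le_right _ _).trans ((min_le_right _ _).trans (min_le_left _ _))
  have hδ4 : δ ≤ 1 / 4 := (min_le_right _ _).trans ((min_le_right _ _).trans (min_le_right _ _))
  have hδ1 : δ ≤ 1 := by linarith
  -- number of scales
  obtain ⟨K, hK⟩ : ∃ K : ℕ, 2 * (C : ℝ) * 16 / (1 + η / 2) ^ K ≤ z / 2 := by
    have hx : 1 < 1 + η / 2 := by linarith
    obtain ⟨K, hK⟩ := pow_unbounded_of_one_lt (2 * (C : ℝ) * 16 / (z / 2)) hx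
    refine ⟨K, ?_⟩
    rw [div_le_iff₀ (by positivity)]
    rw [div_lt_iff₀ (by positivity)] at hK
    linarith
  refine ⟨dd δ (K + 1), q0, dd_pos hδ0 _, hq0, hq1, ?_⟩
  intro f h hr s T hsT hs
  have hr2 : r f 1 ≤ 1 / 2 := hr.trans hq1
  have hun := u_nn h.nn h.zero
  set B : ℕ → ℕ := fun k => first f (dd δ k) with hB
  have hsk : ∀ k, k ≤ K + 1 → PowerSeries.coeff s (u f) ≤ dd δ k :=
    fun k hk => hs.trans (dd_anti hδ0 hδ1 hk)
  have hBs : ∀ k, k ≤ K + 1 → B k ≤ s := fun k hk => first_le (hsk k hk)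
  have hBmono : ∀ k, k < K + 1 → B k ≤ B (k + 1) := by
    intro k hk
    have h2 := first_spec (hsk (k + 1) hk)
    exact first_le (h2.trans (dd_anti hδ0 hδ1 (Nat.le_succ k)))
  have hdk : ∀ k, dd δ k ≤ δ := by
    intro k
    calc dd δ k ≤ dd δ 0 := dd_anti hδ0 hδ1 (Nat.zero_le k)
      _ = δ := dd_zero
  have hB2 : ∀ k, k ≤ K + 1 → 2 ≤ B k := by
    intro k hk
    refine two_le_first h hr2 ?_ (hsk k hk)
    have := hdk k
    linarith
  by_cases hcase : ∃ k, k < K + 1 ∧ sg f (B (k + 1)) ≤ η
  · obtain ⟨k, hk, hsg⟩ := hcase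
    have := hI f h hr (B (k + 1)) T (hB2 (k + 1) hk) ((hBs (k + 1) hk).trans hsT) hsg
    linarith
  · push Not at hcase
    -- tails decay geometrically
    have hdecay : ∀ k, k < K + 1 →
        (1 + η / 2) * r f (B (k + 1) - 1) ≤ r f (B k - 1) := by
      intro k hk
      have h1 := hcase k hk
      have h2 := sg_le h (show 1 ≤ B k from le_trans (by norm_num) (hB2 k hk.le)) (hBmono k hk)
      have h3 : SS f (B k) (B (k + 1)) ≤ dd δ k := SS_dd h hδ0 hδ1 (hsk (k + 1) hk)
      have h4 : dd δ k ≤ η / 2 := (hdk k).trans hδη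
      have h5 : η / 2 < (r f (B k - 1) - r f (B (k + 1) - 1)) * ps (u f) (B (k + 1)) := by
        linarith
      have hb : 1 ≤ B (k + 1) := le_trans (by norm_num) (hB2 (k + 1) hk)
      have h6 := ps_u_mul_r_le h hb
      have h7 := r_nonneg h (B (k + 1) - 1)
      have h8 : r f (B (k + 1) - 1) ≤ r f (B k - 1) := by
        have := hBmono k hk
        exact r_anti h (by omega)
      have h9 := mul_le_mul_of_nonneg_right h5.le h7
      have h10 : (r f (B k - 1) - r f (B (k + 1) - 1)) * (r f (B (k + 1) - 1) * ps (u f) (B (k + 1)))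
          ≤ (r f (B k - 1) - r f (B (k + 1) - 1)) * 1 :=
        mul_le_mul_of_nonneg_left h6 (by linarith)
      linarith
    have hdecay2 : ∀ k, k ≤ K + 1 → (1 + η / 2) ^ k * r f (B k - 1) ≤ r f (B 0 - 1) := by
      intro k
      induction k with
      | zero => intro _; simp
      | succ k ih =>
        intro hk
        have h1 := hdecay k (by omega)
        have h2 := ih (by omega)
        rw [pow_succ]
        have h3 := mul_le_mul_of_nonneg_left h1 (show 0 ≤ (1 + η / 2) ^ k by positivity)
        linarith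
    -- the scale w
    have hex : ∃ n, (16 : ℝ) < RR f n := by
      refine ⟨s, ?_⟩
      by_contra hno
      have h1 := hlow f h hr2 s (by linarith [not_lt.1 hno])
      have h2 := hsk 0 (Nat.zero_le _)
      have h3 := hdk 0
      linarith
    classical
    set n := Nat.find hex with hn
    have hns := Nat.find_spec hex
    rw [← hn] at hns
    have hn2 : 2 ≤ n := by
      by_contra hlt
      have : n = 0 ∨ n = 1 := by omega
      rcases this with h0 | h0
      · rw [h0, RR_zero] at hns
        norm_num at hns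
      · rw [h0, RR_succ, RR_zero, r_zero h.zero] at hns
        norm_num at hns
    obtain ⟨w, hw⟩ : ∃ w, n = w + 1 := ⟨n - 1, by omega⟩
    have hw1 : 1 ≤ w := by omega
    have hRw : RR f w ≤ 16 := by
      have := Nat.find_min hex (show w < n by omega)
      exact not_lt.1 this
    have hRw' : 15 ≤ RR f w := by
      rw [hw, RR_succ] at hns
      have := r_le_one h w
      linarith
    have hR2w : RR f (2 * w) ≤ 32 := by
      have := RR_double h w
      linarith
    have hlow' : ∀ t, t ≤ 2 * w → c < PowerSeries.coeff t (u f) := by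
      intro t ht
      exact hlow f h hr2 t ((RR_mono h ht).trans hR2w)
    have hwB : 2 * w < B 0 := by
      by_contra hle
      have h1 := hlow' (B 0) (not_lt.1 hle)
      have h2 : PowerSeries.coeff (B 0) (u f) ≤ dd δ 0 := first_spec (hsk 0 (Nat.zero_le _))
      have h3 := hdk 0
      linarith
    have hwT : w ≤ T := by
      have := hBs 0 (Nat.zero_le _)
      omega
    -- tail at scale
    have hwr : (w : ℝ) * r f (B K - 1) ≤ 16 / (1 + η / 2) ^ K := by
      have h1 := hdecay2 K (Nat.le_succ K)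
      have h2 : r f (B 0 - 1) ≤ r f (w - 1) := r_anti h (by omega)
      have h3 := mul_r_le_RR h w
      rw [le_div_iff₀ (by positivity)]
      have hw0 : (0 : ℝ) ≤ w := Nat.cast_nonneg w
      calc (w : ℝ) * r f (B K - 1) * (1 + η / 2) ^ K
          = w * ((1 + η / 2) ^ K * r f (B K - 1)) := by ring
        _ ≤ w * r f (w - 1) := mul_le_mul_of_nonneg_left (h1.trans h2) hw0
        _ ≤ 16 := h3.trans hRw
    have hfew : ∑ l ∈ range (2 * w * C), PowerSeries.coeff T (f ^ l) ≤ z := by
      have h1 := few_steps h (show 1 ≤ B K from le_trans (by norm_num) (hB2 K (Nat.le_succ K)))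
        (2 * w * C) T
      have h2 := u_below_le_SS h (b' := B K)
        (show 1 ≤ B (K + 1) from le_trans (by norm_num) (hB2 (K + 1) le_rfl))
        ((hBs (K + 1) le_rfl).trans hsT)
      have h3 : SS f (B K) (B (K + 1)) ≤ dd δ K := SS_dd h hδ0 hδ1 (hsk (K + 1) le_rfl)
      have h4 := hdk K
      have h5 : ((2 * w * C : ℕ) : ℝ) * r f (B K - 1) ≤ z / 2 := by
        push_cast
        calc 2 * (w : ℝ) * C * r f (B K - 1) = (2 * C) * (w * r f (B K - 1)) := by ring
          _ ≤ (2 * C) * (16 / (1 + η / 2) ^ K) :=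
              mul_le_mul_of_nonneg_left hwr (by positivity)
          _ = 2 * (C : ℝ) * 16 / (1 + η / 2) ^ K := by ring
          _ ≤ z / 2 := hK
      linarith
    have hfin := hslow f h w T hw1 hwT (fun t ht => (hlow' t ht.le).le) hfew
    have hUw : ps (u f) w / w ≤ 2 / 15 := by
      have hw0 : (0 : ℝ) < w := by exact_mod_cast hw1
      have h1 := UR_le h w
      have h2 := ps_nonneg hun w
      rw [div_le_div_iff₀ hw0 (by norm_num)]
      nlinarith
    have he : (1 : ℝ) / 3 < Real.exp (-1) := by
      rw [Real.exp_neg, one_div]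
      apply inv_strictAnti₀ (Real.exp_pos 1)
      have := Real.exp_one_lt_d9
      linarith
    linarith

end Pool.Agent.Helper70
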