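import Mathlib
import Pool.Agent.Helper70.Ren7
import Pool.Agent.Helper70.Br1

set_option autoImplicit false

/-!
From the canonical Laplace form to discrete renewal sequences by Poisson sampling.
-/

open MeasureTheory Filter Topology Set

namespace Pool.Agent.Helper70

/-- a power series vanishing near the origin has zero coefficients -/
theorem coeff_zero_of_hasSum {d : ℕ → ℝ}
    (h : ∀ z : ℝ, |z| < 1 → HasSum (fun n => z ^ n * d n) 0) : ∀ n, d n = 0 := by
  intro n
  induction n using Nat.strong_induction_on with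
  | _ n ih =>
    have hsum : Summable (fun j => (1 / 2 : ℝ) ^ (j + (n + 1)) * d (j + (n + 1))) :=
      (summable_nat_add_iff (n + 1)).2 (h (1 / 2) (by rw [abs_of_pos] <;> norm_num)).summable
    set M : ℝ := ∑' j, |(1 / 2 : ℝ) ^ (j + (n + 1)) * d (j + (n + 1))| with hM
    have hM0 : 0 ≤ M := tsum_nonneg fun j => abs_nonneg _
    have key : ∀ z : ℝ, 0 < z → z ≤ 1 / 2 → |d n| ≤ z * (2 ^ (n + 1) * M) := by
      intro z hz hz2
      have hz1 : |z| < 1 := by rw [abs_of_pos hz]; linarith
      have h1 := h z hz1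
      have hs1 := h1.summable
      have h2 := hs1.sum_add_tsum_nat_add (n + 1)
      rw [h1.tsum_eq, Finset.sum_range_succ, Finset.sum_eq_zero (fun i hi => by
        rw [ih i (Finset.mem_range.1 hi), mul_zero]), zero_add] at h2
      have h3 : z ^ n * |d n| ≤ z ^ (n + 1) * (2 ^ (n + 1) * M) := by
        have e1 : z ^ n * |d n| = |∑' j, z ^ (j + (n + 1)) * d (j + (n + 1))| := by
          have : z ^ n * d n = -∑' j, z ^ (j + (n + 1)) * d (j + (n + 1)) := by linarith
          rw [← abs_of_pos (pow_pos hz n), ← abs_mul, this, abs_neg]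
        rw [e1]
        have e2 : ∀ j, ‖z ^ (j + (n + 1)) * d (j + (n + 1))‖
            ≤ (z ^ (n + 1) * 2 ^ (n + 1)) * |(1 / 2 : ℝ) ^ (j + (n + 1)) * d (j + (n + 1))| := by
          intro j
          rw [Real.norm_eq_abs, abs_mul, abs_mul, abs_of_pos (pow_pos hz _),
            abs_of_pos (pow_pos (by norm_num : (0 : ℝ) < 1 / 2) _), ← mul_assoc]
          refine mul_le_mul_of_nonneg_right ?_ (abs_nonneg _)
          rw [pow_add z j (n + 1), pow_add (1 / 2 : ℝ) j (n + 1)]
          have h4 : z ^ j ≤ (1 / 2 : ℝ) ^ j := pow_le_pow_left₀ hz.le hz2 j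
          have h5 : (2 : ℝ) ^ (n + 1) * (1 / 2) ^ (n + 1) = 1 := by
            rw [← mul_pow]
            norm_num
          calc z ^ j * z ^ (n + 1) ≤ (1 / 2 : ℝ) ^ j * z ^ (n + 1) :=
                mul_le_mul_of_nonneg_right h4 (by positivity)
            _ = z ^ (n + 1) * (2 ^ (n + 1) * (1 / 2) ^ (n + 1)) * (1 / 2) ^ j := by
                rw [h5]; ring
            _ = _ := by ring
        have hs2 : Summable fun j => (z ^ (n + 1) * 2 ^ (n + 1))
            * |(1 / 2 : ℝ) ^ (j + (n + 1)) * d (j + (n + 1))| := hsum.abs.mul_left _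
        have h6 := tsum_of_norm_bounded hs2.hasSum e2
        rw [Real.norm_eq_abs, tsum_mul_left, ← hM] at h6
        linarith
      have h7 : z ^ (n + 1) * (2 ^ (n + 1) * M) = z ^ n * (z * (2 ^ (n + 1) * M)) := by ring
      rw [h7] at h3
      exact le_of_mul_le_mul_left h3 (pow_pos hz n)
    by_contra hne
    have hpos : 0 < |d n| := abs_pos.2 hne
    set D : ℝ := 2 ^ (n + 1) * M with hD
    have hD0 : 0 ≤ D := by positivity
    have hz0 : 0 < min (1 / 2) (|d n| / (2 * (D + 1))) := by
      refine lt_min (by norm_num) (by positivity)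
    have h8 := key _ hz0 (min_le_left _ _)
    have h9 : min (1 / 2) (|d n| / (2 * (D + 1))) * D ≤ |d n| / (2 * (D + 1)) * D :=
      mul_le_mul_of_nonneg_right (min_le_right _ _) hD0
    have h10 : |d n| / (2 * (D + 1)) * D ≤ |d n| / 2 := by
      rw [div_mul_eq_mul_div, div_le_div_iff₀ (by positivity) (by norm_num)]
      nlinarith
    linarith

theorem hasSum_int {ν : Measure ℝ} {F : ℕ → ℝ → ℝ} {g : ℝ → ℝ}
    (hF : ∀ n, AEStronglyMeasurable (F n) ν) (hg : Integrable g ν)
    (hb : ∀ᵐ x ∂ν, ∀ N, ∑ n ∈ Finset.range N, |F n x| ≤ g x) :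
    (∀ n, Integrable (F n) ν) ∧ Summable (fun n => ∫ x, |F n x| ∂ν) ∧
      HasSum (fun n => ∫ x, F n x ∂ν) (∫ x, ∑' n, F n x ∂ν) := by
  have h1 : ∀ n, Integrable (F n) ν := by
    intro n
    refine Integrable.mono' hg (hF n) ?_
    filter_upwards [hb] with x hx
    have h2 := hx (n + 1)
    rw [Finset.sum_range_succ] at h2
    have h3 : 0 ≤ ∑ i ∈ Finset.range n, |F i x| := Finset.sum_nonneg fun i _ => abs_nonneg _
    rw [Real.norm_eq_abs]
    linarith
  have h2 : Summable (fun n => ∫ x, |F n x| ∂ν) := by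
    refine summable_of_sum_range_le (c := ∫ x, g x ∂ν) ?_ ?_
    · intro n
      exact integral_nonneg fun x => abs_nonneg _
    · intro N
      rw [← integral_finsetSum _ (fun i _ => (h1 i).abs)]
      refine integral_mono_ae (integrable_finsetSum _ fun i _ => (h1 i).abs) hg ?_
      filter_upwards [hb] with x hx
      exact hx N
  refine ⟨h1, h2, ?_⟩
  exact hasSum_integral_of_summable_integral_norm h1 (by simpa [Real.norm_eq_abs] using h2)

theorem hasSum_exp_div (y : ℝ) : HasSum (fun n : ℕ => y ^ n / (n.factorial : ℝ)) (Real.exp y) := by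
  have := NormedSpace.expSeries_div_hasSum_exp (y : ℝ)
  rwa [← Real.exp_eq_exp_ℝ] at this

section canonical

variable {p : ℝ → ℝ} {μ : Measure ℝ} {a : ℝ}

theorem one_sub_exp_nonneg {x : ℝ} (hx : 0 ≤ x) : 0 ≤ 1 - Real.exp (-x) := by
  have : Real.exp (-x) ≤ 1 := Real.exp_le_one_iff.2 (by linarith)
  linarith

theorem one_sub_exp_le {s x : ℝ} (_hs : 0 ≤ s) (hx : 0 ≤ x) :
    1 - Real.exp (-(s * x)) ≤ max 1 s * (1 - Real.exp (-x)) := by
  have h0 := one_sub_exp_nonneg hx
  rcases le_total s 1 with h | h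
  · rw [max_eq_left h, one_mul]
    have : Real.exp (-x) ≤ Real.exp (-(s * x)) := by
      apply Real.exp_le_exp.2
      nlinarith
    linarith
  · rw [max_eq_right h]
    have h1 := one_add_mul_self_le_rpow_one_add (s := Real.exp (-x) - 1)
      (by linarith [Real.exp_pos (-x)]) h
    have h2 : (1 + (Real.exp (-x) - 1)) ^ s = Real.exp (-(s * x)) := by
      have e : 1 + (Real.exp (-x) - 1) = Real.exp (-x) := by ring
      rw [e, ← Real.exp_mul]
      congr 1
      ring
    rw [h2] at h1
    linarith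

theorem pos_ae (hμ : μ (Iic 0) = 0) : ∀ᵐ x ∂μ, 0 < x := by
  rw [ae_iff]
  have : {x : ℝ | ¬0 < x} = Iic 0 := by
    ext x
    simp
  rw [this]
  exact hμ

theorem int_one_sub_exp (hμ : μ (Iic 0) = 0)
    (hi : Integrable (fun x : ℝ => 1 - Real.exp (-x)) μ) {s : ℝ} (hs : 0 ≤ s) :
    Integrable (fun x : ℝ => 1 - Real.exp (-(s * x))) μ := by
  refine Integrable.mono' (hi.const_mul (max 1 s)) ?_ ?_
  · exact (Continuous.aestronglyMeasurable (by fun_prop))
  · filter_upwards [pos_ae hμ] with x hx
    rw [Real.norm_eq_abs, abs_of_nonneg (one_sub_exp_nonneg (by positivity))]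
    exact one_sub_exp_le hs hx.le

/-- Poisson moments of the Lévy-type measure -/
noncomputable def kk (μ : Measure ℝ) (θ : ℝ) (n : ℕ) : ℝ :=
  ∫ x, (θ * x) ^ n / (n.factorial : ℝ) * Real.exp (-(θ * x)) ∂μ

/-- Poisson moments of `p` -/
noncomputable def PP (p : ℝ → ℝ) (θ : ℝ) (n : ℕ) : ℝ :=
  ∫ t in Ioi (0 : ℝ), (θ * t) ^ n / (n.factorial : ℝ) * Real.exp (-(θ * t)) * p t

theorem mu_series (hμ : μ (Iic 0) = 0)
    (hi : Integrable (fun x : ℝ => 1 - Real.exp (-x)) μ) {θ : ℝ} (hθ : 0 < θ) {z : ℝ}
    (hz : |z| < 1) :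
    Summable (fun n => |z ^ (n + 1) * kk μ θ (n + 1)|) ∧
    HasSum (fun n => z ^ (n + 1) * kk μ θ (n + 1))
      (∫ x, (Real.exp (-(θ * (1 - z) * x)) - Real.exp (-(θ * x))) ∂μ) := by
  set F : ℕ → ℝ → ℝ := fun n x =>
    z ^ (n + 1) * ((θ * x) ^ (n + 1) / ((n + 1).factorial : ℝ) * Real.exp (-(θ * x))) with hF
  have hb : ∀ᵐ x ∂μ, ∀ N, ∑ n ∈ Finset.range N, |F n x| ≤ 1 - Real.exp (-(θ * x)) := by
    filter_upwards [pos_ae hμ] with x hx N
    have h1 : ∀ n ∈ Finset.range N, |F n x|
        ≤ ((θ * x) ^ (n + 1) / ((n + 1).factorial : ℝ)) * Real.exp (-(θ * x)) := by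
      intro n _
      rw [hF]
      simp only
      rw [abs_mul, abs_pow]
      have h2 : |z| ^ (n + 1) ≤ 1 := pow_le_one₀ (abs_nonneg z) hz.le
      have h3 : 0 ≤ (θ * x) ^ (n + 1) / ((n + 1).factorial : ℝ) * Real.exp (-(θ * x)) := by
        positivity
      rw [abs_of_nonneg h3]
      calc _ ≤ 1 * ((θ * x) ^ (n + 1) / ((n + 1).factorial : ℝ) * Real.exp (-(θ * x))) :=
            mul_le_mul_of_nonneg_right h2 h3
        _ = _ := one_mul _
    refine (Finset.sum_le_sum h1).trans ?_
    rw [← Finset.sum_mul]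
    have h4 := Real.sum_le_exp_of_nonneg (show 0 ≤ θ * x by positivity) (N + 1)
    rw [Finset.sum_range_succ'] at h4
    simp only [pow_zero, Nat.factorial_zero, Nat.cast_one, div_one] at h4
    have h5 : Real.exp (θ * x) * Real.exp (-(θ * x)) = 1 := by
      rw [← Real.exp_add]
      simp
    have h6 := mul_le_mul_of_nonneg_right h4 (Real.exp_pos (-(θ * x))).le
    rw [add_mul, h5] at h6
    linarith
  have hmeas : ∀ n, AEStronglyMeasurable (F n) μ := by
    intro n
    exact (Continuous.aestronglyMeasurable (by fun_prop))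
  obtain ⟨g1, g2, g3⟩ := hasSum_int hmeas (int_one_sub_exp hμ hi hθ.le) hb
  have e1 : ∀ n, ∫ x, F n x ∂μ = z ^ (n + 1) * kk μ θ (n + 1) := by
    intro n
    rw [hF]
    simp only
    rw [integral_const_mul]
    rfl
  constructor
  · refine Summable.of_nonneg_of_le (fun n => abs_nonneg _) (fun n => ?_) g2
    rw [← e1]
    exact abs_integral_le_integral_abs
  · simp_rw [e1] at g3
    have e2 : ∫ x, ∑' n, F n x ∂μ
        = ∫ x, (Real.exp (-(θ * (1 - z) * x)) - Real.exp (-(θ * x))) ∂μ := by
      refine integral_congr_ae ?_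
      filter_upwards with x
      have h7 := hasSum_exp_div (z * (θ * x))
      have h8 := (hasSum_nat_add_iff' 1).2 h7
      rw [Finset.sum_range_one] at h8
      simp only [pow_zero, Nat.factorial_zero, Nat.cast_one, div_one] at h8
      have h9 := h8.mul_right (Real.exp (-(θ * x)))
      have h10 : (Real.exp (z * (θ * x)) - 1) * Real.exp (-(θ * x))
          = Real.exp (-(θ * (1 - z) * x)) - Real.exp (-(θ * x)) := by
        rw [sub_mul, one_mul, ← Real.exp_add]
        congr 2
        ring
      rw [h10] at h9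
      rw [← h9.tsum_eq]
      refine tsum_congr fun n => ?_
      rw [hF]
      simp only
      rw [mul_pow]
      ring
    rwa [e2] at g3

theorem p_series {θ : ℝ} (hθ : 0 < θ) (hp : ContinuousOn p (Ici 0))
    (hint : ∀ s : ℝ, 0 < s → IntegrableOn (fun t => Real.exp (-(s * t)) * p t) (Ioi 0)) {z : ℝ}
    (hz : |z| < 1) :
    Summable (fun n => |z ^ n * PP p θ n|) ∧
    HasSum (fun n => z ^ n * PP p θ n)
      (∫ t in Ioi (0 : ℝ), Real.exp (-(θ * (1 - z) * t)) * p t) := by
  set F : ℕ → ℝ → ℝ := fun n t =>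
    z ^ n * ((θ * t) ^ n / (n.factorial : ℝ) * Real.exp (-(θ * t)) * p t) with hF
  have hmp : AEStronglyMeasurable p (volume.restrict (Ioi 0)) :=
    (hp.mono Ioi_subset_Ici_self).aestronglyMeasurable measurableSet_Ioi
  have hs : 0 < θ * (1 - |z|) := mul_pos hθ (by linarith)
  have hg : Integrable (fun t => Real.exp (-(θ * (1 - |z|) * t)) * |p t|)
      (volume.restrict (Ioi 0)) := by
    have := (hint _ hs).abs
    refine this.congr ?_
    filter_upwards with t
    rw [abs_mul, abs_of_pos (Real.exp_pos _)]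
  have hb : ∀ᵐ t ∂(volume.restrict (Ioi (0 : ℝ))), ∀ N, ∑ n ∈ Finset.range N, |F n t|
      ≤ Real.exp (-(θ * (1 - |z|) * t)) * |p t| := by
    filter_upwards [ae_restrict_mem measurableSet_Ioi] with t ht N
    have ht' : (0 : ℝ) < t := ht
    have h1 : ∀ n ∈ Finset.range N, |F n t|
        = ((|z| * (θ * t)) ^ n / (n.factorial : ℝ)) * (Real.exp (-(θ * t)) * |p t|) := by
      intro n _
      rw [hF]
      simp only
      have h3 : 0 ≤ (θ * t) ^ n / (n.factorial : ℝ) * Real.exp (-(θ * t)) := by positivity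
      rw [abs_mul, abs_pow, abs_mul, abs_of_nonneg h3, mul_pow]
      ring
    rw [Finset.sum_congr rfl h1, ← Finset.sum_mul]
    have h4 := Real.sum_le_exp_of_nonneg (show 0 ≤ |z| * (θ * t) by positivity) N
    calc _ ≤ Real.exp (|z| * (θ * t)) * (Real.exp (-(θ * t)) * |p t|) :=
          mul_le_mul_of_nonneg_right h4 (by positivity)
      _ = _ := by
          rw [← mul_assoc, ← Real.exp_add]
          congr 2
          ring
  have hmeas : ∀ n, AEStronglyMeasurable (F n) (volume.restrict (Ioi 0)) := by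
    intro n
    refine AEStronglyMeasurable.const_mul (AEStronglyMeasurable.mul ?_ hmp) _
    exact (Continuous.aestronglyMeasurable (by fun_prop))
  obtain ⟨g1, g2, g3⟩ := hasSum_int hmeas hg hb
  have e1 : ∀ n, ∫ t in Ioi (0 : ℝ), F n t = z ^ n * PP p θ n := by
    intro n
    rw [hF]
    simp only
    rw [integral_const_mul]
    rfl
  constructor
  · refine Summable.of_nonneg_of_le (fun n => abs_nonneg _) (fun n => ?_) g2
    rw [← e1]
    exact abs_integral_le_integral_abs
  · simp_rw [e1] at g3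
    have e2 : ∫ t in Ioi (0 : ℝ), ∑' n, F n t
        = ∫ t in Ioi (0 : ℝ), Real.exp (-(θ * (1 - z) * t)) * p t := by
      refine integral_congr_ae ?_
      filter_upwards with t
      have h7 := (hasSum_exp_div (z * (θ * t))).mul_right (Real.exp (-(θ * t)) * p t)
      have h10 : Real.exp (z * (θ * t)) * (Real.exp (-(θ * t)) * p t)
          = Real.exp (-(θ * (1 - z) * t)) * p t := by
        rw [← mul_assoc, ← Real.exp_add]
        congr 2
        ring
      rw [h10] at h7
      rw [← h7.tsum_eq]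
      refine tsum_congr fun n => ?_
      rw [hF]
      simp only
      rw [mul_pow]
      ring
    rwa [e2] at g3

/-- the denominators as a power series -/
noncomputable def c0 (μ : Measure ℝ) (a θ : ℝ) : ℝ := θ + a + ∫ x, (1 - Real.exp (-(θ * x))) ∂μ

noncomputable def Kp (μ : Measure ℝ) (θ : ℝ) : PowerSeries ℝ :=
  PowerSeries.mk fun n => if n = 0 then 0 else kk μ θ n

noncomputable def Pp (p : ℝ → ℝ) (θ : ℝ) : PowerSeries ℝ := PowerSeries.mk (PP p θ)

theorem hint_of_laplace
    (hL : ∀ s : ℝ, 0 < s → (∫ t in Ioi (0 : ℝ), Real.exp (-(s * t)) * p t)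
      * (s + a + ∫ x, (1 - Real.exp (-(s * x))) ∂μ) = 1) (s : ℝ) (hs : 0 < s) :
    IntegrableOn (fun t => Real.exp (-(s * t)) * p t) (Ioi 0) := by
  by_contra hcon
  have := hL s hs
  rw [integral_undef hcon, zero_mul] at this
  exact zero_ne_one this

theorem key_identity (hp : ContinuousOn p (Ici 0)) (hμ : μ (Iic 0) = 0)
    (hi : Integrable (fun x : ℝ => 1 - Real.exp (-x)) μ)
    (hL : ∀ s : ℝ, 0 < s → (∫ t in Ioi (0 : ℝ), Real.exp (-(s * t)) * p t)
      * (s + a + ∫ x, (1 - Real.exp (-(s * x))) ∂μ) = 1) {θ : ℝ} (hθ : 0 < θ) :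
    Pp p θ * (PowerSeries.C (c0 μ a θ) - θ • PowerSeries.X - Kp μ θ) = 1 := by
  set D : PowerSeries ℝ := PowerSeries.C (c0 μ a θ) - θ • PowerSeries.X - Kp μ θ with hD
  have hcoef : ∀ n, PowerSeries.coeff n D = (if n = 0 then c0 μ a θ else 0)
      - (if n = 1 then θ else 0) - (if n = 0 then 0 else kk μ θ n) := by
    intro n
    rw [hD, map_sub, map_sub, map_smul, PowerSeries.coeff_C, PowerSeries.coeff_X, Kp,
      PowerSeries.coeff_mk, smul_eq_mul]
    split_ifs <;> simp
  have main : ∀ z : ℝ, |z| < 1 →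
      HasSum (fun n => z ^ n * PowerSeries.coeff n (Pp p θ * D)) 1 := by
    intro z hz
    have hz1 : 0 < 1 - z := by
      have := le_abs_self z
      linarith
    have hs : 0 < θ * (1 - z) := mul_pos hθ hz1
    obtain ⟨sp1, sp2⟩ := p_series hθ hp (hint_of_laplace hL) hz
    obtain ⟨sm1, sm2⟩ := mu_series hμ hi hθ hz
    -- series of D
    set val : ℝ := θ * (1 - z) + a + ∫ x, (1 - Real.exp (-(θ * (1 - z) * x))) ∂μ with hval
    have e0 : ∫ x, (Real.exp (-(θ * (1 - z) * x)) - Real.exp (-(θ * x))) ∂μ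
        = (∫ x, (1 - Real.exp (-(θ * x))) ∂μ) - ∫ x, (1 - Real.exp (-(θ * (1 - z) * x))) ∂μ := by
      rw [← integral_sub (int_one_sub_exp hμ hi hθ.le) (int_one_sub_exp hμ hi hs.le)]
      refine integral_congr_ae ?_
      filter_upwards with x
      ring
    have hsumK : HasSum (fun n => z ^ n * (if n = 0 then 0 else kk μ θ n))
        (∫ x, (Real.exp (-(θ * (1 - z) * x)) - Real.exp (-(θ * x))) ∂μ) := by
      refine (hasSum_nat_add_iff' 1).1 ?_
      simpa using sm2
    have hsumC : HasSum (fun n : ℕ => z ^ n * (if n = 0 then c0 μ a θ else 0)) (c0 μ a θ) := by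
      have h0 := hasSum_ite_eq (0 : ℕ) (c0 μ a θ)
      have e : (fun n : ℕ => z ^ n * (if n = 0 then c0 μ a θ else 0))
          = fun n : ℕ => if n = 0 then c0 μ a θ else 0 := by
        funext n
        split_ifs with h
        · rw [h]; simp
        · simp
      rw [e]
      exact h0
    have hsumX : HasSum (fun n : ℕ => z ^ n * (if n = 1 then θ else 0)) (z * θ) := by
      have h0 := hasSum_ite_eq (1 : ℕ) (z * θ)
      have e : (fun n : ℕ => z ^ n * (if n = 1 then θ else 0))
          = fun n : ℕ => if n = 1 then z * θ else 0 := by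
        funext n
        split_ifs with h
        · rw [h]; simp
        · simp
      rw [e]
      exact h0
    have hsumD : HasSum (fun n => z ^ n * PowerSeries.coeff n D) val := by
      have h1 := (hsumC.sub hsumX).sub hsumK
      have e1 : c0 μ a θ - z * θ
          - ∫ x, (Real.exp (-(θ * (1 - z) * x)) - Real.exp (-(θ * x))) ∂μ = val := by
        rw [e0, hval, c0]
        ring
      rw [e1] at h1
      have e : (fun n => z ^ n * PowerSeries.coeff n D)
          = fun n : ℕ => z ^ n * (if n = 0 then c0 μ a θ else 0)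
            - z ^ n * (if n = 1 then θ else 0)
            - z ^ n * (if n = 0 then 0 else kk μ θ n) := by
        funext n
        rw [hcoef]
        ring
      rw [e]
      exact h1
    -- norm summability of D
    have hnK : Summable (fun n => ‖z ^ n * (if n = 0 then 0 else kk μ θ n)‖) := by
      refine (summable_nat_add_iff 1).1 ?_
      simpa [Real.norm_eq_abs] using sm1
    have hnC : Summable (fun n : ℕ => ‖z ^ n * (if n = 0 then c0 μ a θ else 0)‖) := by
      refine summable_of_ne_finset_zero (s := {0}) ?_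
      intro n hn
      rw [if_neg (by simpa using hn)]
      simp
    have hnX : Summable (fun n : ℕ => ‖z ^ n * (if n = 1 then θ else 0)‖) := by
      refine summable_of_ne_finset_zero (s := {1}) ?_
      intro n hn
      rw [if_neg (by simpa using hn)]
      simp
    have hnD : Summable (fun n => ‖z ^ n * PowerSeries.coeff n D‖) := by
      refine Summable.of_nonneg_of_le (fun n => norm_nonneg _) (fun n => ?_)
        ((hnC.add hnX).add hnK)
      rw [hcoef]
      have e : z ^ n * ((if n = 0 then c0 μ a θ else 0)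
          - (if n = 1 then θ else 0) - (if n = 0 then 0 else kk μ θ n))
          = (z ^ n * (if n = 0 then c0 μ a θ else 0) - z ^ n * (if n = 1 then θ else 0))
            - z ^ n * (if n = 0 then 0 else kk μ θ n) := by ring
      rw [e]
      exact (norm_sub_le _ _).trans (add_le_add (norm_sub_le _ _) le_rfl)
    have hnP : Summable (fun n => ‖z ^ n * PP p θ n‖) := by
      simpa [Real.norm_eq_abs] using sp1
    have hprod := tsum_mul_tsum_eq_tsum_sum_antidiagonal_of_summable_norm hnP hnD
    have hsp := (summable_norm_sum_mul_antidiagonal_of_summable_norm hnP hnD).of_norm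
    have hval1 : (∑' n, z ^ n * PP p θ n) * ∑' n, z ^ n * PowerSeries.coeff n D = 1 := by
      rw [sp2.tsum_eq, hsumD.tsum_eq, hval]
      exact hL _ hs
    have e5 : (fun n => z ^ n * PowerSeries.coeff n (Pp p θ * D)) = fun n =>
        ∑ kl ∈ Finset.HasAntidiagonal.antidiagonal n, z ^ kl.1 * PP p θ kl.1
          * (z ^ kl.2 * PowerSeries.coeff kl.2 D) := by
      funext n
      rw [PowerSeries.coeff_mul, Finset.mul_sum]
      refine Finset.sum_congr rfl fun kl hkl => ?_
      rw [Finset.HasAntidiagonal.mem_antidiagonal] at hkl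
      rw [← hkl, pow_add, Pp, PowerSeries.coeff_mk]
      ring
    rw [e5, ← hval1, hprod]
    exact hsp.hasSum
  have hz0 : ∀ n, PowerSeries.coeff n (Pp p θ * D) - PowerSeries.coeff n (1 : PowerSeries ℝ) = 0 := by
    refine coeff_zero_of_hasSum fun z hz => ?_
    have h1 : HasSum (fun n => z ^ n * PowerSeries.coeff n (1 : PowerSeries ℝ)) 1 := by
      have h0 := hasSum_ite_eq (0 : ℕ) (1 : ℝ)
      have e : (fun n : ℕ => z ^ n * PowerSeries.coeff n (1 : PowerSeries ℝ))
          = fun n : ℕ => if n = 0 then (1 : ℝ) else 0 := by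
        funext n
        rw [PowerSeries.coeff_one]
        split_ifs with h
        · rw [h]; simp
        · simp
      rw [e]
      exact h0
    have h2 := (main z hz).sub h1
    rw [sub_self] at h2
    have e : (fun n => z ^ n * (PowerSeries.coeff n (Pp p θ * D)
          - PowerSeries.coeff n (1 : PowerSeries ℝ)))
        = fun n => z ^ n * PowerSeries.coeff n (Pp p θ * D)
          - z ^ n * PowerSeries.coeff n (1 : PowerSeries ℝ) := by
      funext n
      ring
    rw [e]
    exact h2
  ext n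
  have := hz0 n
  linarith

end canonical

end Pool.Agent.Helper70
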