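import Mathlib
import Pool.Agent.Helper70.Ren7
import Pool.Agent.Helper70.Br1
import Pool.Agent.Helper70.Br2

set_option autoImplicit false

/-!
Poisson sampling of a canonical function gives a discrete renewal sequence, and the
upper half of Davidson's conjecture.
-/

open MeasureTheory Filter Topology Set

namespace Pool.Agent.Helper70

theorem u_mass {k : PowerSeries ℝ} {m : ℝ} (hk : NN k) (h0 : PowerSeries.coeff 0 k = 0)
    (hm : Mass k m) (hm1 : m < 1) : Mass (u k) (1 / (1 - m)) := by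
  intro n
  have hun := u_nn hk h0
  have h1 : ps (u k) n ≤ 1 + m * ps (u k) n := by
    have e : ps (u k) n = ps 1 n + ps (k * u k) n := by
      conv_lhs => rw [u_eq h0]
      unfold ps
      rw [← Finset.sum_add_distrib]
      exact Finset.sum_congr rfl fun i _ => by rw [map_add]
    have h2 : ps (k * u k) n ≤ m * ps (u k) n := by
      rw [ps_mul]
      calc ∑ i ∈ Finset.range n, PowerSeries.coeff i k * ps (u k) (n - i)
          ≤ ∑ i ∈ Finset.range n, PowerSeries.coeff i k * ps (u k) n := by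
            refine Finset.sum_le_sum fun i _ => ?_
            exact mul_le_mul_of_nonneg_left (ps_mono hun (Nat.sub_le n i)) (hk i)
        _ = ps k n * ps (u k) n := by rw [← Finset.sum_mul]; rfl
        _ ≤ m * ps (u k) n := mul_le_mul_of_nonneg_right (hm n) (ps_nonneg hun n)
    have h3 := Mass.one n
    linarith
  rw [le_div_iff₀ (by linarith)]
  linarith

section canonical

variable {p : ℝ → ℝ} {μ : Measure ℝ} {a : ℝ}

theorem kk_nonneg (hμ : μ (Iic 0) = 0) {θ : ℝ} (hθ : 0 < θ) (n : ℕ) : 0 ≤ kk μ θ n := by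
  refine integral_nonneg_of_ae ?_
  filter_upwards [pos_ae hμ] with x hx
  simp only [Pi.zero_apply]
  positivity

theorem Kp_nn (hμ : μ (Iic 0) = 0) {θ : ℝ} (hθ : 0 < θ) : NN (Kp μ θ) := by
  intro n
  rw [Kp, PowerSeries.coeff_mk]
  split_ifs
  · exact le_rfl
  · exact kk_nonneg hμ hθ n

theorem Kp_zero (μ : Measure ℝ) (θ : ℝ) : PowerSeries.coeff 0 (Kp μ θ) = 0 := by
  rw [Kp, PowerSeries.coeff_mk, if_pos rfl]

theorem J_nonneg (hμ : μ (Iic 0) = 0) {θ : ℝ} (hθ : 0 < θ) :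
    0 ≤ ∫ x, (1 - Real.exp (-(θ * x))) ∂μ := by
  refine integral_nonneg_of_ae ?_
  filter_upwards [pos_ae hμ] with x hx
  exact one_sub_exp_nonneg (by positivity)

theorem Kp_mass (hμ : μ (Iic 0) = 0)
    (hi : Integrable (fun x : ℝ => 1 - Real.exp (-x)) μ) {θ : ℝ} (hθ : 0 < θ) :
    Mass (Kp μ θ) (∫ x, (1 - Real.exp (-(θ * x))) ∂μ) := by
  intro n
  have hJ := int_one_sub_exp hμ hi hθ.le
  -- term integrability
  have hterm : ∀ i : ℕ, i ≠ 0 → Integrable
      (fun x : ℝ => (θ * x) ^ i / (i.factorial : ℝ) * Real.exp (-(θ * x))) μ := by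
    intro i hi0
    refine Integrable.mono' hJ (Continuous.aestronglyMeasurable (by fun_prop)) ?_
    filter_upwards [pos_ae hμ] with x hx
    have h3 : 0 ≤ (θ * x) ^ i / (i.factorial : ℝ) * Real.exp (-(θ * x)) := by positivity
    rw [Real.norm_eq_abs, abs_of_nonneg h3]
    have h4 := Real.sum_le_exp_of_nonneg (show 0 ≤ θ * x by positivity) (i + 1)
    have h5 : 1 + (θ * x) ^ i / (i.factorial : ℝ)
        ≤ ∑ j ∈ Finset.range (i + 1), (θ * x) ^ j / (j.factorial : ℝ) := by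
      rw [Finset.sum_range_succ]
      have : (1 : ℝ) ≤ ∑ j ∈ Finset.range i, (θ * x) ^ j / (j.factorial : ℝ) := by
        have h6 := Finset.single_le_sum (f := fun j : ℕ => (θ * x) ^ j / (j.factorial : ℝ))
          (s := Finset.range i) (fun j _ => by positivity)
          (Finset.mem_range.2 (Nat.pos_of_ne_zero hi0))
        simpa using h6
      linarith
    have h7 : Real.exp (θ * x) * Real.exp (-(θ * x)) = 1 := by
      rw [← Real.exp_add]
      simp
    have h8 := mul_le_mul_of_nonneg_right (h5.trans h4) (Real.exp_pos (-(θ * x))).le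
    rw [h7, add_mul, one_mul] at h8
    linarith
  cases n with
  | zero =>
    rw [ps_zero]
    exact J_nonneg hμ hθ
  | succ n =>
    unfold ps
    rw [Finset.sum_range_succ', Kp_zero, add_zero]
    have e : ∀ i ∈ Finset.range n, PowerSeries.coeff (i + 1) (Kp μ θ)
        = ∫ x, (θ * x) ^ (i + 1) / ((i + 1).factorial : ℝ) * Real.exp (-(θ * x)) ∂μ := by
      intro i _
      rw [Kp, PowerSeries.coeff_mk, if_neg (Nat.succ_ne_zero i)]
      rfl
    rw [Finset.sum_congr rfl e, ← integral_finsetSum _ (fun i _ => hterm (i + 1) (Nat.succ_ne_zero i))]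
    refine integral_mono_ae (integrable_finsetSum _
      fun i _ => hterm (i + 1) (Nat.succ_ne_zero i)) hJ ?_
    filter_upwards [pos_ae hμ] with x hx
    rw [← Finset.sum_mul]
    have h4 := Real.sum_le_exp_of_nonneg (show 0 ≤ θ * x by positivity) (n + 1)
    rw [Finset.sum_range_succ'] at h4
    simp only [pow_zero, Nat.factorial_zero, Nat.cast_one, div_one] at h4
    have h5 : Real.exp (θ * x) * Real.exp (-(θ * x)) = 1 := by
      rw [← Real.exp_add]
      simp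
    have h6 := mul_le_mul_of_nonneg_right h4 (Real.exp_pos (-(θ * x))).le
    rw [add_mul, h5] at h6
    linarith

/-- the step distribution of the Poisson sampled renewal process -/
noncomputable def ff (μ : Measure ℝ) (a θ : ℝ) : PowerSeries ℝ :=
  (θ / c0 μ a θ) • (PowerSeries.X * u ((c0 μ a θ)⁻¹ • Kp μ θ))

theorem c0_pos (hμ : μ (Iic 0) = 0) (ha : 0 ≤ a) {θ : ℝ} (hθ : 0 < θ) : 0 < c0 μ a θ := by
  unfold c0
  have := J_nonneg hμ hθ
  linarith

theorem k_facts (hμ : μ (Iic 0) = 0)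
    (hi : Integrable (fun x : ℝ => 1 - Real.exp (-x)) μ) (ha : 0 ≤ a) {θ : ℝ} (hθ : 0 < θ) :
    NN ((c0 μ a θ)⁻¹ • Kp μ θ) ∧ PowerSeries.coeff 0 ((c0 μ a θ)⁻¹ • Kp μ θ) = 0 ∧
      Mass ((c0 μ a θ)⁻¹ • Kp μ θ) ((c0 μ a θ)⁻¹ * ∫ x, (1 - Real.exp (-(θ * x))) ∂μ) ∧
      (c0 μ a θ)⁻¹ * (∫ x, (1 - Real.exp (-(θ * x))) ∂μ) < 1 := by
  have hc := c0_pos hμ ha hθ
  refine ⟨(Kp_nn hμ hθ).smul (inv_pos.2 hc).le, ?_, (Kp_mass hμ hi hθ).smul (inv_pos.2 hc).le, ?_⟩
  · rw [map_smul, Kp_zero, smul_zero]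
  · rw [inv_mul_lt_iff₀ hc, mul_one]
    unfold c0
    linarith

theorem ff_ren (hμ : μ (Iic 0) = 0)
    (hi : Integrable (fun x : ℝ => 1 - Real.exp (-x)) μ) (ha : 0 ≤ a) {θ : ℝ} (hθ : 0 < θ) :
    Ren (ff μ a θ) := by
  have hc := c0_pos hμ ha hθ
  obtain ⟨h1, h2, h3, h4⟩ := k_facts hμ hi ha hθ
  have hun := u_nn h1 h2
  refine ⟨?_, ?_, ?_⟩
  · exact (NN.X.mul hun).smul (by positivity)
  · unfold ff
    rw [map_smul, PowerSeries.coeff_zero_X_mul, smul_zero]
  · have hX : Mass (PowerSeries.X : PowerSeries ℝ) 1 := by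
      intro n
      unfold ps
      simp_rw [PowerSeries.coeff_X]
      rw [Finset.sum_ite_eq' (Finset.range n) 1 (fun _ => (1 : ℝ))]
      split_ifs <;> norm_num
    have h5 := (Mass.mul NN.X hX (u_mass h1 h2 h3 h4)).smul (c := θ / c0 μ a θ) (by positivity)
    refine h5.mono ?_
    set J : ℝ := ∫ x, (1 - Real.exp (-(θ * x))) ∂μ with hJ
    have e : θ / c0 μ a θ * (1 * (1 / (1 - (c0 μ a θ)⁻¹ * J))) = θ / (c0 μ a θ - J) := by
      have h6 : c0 μ a θ - J ≠ 0 := by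
        have : c0 μ a θ - J = θ + a := by
          unfold c0
          ring
        rw [this]
        positivity
      have h7 : 1 - (c0 μ a θ)⁻¹ * J ≠ 0 := by
        linarith
      field_simp
    rw [e]
    have : c0 μ a θ - J = θ + a := by
      unfold c0
      ring
    rw [this, div_le_one (by positivity)]
    linarith

theorem ff_coeff_one (hμ : μ (Iic 0) = 0)
    (hi : Integrable (fun x : ℝ => 1 - Real.exp (-x)) μ) (ha : 0 ≤ a) {θ : ℝ} (hθ : 0 < θ) :
    r (ff μ a θ) 1 = 1 - θ / c0 μ a θ := by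
  obtain ⟨h1, h2, h3, h4⟩ := k_facts hμ hi ha hθ
  unfold r ps
  rw [Finset.sum_range_succ, Finset.sum_range_one, (ff_ren hμ hi ha hθ).zero, zero_add]
  congr 1
  unfold ff
  rw [map_smul, show (1 : ℕ) = 0 + 1 from rfl, PowerSeries.coeff_succ_X_mul, u_zero h2]
  simp

theorem ff_u (hp : ContinuousOn p (Ici 0)) (hμ : μ (Iic 0) = 0)
    (hi : Integrable (fun x : ℝ => 1 - Real.exp (-x)) μ) (ha : 0 ≤ a)
    (hL : ∀ s : ℝ, 0 < s → (∫ t in Ioi (0 : ℝ), Real.exp (-(s * t)) * p t)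
      * (s + a + ∫ x, (1 - Real.exp (-(s * x))) ∂μ) = 1) {θ : ℝ} (hθ : 0 < θ) :
    u (ff μ a θ) = 1 + PowerSeries.C θ * (PowerSeries.X * Pp p θ) := by
  have hc := c0_pos hμ ha hθ
  obtain ⟨h1, h2, h3, h4⟩ := k_facts hμ hi ha hθ
  have hkey := key_identity hp hμ hi hL hθ
  have hw := one_sub_mul_u h2
  have hf : ff μ a θ = PowerSeries.C (θ / c0 μ a θ)
      * (PowerSeries.X * u ((c0 μ a θ)⁻¹ • Kp μ θ)) := by
    unfold ff
    rw [PowerSeries.smul_eq_C_mul]
  set k : PowerSeries ℝ := (c0 μ a θ)⁻¹ • Kp μ θ with hk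
  have hK : Kp μ θ = PowerSeries.C (c0 μ a θ) * k := by
    rw [hk, PowerSeries.smul_eq_C_mul, ← mul_assoc, ← map_mul, mul_inv_cancel₀ hc.ne', map_one,
      one_mul]
  have hC : PowerSeries.C (c0 μ a θ) * PowerSeries.C (θ / c0 μ a θ) = PowerSeries.C θ := by
    rw [← map_mul]
    congr 1
    field_simp
  rw [hK, PowerSeries.smul_eq_C_mul] at hkey
  have hmain : (1 - ff μ a θ) * (1 + PowerSeries.C θ * (PowerSeries.X * Pp p θ)) = 1 := by
    rw [hf]
    set w := u k with hwdef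
    set P := Pp p θ
    set X : PowerSeries ℝ := PowerSeries.X
    set c : PowerSeries ℝ := PowerSeries.C (c0 μ a θ)
    set d : PowerSeries ℝ := PowerSeries.C (θ / c0 μ a θ)
    rw [← hC]
    rw [← hC] at hkey
    linear_combination (d * X * w) * hkey - (c * d * X * P) * hw
  have h5 := u_unique (ff_ren hμ hi ha hθ).zero hmain
  rw [mul_one] at h5
  exact h5.symm

theorem ff_u_coeff (hp : ContinuousOn p (Ici 0)) (hμ : μ (Iic 0) = 0)
    (hi : Integrable (fun x : ℝ => 1 - Real.exp (-x)) μ) (ha : 0 ≤ a)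
    (hL : ∀ s : ℝ, 0 < s → (∫ t in Ioi (0 : ℝ), Real.exp (-(s * t)) * p t)
      * (s + a + ∫ x, (1 - Real.exp (-(s * x))) ∂μ) = 1) {θ : ℝ} (hθ : 0 < θ) (n : ℕ) :
    PowerSeries.coeff (n + 1) (u (ff μ a θ)) = ∫ t in Ioi (0 : ℝ), gk θ n t * p t := by
  rw [ff_u hp hμ hi ha hL hθ, map_add, PowerSeries.coeff_one, if_neg (Nat.succ_ne_zero n), zero_add,
    PowerSeries.coeff_C_mul, PowerSeries.coeff_succ_X_mul, Pp, PowerSeries.coeff_mk, PP,
    ← integral_const_mul]
  refine integral_congr_ae ?_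
  filter_upwards with t
  unfold gk
  ring

theorem r_tendsto (hμ : μ (Iic 0) = 0)
    (hi : Integrable (fun x : ℝ => 1 - Real.exp (-x)) μ) (ha : 0 ≤ a) :
    Tendsto (fun k : ℕ => r (ff μ a ((k : ℝ) + 1)) 1) atTop (𝓝 0) := by
  have hpos : ∀ k : ℕ, (0 : ℝ) < (k : ℝ) + 1 := fun k => by positivity
  have hlim : Tendsto (fun k : ℕ => (k : ℝ) + 1) atTop atTop :=
    tendsto_atTop_add_const_right _ _ tendsto_natCast_atTop_atTop
  have hinv : Tendsto (fun k : ℕ => ((k : ℝ) + 1)⁻¹) atTop (𝓝 0) :=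
    tendsto_inv_atTop_zero.comp hlim
  -- dominated convergence
  have hJ : Tendsto (fun k : ℕ => ∫ x, ((k : ℝ) + 1)⁻¹ * (1 - Real.exp (-(((k : ℝ) + 1) * x))) ∂μ)
      atTop (𝓝 (∫ _, (0 : ℝ) ∂μ)) := by
    refine tendsto_integral_of_dominated_convergence (fun x => 1 - Real.exp (-x)) ?_ hi ?_ ?_
    · intro k
      exact Continuous.aestronglyMeasurable (by fun_prop)
    · intro k
      filter_upwards [pos_ae hμ] with x hx
      have h1 := one_sub_exp_le (hpos k).le hx.le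
      have h2 : 0 ≤ 1 - Real.exp (-(((k : ℝ) + 1) * x)) :=
        one_sub_exp_nonneg (by positivity)
      rw [max_eq_right (by linarith [Nat.cast_nonneg (α := ℝ) k])] at h1
      rw [Real.norm_eq_abs, abs_of_nonneg (by positivity), inv_mul_le_iff₀ (hpos k)]
      exact h1
    · filter_upwards [pos_ae hμ] with x hx
      refine squeeze_zero (fun k => ?_) (fun k => ?_) hinv
      · have h2 : 0 ≤ 1 - Real.exp (-(((k : ℝ) + 1) * x)) :=
          one_sub_exp_nonneg (by positivity)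
        positivity
      · have h3 : 1 - Real.exp (-(((k : ℝ) + 1) * x)) ≤ 1 := by
          linarith [Real.exp_pos (-(((k : ℝ) + 1) * x))]
        calc _ ≤ ((k : ℝ) + 1)⁻¹ * 1 := mul_le_mul_of_nonneg_left h3 (inv_pos.2 (hpos k)).le
          _ = _ := mul_one _
  rw [integral_zero] at hJ
  have hc : Tendsto (fun k : ℕ => 1 + a * ((k : ℝ) + 1)⁻¹
      + ∫ x, ((k : ℝ) + 1)⁻¹ * (1 - Real.exp (-(((k : ℝ) + 1) * x))) ∂μ) atTop
      (𝓝 (1 + a * 0 + 0)) := (tendsto_const_nhds.add (hinv.const_mul a)).add hJ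
  have hc' : Tendsto (fun k : ℕ => 1 - (1 + a * ((k : ℝ) + 1)⁻¹
      + ∫ x, ((k : ℝ) + 1)⁻¹ * (1 - Real.exp (-(((k : ℝ) + 1) * x))) ∂μ)⁻¹) atTop
      (𝓝 (1 - (1 + a * 0 + 0)⁻¹)) := tendsto_const_nhds.sub (hc.inv₀ (by norm_num))
  have e0 : (1 : ℝ) - (1 + a * 0 + 0)⁻¹ = 0 := by norm_num
  rw [e0] at hc'
  refine hc'.congr fun k => ?_
  rw [ff_coeff_one hμ hi ha (hpos k), integral_const_mul]
  congr 1
  have hne := (hpos k).ne'
  have e1 : 1 + a * ((k : ℝ) + 1)⁻¹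
      + ((k : ℝ) + 1)⁻¹ * ∫ x, (1 - Real.exp (-(((k : ℝ) + 1) * x))) ∂μ
      = c0 μ a ((k : ℝ) + 1) / ((k : ℝ) + 1) := by
    unfold c0
    field_simp
  rw [e1, inv_div]

/-- the canonical class -/
def Canon (p : ℝ → ℝ) : Prop :=
  ContinuousOn p (Set.Ici 0) ∧ ∃ μ : Measure ℝ, μ (Set.Iic 0) = 0 ∧
    Integrable (fun x : ℝ => 1 - Real.exp (-x)) μ ∧ ∃ a : ℝ, 0 ≤ a ∧
    ∀ s : ℝ, 0 < s →
      (∫ t in Set.Ioi (0:ℝ), Real.exp (-(s * t)) * p t) *
        (s + a + ∫ x, (1 - Real.exp (-(s * x))) ∂μ) = 1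

theorem upper_half {M0 : ℝ} (hM : Real.exp (-1) < M0) :
    ∃ δ : ℝ, 0 < δ ∧ ∀ p : ℝ → ℝ, Canon p → (∃ t ∈ Icc (0 : ℝ) 1, p t < δ) → p 1 ≤ M0 := by
  obtain ⟨ε, q0, hε, hq0, -, hmain⟩ := renewal_main hM
  refine ⟨ε, hε, ?_⟩
  rintro p ⟨hp, μ, hμ, hi, a, ha, hL⟩ ⟨t, ht, htε⟩
  -- a point in the open interval
  obtain ⟨t1, ht1, ht1ε⟩ : ∃ t1 ∈ Ioo (0 : ℝ) 1, p t1 < ε := by
    by_contra hcon
    push Not at hcon
    have hcl : t ∈ closure (Ioo (0 : ℝ) 1) := by
      rw [closure_Ioo (by norm_num)]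
      exact ht
    have hcw : ContinuousWithinAt p (Ioo 0 1) t :=
      (hp t ht.1).mono fun y hy => hy.1.le
    have := ContinuousWithinAt.closure_le (f := fun _ => ε) (g := p) hcl
      continuousWithinAt_const hcw (fun y hy => hcon y hy)
    linarith
  have hpos : ∀ k : ℕ, (0 : ℝ) < (k : ℝ) + 1 := fun k => by positivity
  have hlim : Tendsto (fun k : ℕ => (k : ℝ) + 1) atTop atTop :=
    tendsto_atTop_add_const_right _ _ tendsto_natCast_atTop_atTop
  have hint : IntegrableOn (fun t => Real.exp (-t) * p t) (Ioi 0) := by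
    have := hint_of_laplace hL 1 one_pos
    simpa using this
  have hA := (gk_tendsto hp hint (t0 := 1) one_pos (n := fun k => k) (θ := fun k => (k : ℝ) + 1)
    hlim (by
      have : (fun k : ℕ => ((k : ℝ) + 1) / ((k : ℝ) + 1)) = fun _ => (1 : ℝ) := by
        funext k
        exact div_self (hpos k).ne'
      rw [this]
      exact tendsto_const_nhds)).2
  have hB := (gk_tendsto hp hint (t0 := t1) ht1.1 (n := fun k => ⌊t1 * ((k : ℝ) + 1)⌋₊)
    (θ := fun k => (k : ℝ) + 1) hlim (by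
      have h1 := (tendsto_nat_floor_mul_div_atTop (R := ℝ) ht1.1.le).comp hlim
      have h2 : Tendsto (fun k : ℕ => ((k : ℝ) + 1)⁻¹) atTop (𝓝 0) :=
        tendsto_inv_atTop_zero.comp hlim
      have h3 := h1.add h2
      rw [add_zero] at h3
      refine h3.congr fun k => ?_
      simp only [Function.comp_apply]
      rw [add_div, one_div])).2
  have hr := r_tendsto hμ hi ha
  refine le_of_tendsto hA ?_
  filter_upwards [hB.eventually_lt_const ht1ε, hr.eventually_lt_const hq0] with k hk1 hk2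
  rw [← ff_u_coeff hp hμ hi ha hL (hpos k)] at hk1 ⊢
  refine hmain _ (ff_ren hμ hi ha (hpos k)) hk2.le _ _ ?_ hk1.le
  have h4 : ⌊t1 * ((k : ℝ) + 1)⌋₊ < k + 1 := by
    rw [Nat.floor_lt (by have := ht1.1.le; positivity)]
    push_cast
    have := ht1.2
    nlinarith [hpos k]
  omega

end canonical

end Pool.Agent.Helper70
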