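import Mathlib
import Pool.Agent.Helper70.Br3

set_option autoImplicit false

/-!
Davidson's example: the lower half of the conjecture.
-/

open MeasureTheory Filter Topology Set

namespace Pool.Agent.Helper70

/-- the nth term of Davidson's example -/
noncomputable def dg (q x : ℝ) (n : ℕ) (t : ℝ) : ℝ :=
  Real.exp (-(q * max (t - n * x) 0)) * ((q * max (t - n * x) 0) ^ n / (n.factorial : ℝ))

noncomputable def dp (q x : ℝ) (t : ℝ) : ℝ := ∑' n, dg q x n t

theorem dg_nonneg {q : ℝ} (hq : 0 < q) (x : ℝ) (n : ℕ) (t : ℝ) : 0 ≤ dg q x n t := by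
  unfold dg
  have : 0 ≤ max (t - n * x) 0 := le_max_right _ _
  positivity

theorem dg_bound {q x : ℝ} (hq : 0 < q) (hx : 0 < x) (n : ℕ) {t T : ℝ} (hT : 0 ≤ T) (ht : t ≤ T) :
    dg q x n t ≤ (q * T) ^ n / (n.factorial : ℝ) := by
  unfold dg
  have h0 : 0 ≤ max (t - n * x) 0 := le_max_right _ _
  have h1 : max (t - n * x) 0 ≤ T := by
    refine max_le ?_ hT
    have : 0 ≤ (n : ℝ) * x := by positivity
    linarith
  have h2 : Real.exp (-(q * max (t - n * x) 0)) ≤ 1 := Real.exp_le_one_iff.2 (by
    have : 0 ≤ q * max (t - n * x) 0 := by positivity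
    linarith)
  have h3 : (q * max (t - n * x) 0) ^ n / (n.factorial : ℝ) ≤ (q * T) ^ n / (n.factorial : ℝ) := by
    refine div_le_div_of_nonneg_right ?_ (by positivity)
    exact pow_le_pow_left₀ (by positivity) (mul_le_mul_of_nonneg_left h1 hq.le) n
  calc _ ≤ 1 * ((q * max (t - n * x) 0) ^ n / (n.factorial : ℝ)) :=
        mul_le_mul_of_nonneg_right h2 (by positivity)
    _ ≤ _ := by rw [one_mul]; exact h3

theorem continuous_dg (q x : ℝ) (n : ℕ) : Continuous (dg q x n) := by
  unfold dg
  fun_prop

theorem summable_dg {q x : ℝ} (hq : 0 < q) (hx : 0 < x) (t : ℝ) :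
    Summable fun n => dg q x n t := by
  refine Summable.of_nonneg_of_le (fun n => dg_nonneg hq x n t)
    (fun n => dg_bound hq hx n (le_max_right t 0) (le_max_left t 0)) ?_
  exact Real.summable_pow_div_factorial _

theorem continuous_dp {q x : ℝ} (hq : 0 < q) (hx : 0 < x) : Continuous (dp q x) := by
  rw [continuous_iff_continuousAt]
  intro t
  have hT : t < max t 0 + 1 := by
    have := le_max_left t 0
    linarith
  have hT0 : 0 ≤ max t 0 + 1 := by
    have := le_max_right t 0
    linarith
  have h : ContinuousOn (dp q x) (Iic (max t 0 + 1)) := by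
    refine continuousOn_tsum (fun n => (continuous_dg q x n).continuousOn)
      (Real.summable_pow_div_factorial (q * (max t 0 + 1))) ?_
    intro n y hy
    rw [Real.norm_eq_abs, abs_of_nonneg (dg_nonneg hq x n y)]
    exact dg_bound hq hx n hT0 hy
  exact h.continuousAt (Iic_mem_nhds hT)

theorem dg_integral {q x s : ℝ} (hq : 0 < q) (hx : 0 < x) (hs : 0 < s) (n : ℕ) :
    IntegrableOn (fun t => Real.exp (-(s * t)) * dg q x n t) (Ioi 0) ∧
    ∫ t in Ioi (0 : ℝ), Real.exp (-(s * t)) * dg q x n t
      = (s + q)⁻¹ * (q * Real.exp (-(s * x)) / (s + q)) ^ n := by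
  have hsq : 0 < s + q := by linarith
  set H : ℝ → ℝ := (Ioi (0 : ℝ)).indicator (gk (s + q) n) with hH
  have hHi : Integrable H := (integrable_indicator_iff measurableSet_Ioi).2 (gk_integrable hsq n)
  have hHint : ∫ t, H t = 1 := by
    rw [hH, integral_indicator measurableSet_Ioi, gk_integral hsq n]
  set C : ℝ := (s + q)⁻¹ * (q * Real.exp (-(s * x)) / (s + q)) ^ n with hC
  have hpt : ∀ t, (Ioi (0 : ℝ)).indicator (fun t => Real.exp (-(s * t)) * dg q x n t) t
      = C * H (t - n * x) := by
    intro t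
    by_cases ht : 0 < t - n * x
    · have hnx : 0 ≤ (n : ℝ) * x := by positivity
      have ht0 : 0 < t := by linarith
      rw [indicator_of_mem (show t ∈ Ioi (0 : ℝ) from ht0), hH,
        indicator_of_mem (show t - n * x ∈ Ioi (0 : ℝ) from ht)]
      unfold dg gk
      rw [max_eq_left ht.le]
      set y := t - n * x with hy
      have ht' : t = y + n * x := by rw [hy]; ring
      rw [ht', hC, div_pow, mul_pow q y n, mul_pow q (Real.exp (-(s * x))) n, ← Real.exp_nat_mul,
        mul_pow (s + q) y n]
      have e1 : Real.exp (-(s * (y + n * x))) * Real.exp (-(q * y))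
          = Real.exp (n * -(s * x)) * Real.exp (-((s + q) * y)) := by
        rw [← Real.exp_add, ← Real.exp_add]
        congr 1
        ring
      have hne : (s + q) ≠ 0 := hsq.ne'
      have hne2 : (n.factorial : ℝ) ≠ 0 := by positivity
      calc Real.exp (-(s * (y + n * x))) * (Real.exp (-(q * y)) * (q ^ n * y ^ n / (n.factorial : ℝ)))
          = (Real.exp (-(s * (y + n * x))) * Real.exp (-(q * y)))
            * (q ^ n * y ^ n / (n.factorial : ℝ)) := by ring
        _ = (Real.exp (n * -(s * x)) * Real.exp (-((s + q) * y)))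
            * (q ^ n * y ^ n / (n.factorial : ℝ)) := by rw [e1]
        _ = _ := by
          field_simp
    · have ht' : t - n * x ≤ 0 := not_lt.1 ht
      have hR : H (t - n * x) = 0 := by
        rw [hH]
        exact indicator_of_notMem (by simpa using ht') _
      rw [hR, mul_zero]
      by_cases ht0 : 0 < t
      · rw [indicator_of_mem (show t ∈ Ioi (0 : ℝ) from ht0)]
        have hn : n ≠ 0 := by
          rintro rfl
          simp at ht'
          linarith
        unfold dg
        rw [max_eq_right ht', mul_zero, zero_pow hn]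
        simp
      · exact indicator_of_notMem (by simpa using ht0) _
  have hfun : (Ioi (0 : ℝ)).indicator (fun t => Real.exp (-(s * t)) * dg q x n t)
      = fun t => C * H (t - n * x) := funext hpt
  constructor
  · rw [← integrable_indicator_iff measurableSet_Ioi, hfun]
    exact (hHi.comp_sub_right _).const_mul C
  · rw [← integral_indicator measurableSet_Ioi, hfun, integral_const_mul,
      integral_sub_right_eq_self (fun t => H t) ((n : ℝ) * x), hHint, mul_one]

theorem dp_laplace {q x s : ℝ} (hq : 0 < q) (hx : 0 < x) (hs : 0 < s) :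
    (∫ t in Ioi (0 : ℝ), Real.exp (-(s * t)) * dp q x t)
      * (s + q * (1 - Real.exp (-(s * x)))) = 1 := by
  have hsq : 0 < s + q := by linarith
  set ρ : ℝ := q * Real.exp (-(s * x)) / (s + q) with hρ
  have hex : Real.exp (-(s * x)) ≤ 1 := Real.exp_le_one_iff.2 (by nlinarith)
  have hρ0 : 0 ≤ ρ := by positivity
  have hρ1 : ρ < 1 := by
    rw [hρ, div_lt_one hsq]
    nlinarith
  have hgeo := hasSum_geometric_of_lt_one hρ0 hρ1
  have hsum : HasSum (fun n => ∫ t in Ioi (0 : ℝ), Real.exp (-(s * t)) * dg q x n t)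
      (∫ t in Ioi (0 : ℝ), ∑' n, Real.exp (-(s * t)) * dg q x n t) := by
    refine hasSum_integral_of_summable_integral_norm
      (F := fun n t => Real.exp (-(s * t)) * dg q x n t)
      (fun n => (dg_integral hq hx hs n).1) ?_
    have e : (fun n => ∫ t in Ioi (0 : ℝ), ‖Real.exp (-(s * t)) * dg q x n t‖)
        = fun n => (s + q)⁻¹ * ρ ^ n := by
      funext n
      rw [← (dg_integral hq hx hs n).2]
      refine integral_congr_ae ?_
      filter_upwards with t
      rw [Real.norm_eq_abs, abs_of_nonneg (mul_nonneg (Real.exp_pos _).le (dg_nonneg hq x n t))]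
    rw [e]
    exact hgeo.summable.mul_left _
  have e1 : (fun n => ∫ t in Ioi (0 : ℝ), Real.exp (-(s * t)) * dg q x n t)
      = fun n => (s + q)⁻¹ * ρ ^ n := by
    funext n
    exact (dg_integral hq hx hs n).2
  rw [e1] at hsum
  have h2 := hsum.unique (hgeo.mul_left (s + q)⁻¹)
  have e2 : ∫ t in Ioi (0 : ℝ), Real.exp (-(s * t)) * dp q x t
      = ∫ t in Ioi (0 : ℝ), ∑' n, Real.exp (-(s * t)) * dg q x n t := by
    refine integral_congr_ae ?_
    filter_upwards with t
    unfold dp
    rw [tsum_mul_left]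
  rw [e2, h2, hρ]
  have hne : s + q ≠ 0 := hsq.ne'
  have hd : s + q * (1 - Real.exp (-(s * x))) ≠ 0 := by
    have : 0 < s + q * (1 - Real.exp (-(s * x))) := by nlinarith
    exact this.ne'
  have e3 : 1 - q * Real.exp (-(s * x)) / (s + q)
      = (s + q * (1 - Real.exp (-(s * x)))) / (s + q) := by
    field_simp
    ring
  rw [e3, inv_div]
  field_simp

theorem dp_canon {q x : ℝ} (hq : 0 < q) (hx : 0 < x) : Canon (dp q x) := by
  refine ⟨(continuous_dp hq hx).continuousOn, ENNReal.ofReal q • Measure.dirac x, ?_, ?_, 0,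
    le_rfl, ?_⟩
  · rw [Measure.smul_apply, Measure.dirac_apply' _ measurableSet_Iic,
      indicator_of_notMem (by simpa using hx)]
    simp
  · refine Integrable.smul_measure ?_ ENNReal.ofReal_ne_top
    exact integrable_dirac (by simp)
  · intro s hs
    rw [integral_smul_measure, integral_dirac, ENNReal.toReal_ofReal hq.le, add_zero, smul_eq_mul]
    exact dp_laplace hq hx hs

theorem dp_small {q x t : ℝ} (hx : 0 < x) (ht0 : 0 ≤ t) (htx : t ≤ x) :
    dp q x t = Real.exp (-(q * t)) := by
  unfold dp
  rw [tsum_eq_single 0]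
  · unfold dg
    simp [max_eq_left ht0]
  · intro n hn
    unfold dg
    have h1 : (1 : ℝ) ≤ n := by exact_mod_cast Nat.one_le_iff_ne_zero.2 hn
    have h2 : t - n * x ≤ 0 := by nlinarith
    rw [max_eq_right h2, mul_zero, zero_pow hn]
    simp

theorem dp_mid {q x t : ℝ} (hx : 0 < x) (htx : x ≤ t) (ht2 : t ≤ 2 * x) :
    dp q x t = Real.exp (-(q * t)) + Real.exp (-(q * (t - x))) * (q * (t - x)) := by
  unfold dp
  rw [tsum_eq_sum (s := {0, 1})]
  · rw [Finset.sum_pair (by norm_num)]
    unfold dg
    have h0 : 0 ≤ t := by linarith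
    have h1 : 0 ≤ t - x := by linarith
    simp [max_eq_left h0, max_eq_left h1]
  · intro n hn
    have hn2 : 2 ≤ n := by
      simp only [Finset.mem_insert, Finset.mem_singleton, not_or] at hn
      omega
    unfold dg
    have h1 : (2 : ℝ) ≤ n := by exact_mod_cast hn2
    have h2 : t - n * x ≤ 0 := by nlinarith
    rw [max_eq_right h2, mul_zero, zero_pow (by omega)]
    simp

/-- every `M < 1/e` is attained with an arbitrarily small value in the middle -/
theorem example_half {M : ℝ} (hM0 : 0 < M) (hM1 : M < Real.exp (-1)) {δ : ℝ} (hδ : 0 < δ) :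
    ∃ p : ℝ → ℝ, Canon p ∧ p 1 = M ∧ p (1 / 2) < δ := by
  -- choose q large
  have hlim : Tendsto (fun k : ℕ => Real.exp (-((k : ℝ) / 2))) atTop (𝓝 0) := by
    refine Real.tendsto_exp_atBot.comp ?_
    refine tendsto_neg_atTop_atBot.comp ?_
    exact tendsto_natCast_atTop_atTop.atTop_div_const (by norm_num)
  obtain ⟨k, hk1, hk2, hk3⟩ := ((hlim.eventually_lt_const hδ).and
    ((hlim.eventually_lt_const hM0).and (eventually_ge_atTop 3))).exists
  set q : ℝ := (k : ℝ) with hq
  have hq3 : (3 : ℝ) ≤ q := by rw [hq]; exact_mod_cast hk3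
  have hq0 : 0 < q := by linarith
  have hexq : Real.exp (-q) < M := by
    refine lt_trans ?_ hk2
    exact Real.exp_lt_exp.2 (by linarith)
  -- intermediate value
  have hcont : ContinuousOn (fun y : ℝ => Real.exp (-q) + Real.exp (-y) * y) (Icc 0 1) := by
    fun_prop
  have hivt := intermediate_value_Icc (by norm_num : (0 : ℝ) ≤ 1) hcont
  have hmem : M ∈ Icc (Real.exp (-q) + Real.exp (-0) * 0) (Real.exp (-q) + Real.exp (-1) * 1) := by
    constructor
    · simp only [mul_zero, add_zero]
      exact hexq.le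
    · have := Real.exp_pos (-q)
      linarith
  obtain ⟨y, hy, hyM⟩ := hivt hmem
  have hy0 : 0 ≤ y := hy.1
  have hy1 : y ≤ 1 := hy.2
  have hyq : y / q ≤ 1 / 3 := by
    rw [div_le_iff₀ hq0]
    linarith
  have hyq0 : 0 ≤ y / q := by positivity
  have hx : 0 < 1 - y / q := by linarith
  refine ⟨dp q (1 - y / q), dp_canon hq0 hx, ?_, ?_⟩
  · rw [dp_mid hx (by linarith) (by linarith)]
    have e : q * (1 - (1 - y / q)) = y := by
      field_simp
      ring
    rw [e, mul_one]
    exact hyM
  · rw [dp_small hx (by norm_num) (by linarith)]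
    have e : q * (1 / 2) = q / 2 := by ring
    rw [e]
    exact hk1

end Pool.Agent.Helper70
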