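import Mathlib

/-!
# Framework: degree processes on path space

A path is a pair `(k, q)`: `k v` is the type of vertex `v`, `q t` is the vertex picked at step `t`.
-/

open MeasureTheory Filter Topology
open scoped ENNReal NNReal

namespace Pool.Agent.Helper70.Fr

/-- path space -/
abbrev Pth : Type := (ℕ → ℕ) × (ℕ → ℕ)

/-- number of picks of `v` before time `t`. -/
def dg (q : ℕ → ℕ) (t v : ℕ) : ℕ := ((Finset.range t).filter (fun s => q s = v)).card

/-- total fitness. -/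
noncomputable def ZZ (F : ℕ → ℕ → ℝ) (x : Pth) (t : ℕ) : ℝ :=
  ∑ v ∈ Finset.range (t + 1), F (dg x.2 t v) (x.1 v)

/-- intrinsic clock. -/
noncomputable def AA (F : ℕ → ℕ → ℝ) (x : Pth) (t : ℕ) : ℝ :=
  ∑ s ∈ Finset.range t, 1 / ZZ F x s

/-- update of a path at step `t`: pick `v`, the new vertex `t+1` gets type `w`. -/
def upd (x : Pth) (t v w : ℕ) : Pth :=
  (Function.update x.1 (t + 1) w, Function.update x.2 t v)

/-- agreement up to time `t`. -/
def Agr (t : ℕ) (x y : Pth) : Prop := (∀ s ≤ t, x.1 s = y.1 s) ∧ (∀ s < t, x.2 s = y.2 s)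

/-- adapted functions. -/
def Adp {α : Type*} (t : ℕ) (V : Pth → α) : Prop := ∀ x y, Agr t x y → V x = V y

lemma Agr.symm {t : ℕ} {x y : Pth} (h : Agr t x y) : Agr t y x :=
  ⟨fun s hs => (h.1 s hs).symm, fun s hs => (h.2 s hs).symm⟩

lemma Agr.mono {t t' : ℕ} {x y : Pth} (h : Agr t x y) (htt : t' ≤ t) : Agr t' x y :=
  ⟨fun s hs => h.1 s (hs.trans htt), fun s hs => h.2 s (lt_of_lt_of_le hs htt)⟩

lemma Adp.mono {α : Type*} {t t' : ℕ} {V : Pth → α} (h : Adp t V) (htt : t ≤ t') : Adp t' V :=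
  fun x y hxy => h x y (hxy.mono htt)

lemma agr_upd (x : Pth) (t v w : ℕ) : Agr t (upd x t v w) x := by
  refine ⟨fun s hs => ?_, fun s hs => ?_⟩
  · simp only [upd]
    rw [Function.update_of_ne (by omega)]
  · simp only [upd]
    rw [Function.update_of_ne (by omega)]

lemma dg_congr {t : ℕ} {x y : Pth} (h : Agr t x y) {s : ℕ} (hs : s ≤ t) (v : ℕ) :
    dg x.2 s v = dg y.2 s v := by
  unfold dg
  congr 1
  apply Finset.filter_congr
  intro r hr
  rw [h.2 r (by have := Finset.mem_range.1 hr; omega)]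

lemma ZZ_congr (F : ℕ → ℕ → ℝ) {t : ℕ} {x y : Pth} (h : Agr t x y) {s : ℕ} (hs : s ≤ t) :
    ZZ F x s = ZZ F y s := by
  unfold ZZ
  apply Finset.sum_congr rfl
  intro r hr
  rw [h.1 r (by have := Finset.mem_range.1 hr; omega), dg_congr h hs]

lemma AA_congr (F : ℕ → ℕ → ℝ) {t : ℕ} {x y : Pth} (h : Agr t x y) {s : ℕ} (hs : s ≤ t + 1) :
    AA F x s = AA F y s := by
  unfold AA
  apply Finset.sum_congr rfl
  intro r hr
  rw [ZZ_congr F h (by have := Finset.mem_range.1 hr; omega)]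

@[simp] lemma upd_fst_self (x : Pth) (t v w : ℕ) : (upd x t v w).1 (t + 1) = w := by
  simp [upd]

@[simp] lemma upd_snd_self (x : Pth) (t v w : ℕ) : (upd x t v w).2 t = v := by
  simp [upd]

lemma upd_fst_of_le (x : Pth) {t v w s : ℕ} (h : s ≤ t) : (upd x t v w).1 s = x.1 s :=
  (agr_upd x t v w).1 s h

lemma dg_zero (q : ℕ → ℕ) (v : ℕ) : dg q 0 v = 0 := by simp [dg]

lemma dg_succ (q : ℕ → ℕ) (t v : ℕ) : dg q (t + 1) v = dg q t v + if q t = v then 1 else 0 := by
  unfold dg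
  rw [Finset.range_add_one, Finset.filter_insert]
  split_ifs with h
  · rw [Finset.card_insert_of_notMem]
    simp
  · simp

lemma dg_mono (q : ℕ → ℕ) {s t : ℕ} (h : s ≤ t) (v : ℕ) : dg q s v ≤ dg q t v := by
  unfold dg
  apply Finset.card_le_card
  apply Finset.filter_subset_filter
  exact Finset.range_subset_range.2 h

lemma dg_upd_le (x : Pth) {t v w s : ℕ} (h : s ≤ t) (u : ℕ) :
    dg (upd x t v w).2 s u = dg x.2 s u := dg_congr (agr_upd x t v w) h u

lemma dg_upd_succ (x : Pth) (t v w u : ℕ) :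
    dg (upd x t v w).2 (t + 1) u = dg x.2 t u + if v = u then 1 else 0 := by
  rw [dg_succ, dg_upd_le x le_rfl, upd_snd_self]

lemma ZZ_upd (F : ℕ → ℕ → ℝ) (x : Pth) {t v w s : ℕ} (h : s ≤ t) :
    ZZ F (upd x t v w) s = ZZ F x s := ZZ_congr F (agr_upd x t v w) h

lemma AA_upd (F : ℕ → ℕ → ℝ) (x : Pth) {t v w s : ℕ} (h : s ≤ t + 1) :
    AA F (upd x t v w) s = AA F x s := AA_congr F (agr_upd x t v w) h

lemma AA_succ (F : ℕ → ℕ → ℝ) (x : Pth) (t : ℕ) : AA F x (t + 1) = AA F x t + 1 / ZZ F x t := by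
  unfold AA
  rw [Finset.sum_range_succ]

lemma AA_zero (F : ℕ → ℕ → ℝ) (x : Pth) : AA F x 0 = 0 := by simp [AA]

section basic
variable {F : ℕ → ℕ → ℝ} (hF : ∀ i j, 1 ≤ F i j)
include hF

lemma ZZ_ge (x : Pth) (t : ℕ) : (t : ℝ) + 1 ≤ ZZ F x t := by
  unfold ZZ
  calc (t : ℝ) + 1 = ∑ v ∈ Finset.range (t + 1), (1 : ℝ) := by simp
    _ ≤ _ := Finset.sum_le_sum (fun v _ => hF _ _)

lemma ZZ_pos (x : Pth) (t : ℕ) : 0 < ZZ F x t := by
  have := ZZ_ge hF x t
  have h2 : (0 : ℝ) ≤ t := Nat.cast_nonneg t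
  linarith

lemma AA_mono (x : Pth) {s t : ℕ} (h : s ≤ t) : AA F x s ≤ AA F x t := by
  unfold AA
  apply Finset.sum_le_sum_of_subset_of_nonneg (Finset.range_subset_range.2 h)
  intro r _ _
  exact div_nonneg zero_le_one (ZZ_pos hF x r).le

lemma AA_nonneg (x : Pth) (t : ℕ) : 0 ≤ AA F x t := by
  have := AA_mono hF x (Nat.zero_le t)
  rwa [AA_zero] at this

lemma AA_step_le (x : Pth) (t : ℕ) : AA F x (t + 1) ≤ AA F x t + 1 / (t + 1) := by
  rw [AA_succ]
  gcongr
  exact ZZ_ge hF x t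

end basic

/-- one-step average. -/
noncomputable def KK (F : ℕ → ℕ → ℝ) (p : ℕ → ℝ≥0∞) (t : ℕ) (V : Pth → ℝ≥0∞) (x : Pth) : ℝ≥0∞ :=
  ∑ v ∈ Finset.range (t + 1), ENNReal.ofReal (F (dg x.2 t v) (x.1 v) / ZZ F x t) *
    ∑' w, p w * V (upd x t v w)

/-- The law of the process with fitness `F` and type distribution `p`. -/
structure IsLaw (F : ℕ → ℕ → ℝ) (p : ℕ → ℝ≥0∞) (Q : Measure Pth) : Prop where
  prob : IsProbabilityMeasure Q
  init : ∀ j, Q {x | x.1 0 = j} = p j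
  step : ∀ (t : ℕ) (V : Pth → ℝ≥0∞), Adp (t + 1) V → ∫⁻ x, V x ∂Q = ∫⁻ x, KK F p t V x ∂Q
  valid : ∀ᵐ x ∂Q, ∀ t, x.2 t ≤ t

/-! ### measurability of adapted functions -/

/-- truncation of a path -/
def trc (t : ℕ) (x : Pth) : (Fin (t + 1) → ℕ) × (Fin t → ℕ) :=
  (fun i => x.1 i, fun i => x.2 i)

lemma measurable_trc (t : ℕ) : Measurable (trc t) := by
  unfold trc
  apply Measurable.prodMk
  · apply measurable_pi_lambda
    intro i
    exact (measurable_pi_apply _).comp measurable_fst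
  · apply measurable_pi_lambda
    intro i
    exact (measurable_pi_apply _).comp measurable_snd

/-- extension by zero -/
def ext0 (t : ℕ) (y : (Fin (t + 1) → ℕ) × (Fin t → ℕ)) : Pth :=
  (fun i => if h : i < t + 1 then y.1 ⟨i, h⟩ else 0, fun i => if h : i < t then y.2 ⟨i, h⟩ else 0)

lemma agr_ext0 (t : ℕ) (x : Pth) : Agr t (ext0 t (trc t x)) x := by
  refine ⟨fun s hs => ?_, fun s hs => ?_⟩
  · have h1 : s < t + 1 := by omega
    simp only [ext0, trc, h1, dite_true]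
  · simp only [ext0, trc, hs, dite_true]

lemma Adp.measurable {α : Type*} [MeasurableSpace α] {t : ℕ} {V : Pth → α} (h : Adp t V) :
    Measurable V := by
  have h1 : V = (fun y => V (ext0 t y)) ∘ trc t := by
    funext x
    exact (h _ _ (agr_ext0 t x)).symm
  rw [h1]
  exact (measurable_of_countable _).comp (measurable_trc t)

lemma Adp.measurableSet {t : ℕ} {S : Set Pth} (h : ∀ x y, Agr t x y → x ∈ S → y ∈ S) :
    MeasurableSet S := by
  have : Adp t (fun x => x ∈ S) := by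
    intro x y hxy
    exact propext ⟨h x y hxy, h y x hxy.symm⟩
  have := this.measurable
  exact measurableSet_setOfPred.2 this

/-! ### Ville -/

lemma KK_mono (F : ℕ → ℕ → ℝ) (p : ℕ → ℝ≥0∞) (t : ℕ) {V V' : Pth → ℝ≥0∞} (x : Pth)
    (h : ∀ v ≤ t, ∀ w, V (upd x t v w) ≤ V' (upd x t v w)) :
    KK F p t V x ≤ KK F p t V' x := by
  unfold KK
  apply Finset.sum_le_sum
  intro v hv
  have hv' : v ≤ t := by have := Finset.mem_range.1 hv; omega
  gcongr with w
  exact h v hv' w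

lemma KK_mul_adp (F : ℕ → ℕ → ℝ) (p : ℕ → ℝ≥0∞) (t : ℕ) {V c : Pth → ℝ≥0∞} (hc : Adp t c) (x : Pth) :
    KK F p t (fun y => c y * V y) x = c x * KK F p t V x := by
  unfold KK
  rw [Finset.mul_sum]
  apply Finset.sum_congr rfl
  intro v _
  rw [mul_left_comm]
  congr 1
  rw [← ENNReal.tsum_mul_left]
  apply tsum_congr
  intro w
  simp only
  rw [hc _ _ (agr_upd x t v w)]
  ring

theorem ville {F : ℕ → ℕ → ℝ} {p : ℕ → ℝ≥0∞} {Q : Measure Pth} (hQ : IsLaw F p Q)
    (V : ℕ → Pth → ℝ≥0∞) (s0 : ℕ) (hV : ∀ t, Adp t (V t))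
    (hstep : ∀ t, s0 ≤ t → ∀ x, KK F p t (V (t + 1)) x ≤ V t x) (a : ℝ≥0∞) :
    a * Q {x | ∃ t, s0 ≤ t ∧ a ≤ V t x} ≤ ∫⁻ x, V s0 x ∂Q := by
  classical
  haveI := hQ.prob
  set S : ℕ → Set Pth := fun T => {x | ∃ t, s0 ≤ t ∧ t ≤ s0 + T ∧ a ≤ V t x} with hS
  have hSm : ∀ T, MeasurableSet (S T) := by
    intro T
    apply Adp.measurableSet (t := s0 + T)
    rintro x y hxy ⟨t, h1, h2, h3⟩
    refine ⟨t, h1, h2, ?_⟩
    rwa [← (hV t) x y (hxy.mono h2)]
  have hSadp : ∀ T, Adp (s0 + T) (fun x => (S T)ᶜ.indicator (1 : Pth → ℝ≥0∞) x) := by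
    intro T x y hxy
    have : x ∈ S T ↔ y ∈ S T := by
      constructor
      · rintro ⟨t, h1, h2, h3⟩
        exact ⟨t, h1, h2, by rwa [← (hV t) x y (hxy.mono h2)]⟩
      · rintro ⟨t, h1, h2, h3⟩
        exact ⟨t, h1, h2, by rwa [(hV t) x y (hxy.mono h2)]⟩
    by_cases hx : x ∈ S T
    · simp [hx, this.1 hx]
    · have hy : y ∉ S T := fun h => hx (this.2 h)
      simp [hx, hy]
  have key : ∀ T, a * Q (S T) + ∫⁻ x in (S T)ᶜ, V (s0 + T) x ∂Q ≤ ∫⁻ x, V s0 x ∂Q := by
    intro T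
    induction T with
    | zero =>
      have hle : a * Q (S 0) ≤ ∫⁻ x in S 0, V s0 x ∂Q := by
        rw [← setLIntegral_const]
        apply setLIntegral_mono_ae' (hSm 0)
        apply Filter.Eventually.of_forall
        rintro x ⟨t, h1, h2, h3⟩
        have : t = s0 := by omega
        rwa [this] at h3
      calc a * Q (S 0) + ∫⁻ x in (S 0)ᶜ, V (s0 + 0) x ∂Q
          ≤ ∫⁻ x in S 0, V s0 x ∂Q + ∫⁻ x in (S 0)ᶜ, V s0 x ∂Q := by
            gcongr
            simp
        _ = _ := lintegral_add_compl _ (hSm 0)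
    | succ T ih =>
      refine le_trans ?_ ih
      have hsub : S T ⊆ S (T + 1) := by
        rintro x ⟨t, h1, h2, h3⟩
        exact ⟨t, h1, by omega, h3⟩
      -- one-step inequality on (S T)ᶜ
      have h1 : ∫⁻ x in (S T)ᶜ, V (s0 + (T + 1)) x ∂Q ≤ ∫⁻ x in (S T)ᶜ, V (s0 + T) x ∂Q := by
        rw [← lintegral_indicator (hSm T).compl, ← lintegral_indicator (hSm T).compl]
        have e1 : ∀ (W : Pth → ℝ≥0∞), (fun x => (S T)ᶜ.indicator W x) =
            fun x => (S T)ᶜ.indicator (1 : Pth → ℝ≥0∞) x * W x := by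
          intro W
          funext x
          by_cases hx : x ∈ (S T)ᶜ
          · simp [Set.indicator_of_mem hx]
          · simp [Set.indicator_of_notMem hx]
        rw [e1, e1]
        rw [hQ.step (s0 + T) (fun x => (S T)ᶜ.indicator (1 : Pth → ℝ≥0∞) x * V (s0 + (T + 1)) x)]
        · apply lintegral_mono
          intro x
          change KK F p (s0 + T) _ x ≤ _
          rw [KK_mul_adp F p (s0 + T) (hSadp T) x]
          exact mul_le_mul_right (hstep (s0 + T) (by omega) x) _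
        · intro x y hxy
          have a1 := hSadp T x y (hxy.mono (by omega))
          have a2 := hV (s0 + (T + 1)) x y hxy
          simp only at a1 ⊢
          rw [a1, a2]
      -- split (S T)ᶜ
      have h2 : ∫⁻ x in (S T)ᶜ, V (s0 + (T + 1)) x ∂Q =
          ∫⁻ x in (S (T + 1) \ S T), V (s0 + (T + 1)) x ∂Q
            + ∫⁻ x in (S (T + 1))ᶜ, V (s0 + (T + 1)) x ∂Q := by
        rw [← lintegral_union (hSm (T + 1)).compl]
        · congr 2
          ext x
          constructor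
          · intro hx
            by_cases hx2 : x ∈ S (T + 1)
            · exact Or.inl ⟨hx2, hx⟩
            · exact Or.inr hx2
          · rintro (h | h)
            · exact h.2
            · exact fun h' => h (hsub h')
        · rw [Set.disjoint_left]
          rintro x ⟨h, _⟩ h'
          exact h' h
      have h3 : a * Q (S (T + 1) \ S T) ≤ ∫⁻ x in (S (T + 1) \ S T), V (s0 + (T + 1)) x ∂Q := by
        rw [← setLIntegral_const]
        apply setLIntegral_mono_ae' ((hSm (T + 1)).diff (hSm T))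
        apply Filter.Eventually.of_forall
        rintro x ⟨⟨t, h1, h2, h3⟩, hn⟩
        by_cases ht : t ≤ s0 + T
        · exact absurd ⟨t, h1, ht, h3⟩ hn
        · have : t = s0 + (T + 1) := by omega
          rwa [this] at h3
      have h4 : Q (S (T + 1)) = Q (S T) + Q (S (T + 1) \ S T) := by
        rw [← measure_union Set.disjoint_sdiff_right ((hSm (T + 1)).diff (hSm T)),
          Set.union_diff_cancel hsub]
      calc a * Q (S (T + 1)) + ∫⁻ x in (S (T + 1))ᶜ, V (s0 + (T + 1)) x ∂Q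
          = a * Q (S T) + (a * Q (S (T + 1) \ S T)
              + ∫⁻ x in (S (T + 1))ᶜ, V (s0 + (T + 1)) x ∂Q) := by
            rw [h4, mul_add, add_assoc]
        _ ≤ a * Q (S T) + (∫⁻ x in (S (T + 1) \ S T), V (s0 + (T + 1)) x ∂Q
              + ∫⁻ x in (S (T + 1))ᶜ, V (s0 + (T + 1)) x ∂Q) := by gcongr
        _ = a * Q (S T) + ∫⁻ x in (S T)ᶜ, V (s0 + (T + 1)) x ∂Q := by rw [h2]
        _ ≤ _ := by gcongr
  -- limit
  have hU : {x | ∃ t, s0 ≤ t ∧ a ≤ V t x} = ⋃ T, S T := by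
    ext x
    simp only [Set.mem_iUnion]
    constructor
    · rintro ⟨t, h1, h2⟩
      exact ⟨t - s0, t, h1, by omega, h2⟩
    · rintro ⟨T, t, h1, _, h2⟩
      exact ⟨t, h1, h2⟩
  have hmono : Monotone S := by
    intro T T' h x
    rintro ⟨t, h1, h2, h3⟩
    exact ⟨t, h1, by omega, h3⟩
  rw [hU, hmono.measure_iUnion, ENNReal.mul_iSup]
  apply iSup_le
  intro T
  exact le_trans (le_trans le_self_add (le_refl _)) (key T)

end Pool.Agent.Helper70.Fr
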