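import Pool.Agent.Helper70.Fr9

/-!
# Probability of infinitely many windows
-/

open MeasureTheory Filter Topology
open scoped ENNReal NNReal

namespace Pool.Agent.Helper70.Fr

lemma tsum_half_shift (N : ℕ) : ∑' m : ℕ, ENNReal.ofReal ((1 / 2 : ℝ) ^ (m + 1 + N)) =
    ENNReal.ofReal ((1 / 2 : ℝ) ^ N) := by
  have h : ∀ m : ℕ, (1 / 2 : ℝ) ^ (m + 1 + N) = ((1 / 2 : ℝ) ^ N * (1 / 2)) * (1 / 2) ^ m := by
    intro m; rw [pow_add, pow_add]; ring
  simp_rw [h]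
  rw [← ENNReal.ofReal_tsum_of_nonneg]
  · congr 1
    rw [tsum_mul_left, tsum_geometric_of_lt_one (by norm_num) (by norm_num)]
    ring
  · intro m; positivity
  · exact (summable_geometric_of_lt_one (by norm_num) (by norm_num)).mul_left _

lemma iUnion_bad {Q : Measure Pth} (B : ℕ → Set Pth) (N : ℕ)
    (h : ∀ l, 1 ≤ l → Q (B l) ≤ pe 1 * ENNReal.ofReal ((1 / 2 : ℝ) ^ (l + N))) :
    Q (⋃ m, B (m + 1)) ≤ pe 1 * ENNReal.ofReal ((1 / 2 : ℝ) ^ N) := by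
  calc Q (⋃ m, B (m + 1)) ≤ ∑' m, Q (B (m + 1)) := measure_iUnion_le _
    _ ≤ ∑' m, pe 1 * ENNReal.ofReal ((1 / 2 : ℝ) ^ (m + 1 + N)) :=
        ENNReal.tsum_le_tsum (fun m => h (m + 1) (by omega))
    _ = _ := by rw [ENNReal.tsum_mul_left, tsum_half_shift]

theorem badK_le {Q : Measure Pth} (hQ : IsLaw FF pe Q) (k : ℕ) :
    Q (BadK k) ≤ pe 1 * ENNReal.ofReal (1 / 4) := by
  classical
  set E : ℕ → Set Pth := fun l => {x | x.1 0 = 1 ∧ OnC (nn (par l)) x k l} with hE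
  have hEm : ∀ l, MeasurableSet (E l) := by
    intro l
    apply Adp.measurableSet (t := nn (par l))
    rintro x y h ⟨h1, h2⟩
    exact ⟨by rw [← h.1 0 (Nat.zero_le _)]; exact h1, h2.congr h⟩
  have hEd : Pairwise (Function.onFun Disjoint E) := by
    intro l l' hne
    rw [Function.onFun, Set.disjoint_left]
    rintro x ⟨_, h⟩ ⟨_, h'⟩
    exact hne (h.unique h')
  have h1 : ∀ l, Q {x | 1 ≤ l ∧ x ∈ BadW (fun y => OnC (nn (par l)) y k l) l (nn (par l)) 1024} ≤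
      Q (E l) * ENNReal.ofReal (1 / 4) := by
    intro l
    by_cases hl : 1 ≤ l
    · simp only [hl, true_and]
      refine (badW_le hQ (fun x y h hx => hx.congr h) hl 1024 (by norm_num)).trans ?_
      norm_num
      exact le_refl _
    · simp [hl]
  calc Q (BadK k) ≤ Q (⋃ l, {x | 1 ≤ l ∧ x ∈ BadW (fun y => OnC (nn (par l)) y k l) l
        (nn (par l)) 1024}) := by
        apply measure_mono
        rintro x ⟨l, h1, h2⟩
        exact Set.mem_iUnion.2 ⟨l, h1, h2⟩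
    _ ≤ ∑' l, Q {x | 1 ≤ l ∧ x ∈ BadW (fun y => OnC (nn (par l)) y k l) l (nn (par l)) 1024} :=
        measure_iUnion_le _
    _ ≤ ∑' l, Q (E l) * ENNReal.ofReal (1 / 4) := ENNReal.tsum_le_tsum h1
    _ = Q (⋃ l, E l) * ENNReal.ofReal (1 / 4) := by
        rw [ENNReal.tsum_mul_right, measure_iUnion hEd hEm]
    _ ≤ _ := by
        gcongr
        rw [← root_meas hQ]
        apply measure_mono
        intro x hx
        obtain ⟨l, h, _⟩ := Set.mem_iUnion.1 hx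
        exact h

/-- the window event at levels `≥ k` -/
def Win (k : ℕ) : Set Pth :=
  {x | ∃ l, k ≤ l ∧ 1 ≤ AA FF x (1024 * nn l) - AA FF x (nn l)}

lemma AA_adp (t : ℕ) : Adp t (fun x => AA FF x t) := fun _ _ h => AA_congr FF h (Nat.le_succ t)

lemma Win_meas (k : ℕ) : MeasurableSet (Win k) := by
  have : Win k = ⋃ l, {x | k ≤ l ∧ 1 ≤ AA FF x (1024 * nn l) - AA FF x (nn l)} := by
    ext x; simp [Win]
  rw [this]
  apply MeasurableSet.iUnion
  intro l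
  by_cases h : k ≤ l
  · simp only [h, true_and]
    exact measurableSet_le measurable_const
      ((AA_adp _).measurable.sub (AA_adp _).measurable)
  · simp [h]

theorem root_bad_le {Q : Measure Pth} (hQ : IsLaw FF pe Q) {k : ℕ} (hk : 1 ≤ k) :
    Q {x | x.1 0 = 1 ∧ x ∉ Win k} ≤ pe 1 * ENNReal.ofReal (1 / 2) := by
  classical
  set B1 : Set Pth := ⋃ m, BadU (m + 1)
  set B2 : Set Pth := ⋃ m, BadN (m + 1)
  set B3 : Set Pth := ⋃ m, BadD (m + 1)
  set B4 : Set Pth := ⋃ m, BadC (m + 1)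
  set B5 : Set Pth := ⋃ m, BadL (m + 1)
  set B6 : Set Pth := ⋃ m, BadP (m + 1)
  set B7 : Set Pth := ⋃ m, BadW (fun _ => True) (m + 1) 0 (kap (m + 1))
  have h1 : Q B1 ≤ pe 1 * ENNReal.ofReal ((1 / 2 : ℝ) ^ 20) :=
    iUnion_bad BadU 20 (fun l hl => badU_le hQ hl)
  have h2 : Q B2 ≤ pe 1 * ENNReal.ofReal ((1 / 2 : ℝ) ^ 20) :=
    iUnion_bad BadN 20 (fun l hl => badN_le hQ hl)
  have h3 : Q B3 ≤ pe 1 * ENNReal.ofReal ((1 / 2 : ℝ) ^ 20) :=
    iUnion_bad BadD 20 (fun l hl => badD_le hQ hl)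
  have h4 : Q B4 ≤ pe 1 * ENNReal.ofReal ((1 / 2 : ℝ) ^ 20) :=
    iUnion_bad BadC 20 (fun l hl => badC_le hQ hl)
  have h5 : Q B5 ≤ pe 1 * ENNReal.ofReal ((1 / 2 : ℝ) ^ 20) :=
    iUnion_bad BadL 20 (fun l hl => badL_le hQ hl)
  have h6 : Q B6 ≤ pe 1 * ENNReal.ofReal ((1 / 2 : ℝ) ^ 20) :=
    iUnion_bad BadP 20 (fun l hl => badP_le hQ hl)
  have h7 : Q B7 ≤ pe 1 * ENNReal.ofReal ((1 / 2 : ℝ) ^ 12) := by
    apply iUnion_bad (fun l => BadW (fun _ => True) l 0 (kap l)) 12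
    intro l hl
    refine (badW_le hQ (s0 := 0) (fun _ _ _ h => h) hl (kap l) (kap_pos l)).trans ?_
    simp only [and_true]
    rw [root_meas hQ]
    gcongr
    rw [kap_def]
    push_cast
    have : (256 : ℝ) = 2 ^ 8 := by norm_num
    rw [this, show l + 20 = 8 + (l + 12) by ring, pow_add (2 : ℝ) 8, one_div, inv_pow]
    have h8 : (0 : ℝ) < 2 ^ (l + 12) := by positivity
    rw [div_le_iff₀ (by positivity)]
    field_simp
    exact le_refl _
  have h8 := badZ_le hQ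
  have h9 := badK_le hQ k
  have hsub : Q {x | x.1 0 = 1 ∧ x ∉ Win k} ≤
      Q (B1 ∪ (B2 ∪ (B3 ∪ (B4 ∪ (B5 ∪ (B6 ∪ (B7 ∪ (BadZ ∪ BadK k)))))))) := by
    apply measure_mono_ae
    filter_upwards [hQ.valid] with x hxv
    rintro ⟨h0, hW⟩
    by_contra hc
    change x ∉ (B1 ∪ (B2 ∪ (B3 ∪ (B4 ∪ (B5 ∪ (B6 ∪ (B7 ∪ (BadZ ∪ BadK k)))))))) at hc
    simp only [Set.mem_union, not_or] at hc
    obtain ⟨c1, c2, c3, c4, c5, c6, c7, c8, c9⟩ := hc
    have aux : ∀ (B : ℕ → Set Pth), x ∉ (⋃ m, B (m + 1)) → ∀ l, 1 ≤ l → x ∉ B l := by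
      intro B hB l hl hx
      obtain ⟨m, rfl⟩ := Nat.exists_eq_add_of_le' hl
      exact hB (Set.mem_iUnion.2 ⟨m, hx⟩)
    have hG : Good x := ⟨hxv, h0, aux BadU c1, aux BadN c2, aux BadD c3, c8, aux BadC c4,
      aux BadL c5, aux BadP c6, aux (fun l => BadW (fun _ => True) l 0 (kap l)) c7⟩
    obtain ⟨l, hl1, hl2⟩ := hG.drop hk c9
    exact hW ⟨l, hl1, hl2⟩
  refine hsub.trans ?_
  have hu : Q (B1 ∪ (B2 ∪ (B3 ∪ (B4 ∪ (B5 ∪ (B6 ∪ (B7 ∪ (BadZ ∪ BadK k)))))))) ≤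
      Q B1 + (Q B2 + (Q B3 + (Q B4 + (Q B5 + (Q B6 + (Q B7 + (Q BadZ + Q (BadK k)))))))) := by
    refine (measure_union_le _ _).trans (add_le_add le_rfl ?_)
    refine (measure_union_le _ _).trans (add_le_add le_rfl ?_)
    refine (measure_union_le _ _).trans (add_le_add le_rfl ?_)
    refine (measure_union_le _ _).trans (add_le_add le_rfl ?_)
    refine (measure_union_le _ _).trans (add_le_add le_rfl ?_)
    refine (measure_union_le _ _).trans (add_le_add le_rfl ?_)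
    refine (measure_union_le _ _).trans (add_le_add le_rfl ?_)
    exact measure_union_le _ _
  refine hu.trans ?_
  set ε : ℝ≥0∞ := ENNReal.ofReal ((1 / 2 : ℝ) ^ 20) with hε
  calc Q B1 + (Q B2 + (Q B3 + (Q B4 + (Q B5 + (Q B6 + (Q B7 + (Q BadZ + Q (BadK k))))))))
      ≤ pe 1 * ε + (pe 1 * ε + (pe 1 * ε + (pe 1 * ε + (pe 1 * ε + (pe 1 * ε +
        (pe 1 * ENNReal.ofReal ((1 / 2 : ℝ) ^ 12) + (pe 1 * ε + pe 1 * ENNReal.ofReal (1 / 4)))))))) := by
        gcongr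
    _ = pe 1 * ENNReal.ofReal ((1 / 2 : ℝ) ^ 20 + ((1 / 2 : ℝ) ^ 20 + ((1 / 2 : ℝ) ^ 20 +
        ((1 / 2 : ℝ) ^ 20 + ((1 / 2 : ℝ) ^ 20 + ((1 / 2 : ℝ) ^ 20 + ((1 / 2 : ℝ) ^ 12 +
        ((1 / 2 : ℝ) ^ 20 + (1 / 4 : ℝ))))))))) := by
        simp only [hε, ← mul_add]
        congr 1
        repeat rw [← ENNReal.ofReal_add (by positivity) (by positivity)]
    _ ≤ _ := by
        gcongr
        norm_num

lemma pe_one_pos : 0 < pe 1 := by
  rw [pe_of_ne one_ne_zero, ENNReal.ofReal_pos]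
  exact pr_pos 1

lemma pe_one_le : pe 1 ≤ 1 := by
  rw [← tsum_pe]
  exact ENNReal.le_tsum 1

/-- with positive probability there are infinitely many windows -/
theorem windows_pos {Q : Measure Pth} (hQ : IsLaw FF pe Q) : 0 < Q (⋂ k, Win k) := by
  have := hQ.prob
  have hmono : Antitone Win := by
    intro k k' h x
    rintro ⟨l, hl, hl2⟩
    exact ⟨l, h.trans hl, hl2⟩
  have hlim := tendsto_measure_iInter_atTop (μ := Q) (fun k => (Win_meas k).nullMeasurableSet)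
    hmono ⟨0, measure_ne_top _ _⟩
  have hge : ∀ k, 1 ≤ k → pe 1 * ENNReal.ofReal (1 / 2) ≤ Q (Win k) := by
    intro k hk
    have h1 := root_bad_le hQ hk
    have h2 : pe 1 ≤ Q (Win k) + Q {x | x.1 0 = 1 ∧ x ∉ Win k} := by
      rw [← root_meas hQ]
      refine le_trans (measure_mono ?_) (measure_union_le _ _)
      intro x hx
      by_cases h : x ∈ Win k
      · exact Or.inl h
      · exact Or.inr ⟨hx, h⟩
    have h3 : pe 1 = pe 1 * ENNReal.ofReal (1 / 2) + pe 1 * ENNReal.ofReal (1 / 2) := by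
      rw [← mul_add, ← ENNReal.ofReal_add (by norm_num) (by norm_num)]
      norm_num
    have h4 : pe 1 * ENNReal.ofReal (1 / 2) ≠ ∞ := by
      apply ENNReal.mul_ne_top
      · exact (pe_one_le.trans_lt ENNReal.one_lt_top).ne
      · exact ENNReal.ofReal_ne_top
    have h5 : pe 1 * ENNReal.ofReal (1 / 2) + pe 1 * ENNReal.ofReal (1 / 2) ≤
        Q (Win k) + pe 1 * ENNReal.ofReal (1 / 2) := by
      rw [← h3]
      exact h2.trans (by gcongr)
    exact (ENNReal.add_le_add_iff_right h4).1 h5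
  have h6 : pe 1 * ENNReal.ofReal (1 / 2) ≤ Q (⋂ k, Win k) := by
    apply ge_of_tendsto hlim
    filter_upwards [eventually_ge_atTop 1] with k hk
    exact hge k hk
  refine lt_of_lt_of_le ?_ h6
  apply ENNReal.mul_pos pe_one_pos.ne'
  simp

end Pool.Agent.Helper70.Fr
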