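import Pool.Agent.Helper70.Fr10

/-!
# Leaves
-/

open MeasureTheory Filter Topology
open scoped ENNReal NNReal

namespace Pool.Agent.Helper70.Fr

/-- number of leaves at time `t` -/
def N0 (x : Pth) (t : ℕ) : ℕ := ((Finset.range (t + 1)).filter (fun v => dg x.2 t v = 0)).card

lemma N0_le (x : Pth) (t : ℕ) : N0 x t ≤ t + 1 := by
  unfold N0
  exact (Finset.card_filter_le _ _).trans (by simp)

lemma N0_congr {t : ℕ} {x y : Pth} (h : Agr t x y) {s : ℕ} (hs : s ≤ t) : N0 x s = N0 y s := by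
  unfold N0
  congr 1
  apply Finset.filter_congr
  intro v _
  rw [dg_congr h hs]

lemma N0_cast (x : Pth) (t : ℕ) :
    (N0 x t : ℝ) = ∑ v ∈ Finset.range (t + 1), (if dg x.2 t v = 0 then (1 : ℝ) else 0) := by
  unfold N0
  rw [Finset.sum_boole]

lemma N0_upd {x : Pth} {t v w : ℕ} (hx : Val t x) (hv : v ≤ t) :
    (t + 1 + 1) - N0 (upd x t v w) (t + 1) = (t + 1 - N0 x t) + (if dg x.2 t v = 0 then 1 else 0) := by
  have h1 : (N0 (upd x t v w) (t + 1) : ℝ) =
      N0 x t + (0 - if dg x.2 t v = 0 then (1 : ℝ) else 0) + 1 := by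
    have h2 := sum_upd (fun i _ => if i = 0 then (1 : ℝ) else 0) (k := w) hx hv
    simp only at h2
    rw [N0_cast, N0_cast]
    rw [show t + 1 + 1 = t + 2 by ring]
    rw [h2]
    simp
  have h2 := N0_le x t
  have h3 := N0_le (upd x t v w) (t + 1)
  split_ifs at h1 ⊢ with h
  · have h4 : N0 (upd x t v w) (t + 1) = N0 x t := by
      have : (N0 (upd x t v w) (t + 1) : ℝ) = N0 x t := by rw [h1]; ring
      exact_mod_cast this
    omega
  · have h4 : N0 (upd x t v w) (t + 1) = N0 x t + 1 := by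
      have : (N0 (upd x t v w) (t + 1) : ℝ) = N0 x t + 1 := by rw [h1]; ring
      exact_mod_cast this
    omega

/-- compensator -/
noncomputable def CC (x : Pth) (t : ℕ) : ℝ := ∑ s ∈ Finset.range t, (N0 x s : ℝ) / ZZ FF x s

lemma CC_congr {t : ℕ} {x y : Pth} (h : Agr t x y) {s : ℕ} (hs : s ≤ t + 1) :
    CC x s = CC y s := by
  unfold CC
  apply Finset.sum_congr rfl
  intro r hr
  have : r ≤ t := by have := Finset.mem_range.1 hr; omega
  rw [ZZ_congr FF h this, N0_congr h this]

open Classical in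
/-- leaf supermartingale -/
noncomputable def V3 (t : ℕ) (x : Pth) : ℝ≥0∞ :=
  if Val t x then ENNReal.ofReal ((1 / 2 : ℝ) ^ (t + 1 - N0 x t) * Real.exp (CC x t / 2)) else 0

lemma V3_adp (t : ℕ) : Adp t (V3 t) := by
  intro x y h
  unfold V3
  rw [show Val t x = Val t y from propext (Val.congr h), N0_congr h le_rfl,
    CC_congr h (Nat.le_succ t)]

theorem V3_step (t : ℕ) (x : Pth) : KK FF pe t (V3 (t + 1)) x ≤ V3 t x := by
  classical
  by_cases hx : Val t x
  · have hZ := ZZ_pos FF_ge x t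
    set c : ℝ := (N0 x t : ℝ) / ZZ FF x t with hc
    set e0 : ℝ := (1 / 2 : ℝ) ^ (t + 1 - N0 x t) * Real.exp (CC x t / 2) * Real.exp (c / 2) with he0
    have he0' : 0 < e0 := by positivity
    have hupd : ∀ v ≤ t, ∀ w, V3 (t + 1) (upd x t v w) ≤
        ENNReal.ofReal (e0 * (if dg x.2 t v = 0 then (1 / 2 : ℝ) else 1)) := by
      intro v hv w
      unfold V3
      split_ifs with h1 h2 h2
      · apply le_of_eq
        congr 1
        rw [N0_upd hx hv, if_pos h2, CC_congr (agr_upd x t v w) (le_refl (t + 1))]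
        have : CC x (t + 1) = CC x t + c := by unfold CC; rw [Finset.sum_range_succ]
        rw [this, pow_succ, he0, add_div, Real.exp_add]
        ring
      · apply le_of_eq
        congr 1
        rw [N0_upd hx hv, if_neg h2, CC_congr (agr_upd x t v w) (le_refl (t + 1))]
        have : CC x (t + 1) = CC x t + c := by unfold CC; rw [Finset.sum_range_succ]
        rw [this, he0, add_div, Real.exp_add]
        ring
      · exact zero_le
      · exact zero_le
    have hsum : ∑ v ∈ Finset.range (t + 1), FF (dg x.2 t v) (x.1 v) / ZZ FF x t *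
        (e0 * (if dg x.2 t v = 0 then (1 / 2 : ℝ) else 1)) ≤
        (1 / 2 : ℝ) ^ (t + 1 - N0 x t) * Real.exp (CC x t / 2) := by
      have h1 : ∀ v ∈ Finset.range (t + 1), FF (dg x.2 t v) (x.1 v) / ZZ FF x t *
        (e0 * (if dg x.2 t v = 0 then (1 / 2 : ℝ) else 1)) ≤
        e0 * (FF (dg x.2 t v) (x.1 v) / ZZ FF x t) -
          (e0 / 2 / ZZ FF x t) * (if dg x.2 t v = 0 then (1 : ℝ) else 0) := by
        intro v _
        split_ifs with h
        · have h2 := FF_ge (dg x.2 t v) (x.1 v)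
          have h3 : e0 / 2 / ZZ FF x t * 1 ≤ (e0 / 2) * (FF (dg x.2 t v) (x.1 v) / ZZ FF x t) := by
            rw [mul_one, div_eq_mul_one_div (e0 / 2)]
            gcongr
          nlinarith
        · have : FF (dg x.2 t v) (x.1 v) / ZZ FF x t * (e0 * 1) =
            e0 * (FF (dg x.2 t v) (x.1 v) / ZZ FF x t) := by ring
          rw [this]; simp
      refine (Finset.sum_le_sum h1).trans ?_
      rw [Finset.sum_sub_distrib, ← Finset.mul_sum, ← Finset.mul_sum, sum_div_ZZ FF_ge, ← N0_cast]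
      have h2 : e0 / 2 / ZZ FF x t * (N0 x t : ℝ) = e0 * (c / 2) := by rw [hc]; ring
      rw [h2]
      have h3 := exp_mul_le (-(c / 2))
      rw [neg_neg] at h3
      have h4 : 0 < (1 / 2 : ℝ) ^ (t + 1 - N0 x t) * Real.exp (CC x t / 2) := by positivity
      calc e0 * 1 - e0 * (c / 2) = ((1 / 2 : ℝ) ^ (t + 1 - N0 x t) * Real.exp (CC x t / 2)) *
            (Real.exp (c / 2) * (1 + -(c / 2))) := by rw [he0]; ring
        _ ≤ ((1 / 2 : ℝ) ^ (t + 1 - N0 x t) * Real.exp (CC x t / 2)) * 1 := by gcongr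
        _ = _ := mul_one _
    refine (KK_le' FF_ge tsum_pe _ _ (fun v _ => by split_ifs <;> positivity) hupd hsum).trans ?_
    unfold V3
    rw [if_pos hx]
  · have hz : ∀ v ≤ t, ∀ w, V3 (t + 1) (upd x t v w) ≤ 0 := by
      intro v hv w
      unfold V3
      rw [if_neg]
      intro h
      exact hx h.of_upd
    exact (KK_const FF_ge tsum_pe 0 hz).trans zero_le

theorem V3_bdd {Q : Measure Pth} (hQ : IsLaw FF pe Q) :
    ∀ᵐ x ∂Q, ∃ n : ℕ, ∀ t, V3 t x < ENNReal.ofReal (2 ^ n) := by
  have := hQ.prob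
  have h1 : ∀ n : ℕ, Q {x | ∃ t, ENNReal.ofReal (2 ^ n) ≤ V3 t x} ≤
      1 * ENNReal.ofReal ((1 / 2 : ℝ) ^ n) := by
    intro n
    have h2 := ville hQ V3 0 V3_adp (fun t _ x => V3_step t x) (ENNReal.ofReal (2 ^ n))
    apply meas_le_of_mul (a := 2 ^ n) (by positivity)
    · refine le_trans ?_ (h2.trans ?_)
      · apply mul_le_mul_right
        apply measure_mono
        rintro x ⟨t, ht⟩
        exact ⟨t, Nat.zero_le _, ht⟩
      · calc ∫⁻ x, V3 0 x ∂Q ≤ ∫⁻ x, 1 ∂Q := by
              apply lintegral_mono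
              intro x
              simp only
              unfold V3
              split_ifs
              · rw [ENNReal.ofReal_le_one]
                have h3 : N0 x 0 = 1 := by simp [N0, dg_zero]
                simp [h3, CC]
              · exact zero_le
          _ = 1 := by simp
    · rw [← mul_pow]; norm_num
  rw [ae_iff]
  have h2 : {x | ¬ ∃ n : ℕ, ∀ t, V3 t x < ENNReal.ofReal (2 ^ n)} ⊆
      ⋂ n : ℕ, {x | ∃ t, ENNReal.ofReal (2 ^ n) ≤ V3 t x} := by
    intro x hx
    rw [Set.mem_iInter]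
    intro n
    simp only [Set.mem_ofPred_eq, not_exists, not_forall, not_lt] at hx
    exact hx n
  refine measure_mono_null h2 ?_
  apply le_antisymm _ zero_le
  have h3 : Tendsto (fun n : ℕ => 1 * ENNReal.ofReal ((1 / 2 : ℝ) ^ n)) atTop (𝓝 0) := by
    have h4 : Tendsto (fun n : ℕ => ((1 / 2 : ℝ) ^ n)) atTop (𝓝 0) :=
      tendsto_pow_atTop_nhds_zero_of_lt_one (by norm_num) (by norm_num)
    have h5 := ENNReal.tendsto_ofReal h4
    rw [ENNReal.ofReal_zero] at h5
    simpa using h5
  refine ge_of_tendsto' h3 fun n => ?_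
  exact (measure_mono (Set.iInter_subset _ n)).trans (h1 n)

/-- deterministic contradiction -/
theorem no_limit {x : Pth} (hv : ∀ t, x.2 t ≤ t) (hW : x ∈ ⋂ k, Win k) {n : ℕ}
    (hn : ∀ t, V3 t x < ENNReal.ofReal (2 ^ n)) :
    ∃ᶠ t : ℕ in atTop, (N0 x t : ℝ) / t ≤ 1 - 1 / 16384 := by
  by_contra hlim
  rw [Filter.not_frequently] at hlim
  have h1 : ∀ᶠ t : ℕ in atTop, (1 - 1 / 16384 : ℝ) < (N0 x t : ℝ) / t := by
    filter_upwards [hlim] with t ht
    exact not_le.1 ht
  obtain ⟨t0, ht0⟩ := eventually_atTop.1 h1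
  rw [Set.mem_iInter] at hW
  obtain ⟨l, hl, hA⟩ := hW (max t0 (16 * n + 64))
  have hln : l < nn l := by
    have h2 : l < 2 ^ l := Nat.lt_two_pow_self
    refine lt_of_lt_of_le h2 ?_
    rw [nn_def]
    apply Nat.pow_le_pow_right (by norm_num)
    have := Qd_ge_add l
    omega
  set m := nn l with hm
  have hm1 : t0 ≤ m := by have := le_max_left t0 (16 * n + 64); omega
  have hm2 : 16 * n + 64 ≤ m := by have := le_max_right t0 (16 * n + 64); omega
  have hmpos : (0 : ℝ) < m := by exact_mod_cast nn_pos l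
  set t := 1024 * m with ht
  -- compensator bound
  have h3 : (m : ℝ) / 2 ≤ CC x t := by
    have h4 : (m : ℝ) / 2 * (AA FF x t - AA FF x m) ≤ CC x t := by
      unfold CC AA
      have hmt : m ≤ t := by omega
      rw [← Finset.sum_range_add_sum_Ico _ hmt, ← Finset.sum_range_add_sum_Ico _ hmt,
        add_sub_cancel_left, Finset.mul_sum]
      have h5 : 0 ≤ ∑ s ∈ Finset.range m, (N0 x s : ℝ) / ZZ FF x s := by
        apply Finset.sum_nonneg
        intro s _
        have := ZZ_pos FF_ge x s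
        positivity
      have h6 : ∑ s ∈ Finset.Ico m t, (m : ℝ) / 2 * (1 / ZZ FF x s) ≤
          ∑ s ∈ Finset.Ico m t, (N0 x s : ℝ) / ZZ FF x s := by
        apply Finset.sum_le_sum
        intro s hs
        have hs1 := (Finset.mem_Ico.1 hs).1
        have hZ := ZZ_pos FF_ge x s
        rw [mul_one_div]
        apply div_le_div_of_nonneg_right _ hZ.le
        have h7 := ht0 s (hm1.trans hs1)
        have hs2 : (m : ℝ) ≤ s := by exact_mod_cast hs1
        have hs3 : (0 : ℝ) < s := by linarith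
        rw [lt_div_iff₀ hs3] at h7
        nlinarith
      linarith
    nlinarith
  -- bound from the supermartingale
  have h8 := hn t
  unfold V3 at h8
  rw [if_pos (show Val t x from fun s _ => hv s), ENNReal.ofReal_lt_ofReal_iff (by positivity)] at h8
  have hNle := N0_le x t
  have h9 := ht0 t (hm1.trans (by omega))
  have htpos : (0 : ℝ) < t := by
    have : (t : ℝ) = 1024 * m := by rw [ht]; push_cast; ring
    rw [this]; positivity
  have htm : (t : ℝ) = 1024 * m := by rw [ht]; push_cast; ring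
  rw [lt_div_iff₀ htpos] at h9
  have h10 : ((t + 1 - N0 x t : ℕ) : ℝ) ≤ m / 8 := by
    rw [Nat.cast_sub hNle]
    push_cast
    have h11 : (64 : ℝ) ≤ m := by exact_mod_cast (by omega : 64 ≤ m)
    rw [htm] at h9 ⊢
    linarith
  set d := t + 1 - N0 x t with hd
  have h12 : Real.exp (CC x t / 2) < 2 ^ (n + d) := by
    have h13 : (0 : ℝ) < 2 ^ d := by positivity
    have h14 : (1 / 2 : ℝ) ^ d * 2 ^ d = 1 := by rw [← mul_pow]; norm_num
    calc Real.exp (CC x t / 2) = ((1 / 2 : ℝ) ^ d * Real.exp (CC x t / 2)) * 2 ^ d := by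
          rw [mul_right_comm, h14, one_mul]
      _ < 2 ^ n * 2 ^ d := by gcongr
      _ = _ := by rw [pow_add]
  have h15 : (2 : ℝ) ^ (n + d) ≤ Real.exp ((n + d : ℕ) : ℝ) := exp_ge_two_pow (n + d)
  have h16 : CC x t / 2 < ((n + d : ℕ) : ℝ) := Real.exp_lt_exp.1 (h12.trans_le h15)
  push_cast at h16
  have h17 : (16 : ℝ) * n + 64 ≤ m := by exact_mod_cast hm2
  linarith

end Pool.Agent.Helper70.Fr
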