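import Mathlib

/-!
# The fitness recursive tree

Definitions used in the statement of the result on `MP_de6572_pr`.
-/

open MeasureTheory Filter Topology
open scoped ENNReal NNReal

namespace Pool.Agent.Helper70.FRT

/-- The uniform distribution on `[0,1)`. -/
noncomputable def unif : Measure ℝ := volume.restrict (Set.Ico 0 1)

instance : IsProbabilityMeasure unif := ⟨by simp [unif]⟩

/-- Inverse distribution function sampling: if `u` is uniform on `[0,1)` then `sample F N u` is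
equal to `j ∈ {0,…,N}` with probability `F j / (F 0 + … + F N)`. -/
noncomputable def sample (F : ℕ → ℝ) (N : ℕ) (u : ℝ) : ℕ :=
  sInf {j : ℕ | N ≤ j ∨
    u * ∑ i ∈ Finset.range (N + 1), F i < ∑ i ∈ Finset.range (j + 1), F i}

/-- The tree `T_t` has the vertices `0, 1, …, ℓ t` with weights `W 0, W 1, …, W (ℓ t)`.
`picks f ℓ W U t v` is the number of times the vertex `v` has been picked in the first `t` steps,
that is, the out-degree of `v` in `T_t` divided by `ℓ`. At step `t + 1` a vertex `j ≤ ℓ t` is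
sampled (using the uniform variable `U t`) with probability proportional to
`f (out-degree of j / ℓ) (W j)`; its `ℓ` new children are the vertices `ℓ t + 1, …, ℓ t + ℓ`. -/
noncomputable def picks (f : ℕ → ℝ≥0 → ℝ≥0) (ℓ : ℕ) (W : ℕ → ℝ≥0) (U : ℕ → ℝ) : ℕ → ℕ → ℕ
  | 0, _ => 0
  | t + 1, v => picks f ℓ W U t v +
      if sample (fun j => (f (picks f ℓ W U t j) (W j) : ℝ)) (ℓ * t) (U t) = v then 1 else 0

/-- `N_0(t,B)`: the number of leaves of `T_t` with weight in `B`. -/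
noncomputable def leaves (f : ℕ → ℝ≥0 → ℝ≥0) (ℓ : ℕ) (W : ℕ → ℝ≥0) (U : ℕ → ℝ) (t : ℕ)
    (B : Set ℝ≥0) : ℕ :=
  {v : ℕ | v ≤ ℓ * t ∧ picks f ℓ W U t v = 0 ∧ W v ∈ B}.ncard

/-- The law of the randomness: independent weights with law `μ` and independent uniform
variables. -/
noncomputable def law (μ : Measure ℝ≥0) [IsProbabilityMeasure μ] :
    Measure ((ℕ → ℝ≥0) × (ℕ → ℝ)) :=
  (Measure.infinitePi fun _ : ℕ => μ).prod (Measure.infinitePi fun _ : ℕ => unif)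

/-- `m(λ) = ℓ ∑_{n ≥ 1} E[∏_{j < n} f(j,W) / (λ + f(j,W))]`. -/
noncomputable def mal (μ : Measure ℝ≥0) (f : ℕ → ℝ≥0 → ℝ≥0) (ℓ : ℕ) (lam : ℝ) : ℝ≥0∞ :=
  ℓ * ∑' n : ℕ, ∫⁻ w, ENNReal.ofReal
    (∏ j ∈ Finset.range (n + 1), (f j w : ℝ) / (lam + f j w)) ∂μ

/-- The Malthusian parameter `α = inf {λ > 0 : m(λ) < ∞} ∈ [0,∞]`. -/
noncomputable def alpha (μ : Measure ℝ≥0) (f : ℕ → ℝ≥0 → ℝ≥0) (ℓ : ℕ) : ℝ≥0∞ :=
  ⨅ (lam : ℝ) (_ : 0 < lam ∧ mal μ f ℓ lam < ∞), ENNReal.ofReal lam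

/-- The assertion of Q1: whenever `α = ∞`, the proportion of leaves with weight in a Borel set `B`
converges almost surely to `μ(B)`. -/
def LeafConvergence : Prop :=
  ∀ (μ : Measure ℝ≥0) [IsProbabilityMeasure μ] (f : ℕ → ℝ≥0 → ℝ≥0) (ℓ : ℕ), 1 ≤ ℓ →
    (∀ i, Measurable (f i)) → (∀ᵐ w ∂μ, 0 < f 0 w) → alpha μ f ℓ = ∞ →
    ∀ B : Set ℝ≥0, MeasurableSet B →
      ∀ᵐ ω ∂(law μ), Tendsto (fun t : ℕ => (leaves f ℓ ω.1 ω.2 t B : ℝ) / (ℓ * t)) atTop
        (𝓝 (μ.real B))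

end Pool.Agent.Helper70.FRT
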