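import Pool.Agent.Helper70.Fr11
import Pool.Agent.Helper70.FrDefs

/-!
# The canonical process has the required law
-/

open MeasureTheory Filter Topology
open scoped ENNReal NNReal

namespace Pool.Agent.Helper70.Fr

open FRT

/-! ### resampling one coordinate of an infinite product -/

lemma map_update_infinitePi {X : Type*} [MeasurableSpace X] (μ : Measure X)
    [IsProbabilityMeasure μ] (i : ℕ) :
    Measure.map (fun z : (ℕ → X) × X => Function.update z.1 i z.2)
      ((Measure.infinitePi fun _ : ℕ => μ).prod μ) = Measure.infinitePi fun _ : ℕ => μ := by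
  classical
  have hmeas : Measurable (fun z : (ℕ → X) × X => Function.update z.1 i z.2) := by
    apply measurable_pi_lambda
    intro j
    by_cases h : j = i
    · subst h
      simp only [Function.update_self]
      exact measurable_snd
    · simp only [Function.update_of_ne h]
      exact (measurable_pi_apply j).comp measurable_fst
  apply Measure.eq_infinitePi
  intro s t ht
  rw [Measure.map_apply hmeas (MeasurableSet.pi s.countable_toSet (fun j _ => ht j))]
  have hpre : (fun z : (ℕ → X) × X => Function.update z.1 i z.2) ⁻¹' (Set.pi s t) =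
      (Set.pi (s.erase i : Finset ℕ) t) ×ˢ (if i ∈ s then t i else Set.univ) := by
    ext ⟨ω, a⟩
    simp only [Set.mem_preimage, Set.mem_pi, Set.mem_prod, Finset.mem_coe, Finset.mem_erase]
    constructor
    · intro h
      refine ⟨fun j hj => ?_, ?_⟩
      · have := h j hj.2
        rwa [Function.update_of_ne hj.1] at this
      · split_ifs with hi
        · have := h i hi
          rwa [Function.update_self] at this
        · trivial
    · rintro ⟨h1, h2⟩ j hj
      by_cases hji : j = i
      · subst hji
        rw [Function.update_self]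
        rwa [if_pos hj] at h2
      · rw [Function.update_of_ne hji]
        exact h1 j ⟨hji, hj⟩
  rw [hpre, Measure.prod_prod, Measure.infinitePi_pi (fun _ : ℕ => μ) (fun j _ => ht j)]
  split_ifs with hi
  · rw [← Finset.prod_erase_mul s _ hi]
  · rw [measure_univ, mul_one, Finset.erase_eq_of_notMem hi]

lemma lintegral_resample {X : Type*} [MeasurableSpace X] (μ : Measure X)
    [IsProbabilityMeasure μ] (i : ℕ) (g : (ℕ → X) → ℝ≥0∞) (hg : Measurable g) :
    ∫⁻ ω, g ω ∂(Measure.infinitePi fun _ : ℕ => μ) =
      ∫⁻ ω, ∫⁻ a, g (Function.update ω i a) ∂μ ∂(Measure.infinitePi fun _ : ℕ => μ) := by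
  classical
  have hmeas : Measurable (fun z : (ℕ → X) × X => Function.update z.1 i z.2) := by
    apply measurable_pi_lambda
    intro j
    by_cases h : j = i
    · subst h
      simp only [Function.update_self]
      exact measurable_snd
    · simp only [Function.update_of_ne h]
      exact (measurable_pi_apply j).comp measurable_fst
  nth_rewrite 1 [← map_update_infinitePi μ i]
  rw [lintegral_map hg hmeas,
    lintegral_prod (fun z : (ℕ → X) × X => g (Function.update z.1 i z.2))
      (hg.comp hmeas).aemeasurable]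

/-! ### sampling -/

section sampling
variable {F : ℕ → ℝ} (hF : ∀ i, 0 < F i) (N : ℕ)
include hF

lemma S_mono {a b : ℕ} (h : a ≤ b) : ∑ i ∈ Finset.range a, F i ≤ ∑ i ∈ Finset.range b, F i :=
  Finset.sum_le_sum_of_subset_of_nonneg (Finset.range_subset_range.2 h)
    (fun i _ _ => (hF i).le)

omit hF in
lemma sample_le (u : ℝ) : sample F N u ≤ N := Nat.sInf_le (Or.inl le_rfl)

lemma sample_le_iff (u : ℝ) (j : ℕ) : sample F N u ≤ j ↔
    (N ≤ j ∨ u * ∑ i ∈ Finset.range (N + 1), F i < ∑ i ∈ Finset.range (j + 1), F i) := by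
  have hne : {j : ℕ | N ≤ j ∨
    u * ∑ i ∈ Finset.range (N + 1), F i < ∑ i ∈ Finset.range (j + 1), F i}.Nonempty :=
    ⟨N, Or.inl le_rfl⟩
  constructor
  · intro h
    have h1 := Nat.sInf_mem hne
    change N ≤ sample F N u ∨ _ at h1
    rcases h1 with h1 | h1
    · exact Or.inl (h1.trans h)
    · right
      exact lt_of_lt_of_le h1 (S_mono hF (Nat.succ_le_succ h))
  · intro h
    exact Nat.sInf_le h

lemma measurable_sample : Measurable (fun u : ℝ => sample F N u) := by
  apply measurable_of_Iic
  intro j
  have : (fun u : ℝ => sample F N u) ⁻¹' Set.Iic j = {u : ℝ | N ≤ j ∨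
      u * ∑ i ∈ Finset.range (N + 1), F i < ∑ i ∈ Finset.range (j + 1), F i} := by
    ext u
    simp only [Set.mem_preimage, Set.mem_Iic]
    exact sample_le_iff hF N u j
  rw [this]
  by_cases h : N ≤ j
  · simp [h]
  · simp only [h, false_or]
    exact measurableSet_lt (measurable_id.mul_const _) measurable_const

lemma sample_eq {u : ℝ} {v : ℕ} (hv : v ≤ N)
    (h1 : ∑ i ∈ Finset.range v, F i ≤ u * ∑ i ∈ Finset.range (N + 1), F i)
    (h2 : u * ∑ i ∈ Finset.range (N + 1), F i < ∑ i ∈ Finset.range (v + 1), F i) :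
    sample F N u = v := by
  apply le_antisymm
  · exact (sample_le_iff hF N u v).2 (Or.inr h2)
  · by_contra hc
    push Not at hc
    have h3 : sample F N u ≤ v - 1 := by omega
    rcases (sample_le_iff hF N u (v - 1)).1 h3 with h4 | h4
    · omega
    · have : v - 1 + 1 = v := by omega
      rw [this] at h4
      linarith

lemma lintegral_sample (g : ℕ → ℝ≥0∞) :
    ∫⁻ u, g (sample F N u) ∂unif = ∑ v ∈ Finset.range (N + 1),
      ENNReal.ofReal (F v / ∑ i ∈ Finset.range (N + 1), F i) * g v := by
  set Z := ∑ i ∈ Finset.range (N + 1), F i with hZ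
  have hZpos : 0 < Z := by
    apply Finset.sum_pos (fun i _ => hF i)
    exact ⟨0, Finset.mem_range.2 (by omega)⟩
  set S : ℕ → ℝ := fun k => ∑ i ∈ Finset.range k, F i with hS
  have hS0 : S 0 = 0 := by simp [hS]
  have hSN : S (N + 1) = Z := rfl
  have key : ∀ k ≤ N + 1, ∫⁻ u in Set.Ico 0 (S k / Z), g (sample F N u) =
      ∑ v ∈ Finset.range k, ENNReal.ofReal (F v / Z) * g v := by
    intro k
    induction k with
    | zero => intro _; simp [hS0]
    | succ k ih =>
      intro hk
      have h1 : Set.Ico 0 (S (k + 1) / Z) = Set.Ico 0 (S k / Z) ∪ Set.Ico (S k / Z) (S (k + 1) / Z) := by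
        rw [Set.Ico_union_Ico_eq_Ico]
        · apply div_nonneg _ hZpos.le
          exact Finset.sum_nonneg (fun i _ => (hF i).le)
        · apply div_le_div_of_nonneg_right _ hZpos.le
          exact S_mono hF (Nat.le_succ k)
      have h2 : Disjoint (Set.Ico 0 (S k / Z)) (Set.Ico (S k / Z) (S (k + 1) / Z)) := by
        rw [Set.disjoint_left]
        intro u h3 h4
        exact absurd h3.2 (not_lt.2 h4.1)
      rw [h1, lintegral_union measurableSet_Ico h2, ih (by omega), Finset.sum_range_succ]
      congr 1
      have h3 : ∫⁻ u in Set.Ico (S k / Z) (S (k + 1) / Z), g (sample F N u) =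
          ∫⁻ u in Set.Ico (S k / Z) (S (k + 1) / Z), g k := by
        apply setLIntegral_congr_fun measurableSet_Ico
        intro u hu
        simp only
        rw [sample_eq hF N (by omega : k ≤ N)]
        · rw [← hZ]
          have := hu.1
          rwa [div_le_iff₀ hZpos] at this
        · rw [← hZ]
          have := hu.2
          rwa [lt_div_iff₀ hZpos] at this
      rw [h3, setLIntegral_const, Real.volume_Ico, mul_comm]
      congr 2
      rw [← sub_div]
      congr 1
      simp only [hS]
      rw [Finset.sum_range_succ]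
      ring
  have h := key (N + 1) le_rfl
  rw [hSN, div_self hZpos.ne'] at h
  unfold unif
  exact h

end sampling

/-! ### the example -/

/-- the type distribution as a measure on `[0,∞)` -/
noncomputable def mu0 : Measure ℝ≥0 := Measure.sum (fun m : ℕ => pe m • Measure.dirac (m : ℝ≥0))

instance : IsProbabilityMeasure mu0 := ⟨by
  unfold mu0
  rw [Measure.sum_apply _ MeasurableSet.univ]
  simp [tsum_pe]⟩

lemma lintegral_mu0 (g : ℝ≥0 → ℝ≥0∞) : ∫⁻ w, g w ∂mu0 = ∑' m : ℕ, pe m * g m := by
  unfold mu0
  rw [lintegral_sum_measure]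
  apply tsum_congr
  intro m
  rw [lintegral_smul_measure, lintegral_dirac, smul_eq_mul]

/-- the fitness function -/
noncomputable def f0 (i : ℕ) (w : ℝ≥0) : ℝ≥0 := (FN i ⌊w⌋₊ : ℝ≥0)

lemma f0_cast (i : ℕ) (w : ℝ≥0) : ((f0 i w : ℝ≥0) : ℝ) = FF i ⌊w⌋₊ := by
  unfold f0
  rw [FF_def]
  simp

lemma f0_measurable (i : ℕ) : Measurable (f0 i) := by
  unfold f0
  exact (measurable_of_countable (fun m : ℕ => ((FN i m : ℕ) : ℝ≥0))).comp Nat.measurable_floor

lemma f0_ge (i : ℕ) (w : ℝ≥0) : 1 ≤ f0 i w := by
  unfold f0
  exact_mod_cast FN_ge i _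

/-- the path associated with the randomness -/
noncomputable def XX (ω : (ℕ → ℝ≥0) × (ℕ → ℝ)) : Pth :=
  (fun v => ⌊ω.1 v⌋₊,
   fun t => sample (fun j => (f0 (picks f0 1 ω.1 ω.2 t j) (ω.1 j) : ℝ)) (1 * t) (ω.2 t))

lemma dg_XX (ω : (ℕ → ℝ≥0) × (ℕ → ℝ)) (t v : ℕ) :
    dg (XX ω).2 t v = picks f0 1 ω.1 ω.2 t v := by
  induction t with
  | zero => rw [dg_zero]; rfl
  | succ t ih =>
    rw [dg_succ, ih]
    rfl

lemma XX_snd (ω : (ℕ → ℝ≥0) × (ℕ → ℝ)) (t : ℕ) :
    (XX ω).2 t = sample (fun j => FF (dg (XX ω).2 t j) ((XX ω).1 j)) t (ω.2 t) := by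
  change sample (fun j => (f0 (picks f0 1 ω.1 ω.2 t j) (ω.1 j) : ℝ)) (1 * t) (ω.2 t) = _
  rw [one_mul]
  congr 1
  funext j
  rw [f0_cast, dg_XX]
  rfl

lemma XX_valid (ω : (ℕ → ℝ≥0) × (ℕ → ℝ)) (t : ℕ) : (XX ω).2 t ≤ t := by
  rw [XX_snd]
  exact sample_le _ _

/-- sampling as a function of the history -/
lemma sample_hist (x : Pth) (t : ℕ) (u : ℝ) :
    ∀ y, Agr t x y → sample (fun j => FF (dg x.2 t j) (x.1 j)) t u =
      sample (fun j => FF (dg y.2 t j) (y.1 j)) t u := by
  intro y h
  unfold sample
  congr 1
  ext j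
  by_cases hj : t ≤ j
  · simp [hj]
  · have e : ∀ k ≤ t + 1, ∑ i ∈ Finset.range k, FF (dg x.2 t i) (x.1 i) =
        ∑ i ∈ Finset.range k, FF (dg y.2 t i) (y.1 i) := by
      intro k hk
      apply Finset.sum_congr rfl
      intro i hi
      rw [dg_congr h le_rfl, h.1 i (by have := Finset.mem_range.1 hi; omega)]
    change (t ≤ j ∨ _) ↔ (t ≤ j ∨ _)
    rw [e (t + 1) le_rfl, e (j + 1) (by omega)]

/-- the pick as a function of the truncated history and the uniform variable -/
noncomputable def smp (t : ℕ) (z : ((Fin (t + 1) → ℕ) × (Fin t → ℕ)) × ℝ) : ℕ :=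
  sample (fun j => FF (dg (ext0 t z.1).2 t j) ((ext0 t z.1).1 j)) t z.2

lemma measurable_smp (t : ℕ) : Measurable (smp t) := by
  apply measurable_from_prod_countable_right
  intro y
  exact measurable_sample (F := fun j => FF (dg (ext0 t y).2 t j) ((ext0 t y).1 j))
    (fun i => zero_lt_one.trans_le (FF_ge _ _)) t

lemma XX_measurable : Measurable XX := by
  have h1 : ∀ v, Measurable (fun ω : (ℕ → ℝ≥0) × (ℕ → ℝ) => (XX ω).1 v) := by
    intro v
    exact Nat.measurable_floor.comp ((measurable_pi_apply v).comp measurable_fst)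
  have h2 : ∀ t, Measurable (fun ω : (ℕ → ℝ≥0) × (ℕ → ℝ) => (XX ω).2 t) := by
    intro t
    induction t using Nat.strong_induction_on with
    | _ t ih =>
      have htrc : Measurable (fun ω : (ℕ → ℝ≥0) × (ℕ → ℝ) => trc t (XX ω)) := by
        unfold trc
        apply Measurable.prodMk
        · apply measurable_pi_lambda
          intro i
          exact h1 i
        · apply measurable_pi_lambda
          intro i
          exact ih i i.2
      have e : ∀ ω : (ℕ → ℝ≥0) × (ℕ → ℝ), (XX ω).2 t = smp t (trc t (XX ω), ω.2 t) := by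
        intro ω
        rw [XX_snd]
        exact sample_hist (XX ω) t (ω.2 t) (ext0 t (trc t (XX ω))) (agr_ext0 t (XX ω)).symm
      simp_rw [e]
      exact (measurable_smp t).comp (htrc.prodMk ((measurable_pi_apply t).comp measurable_snd))
  apply Measurable.prodMk
  · exact measurable_pi_lambda _ h1
  · exact measurable_pi_lambda _ h2

/-- the path after resampling -/
lemma XX_update (ω : (ℕ → ℝ≥0) × (ℕ → ℝ)) (t : ℕ) (a : ℝ≥0) (u : ℝ) :
    Agr (t + 1) (XX (Function.update ω.1 (t + 1) a, Function.update ω.2 t u))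
      (upd (XX ω) t (sample (fun j => FF (dg (XX ω).2 t j) ((XX ω).1 j)) t u) ⌊a⌋₊) := by
  set ω' : (ℕ → ℝ≥0) × (ℕ → ℝ) := (Function.update ω.1 (t + 1) a, Function.update ω.2 t u) with hω'
  have h1 : ∀ s ≤ t, (XX ω').1 s = (XX ω).1 s := by
    intro s hs
    change ⌊(Function.update ω.1 (t + 1) a) s⌋₊ = ⌊ω.1 s⌋₊
    rw [Function.update_of_ne (by omega)]
  have h2 : ∀ s, s ≤ t → Agr s (XX ω') (XX ω) := by
    intro s
    induction s with
    | zero =>
      intro _
      exact ⟨fun r hr => h1 r (by omega), fun r hr => by omega⟩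
    | succ s ih =>
      intro hs
      have ih' := ih (by omega)
      refine ⟨fun r hr => h1 r (by omega), fun r hr => ?_⟩
      rcases Nat.lt_succ_iff_lt_or_eq.1 hr with h | h
      · exact ih'.2 r h
      · subst h
        rw [XX_snd, XX_snd, sample_hist _ _ _ _ ih']
        have : ω'.2 r = ω.2 r := by
          change (Function.update ω.2 t u) r = ω.2 r
          rw [Function.update_of_ne (by omega)]
        rw [this]
  have h3 := h2 t le_rfl
  refine ⟨fun s hs => ?_, fun s hs => ?_⟩
  · rcases Nat.lt_or_ge s (t + 1) with h | h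
    · rw [h1 s (by omega), upd_fst_of_le _ (by omega)]
    · have : s = t + 1 := by omega
      subst this
      rw [upd_fst_self]
      change ⌊(Function.update ω.1 (t + 1) a) (t + 1)⌋₊ = _
      rw [Function.update_self]
  · rcases Nat.lt_or_ge s t with h | h
    · rw [h3.2 s h]
      exact ((agr_upd (XX ω) t _ _).2 s h).symm
    · have : s = t := by omega
      subst this
      rw [upd_snd_self, XX_snd, sample_hist _ _ _ _ h3]
      congr 1
      change (Function.update ω.2 s u) s = u
      rw [Function.update_self]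

theorem isLaw_canonical : IsLaw FF pe (Measure.map XX (law mu0)) := by
  have hXm := XX_measurable
  have : IsProbabilityMeasure (law mu0) := by unfold law; infer_instance
  refine ⟨Measure.isProbabilityMeasure_map hXm.aemeasurable, ?_, ?_, ?_⟩
  · intro j
    have hm : MeasurableSet {x : Pth | x.1 0 = j} :=
      measurableSet_eq_fun ((measurable_pi_apply 0).comp measurable_fst) measurable_const
    rw [Measure.map_apply hXm hm]
    have e : XX ⁻¹' {x : Pth | x.1 0 = j} =
        ((Set.pi ({0} : Finset ℕ) (fun _ => {w : ℝ≥0 | ⌊w⌋₊ = j})) ×ˢ Set.univ) := by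
      ext ω
      simp [XX]
    have hmj : MeasurableSet {w : ℝ≥0 | ⌊w⌋₊ = j} :=
      measurableSet_eq_fun Nat.measurable_floor measurable_const
    rw [e]
    unfold law
    rw [Measure.prod_prod, measure_univ, mul_one,
      Measure.infinitePi_pi (fun _ : ℕ => mu0) (fun _ _ => hmj),
      Finset.prod_singleton, ← lintegral_indicator_one hmj, lintegral_mu0, tsum_eq_single j]
    · simp [Set.indicator]
    · intro b hb
      simp [Set.indicator, hb]
  · intro t V hV
    have hVm : Measurable V := hV.measurable
    have hKm : Measurable (KK FF pe t V) := by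
      apply Adp.measurable (t := t)
      intro x y h
      unfold KK
      apply Finset.sum_congr rfl
      intro v hv
      have hv' : v ≤ t := by have := Finset.mem_range.1 hv; omega
      rw [dg_congr h le_rfl, h.1 v hv', ZZ_congr FF h le_rfl]
      congr 1
      apply tsum_congr
      intro w
      congr 1
      apply hV
      refine ⟨fun s hs => ?_, fun s hs => ?_⟩
      · rcases Nat.lt_or_ge s (t + 1) with h' | h'
        · rw [upd_fst_of_le _ (by omega), upd_fst_of_le _ (by omega)]
          exact h.1 s (by omega)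
        · have : s = t + 1 := by omega
          subst this
          rw [upd_fst_self, upd_fst_self]
      · rcases Nat.lt_or_ge s t with h' | h'
        · rw [(agr_upd x t v w).2 s h', (agr_upd y t v w).2 s h']
          exact h.2 s h'
        · have : s = t := by omega
          subst this
          rw [upd_snd_self, upd_snd_self]
    rw [lintegral_map hVm hXm, lintegral_map hKm hXm]
    have hg : Measurable (fun ω => V (XX ω)) := hVm.comp hXm
    have hk : Measurable (fun ω => KK FF pe t V (XX ω)) := hKm.comp hXm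
    unfold law
    rw [lintegral_prod _ hg.aemeasurable, lintegral_prod _ hk.aemeasurable]
    -- resample the weight `t+1`
    set PW := Measure.infinitePi (fun _ : ℕ => mu0) with hPW
    set PU := Measure.infinitePi (fun _ : ℕ => unif) with hPU
    have hG : Measurable (fun W : ℕ → ℝ≥0 => ∫⁻ U, V (XX (W, U)) ∂PU) :=
      Measurable.lintegral_prod_right' (f := fun ω => V (XX ω)) hg
    rw [lintegral_resample mu0 (t + 1) _ hG]
    apply lintegral_congr
    intro W
    -- exchange
    have e1 : ∀ a : ℝ≥0, ∫⁻ U, V (XX (Function.update W (t + 1) a, U)) ∂PU =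
        ∫⁻ U, ∫⁻ u, V (XX (Function.update W (t + 1) a, Function.update U t u)) ∂unif ∂PU := by
      intro a
      exact lintegral_resample unif t (fun U => V (XX (Function.update W (t + 1) a, U)))
        (hg.comp (measurable_const.prodMk measurable_id))
    simp_rw [e1]
    rw [lintegral_mu0]
    have e2 : ∀ (a : ℝ≥0) (U : ℕ → ℝ) (u : ℝ),
        V (XX (Function.update W (t + 1) a, Function.update U t u)) =
        V (upd (XX (W, U)) t
          (sample (fun j => FF (dg (XX (W, U)).2 t j) ((XX (W, U)).1 j)) t u) ⌊a⌋₊) := by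
      intro a U u
      exact hV _ _ (XX_update (W, U) t a u)
    simp_rw [e2]
    have e3 : ∀ (m : ℕ) (U : ℕ → ℝ), ∫⁻ u, V (upd (XX (W, U)) t
          (sample (fun j => FF (dg (XX (W, U)).2 t j) ((XX (W, U)).1 j)) t u)
            ⌊(m : ℝ≥0)⌋₊) ∂unif =
        ∑ v ∈ Finset.range (t + 1), ENNReal.ofReal (FF (dg (XX (W, U)).2 t v) ((XX (W, U)).1 v) /
          ZZ FF (XX (W, U)) t) * V (upd (XX (W, U)) t v m) := by
      intro m U
      have := lintegral_sample (F := fun j => FF (dg (XX (W, U)).2 t j) ((XX (W, U)).1 j))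
        (fun i => zero_lt_one.trans_le (FF_ge _ _)) t
        (fun v => V (upd (XX (W, U)) t v ⌊(m : ℝ≥0)⌋₊))
      simp only at this
      rw [this, Nat.floor_natCast]
      rfl
    simp_rw [e3]
    have hmeas3 : ∀ m : ℕ, Measurable (fun U : ℕ → ℝ => ∑ v ∈ Finset.range (t + 1),
        ENNReal.ofReal (FF (dg (XX (W, U)).2 t v) ((XX (W, U)).1 v) /
          ZZ FF (XX (W, U)) t) * V (upd (XX (W, U)) t v m)) := by
      intro m
      have hadp : Adp (t + 1) (fun x : Pth => ∑ v ∈ Finset.range (t + 1),
        ENNReal.ofReal (FF (dg x.2 t v) (x.1 v) / ZZ FF x t) * V (upd x t v m)) := by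
        intro x y h
        apply Finset.sum_congr rfl
        intro v hv
        have hv' : v ≤ t := by have := Finset.mem_range.1 hv; omega
        rw [dg_congr h (Nat.le_succ t), h.1 v (by omega), ZZ_congr FF h (Nat.le_succ t)]
        congr 1
        apply hV
        refine ⟨fun s hs => ?_, fun s hs => ?_⟩
        · rcases Nat.lt_or_ge s (t + 1) with h' | h'
          · rw [upd_fst_of_le _ (by omega), upd_fst_of_le _ (by omega)]
            exact h.1 s (by omega)
          · have : s = t + 1 := by omega
            subst this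
            rw [upd_fst_self, upd_fst_self]
        · rcases Nat.lt_or_ge s t with h' | h'
          · rw [(agr_upd x t v m).2 s h', (agr_upd y t v m).2 s h']
            exact h.2 s (by omega)
          · have : s = t := by omega
            subst this
            rw [upd_snd_self, upd_snd_self]
      exact hadp.measurable.comp (hXm.comp (measurable_const.prodMk measurable_id))
    simp_rw [← lintegral_const_mul _ (hmeas3 _)]
    rw [← lintegral_tsum (fun m => ((hmeas3 m).const_mul _).aemeasurable)]
    apply lintegral_congr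
    intro U
    unfold KK
    simp_rw [Finset.mul_sum]
    rw [Summable.tsum_finsetSum (fun v _ => ENNReal.summable)]
    apply Finset.sum_congr rfl
    intro v _
    rw [← ENNReal.tsum_mul_left]
    apply tsum_congr
    intro m
    ring
  · rw [ae_map_iff hXm.aemeasurable]
    · exact Filter.Eventually.of_forall (fun ω t => XX_valid ω t)
    · have : {x : Pth | ∀ t, x.2 t ≤ t} = ⋂ t, {x : Pth | x.2 t ≤ t} := by
        ext x; simp
      rw [this]
      apply MeasurableSet.iInter
      intro t
      exact measurableSet_le ((measurable_pi_apply t).comp measurable_snd) measurable_const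

end Pool.Agent.Helper70.Fr
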