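import Pool.Agent.Helper70.Fr12

/-!
# The Malthusian parameter is infinite, and conclusion
-/

open MeasureTheory Filter Topology
open scoped ENNReal NNReal

namespace Pool.Agent.Helper70.Fr

open FRT

lemma prod_ratio_anti (lam : ℝ) (hlam : 0 < lam) (m : ℕ) {a b : ℕ} (h : a ≤ b) :
    ∏ j ∈ Finset.range b, FF j m / (lam + FF j m) ≤
      ∏ j ∈ Finset.range a, FF j m / (lam + FF j m) := by
  rw [← Finset.prod_sdiff (Finset.range_subset_range.2 h)]
  have h0 : ∀ j, 0 ≤ FF j m / (lam + FF j m) := by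
    intro j
    have := FF_ge j m
    positivity
  have h1 : ∏ j ∈ Finset.range b \ Finset.range a, FF j m / (lam + FF j m) ≤ 1 := by
    apply Finset.prod_le_one (fun j _ => h0 j)
    intro j _
    have := FF_ge j m
    rw [div_le_one (by linarith)]
    linarith
  have h2 : 0 ≤ ∏ j ∈ Finset.range a, FF j m / (lam + FF j m) :=
    Finset.prod_nonneg (fun j _ => h0 j)
  nlinarith

lemma ratio_ge {lam F : ℝ} (hlam : 0 < lam) (hF : 0 < F) : Real.exp (-(lam / F)) ≤ F / (lam + F) := by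
  have h1 := Real.add_one_le_exp (lam / F)
  have h2 : lam / F + 1 = (lam + F) / F := by field_simp
  rw [h2] at h1
  rw [Real.exp_neg]
  have h3 := inv_anti₀ (by positivity) h1
  rwa [inv_div] at h3

lemma prod_ratio_ge {lam : ℝ} (hlam : 0 < lam) {m : ℕ} (hm : 1 ≤ m) :
    Real.exp (-(lam * (100 * m + 1))) ≤
      ∏ j ∈ Finset.range (gg m + nn m), FF j m / (lam + FF j m) := by
  have hphi : (0 : ℝ) < phi m := by exact_mod_cast phi_pos hm
  have hn : (1 : ℝ) ≤ nn m := by exact_mod_cast nn_pos m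
  rw [Finset.prod_range_add]
  have h1 : Real.exp (-(lam * DD m)) ≤ ∏ j ∈ Finset.range (gg m), FF j m / (lam + FF j m) := by
    rw [Finset.prod_congr rfl (fun k hk => by
      rw [FF_pre hm (Finset.mem_range.1 hk)]), Finset.prod_const, Finset.card_range]
    refine le_trans (le_of_eq ?_) (pow_le_pow_left₀ (Real.exp_pos _).le (ratio_ge hlam hphi) _)
    rw [← Real.exp_nat_mul, gg_real]
    congr 1
    field_simp
  have h2 : Real.exp (-lam) ≤
      ∏ j ∈ Finset.range (nn m), FF (gg m + j) m / (lam + FF (gg m + j) m) := by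
    rw [Finset.prod_congr rfl (fun k hk => by
      rw [FF_burst hm (by omega) (by have := Finset.mem_range.1 hk; omega)]), Finset.prod_const,
      Finset.card_range]
    refine le_trans ?_ (pow_le_pow_left₀ (Real.exp_pos _).le
      (ratio_ge hlam (by positivity : (0 : ℝ) < (nn m : ℝ) ^ 2)) _)
    rw [← Real.exp_nat_mul]
    apply Real.exp_le_exp.2
    have h3 : (nn m : ℝ) * -(lam / (nn m : ℝ) ^ 2) = -(lam / nn m) := by field_simp
    rw [h3]
    have h4 : lam / nn m ≤ lam := div_le_self hlam.le hn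
    linarith
  have h5 : (DD m : ℝ) ≤ 100 * m := by exact_mod_cast DD_le m
  calc Real.exp (-(lam * (100 * m + 1))) ≤ Real.exp (-(lam * DD m)) * Real.exp (-lam) := by
        rw [← Real.exp_add]
        apply Real.exp_le_exp.2
        nlinarith
    _ ≤ _ := mul_le_mul h1 h2 (Real.exp_pos _).le (le_trans (Real.exp_pos _).le h1)

lemma mal_ge {lam : ℝ} (hlam : 0 < lam) {m : ℕ} (hm : 1 ≤ m) :
    ENNReal.ofReal (nn m * pr m * Real.exp (-(lam * (100 * m + 1)))) ≤ mal mu0 f0 1 lam := by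
  unfold mal
  rw [Nat.cast_one, one_mul]
  have h1 : ∀ n : ℕ, n < nn m → ENNReal.ofReal (pr m * Real.exp (-(lam * (100 * m + 1)))) ≤
      ∫⁻ w, ENNReal.ofReal (∏ j ∈ Finset.range (n + 1), (f0 j w : ℝ) / (lam + f0 j w)) ∂mu0 := by
    intro n hn
    rw [lintegral_mu0]
    refine le_trans ?_ (ENNReal.le_tsum m)
    rw [ENNReal.ofReal_mul (pr_pos m).le, pe_of_ne (by omega)]
    gcongr
    refine (prod_ratio_ge hlam hm).trans ?_
    refine (prod_ratio_anti lam hlam m (by omega : n + 1 ≤ gg m + nn m)).trans (le_of_eq ?_)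
    apply Finset.prod_congr rfl
    intro j _
    rw [f0_cast, Nat.floor_natCast]
  calc ENNReal.ofReal (nn m * pr m * Real.exp (-(lam * (100 * m + 1))))
      = ∑ n ∈ Finset.range (nn m), ENNReal.ofReal (pr m * Real.exp (-(lam * (100 * m + 1)))) := by
        rw [Finset.sum_const, Finset.card_range, nsmul_eq_mul, mul_assoc,
          ENNReal.ofReal_mul (Nat.cast_nonneg _), ENNReal.ofReal_natCast]
    _ ≤ ∑ n ∈ Finset.range (nn m), ∫⁻ w, ENNReal.ofReal (∏ j ∈ Finset.range (n + 1),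
          (f0 j w : ℝ) / (lam + f0 j w)) ∂mu0 :=
        Finset.sum_le_sum (fun n hn => h1 n (Finset.mem_range.1 hn))
    _ ≤ _ := ENNReal.sum_le_tsum _

lemma growth {L m : ℕ} (hm : 13 * L + 1 ≤ m) : (2 : ℝ) ^ m ≤
    nn m * pr m * Real.exp (-((L : ℝ) * (100 * m + 1))) := by
  have hm1 : 1 ≤ m := by omega
  have h1 : (nn m : ℝ) = 2 ^ (4 * Qd m) := by rw [nn_def]; push_cast; rfl
  have h2 := four_Qd_le hm1
  have h3 : Qd (par m) ≤ Qd (m - 1) := Qd_mono (by have := par_lt hm1; omega)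
  have h4 := Qd_ge m
  have h5 := par_lt hm1
  have h6 : EE m + (2 * (L * (100 * m + 1)) + m) ≤ 4 * Qd m := by
    rw [EE_def]
    have h7 : 2 * (L * (100 * m + 1)) + m + 2 * (par m + 20) ≤ 16 * (m + 30) ^ 2 := by
      have e1 : 16 * (m + 30) ^ 2 = 16 * (m * m) + 960 * m + 14400 := by ring
      have e2 : 2 * (L * (100 * m + 1)) = 200 * (L * m) + 2 * L := by ring
      have e3 : 13 * (L * m) ≤ m * m := by
        calc 13 * (L * m) = (13 * L) * m := by ring
          _ ≤ m * m := Nat.mul_le_mul_right m (by omega)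
      rw [e1, e2]
      omega
    omega
  have h8 : (2 : ℝ) ^ (EE m + (2 * (L * (100 * m + 1)) + m)) ≤ nn m := by
    rw [h1]; exact pow_le_pow_right₀ (by norm_num) h6
  have h9 : (1 / 2 : ℝ) ^ (2 * (L * (100 * m + 1))) ≤ Real.exp (-((L : ℝ) * (100 * m + 1))) := by
    have h10 := exp_nat_le (L * (100 * m + 1))
    push_cast at h10
    rw [Real.exp_neg, one_div, inv_pow]
    exact inv_anti₀ (Real.exp_pos _) h10
  calc (2 : ℝ) ^ m = 2 ^ (EE m + (2 * (L * (100 * m + 1)) + m)) * (1 / 2 : ℝ) ^ (EE m) *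
        (1 / 2 : ℝ) ^ (2 * (L * (100 * m + 1))) := by
        rw [pow_add, pow_add]
        have e1 : (2 : ℝ) ^ EE m * (1 / 2) ^ EE m = 1 := by rw [← mul_pow]; norm_num
        have e2 : (2 : ℝ) ^ (2 * (L * (100 * m + 1))) * (1 / 2) ^ (2 * (L * (100 * m + 1))) = 1 := by
          rw [← mul_pow]; norm_num
        calc (2 : ℝ) ^ m = ((2 : ℝ) ^ EE m * (1 / 2) ^ EE m) *
              ((2 : ℝ) ^ (2 * (L * (100 * m + 1))) * (1 / 2) ^ (2 * (L * (100 * m + 1)))) * 2 ^ m := by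
              rw [e1, e2]; ring
          _ = _ := by ring
    _ ≤ nn m * (1 / 2 : ℝ) ^ (EE m) * Real.exp (-((L : ℝ) * (100 * m + 1))) := by gcongr
    _ = _ := by rw [pr_def]

theorem mal_eq_top {lam : ℝ} (hlam : 0 < lam) : mal mu0 f0 1 lam = ∞ := by
  obtain ⟨L, hL⟩ := exists_nat_ge lam
  apply ENNReal.eq_top_of_forall_nnreal_le
  intro r
  obtain ⟨k, hk⟩ := exists_nat_ge (r : ℝ)
  set m := max k (13 * L + 1) with hm
  have h1 : 13 * L + 1 ≤ m := le_max_right _ _
  have h2 : k ≤ m := le_max_left _ _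
  refine le_trans ?_ (mal_ge hlam (by omega : 1 ≤ m))
  rw [ENNReal.coe_nnreal_eq]
  apply ENNReal.ofReal_le_ofReal
  have h3 : (r : ℝ) ≤ 2 ^ m := by
    have h4 : m < 2 ^ m := Nat.lt_two_pow_self
    have h5 : (k : ℝ) ≤ 2 ^ m := by exact_mod_cast h2.trans h4.le
    linarith
  refine h3.trans ((growth h1).trans ?_)
  have h6 : (0 : ℝ) ≤ nn m * pr m := mul_nonneg (Nat.cast_nonneg _) (pr_pos m).le
  apply mul_le_mul_of_nonneg_left _ h6
  apply Real.exp_le_exp.2
  have h7 : (0 : ℝ) ≤ 100 * m + 1 := by positivity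
  nlinarith

theorem alpha_eq_top : alpha mu0 f0 1 = ∞ := by
  unfold alpha
  simp only [iInf_eq_top]
  rintro lam ⟨h1, h2⟩
  rw [mal_eq_top h1] at h2
  exact absurd h2 (lt_irrefl _)

lemma leaves_eq (ω : (ℕ → ℝ≥0) × (ℕ → ℝ)) (t : ℕ) :
    leaves f0 1 ω.1 ω.2 t Set.univ = N0 (XX ω) t := by
  unfold leaves N0
  rw [← Set.ncard_coe_finset]
  congr 1
  ext v
  simp only [Set.mem_univ, and_true, one_mul, Finset.coe_filter, Finset.mem_range, dg_XX]
  change (v ≤ t ∧ _) ↔ (v < t + 1 ∧ _)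
  rw [Nat.lt_succ_iff]

theorem main : 0 < (law mu0) {ω | ∃ᶠ t : ℕ in atTop,
    (leaves f0 1 ω.1 ω.2 t Set.univ : ℝ) / t ≤ 1 - 1 / 16384} := by
  have hQ := isLaw_canonical
  have h1 := windows_pos hQ
  have hm : MeasurableSet (⋂ k, Win k) := MeasurableSet.iInter Win_meas
  rw [Measure.map_apply XX_measurable hm] at h1
  refine lt_of_lt_of_le h1 (measure_mono_ae ?_)
  have h2 : ∀ᵐ ω ∂(law mu0), ∃ n : ℕ, ∀ t, V3 t (XX ω) < ENNReal.ofReal (2 ^ n) :=
    ae_of_ae_map XX_measurable.aemeasurable (V3_bdd hQ)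
  filter_upwards [h2] with ω ⟨n, hn⟩ hW
  change ∃ᶠ t : ℕ in atTop, (leaves f0 1 ω.1 ω.2 t Set.univ : ℝ) / t ≤ 1 - 1 / 16384
  refine (no_limit (XX_valid ω) hW hn).mono (fun t ht => ?_)
  rwa [leaves_eq]

theorem not_leafConvergence : ¬ LeafConvergence := by
  intro h
  have h1 := h mu0 f0 1 le_rfl f0_measurable (Filter.Eventually.of_forall fun w =>
    lt_of_lt_of_le zero_lt_one (f0_ge 0 w)) alpha_eq_top Set.univ MeasurableSet.univ
  apply main.ne'
  have h2 : ∀ᵐ ω ∂(law mu0), ω ∉ {ω | ∃ᶠ t : ℕ in atTop,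
      (leaves f0 1 ω.1 ω.2 t Set.univ : ℝ) / t ≤ 1 - 1 / 16384} := by
    filter_upwards [h1] with ω hω hf
    have h3 : ∀ᶠ t : ℕ in atTop,
        (1 - 1 / 16384 : ℝ) < (leaves f0 1 ω.1 ω.2 t Set.univ : ℝ) / ((1 : ℕ) * t) := by
      apply hω.eventually
      apply lt_mem_nhds
      simp only [probReal_univ]
      norm_num
    obtain ⟨t, ht1, ht2⟩ := (hf.and_eventually h3).exists
    rw [Nat.cast_one, one_mul] at ht2
    linarith
  exact (measure_eq_zero_iff_ae_notMem).2 h2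

end Pool.Agent.Helper70.Fr
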