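import Mathlib

/-!
# Parameters
-/

open MeasureTheory Filter Topology
open scoped ENNReal NNReal

namespace Pool.Agent.Helper70.Fr

/-- parent type -/
def par (m : ℕ) : ℕ := Nat.log 8 m - 20
/-- the scale exponent -/
def Qd (l : ℕ) : ℕ := 2 ^ ((l + 20) ^ 2)
lemma Qd_def (l : ℕ) : Qd l = 2 ^ ((l + 20) ^ 2) := rfl
attribute [irreducible] Qd
/-- burst size `2^(4 Qd)` -/
def nn (l : ℕ) : ℕ := 2 ^ (4 * Qd l)
lemma nn_def (l : ℕ) : nn l = 2 ^ (4 * Qd l) := rfl
attribute [irreducible] nn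
/-- population bound before the burst -/
def Nb (l : ℕ) : ℕ := 2 ^ (Qd l)
lemma Nb_def (l : ℕ) : Nb l = 2 ^ (Qd l) := rfl
attribute [irreducible] Nb
/-- window factor -/
def kap (l : ℕ) : ℕ := 2 ^ (l + 20)
lemma kap_def (l : ℕ) : kap l = 2 ^ (l + 20) := rfl
attribute [irreducible] kap
/-- delay -/
def DD (m : ℕ) : ℕ := 100 * m - 100 * par m
lemma DD_def (m : ℕ) : DD m = 100 * m - 100 * par m := rfl
attribute [irreducible] DD
/-- pre-ignition fitness -/
def phi (m : ℕ) : ℕ := 4 ^ (m + 10) * DD m * (4 * Qd m)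
lemma phi_def (m : ℕ) : phi m = 4 ^ (m + 10) * DD m * (4 * Qd m) := rfl
attribute [irreducible] phi
/-- number of pre-ignition picks -/
def gg (m : ℕ) : ℕ := phi m * DD m
lemma gg_def (m : ℕ) : gg m = phi m * DD m := rfl
attribute [irreducible] gg
/-- natural number valued fitness -/
def FN (i j : ℕ) : ℕ :=
  if j = 0 then 1 else if i < gg j then phi j else if i < gg j + nn j then nn j ^ 2 else 1
lemma FN_def (i j : ℕ) : FN i j =
  if j = 0 then 1 else if i < gg j then phi j else if i < gg j + nn j then nn j ^ 2 else 1 := rfl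
attribute [irreducible] FN
/-- fitness -/
noncomputable def FF (i j : ℕ) : ℝ := (FN i j : ℝ)
lemma FF_def (i j : ℕ) : FF i j = (FN i j : ℝ) := rfl
attribute [irreducible] FF
/-- exponent of the type probabilities -/
def EE (m : ℕ) : ℕ := 2 * (par m + 20) + 4 * Qd (par m)
lemma EE_def (m : ℕ) : EE m = 2 * (par m + 20) + 4 * Qd (par m) := rfl
attribute [irreducible] EE

lemma par_lt {m : ℕ} (hm : 1 ≤ m) : par m < m := by
  unfold par
  have : Nat.log 8 m < m := Nat.log_lt_self 8 (by omega)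
  omega

lemma par_zero : par 0 = 0 := by simp [par]
lemma par_one : par 1 = 0 := by simp [par]

lemma par_mono {m m' : ℕ} (h : m ≤ m') : par m ≤ par m' := by
  unfold par
  have := Nat.log_mono_right (b := 8) h
  omega

lemma lt_pow_par (m : ℕ) : m < 8 ^ (par m + 21) := by
  by_cases hm : m = 0
  · subst hm; positivity
  have h1 : m < 8 ^ (Nat.log 8 m + 1) := Nat.lt_pow_succ_log_self (by norm_num) m
  refine lt_of_lt_of_le h1 (Nat.pow_le_pow_right (by norm_num) ?_)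
  unfold par
  omega

lemma Qd_pos (l : ℕ) : 0 < Qd l := by rw [Qd_def]; positivity

lemma Qd_mono {l l' : ℕ} (h : l ≤ l') : Qd l ≤ Qd l' := by
  rw [Qd_def, Qd_def]
  apply Nat.pow_le_pow_right (by norm_num)
  gcongr

lemma nn_mono {l l' : ℕ} (h : l ≤ l') : nn l ≤ nn l' := by
  rw [nn_def, nn_def]
  apply Nat.pow_le_pow_right (by norm_num)
  have := Qd_mono h
  omega

lemma Qd_ge_par (m : ℕ) : 16 * (m + 30) ^ 2 ≤ Qd (par m) := by
  set i := par m with hi
  have h1 : m < 8 ^ (i + 21) := lt_pow_par m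
  have h2 : 30 ≤ 8 ^ (i + 21) := by
    calc 30 ≤ 8 ^ 21 := by norm_num
      _ ≤ 8 ^ (i + 21) := Nat.pow_le_pow_right (by norm_num) (by omega)
  have h3 : (m + 30) ^ 2 ≤ (2 * 8 ^ (i + 21)) ^ 2 := Nat.pow_le_pow_left (by omega) 2
  have h4 : 16 * (2 * 8 ^ (i + 21)) ^ 2 = 2 ^ (6 * i + 132) := by
    have : (8 : ℕ) = 2 ^ 3 := by norm_num
    rw [this, ← pow_mul, mul_pow, ← pow_mul]
    have h16 : (16 : ℕ) = 2 ^ 4 := by norm_num
    rw [h16, ← pow_add, ← pow_add]
    congr 1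
    ring
  calc 16 * (m + 30) ^ 2 ≤ 16 * (2 * 8 ^ (i + 21)) ^ 2 := by omega
    _ = 2 ^ (6 * i + 132) := h4
    _ ≤ Qd i := by
      rw [Qd_def]
      apply Nat.pow_le_pow_right (by norm_num)
      nlinarith

lemma Qd_ge (l : ℕ) : 16 * (l + 30) ^ 2 ≤ Qd l := by
  have h1 := Qd_ge_par l
  have h2 : par l ≤ l := by
    rcases Nat.eq_zero_or_pos l with h | h
    · subst h; simp [par]
    · exact (par_lt h).le
  exact h1.trans (Qd_mono h2)

lemma DD_ge {m : ℕ} (hm : 1 ≤ m) : 100 ≤ DD m := by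
  have := par_lt hm
  rw [DD_def]
  omega

lemma DD_eq {m : ℕ} : (DD m : ℝ) = 100 * m - 100 * par m := by
  rw [DD_def]
  have h2 : par m ≤ m := by
    rcases Nat.eq_zero_or_pos m with h | h
    · subst h; simp [par]
    · exact (par_lt h).le
  rw [Nat.cast_sub (by omega)]
  push_cast
  ring

lemma DD_le (m : ℕ) : DD m ≤ 100 * m := by
  rw [DD_def]; omega

lemma phi_ge {m : ℕ} (hm : 1 ≤ m) : 4 * Qd m ≤ phi m := by
  rw [phi_def]
  have := DD_ge hm
  have h1 : 1 ≤ 4 ^ (m + 10) * DD m := by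
    apply Nat.succ_le_of_lt
    have : 0 < DD m := by omega
    positivity
  exact Nat.le_mul_of_pos_left _ h1

lemma phi_pos {m : ℕ} (hm : 1 ≤ m) : 0 < phi m := by
  have := phi_ge hm
  have := Qd_pos m
  omega

lemma nat_lt_two_pow (m : ℕ) : m < 2 ^ m := Nat.lt_two_pow_self

lemma phi_le (m : ℕ) : phi m ≤ 2 ^ ((m + 30) ^ 2) := by
  rw [phi_def]
  have h1 := DD_le m
  have h2 : m < 2 ^ m := Nat.lt_two_pow_self
  have h3 : DD m ≤ 2 ^ (m + 7) := by
    rw [pow_add]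
    norm_num
    omega
  calc 4 ^ (m + 10) * DD m * (4 * Qd m) ≤ 4 ^ (m + 10) * 2 ^ (m + 7) * (4 * Qd m) := by gcongr
    _ = 2 ^ (2 * (m + 10) + (m + 7) + 2 + (m + 20) ^ 2) := by
      rw [Qd_def]
      have h4 : (4 : ℕ) = 2 ^ 2 := by norm_num
      rw [h4, ← pow_mul, ← pow_add, ← pow_add, ← pow_add]
      congr 1
      ring
    _ ≤ _ := by
      apply Nat.pow_le_pow_right (by norm_num)
      nlinarith

lemma gg_pos {m : ℕ} (hm : 1 ≤ m) : 0 < gg m := by
  rw [gg_def]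
  have := phi_pos hm
  have := DD_ge hm
  positivity

lemma nn_pos (l : ℕ) : 0 < nn l := by rw [nn_def]; positivity
lemma Nb_pos (l : ℕ) : 0 < Nb l := by rw [Nb_def]; positivity
lemma kap_pos (l : ℕ) : 0 < kap l := by rw [kap_def]; positivity

lemma FN_ge (i j : ℕ) : 1 ≤ FN i j := by
  rw [FN_def]
  split_ifs with h1 h2 h3
  · exact le_rfl
  · exact phi_pos (by omega)
  · exact Nat.pos_of_ne_zero (pow_ne_zero 2 (nn_pos j).ne')
  · exact le_rfl

lemma FF_ge (i j : ℕ) : 1 ≤ FF i j := by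
  rw [FF_def]
  exact_mod_cast FN_ge i j

lemma FF_type_zero (i : ℕ) : FF i 0 = 1 := by simp [FF_def, FN_def]

lemma FF_pre {i j : ℕ} (hj : 1 ≤ j) (h : i < gg j) : FF i j = phi j := by
  have : j ≠ 0 := by omega
  simp [FF_def, FN_def, this, h]

lemma FF_burst {i j : ℕ} (hj : 1 ≤ j) (h : gg j ≤ i) (h2 : i < gg j + nn j) :
    FF i j = (nn j : ℝ) ^ 2 := by
  have h1 : j ≠ 0 := by omega
  have h3 : ¬ i < gg j := by omega
  simp [FF_def, FN_def, h1, h3, h2]

lemma FF_post {i j : ℕ} (hj : 1 ≤ j) (h : gg j + nn j ≤ i) : FF i j = 1 := by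
  have h1 : j ≠ 0 := by omega
  have h3 : ¬ i < gg j := by omega
  have h4 : ¬ i < gg j + nn j := by omega
  simp [FF_def, FN_def, h1, h3, h4]

/-! ### type distribution -/

lemma EE_ge (m : ℕ) : 16 * (m + 30) ^ 2 ≤ EE m := by
  have := Qd_ge_par m
  rw [EE_def]
  omega

/-- weight of type `m ≥ 1` (real) -/
noncomputable def pr (m : ℕ) : ℝ := (1 / 2 : ℝ) ^ (EE m)

lemma pr_def (m : ℕ) : pr m = (1 / 2 : ℝ) ^ (EE m) := rfl
attribute [irreducible] pr

lemma pr_pos (m : ℕ) : 0 < pr m := by rw [pr_def]; positivity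

lemma pr_le (m : ℕ) : pr m ≤ (1 / 2 : ℝ) ^ (16 * (m + 30) ^ 2) := by
  rw [pr_def]
  exact pow_le_pow_of_le_one (by norm_num) (by norm_num) (EE_ge m)

lemma pr_eq (m : ℕ) : pr m * ((kap (par m) : ℝ) ^ 2 * nn (par m)) = 1 := by
  rw [pr_def, kap_def, nn_def, EE_def]
  push_cast
  rw [← pow_mul, ← pow_add]
  rw [show (par m + 20) * 2 + 4 * Qd (par m) = 2 * (par m + 20) + 4 * Qd (par m) by ring]
  rw [← mul_pow]
  norm_num

/-- probability weights (in `ℝ≥0∞`) of the types `m ≥ 1`, zero at `0`. -/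
noncomputable def pe1 (m : ℕ) : ℝ≥0∞ := if m = 0 then 0 else ENNReal.ofReal (pr m)

/-- the type distribution -/
noncomputable def pe (m : ℕ) : ℝ≥0∞ := if m = 0 then 1 - ∑' j, pe1 j else pe1 m

lemma tsum_half : ∑' m : ℕ, ENNReal.ofReal ((1 / 2 : ℝ) ^ (m + 2)) = ENNReal.ofReal (1 / 2) := by
  rw [← ENNReal.ofReal_tsum_of_nonneg]
  · congr 1
    have : ∀ m : ℕ, (1 / 2 : ℝ) ^ (m + 2) = (1 / 4) * (1 / 2) ^ m := by
      intro m; rw [pow_add]; ring
    simp_rw [this]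
    rw [tsum_mul_left, tsum_geometric_of_lt_one (by norm_num) (by norm_num)]
    norm_num
  · intro m; positivity
  · have : ∀ m : ℕ, (1 / 2 : ℝ) ^ (m + 2) = (1 / 4) * (1 / 2) ^ m := by
      intro m; rw [pow_add]; ring
    simp_rw [this]
    exact (summable_geometric_of_lt_one (by norm_num) (by norm_num)).mul_left _

lemma pr_mul_le (m : ℕ) : pr m * (phi m + 3) ≤ (1 / 2 : ℝ) ^ (m + 2) := by
  have h1 := pr_le m
  have h3 : (phi m : ℝ) ≤ 2 ^ ((m + 30) ^ 2) := by exact_mod_cast phi_le m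
  have he : m + 2 ≤ (m + 30) ^ 2 := by nlinarith
  revert h1 h3 he
  generalize (m + 30) ^ 2 = e
  intro h1 h3 he
  have h2 : (phi m : ℝ) + 3 ≤ 2 ^ (2 * e) := by
    have h4 : (4 : ℝ) ≤ 2 ^ e := by
      calc (4 : ℝ) = 2 ^ 2 := by norm_num
        _ ≤ _ := pow_le_pow_right₀ (by norm_num) (by omega)
    have h5 : (2 : ℝ) ^ (2 * e) = 2 ^ e * 2 ^ e := by
      rw [two_mul, pow_add]
    rw [h5]
    nlinarith
  calc pr m * (phi m + 3) ≤ (1 / 2 : ℝ) ^ (16 * e) * 2 ^ (2 * e) := by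
        apply mul_le_mul h1 h2 (by positivity) (by positivity)
    _ = (1 / 2 : ℝ) ^ (14 * e) := by
        rw [show 16 * e = 14 * e + 2 * e by ring, pow_add,
          mul_assoc, ← mul_pow]
        norm_num
    _ ≤ _ := pow_le_pow_of_le_one (by norm_num) (by norm_num) (by omega)

lemma tsum_pe1_mul_le (b : ℕ → ℝ) (hb : ∀ m, 1 ≤ m → b m ≤ phi m + 3) :
    ∑' m, pe1 m * ENNReal.ofReal (b m) ≤ ENNReal.ofReal (1 / 2) := by
  rw [← tsum_half]
  apply ENNReal.tsum_le_tsum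
  intro m
  unfold pe1
  split_ifs with h
  · simp
  · rw [← ENNReal.ofReal_mul (pr_pos m).le]
    apply ENNReal.ofReal_le_ofReal
    refine le_trans ?_ (pr_mul_le m)
    exact mul_le_mul_of_nonneg_left (hb m (by omega)) (pr_pos m).le

lemma tsum_pe1_le : ∑' m, pe1 m ≤ ENNReal.ofReal (1 / 2) := by
  have h := tsum_pe1_mul_le (fun _ => 1) (fun m _ => by
    have : (0 : ℝ) ≤ phi m := Nat.cast_nonneg _
    linarith)
  simpa using h

lemma pe_zero : pe 0 = 1 - ∑' j, pe1 j := by simp [pe]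

lemma pe_of_ne {m : ℕ} (h : m ≠ 0) : pe m = ENNReal.ofReal (pr m) := by simp [pe, pe1, h]

lemma pe_le_pe1_add (m : ℕ) : pe m = (if m = 0 then pe 0 else 0) + pe1 m := by
  by_cases h : m = 0
  · subst h; simp [pe1]
  · simp [h, pe]

lemma tsum_pe : ∑' m, pe m = 1 := by
  have h1 : ∑' m, pe m = ∑' m, ((if m = 0 then pe 0 else 0) + pe1 m) :=
    tsum_congr pe_le_pe1_add
  rw [h1, ENNReal.tsum_add, tsum_ite_eq, pe_zero]
  apply tsub_add_cancel_of_le
  refine tsum_pe1_le.trans ?_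
  rw [ENNReal.ofReal_le_one]
  norm_num

/-- expectation bound for the potential of a newborn vertex -/
lemma tsum_pe_mul_le (b : ℕ → ℝ) (c : ℝ) (hc : 0 ≤ c) (hb0 : b 0 ≤ c)
    (hb : ∀ m, 1 ≤ m → b m ≤ c + (phi m + 3)) :
    ∑' m, pe m * ENNReal.ofReal (b m) ≤ ENNReal.ofReal (c + 1 / 2) := by
  have h1 : ∀ m, pe m * ENNReal.ofReal (b m) ≤
      pe m * ENNReal.ofReal c + pe1 m * ENNReal.ofReal (phi m + 3) := by
    intro m
    by_cases h : m = 0
    · subst h
      calc pe 0 * ENNReal.ofReal (b 0) ≤ pe 0 * ENNReal.ofReal c := by gcongr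
        _ ≤ _ := le_self_add
    · have h2 : ENNReal.ofReal (b m) ≤ ENNReal.ofReal c + ENNReal.ofReal (phi m + 3) := by
        rw [← ENNReal.ofReal_add hc (by positivity)]
        exact ENNReal.ofReal_le_ofReal (hb m (by omega))
      calc pe m * ENNReal.ofReal (b m) ≤
            pe m * (ENNReal.ofReal c + ENNReal.ofReal (phi m + 3)) := by gcongr
        _ = _ := by
          rw [mul_add]
          congr 2
          simp [pe, pe1, h]
  calc ∑' m, pe m * ENNReal.ofReal (b m) ≤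
      ∑' m, (pe m * ENNReal.ofReal c + pe1 m * ENNReal.ofReal (phi m + 3)) :=
        ENNReal.tsum_le_tsum h1
    _ = ENNReal.ofReal c + ∑' m, pe1 m * ENNReal.ofReal (phi m + 3) := by
        rw [ENNReal.tsum_add, ENNReal.tsum_mul_right, tsum_pe, one_mul]
    _ ≤ ENNReal.ofReal c + ENNReal.ofReal (1 / 2) := by
        gcongr
        exact tsum_pe1_mul_le _ (fun _ _ => le_rfl)
    _ = _ := by rw [← ENNReal.ofReal_add hc (by norm_num)]

end Pool.Agent.Helper70.Fr
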