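import Pool.Agent.Helper70.Fr1

/-!
# One-step estimates and the per-vertex supermartingales
-/

open MeasureTheory Filter Topology
open scoped ENNReal NNReal

namespace Pool.Agent.Helper70.Fr

variable {F : ℕ → ℕ → ℝ} {p : ℕ → ℝ≥0∞}

lemma sum_div_ZZ (hF : ∀ i j, 1 ≤ F i j) (x : Pth) (t : ℕ) :
    ∑ v ∈ Finset.range (t + 1), F (dg x.2 t v) (x.1 v) / ZZ F x t = 1 := by
  rw [← Finset.sum_div]
  exact div_self (ZZ_pos hF x t).ne'

lemma div_ZZ_nonneg (hF : ∀ i j, 1 ≤ F i j) (x : Pth) (t v : ℕ) :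
    0 ≤ F (dg x.2 t v) (x.1 v) / ZZ F x t :=
  div_nonneg (zero_le_one.trans (hF _ _)) (ZZ_pos hF x t).le

/-- general one-step bound -/
lemma KK_le (hF : ∀ i j, 1 ≤ F i j) (hp : ∑' w, p w = 1) {V : Pth → ℝ≥0∞} {x : Pth} {t : ℕ}
    (a b : ℕ → ℝ) (bbar c : ℝ) (ha : ∀ v ≤ t, 0 ≤ a v) (hb0 : 0 ≤ bbar)
    (hb : ∑' w, p w * ENNReal.ofReal (b w) ≤ ENNReal.ofReal bbar)
    (hV : ∀ v ≤ t, ∀ w, V (upd x t v w) ≤ ENNReal.ofReal (a v + b w))
    (hc : ∑ v ∈ Finset.range (t + 1), F (dg x.2 t v) (x.1 v) / ZZ F x t * a v + bbar ≤ c) :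
    KK F p t V x ≤ ENNReal.ofReal c := by
  have h1 : ∀ v ∈ Finset.range (t + 1), ENNReal.ofReal (F (dg x.2 t v) (x.1 v) / ZZ F x t) *
      ∑' w, p w * V (upd x t v w) ≤
      ENNReal.ofReal (F (dg x.2 t v) (x.1 v) / ZZ F x t * a v) +
        ENNReal.ofReal (F (dg x.2 t v) (x.1 v) / ZZ F x t) * ENNReal.ofReal bbar := by
    intro v hv
    have hv' : v ≤ t := by have := Finset.mem_range.1 hv; omega
    rw [ENNReal.ofReal_mul (div_ZZ_nonneg hF x t v), ← mul_add]
    gcongr
    calc ∑' w, p w * V (upd x t v w)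
        ≤ ∑' w, (p w * ENNReal.ofReal (a v) + p w * ENNReal.ofReal (b w)) := by
          apply ENNReal.tsum_le_tsum
          intro w
          rw [← mul_add]
          gcongr
          exact (hV v hv' w).trans ENNReal.ofReal_add_le
      _ = ENNReal.ofReal (a v) + ∑' w, p w * ENNReal.ofReal (b w) := by
          rw [ENNReal.tsum_add, ENNReal.tsum_mul_right, hp, one_mul]
      _ ≤ _ := by gcongr
  calc KK F p t V x ≤ ∑ v ∈ Finset.range (t + 1),
        (ENNReal.ofReal (F (dg x.2 t v) (x.1 v) / ZZ F x t * a v) +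
        ENNReal.ofReal (F (dg x.2 t v) (x.1 v) / ZZ F x t) * ENNReal.ofReal bbar) :=
        Finset.sum_le_sum h1
    _ = ENNReal.ofReal (∑ v ∈ Finset.range (t + 1), F (dg x.2 t v) (x.1 v) / ZZ F x t * a v) +
        ENNReal.ofReal bbar := by
        rw [Finset.sum_add_distrib, ← ENNReal.ofReal_sum_of_nonneg, ← Finset.sum_mul,
          ← ENNReal.ofReal_sum_of_nonneg, sum_div_ZZ hF, ENNReal.ofReal_one, one_mul]
        · intro v _
          exact div_ZZ_nonneg hF x t v
        · intro v hv
          have hv' : v ≤ t := by have := Finset.mem_range.1 hv; omega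
          exact mul_nonneg (div_ZZ_nonneg hF x t v) (ha v hv')
    _ ≤ _ := by
        rw [← ENNReal.ofReal_add _ hb0]
        · exact ENNReal.ofReal_le_ofReal hc
        · apply Finset.sum_nonneg
          intro v hv
          have hv' : v ≤ t := by have := Finset.mem_range.1 hv; omega
          exact mul_nonneg (div_ZZ_nonneg hF x t v) (ha v hv')

/-- one-step bound, without contribution of the newborn vertex -/
lemma KK_le' (hF : ∀ i j, 1 ≤ F i j) (hp : ∑' w, p w = 1) {V : Pth → ℝ≥0∞} {x : Pth} {t : ℕ}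
    (a : ℕ → ℝ) (c : ℝ) (ha : ∀ v ≤ t, 0 ≤ a v)
    (hV : ∀ v ≤ t, ∀ w, V (upd x t v w) ≤ ENNReal.ofReal (a v))
    (hc : ∑ v ∈ Finset.range (t + 1), F (dg x.2 t v) (x.1 v) / ZZ F x t * a v ≤ c) :
    KK F p t V x ≤ ENNReal.ofReal c :=
  KK_le hF hp a (fun _ => 0) 0 c ha le_rfl (by simp) (fun v hv w => by simpa using hV v hv w)
    (by simpa using hc)

lemma KK_const (hF : ∀ i j, 1 ≤ F i j) (hp : ∑' w, p w = 1) {V : Pth → ℝ≥0∞} {x : Pth} {t : ℕ}
    (c : ℝ≥0∞) (hV : ∀ v ≤ t, ∀ w, V (upd x t v w) ≤ c) :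
    KK F p t V x ≤ c := by
  calc KK F p t V x ≤ KK F p t (fun _ => c) x := KK_mono F p t x hV
    _ = c := by
      unfold KK
      simp_rw [ENNReal.tsum_mul_right, hp, one_mul]
      rw [← Finset.sum_mul, ← ENNReal.ofReal_sum_of_nonneg, sum_div_ZZ hF, ENNReal.ofReal_one,
        one_mul]
      intro v _
      exact div_ZZ_nonneg hF x t v

/-- multiplicative functional of the degree -/
noncomputable def dprod (F : ℕ → ℕ → ℝ) (β : ℝ) (d j : ℕ) : ℝ :=
  ∏ k ∈ Finset.range d, (1 + β / F k j)

/-- The basic per-vertex process: vertex `s` of type `j`, stopped at degree `G`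
  (no stopping if `G` is never reached). -/
noncomputable def Vs (F : ℕ → ℕ → ℝ) (β : ℝ) (s j : ℕ) (x : Pth) (t : ℕ) : ℝ :=
  Real.exp (-β * (AA F x t - AA F x s)) * dprod F β (dg x.2 t s) j

open Classical in
/-- ENNReal valued, with indicator -/
noncomputable def VsE (F : ℕ → ℕ → ℝ) (β : ℝ) (s j : ℕ) (G : ℕ → Prop) (t : ℕ) (x : Pth) : ℝ≥0∞ :=
  if x.1 0 = 1 ∧ x.1 s = j ∧ G (dg x.2 t s) then ENNReal.ofReal (Vs F β s j x t) else 0

lemma VsE_adp (β : ℝ) (s j : ℕ) (G : ℕ → Prop) {t : ℕ} (hst : s ≤ t) :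
    Adp t (VsE F β s j G t) := by
  intro x y h
  unfold VsE Vs
  rw [h.1 0 (Nat.zero_le _), h.1 s hst, dg_congr h le_rfl, AA_congr F h (Nat.le_succ t),
    AA_congr F h (by omega : s ≤ t + 1)]

/-- exponent inequality -/
lemma exp_mul_le (y : ℝ) : Real.exp (-y) * (1 + y) ≤ 1 := by
  have h := Real.add_one_le_exp y
  have h2 := Real.exp_pos (-y)
  calc Real.exp (-y) * (1 + y) ≤ Real.exp (-y) * Real.exp y := by
        apply mul_le_mul_of_nonneg_left _ h2.le; linarith
    _ = 1 := by rw [← Real.exp_add]; simp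

theorem VsE_step (hF : ∀ i j, 1 ≤ F i j) (hp : ∑' w, p w = 1) (β : ℝ) (s j : ℕ) (G : ℕ → Prop)
    (hG : ∀ d, G (d + 1) → G d)
    (hβ : ∀ d, G d → 0 ≤ 1 + β / F d j) {t : ℕ} (hst : s ≤ t) (x : Pth) :
    KK F p t (VsE F β s j G (t + 1)) x ≤ VsE F β s j G t x := by
  classical
  by_cases hx : x.1 0 = 1 ∧ x.1 s = j ∧ G (dg x.2 t s)
  · set d := dg x.2 t s with hd
    have hGd : ∀ e, e ≤ d → G e := by
      intro e he
      obtain ⟨r, hr⟩ := Nat.exists_eq_add_of_le he
      have : ∀ r e, G (e + r) → G e := by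
        intro r
        induction r with
        | zero => intro e h; simpa using h
        | succ r ih => intro e h; exact ih e (hG _ (by rwa [← add_assoc] at h))
      exact this r e (by rw [← hr]; exact hx.2.2)
    have hdp : 0 ≤ dprod F β d j := by
      unfold dprod
      apply Finset.prod_nonneg
      intro k hk
      exact hβ k (hGd k (Finset.mem_range.1 hk).le)
    set Z := ZZ F x t with hZ
    have hZpos : 0 < Z := ZZ_pos hF x t
    set y : ℝ := β / Z with hy
    set e0 : ℝ := Real.exp (-β * (AA F x t - AA F x s)) * Real.exp (-y) with he0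
    have he0pos : 0 < e0 := by positivity
    have hfac : 0 ≤ 1 + β / F d j := hβ d hx.2.2
    have hupd : ∀ v ≤ t, ∀ w, VsE F β s j G (t + 1) (upd x t v w) ≤
        ENNReal.ofReal (e0 * dprod F β d j * (if v = s then (1 + β / F d j) else 1)) := by
      intro v hv w
      unfold VsE
      split_ifs with h1 h2 h2
      · apply le_of_eq
        congr 1
        unfold Vs
        rw [AA_upd F x (le_refl (t + 1)), AA_upd F x (by omega : s ≤ t + 1), dg_upd_succ, AA_succ]
        simp only [h2, if_true]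
        unfold dprod
        rw [Finset.prod_range_succ, he0, ← Real.exp_add]
        have : -β * (AA F x t + 1 / ZZ F x t - AA F x s) =
            -β * (AA F x t - AA F x s) + -y := by
          rw [hy, hZ]; ring
        rw [this]
        ring
      · apply le_of_eq
        congr 1
        unfold Vs
        rw [AA_upd F x (le_refl (t + 1)), AA_upd F x (by omega : s ≤ t + 1), dg_upd_succ, AA_succ]
        simp only [h2, if_false, add_zero, mul_one]
        rw [he0, ← Real.exp_add]
        have : -β * (AA F x t + 1 / ZZ F x t - AA F x s) =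
            -β * (AA F x t - AA F x s) + -y := by
          rw [hy, hZ]; ring
        rw [this]
      · simp
      · simp
    have hmain : ∑ v ∈ Finset.range (t + 1), F (dg x.2 t v) (x.1 v) / ZZ F x t *
        (e0 * dprod F β d j * (if v = s then (1 + β / F d j) else 1)) ≤ Vs F β s j x t := by
      have h1 : ∀ v ∈ Finset.range (t + 1), F (dg x.2 t v) (x.1 v) / ZZ F x t *
        (e0 * dprod F β d j * (if v = s then (1 + β / F d j) else 1)) =
        (e0 * dprod F β d j) * (F (dg x.2 t v) (x.1 v) / ZZ F x t) +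
          (if v = s then (e0 * dprod F β d j) * (F (dg x.2 t v) (x.1 v) / ZZ F x t) *
            (β / F d j) else 0) := by
        intro v _
        split_ifs <;> ring
      rw [Finset.sum_congr rfl h1, Finset.sum_add_distrib, ← Finset.mul_sum, sum_div_ZZ hF,
        Finset.sum_ite_eq' _ s, if_pos (Finset.mem_range.2 (by omega)), ← hd, hx.2.1, ← hZ]
      have hFd : F d j ≠ 0 := by
        have := hF d j
        positivity
      have h2 : e0 * dprod F β d j * (F d j / Z) * (β / F d j) = e0 * dprod F β d j * y := by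
        rw [hy]
        field_simp
      rw [h2]
      unfold Vs
      rw [← hd, he0]
      have h3 := exp_mul_le y
      have h4 : 0 ≤ Real.exp (-β * (AA F x t - AA F x s)) * dprod F β d j := by positivity
      calc Real.exp (-β * (AA F x t - AA F x s)) * Real.exp (-y) * dprod F β d j * 1 +
          Real.exp (-β * (AA F x t - AA F x s)) * Real.exp (-y) * dprod F β d j * y
          = (Real.exp (-β * (AA F x t - AA F x s)) * dprod F β d j) *
            (Real.exp (-y) * (1 + y)) := by ring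
        _ ≤ (Real.exp (-β * (AA F x t - AA F x s)) * dprod F β d j) * 1 := by gcongr
        _ = _ := by ring
    have := KK_le' hF hp (V := VsE F β s j G (t + 1)) (x := x) (t := t) _ _ (fun v _ => by
      split_ifs <;> positivity) hupd hmain
    refine this.trans ?_
    unfold VsE
    rw [if_pos hx]
  · -- all updates vanish
    have hz : ∀ v ≤ t, ∀ w, VsE F β s j G (t + 1) (upd x t v w) ≤ 0 := by
      intro v hv w
      unfold VsE
      rw [if_neg]
      rintro ⟨h0, h1, h2⟩
      rw [upd_fst_of_le x (Nat.zero_le _)] at h0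
      rw [upd_fst_of_le x hst] at h1
      rw [dg_upd_succ] at h2
      apply hx
      refine ⟨h0, h1, ?_⟩
      split_ifs at h2
      · exact hG _ h2
      · exact h2
    exact (KK_const hF hp 0 hz).trans zero_le

end Pool.Agent.Helper70.Fr
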