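import Pool.Agent.Helper70.Fr2
import Pool.Agent.Helper70.Fr3

/-!
# Ignition times of a single vertex
-/

open MeasureTheory Filter Topology
open scoped ENNReal NNReal

namespace Pool.Agent.Helper70.Fr

/-- time error -/
noncomputable def del (j : ℕ) : ℝ := (1 / 2 : ℝ) ^ (j + 3)

lemma del_pos (j : ℕ) : 0 < del j := by unfold del; positivity

lemma del_le (j : ℕ) : del j ≤ 1 / 8 := by
  unfold del
  calc (1 / 2 : ℝ) ^ (j + 3) ≤ (1 / 2) ^ 3 :=
        pow_le_pow_of_le_one (by norm_num) (by norm_num) (by omega)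
    _ = 1 / 8 := by norm_num

lemma valid_dg {x : Pth} (hx : ∀ t, x.2 t ≤ t) (s : ℕ) : dg x.2 s s = 0 := by
  unfold dg
  rw [Finset.card_eq_zero, Finset.filter_eq_empty_iff]
  intro r hr h
  have h1 := hx r
  have h2 := Finset.mem_range.1 hr
  omega

theorem vs_bound {F : ℕ → ℕ → ℝ} {p : ℕ → ℝ≥0∞} (hF : ∀ i j, 1 ≤ F i j) (hp : ∑' w, p w = 1)
    {Q : Measure Pth} (hQ : IsLaw F p Q) (β : ℝ) (s j : ℕ) (G : ℕ → Prop)
    (hG : ∀ d, G (d + 1) → G d)
    (hβ : ∀ d, G d → 0 ≤ 1 + β / F d j) (a : ℝ≥0∞) :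
    a * Q {x | ∃ t, s ≤ t ∧ a ≤ VsE F β s j G t x} ≤ p 1 := by
  classical
  -- modify the process before time s
  set V : ℕ → Pth → ℝ≥0∞ := fun t x => if s ≤ t then VsE F β s j G t x else 0 with hV
  have h1 := ville hQ V s (fun t => by
    by_cases h : s ≤ t
    · simp only [hV, h, if_true]
      exact VsE_adp β s j G h
    · simp only [hV, h, if_false]
      intro x y _
      rfl) (fun t ht x => by
    simp only [hV, ht, if_true, (by omega : s ≤ t + 1)]
    exact VsE_step hF hp β s j G hG hβ ht x) a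
  have h2 : {x | ∃ t, s ≤ t ∧ a ≤ VsE F β s j G t x} = {x | ∃ t, s ≤ t ∧ a ≤ V t x} := by
    ext x
    constructor
    · rintro ⟨t, h1, h2⟩
      exact ⟨t, h1, by simpa [hV, h1] using h2⟩
    · rintro ⟨t, h1, h2⟩
      exact ⟨t, h1, by simpa [hV, h1] using h2⟩
  rw [h2]
  refine h1.trans ?_
  have h3 : ∫⁻ x, V s x ∂Q ≤ ∫⁻ x, ({x : Pth | x.1 0 = 1} : Set Pth).indicator 1 x ∂Q := by
    apply lintegral_mono_ae
    filter_upwards [hQ.valid] with x hx
    simp only [hV, le_refl, if_true]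
    unfold VsE
    split_ifs with h
    · rw [Set.indicator_of_mem (by exact h.1)]
      unfold Vs
      rw [valid_dg hx]
      simp [dprod]
    · exact zero_le
  refine h3.trans ?_
  rw [lintegral_indicator_one, hQ.init]
  exact measurableSet_eq_fun ((measurable_pi_apply 0).comp measurable_fst) measurable_const

/-! ### exponent computations -/

lemma one_add_ge_exp {y : ℝ} (hy : 0 ≤ y) : Real.exp (y - y ^ 2) ≤ 1 + y := by
  have h1 : (0 : ℝ) < 1 + y := by linarith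
  have h2 := Real.add_one_le_exp (-(y / (1 + y)))
  have h3 : -(y / (1 + y)) + 1 = 1 / (1 + y) := by field_simp; ring
  rw [h3] at h2
  have h4 : Real.exp (y / (1 + y)) ≤ 1 + y := by
    rw [Real.exp_neg] at h2
    have h5 := inv_anti₀ (by positivity) h2
    rwa [inv_inv, one_div, inv_inv] at h5
  refine le_trans (Real.exp_le_exp.2 ?_) h4
  rw [le_div_iff₀ h1]
  nlinarith [mul_nonneg hy (mul_nonneg hy hy)]

lemma one_sub_ge_exp {y : ℝ} (hy : 0 ≤ y) (hy2 : y ≤ 1 / 2) :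
    Real.exp (-y - 2 * y ^ 2) ≤ 1 - y := by
  have h1 : (0 : ℝ) < 1 - y := by linarith
  have h2 := Real.add_one_le_exp (y / (1 - y))
  have h3 : y / (1 - y) + 1 = 1 / (1 - y) := by field_simp; ring
  rw [h3] at h2
  have h4 : Real.exp (-(y / (1 - y))) ≤ 1 - y := by
    rw [Real.exp_neg]
    have h5 := inv_anti₀ (by positivity) h2
    rwa [one_div, inv_inv] at h5
  refine le_trans (Real.exp_le_exp.2 ?_) h4
  have : y / (1 - y) ≤ y + 2 * y ^ 2 := by
    rw [div_le_iff₀ h1]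
    nlinarith [mul_nonneg hy hy, mul_nonneg (mul_nonneg hy hy) (by linarith : (0 : ℝ) ≤ 1 - 2 * y)]
  linarith

lemma phi_real (j : ℕ) : (phi j : ℝ) = 4 ^ (j + 10) * DD j * (4 * Qd j) := by
  rw [phi_def]; push_cast; ring

lemma phi_del {j : ℕ} (hj : 1 ≤ j) : (phi j : ℝ) * del j ^ 2 / DD j = 4 ^ 8 * Qd j := by
  have hD : (0 : ℝ) < DD j := by
    have := DD_ge hj
    exact_mod_cast (by omega : 0 < DD j)
  rw [phi_real]
  unfold del
  have h1 : (4 : ℝ) ^ (j + 10) * ((1 / 2 : ℝ) ^ (j + 3)) ^ 2 = 4 ^ 7 := by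
    rw [← pow_mul, mul_comm (j + 3) 2, pow_mul]
    have : ((1 / 2 : ℝ) ^ 2) = 1 / 4 := by norm_num
    rw [this, show j + 10 = (j + 3) + 7 by ring, pow_add, mul_right_comm, ← mul_pow]
    norm_num
  have h2 : (4 : ℝ) ^ (j + 10) * DD j * (4 * Qd j) * ((1 / 2 : ℝ) ^ (j + 3)) ^ 2 / DD j =
      ((4 : ℝ) ^ (j + 10) * ((1 / 2 : ℝ) ^ (j + 3)) ^ 2) * (4 * Qd j) := by
    field_simp
  rw [h2, h1]
  ring

lemma gg_real (j : ℕ) : (gg j : ℝ) = phi j * DD j := by rw [gg_def]; push_cast; ring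

/-- early ignition threshold -/
lemma thr_early {j : ℕ} (hj : 1 ≤ j) :
    Real.exp (16384 * Qd j) ≤
      Real.exp (-(del j / (2 * DD j) * phi j) * (DD j - del j)) *
        (1 + del j / (2 * DD j)) ^ (gg j) := by
  have hD : (0 : ℝ) < DD j := by
    have := DD_ge hj
    exact_mod_cast (by omega : 0 < DD j)
  have hd := del_pos j
  set y : ℝ := del j / (2 * DD j) with hy
  have hy0 : 0 ≤ y := by positivity
  have h1 : Real.exp ((gg j : ℝ) * (y - y ^ 2)) ≤ (1 + y) ^ (gg j) := by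
    rw [Real.exp_nat_mul]
    exact pow_le_pow_left₀ (Real.exp_pos _).le (one_add_ge_exp hy0) _
  refine le_trans ?_ (mul_le_mul_of_nonneg_left h1 (Real.exp_pos _).le)
  rw [← Real.exp_add]
  apply le_of_eq
  congr 1
  have h3 := phi_del hj
  rw [gg_real]
  have h4 : -(y * phi j) * (DD j - del j) + phi j * DD j * (y - y ^ 2) =
      (phi j * del j ^ 2 / DD j) / 4 := by
    rw [hy]
    field_simp
    ring
  rw [h4, h3]
  ring

lemma phi_le_half_nn {j : ℕ} (hj : 1 ≤ j) : 2 * phi j ≤ nn j := by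
  have h1 := phi_le j
  have h2 := Qd_ge j
  rw [nn_def]
  calc 2 * phi j ≤ 2 * 2 ^ ((j + 30) ^ 2) := by omega
    _ = 2 ^ ((j + 30) ^ 2 + 1) := (pow_succ' 2 ((j + 30) ^ 2)).symm
    _ ≤ _ := by
      apply Nat.pow_le_pow_right (by norm_num)
      have := Qd_pos j
      omega

/-- late burst threshold -/
lemma thr_late {j : ℕ} (hj : 1 ≤ j) :
    Real.exp (8191 * Qd j) ≤
      Real.exp ((del j / (4 * DD j) * phi j) * (DD j + del j)) *
        ((1 - del j / (4 * DD j)) ^ (gg j) *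
          (1 - (del j / (4 * DD j) * phi j) / (nn j : ℝ) ^ 2) ^ (nn j)) := by
  have hD1 : (100 : ℝ) ≤ DD j := by exact_mod_cast DD_ge hj
  have hD : (0 : ℝ) < DD j := by linarith
  have hd := del_pos j
  have hd8 := del_le j
  set y : ℝ := del j / (4 * DD j) with hy
  have hy0 : 0 ≤ y := by positivity
  have hy1 : y ≤ 1 / 2 := by
    rw [hy, div_le_iff₀ (by positivity)]
    linarith
  have hn : (1 : ℝ) ≤ nn j := by exact_mod_cast nn_pos j
  have hphi : (2 : ℝ) * phi j ≤ nn j := by exact_mod_cast phi_le_half_nn hj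
  have hphi0 : (0 : ℝ) ≤ phi j := Nat.cast_nonneg _
  set z : ℝ := (y * phi j) / (nn j : ℝ) ^ 2 with hz
  have hz0 : 0 ≤ z := by positivity
  have hyphi : y * phi j ≤ nn j / 4 := by nlinarith
  have hz1 : z * nn j ≤ 1 / 4 := by
    rw [hz, div_mul_eq_mul_div, div_le_iff₀ (by positivity)]
    nlinarith
  have hz2 : z ≤ 1 / 4 := by nlinarith
  have h1 : Real.exp ((gg j : ℝ) * (-y - 2 * y ^ 2)) ≤ (1 - y) ^ (gg j) := by
    rw [Real.exp_nat_mul]
    exact pow_le_pow_left₀ (Real.exp_pos _).le (one_sub_ge_exp hy0 hy1) _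
  have h2 : Real.exp ((nn j : ℝ) * (-z - 2 * z ^ 2)) ≤ (1 - z) ^ (nn j) := by
    rw [Real.exp_nat_mul]
    exact pow_le_pow_left₀ (Real.exp_pos _).le (one_sub_ge_exp hz0 (by linarith)) _
  refine le_trans ?_ (mul_le_mul_of_nonneg_left (mul_le_mul h1 h2 (Real.exp_pos _).le
    (pow_nonneg (by linarith) _)) (Real.exp_pos _).le)
  rw [← Real.exp_add, ← Real.exp_add]
  apply Real.exp_le_exp.2
  have h3 := phi_del hj
  rw [gg_real]
  have h4 : (y * phi j) * (DD j + del j) + (phi j * DD j * (-y - 2 * y ^ 2)) =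
      (phi j * del j ^ 2 / DD j) / 8 := by
    rw [hy]
    field_simp
    ring
  have h5 : (nn j : ℝ) * (-z - 2 * z ^ 2) ≥ -1 := by nlinarith
  have hQ : (1 : ℝ) ≤ Qd j := by exact_mod_cast Qd_pos j
  rw [← add_assoc, h4, h3]
  linarith

/-! ### bad events -/

/-- some vertex of type `j` and index `≤ κ_j n_j` ignites early -/
def BadC (j : ℕ) : Set Pth :=
  {x | x.1 0 = 1 ∧ ∃ s, s ≤ kap j * nn j ∧ x.1 s = j ∧ ∃ t, s ≤ t ∧ gg j ≤ dg x.2 t s ∧
    AA FF x t - AA FF x s < DD j - del j}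

/-- some vertex of type `j` and index `≤ n_{par j}` has not completed its burst at age `D+δ` -/
def BadL (j : ℕ) : Set Pth :=
  {x | x.1 0 = 1 ∧ ∃ s, s ≤ nn (par j) ∧ x.1 s = j ∧ ∃ t, s ≤ t ∧ dg x.2 t s < gg j + nn j ∧
    DD j + del j ≤ AA FF x t - AA FF x s}

lemma dprod_mono_ge {β : ℝ} (hβ : 0 ≤ β) {j d d' : ℕ} (h : d ≤ d') :
    dprod FF β d j ≤ dprod FF β d' j := by
  unfold dprod
  rw [← Finset.prod_sdiff (Finset.range_subset_range.2 h)]
  have h1 : (1 : ℝ) ≤ ∏ k ∈ Finset.range d' \ Finset.range d, (1 + β / FF k j) := by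
    have h2 : ∀ k ∈ Finset.range d' \ Finset.range d, (1 : ℝ) ≤ 1 + β / FF k j := by
      intro k _
      have := FF_ge k j
      have : 0 ≤ β / FF k j := div_nonneg hβ (by linarith)
      linarith
    calc (1 : ℝ) = ∏ k ∈ Finset.range d' \ Finset.range d, (1 : ℝ) := by simp
      _ ≤ _ := Finset.prod_le_prod (fun _ _ => zero_le_one) h2
  have h0 : 0 ≤ ∏ k ∈ Finset.range d, (1 + β / FF k j) := by
    apply Finset.prod_nonneg
    intro k _
    have := FF_ge k j
    have : 0 ≤ β / FF k j := div_nonneg hβ (by linarith)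
    linarith
  nlinarith

lemma dprod_gg {β : ℝ} {j : ℕ} (hj : 1 ≤ j) : dprod FF β (gg j) j = (1 + β / phi j) ^ (gg j) := by
  unfold dprod
  rw [Finset.prod_congr rfl (fun k hk => by
    rw [FF_pre hj (Finset.mem_range.1 hk)]), Finset.prod_const, Finset.card_range]

lemma dprod_full {β : ℝ} {j : ℕ} (hj : 1 ≤ j) : dprod FF β (gg j + nn j) j =
    (1 + β / phi j) ^ (gg j) * (1 + β / (nn j : ℝ) ^ 2) ^ (nn j) := by
  have h := dprod_gg (β := β) hj
  unfold dprod at h ⊢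
  rw [Finset.prod_range_add, h]
  congr 1
  rw [Finset.prod_congr rfl (fun k hk => by
    rw [FF_burst hj (by omega) (by have := Finset.mem_range.1 hk; omega)]), Finset.prod_const,
    Finset.card_range]

theorem badC_one {Q : Measure Pth} (hQ : IsLaw FF pe Q) {j : ℕ} (hj : 1 ≤ j) (s : ℕ) :
    ENNReal.ofReal (Real.exp (16384 * Qd j)) *
    Q {x | x.1 0 = 1 ∧ x.1 s = j ∧ ∃ t, s ≤ t ∧ gg j ≤ dg x.2 t s ∧
    AA FF x t - AA FF x s < DD j - del j} ≤ pe 1 := by
  have hD : (0 : ℝ) < DD j := by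
    have := DD_ge hj
    exact_mod_cast (by omega : 0 < DD j)
  have hd := del_pos j
  have hphi : (0 : ℝ) < phi j := by exact_mod_cast phi_pos hj
  set y : ℝ := del j / (2 * DD j) with hy
  have hy0 : 0 < y := by positivity
  set β : ℝ := y * phi j with hβ
  have hβ0 : 0 < β := by positivity
  refine le_trans ?_ (vs_bound FF_ge tsum_pe hQ β s j (fun _ => True) (fun _ _ => trivial)
    (fun d _ => by
      have := FF_ge d j
      have : 0 ≤ β / FF d j := div_nonneg hβ0.le (by linarith)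
      linarith) (ENNReal.ofReal (Real.exp (16384 * Qd j))))
  gcongr
  rintro ⟨h0, h1, t, h2, h3, h4⟩
  refine ⟨t, h2, ?_⟩
  unfold VsE
  rw [if_pos ⟨h0, h1, trivial⟩]
  apply ENNReal.ofReal_le_ofReal
  refine (thr_early hj).trans ?_
  unfold Vs
  have h5 : (1 + y) ^ gg j ≤ dprod FF β (dg x.2 t s) j := by
    refine le_trans (le_of_eq ?_) (dprod_mono_ge hβ0.le h3)
    rw [dprod_gg hj]
    congr 2
    rw [hβ]
    field_simp
  apply mul_le_mul _ h5 (by positivity) (by positivity)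
  apply Real.exp_le_exp.2
  nlinarith

theorem badL_one {Q : Measure Pth} (hQ : IsLaw FF pe Q) {j : ℕ} (hj : 1 ≤ j) (s : ℕ) :
    ENNReal.ofReal (Real.exp (8191 * Qd j)) *
    Q {x | x.1 0 = 1 ∧ x.1 s = j ∧ ∃ t, s ≤ t ∧ dg x.2 t s < gg j + nn j ∧
    DD j + del j ≤ AA FF x t - AA FF x s} ≤ pe 1 := by
  have hD : (0 : ℝ) < DD j := by
    have := DD_ge hj
    exact_mod_cast (by omega : 0 < DD j)
  have hD1 : (100 : ℝ) ≤ DD j := by exact_mod_cast DD_ge hj
  have hd := del_pos j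
  have hd8 := del_le j
  have hphi : (0 : ℝ) < phi j := by exact_mod_cast phi_pos hj
  have hphin : (2 : ℝ) * phi j ≤ nn j := by exact_mod_cast phi_le_half_nn hj
  have hn : (1 : ℝ) ≤ nn j := by exact_mod_cast nn_pos j
  set y : ℝ := del j / (4 * DD j) with hy
  have hy0 : 0 < y := by positivity
  have hy1 : y ≤ 1 / 2 := by
    rw [hy, div_le_iff₀ (by positivity)]
    linarith
  set β : ℝ := y * phi j with hβ
  have hβ0 : 0 < β := by positivity
  have hβphi : β ≤ phi j / 2 := by rw [hβ]; nlinarith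
  have hfac : ∀ d, d < gg j + nn j → 0 ≤ -β / FF d j + 1 ∧ -β / FF d j + 1 ≤ 1 := by
    intro d hd
    have hF1 := FF_ge d j
    have h1 : β / FF d j ≤ 1 := by
      rw [div_le_one (by linarith)]
      by_cases h : d < gg j
      · rw [FF_pre hj h]; linarith
      · rw [FF_burst hj (by omega) hd]
        nlinarith
    have h2 : 0 ≤ β / FF d j := div_nonneg hβ0.le (by linarith)
    have h3 : -β / FF d j = -(β / FF d j) := by ring
    rw [h3]
    constructor <;> linarith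
  refine le_trans ?_ (vs_bound FF_ge tsum_pe hQ (-β) s j (fun d => d < gg j + nn j)
    (fun d hd => by omega)
    (fun d hd => by have := (hfac d hd).1; linarith)
    (ENNReal.ofReal (Real.exp (8191 * Qd j))))
  gcongr
  rintro ⟨h0, h1, t, h2, h3, h4⟩
  refine ⟨t, h2, ?_⟩
  unfold VsE
  rw [if_pos ⟨h0, h1, h3⟩]
  apply ENNReal.ofReal_le_ofReal
  refine (thr_late hj).trans ?_
  unfold Vs
  have h5 : dprod FF (-β) (gg j + nn j) j ≤ dprod FF (-β) (dg x.2 t s) j := by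
    unfold dprod
    rw [← Finset.prod_sdiff (Finset.range_subset_range.2 h3.le)]
    have h6 : ∏ k ∈ Finset.range (gg j + nn j) \ Finset.range (dg x.2 t s), (1 + -β / FF k j) ≤ 1 := by
      apply Finset.prod_le_one
      · intro k hk
        have := (hfac k (by have := Finset.mem_range.1 (Finset.mem_sdiff.1 hk).1; omega)).1
        linarith
      · intro k hk
        have := (hfac k (by have := Finset.mem_range.1 (Finset.mem_sdiff.1 hk).1; omega)).2
        linarith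
    have h7 : 0 ≤ ∏ k ∈ Finset.range (dg x.2 t s), (1 + -β / FF k j) := by
      apply Finset.prod_nonneg
      intro k hk
      have := (hfac k (by have := Finset.mem_range.1 hk; omega)).1
      linarith
    nlinarith
  rw [dprod_full hj] at h5
  have e1 : 1 + -β / phi j = 1 - y := by
    rw [hβ]; field_simp; ring
  have e2 : 1 + -β / (nn j : ℝ) ^ 2 = 1 - y * phi j / (nn j : ℝ) ^ 2 := by
    rw [hβ]; ring
  rw [e1, e2] at h5
  have hz1 : y * phi j / (nn j : ℝ) ^ 2 ≤ 1 := by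
    rw [div_le_one (by positivity)]
    nlinarith
  apply mul_le_mul _ h5 (mul_nonneg (pow_nonneg (by linarith) _) (pow_nonneg (by linarith) _))
    (Real.exp_pos _).le
  apply Real.exp_le_exp.2
  rw [← hβ]
  nlinarith

lemma exp_ge_two_pow (k : ℕ) : (2 : ℝ) ^ k ≤ Real.exp k := by
  have h1 : (2 : ℝ) ≤ Real.exp 1 := by
    have := Real.add_one_le_exp (1 : ℝ)
    linarith
  calc (2 : ℝ) ^ k ≤ (Real.exp 1) ^ k := pow_le_pow_left₀ (by norm_num) h1 k
    _ = Real.exp k := by rw [← Real.exp_nat_mul]; simp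

/-- from a weighted bound to a bound on the measure -/
lemma meas_le_of_mul {q c : ℝ≥0∞} {a ε : ℝ} (ha : 0 < a) (h : ENNReal.ofReal a * q ≤ c)
    (hε : 1 ≤ ε * a) : q ≤ c * ENNReal.ofReal ε := by
  have hε0 : 0 ≤ ε := by
    by_contra hneg
    push Not at hneg
    nlinarith
  calc q = 1 * q := (one_mul q).symm
    _ ≤ ENNReal.ofReal (ε * a) * q := by
      gcongr
      rw [← ENNReal.ofReal_one]
      exact ENNReal.ofReal_le_ofReal hε
    _ = ENNReal.ofReal ε * (ENNReal.ofReal a * q) := by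
      rw [ENNReal.ofReal_mul hε0, mul_assoc]
    _ ≤ ENNReal.ofReal ε * c := by gcongr
    _ = _ := mul_comm _ _

lemma Qd_ge_add (j : ℕ) : 2 * (j + 30) ≤ Qd j := by
  have := Qd_ge j
  nlinarith

lemma union_bound {Q : Measure Pth} {c : ℝ≥0∞} {j N : ℕ} (E : ℕ → Set Pth)
    (hN : N + 1 ≤ 2 ^ (6 * Qd j))
    (hE : ∀ s, ENNReal.ofReal (Real.exp (8191 * Qd j)) * Q (E s) ≤ c) :
    Q (⋃ s ∈ Finset.range (N + 1), E s) ≤ c * ENNReal.ofReal ((1 / 2 : ℝ) ^ (j + 20)) := by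
  have h1 : ∀ s, Q (E s) ≤ c * ENNReal.ofReal ((1 / 2 : ℝ) ^ (8191 * Qd j)) := by
    intro s
    apply meas_le_of_mul (Real.exp_pos _) (hE s)
    have h2 := exp_ge_two_pow (8191 * Qd j)
    push_cast at h2
    calc (1 : ℝ) = (1 / 2 : ℝ) ^ (8191 * Qd j) * 2 ^ (8191 * Qd j) := by
          rw [← mul_pow]; norm_num
      _ ≤ _ := by gcongr
  calc Q (⋃ s ∈ Finset.range (N + 1), E s) ≤ ∑ s ∈ Finset.range (N + 1), Q (E s) :=
        measure_biUnion_finset_le _ _
    _ ≤ ∑ s ∈ Finset.range (N + 1), c * ENNReal.ofReal ((1 / 2 : ℝ) ^ (8191 * Qd j)) :=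
        Finset.sum_le_sum (fun s _ => h1 s)
    _ = c * (((N + 1 : ℕ) : ℝ≥0∞) * ENNReal.ofReal ((1 / 2 : ℝ) ^ (8191 * Qd j))) := by
        rw [Finset.sum_const, Finset.card_range, nsmul_eq_mul]
        ring
    _ ≤ c * ENNReal.ofReal ((1 / 2 : ℝ) ^ (j + 20)) := by
        gcongr
        rw [← ENNReal.ofReal_natCast, ← ENNReal.ofReal_mul (Nat.cast_nonneg _)]
        apply ENNReal.ofReal_le_ofReal
        have h3 : ((N + 1 : ℕ) : ℝ) ≤ 2 ^ (6 * Qd j) := by exact_mod_cast hN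
        have h4 := Qd_ge_add j
        calc ((N + 1 : ℕ) : ℝ) * (1 / 2 : ℝ) ^ (8191 * Qd j)
            ≤ 2 ^ (6 * Qd j) * (1 / 2 : ℝ) ^ (6 * Qd j + 8185 * Qd j) := by
              rw [show 6 * Qd j + 8185 * Qd j = 8191 * Qd j by ring]
              gcongr
          _ = (1 / 2 : ℝ) ^ (8185 * Qd j) := by
              rw [pow_add, ← mul_assoc, ← mul_pow]
              norm_num
          _ ≤ _ := pow_le_pow_of_le_one (by norm_num) (by norm_num) (by omega)

lemma kap_nn_le (j : ℕ) : kap j * nn j + 1 ≤ 2 ^ (6 * Qd j) := by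
  have h := Qd_ge_add j
  rw [kap_def, nn_def, ← pow_add]
  calc 2 ^ (j + 20 + 4 * Qd j) + 1 ≤ 2 ^ (j + 20 + 4 * Qd j) + 2 ^ (j + 20 + 4 * Qd j) := by
        have : 1 ≤ 2 ^ (j + 20 + 4 * Qd j) := Nat.one_le_two_pow
        omega
    _ = 2 ^ (j + 20 + 4 * Qd j + 1) := by rw [pow_succ]; omega
    _ ≤ _ := Nat.pow_le_pow_right (by norm_num) (by omega)

theorem badC_le {Q : Measure Pth} (hQ : IsLaw FF pe Q) {j : ℕ} (hj : 1 ≤ j) :
    Q (BadC j) ≤ pe 1 * ENNReal.ofReal ((1 / 2 : ℝ) ^ (j + 20)) := by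
  refine le_trans (measure_mono ?_) (union_bound (N := kap j * nn j)
    (fun s => {x : Pth | x.1 0 = 1 ∧ x.1 s = j ∧ ∃ t, s ≤ t ∧ gg j ≤ dg x.2 t s ∧
    AA FF x t - AA FF x s < DD j - del j}) (kap_nn_le j) (fun s => ?_))
  · rintro x ⟨h0, s, hs, h1, h2⟩
    simp only [Set.mem_iUnion]
    exact ⟨s, Finset.mem_range.2 (by omega), h0, h1, h2⟩
  · refine le_trans ?_ (badC_one hQ hj s)
    gcongr
    have : (0 : ℝ) ≤ Qd j := Nat.cast_nonneg _
    linarith

theorem badL_le {Q : Measure Pth} (hQ : IsLaw FF pe Q) {j : ℕ} (hj : 1 ≤ j) :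
    Q (BadL j) ≤ pe 1 * ENNReal.ofReal ((1 / 2 : ℝ) ^ (j + 20)) := by
  refine le_trans (measure_mono ?_) (union_bound (N := nn (par j))
    (fun s => {x : Pth | x.1 0 = 1 ∧ x.1 s = j ∧ ∃ t, s ≤ t ∧ dg x.2 t s < gg j + nn j ∧
    DD j + del j ≤ AA FF x t - AA FF x s}) ?_ (fun s => badL_one hQ hj s))
  · rintro x ⟨h0, s, hs, h1, h2⟩
    simp only [Set.mem_iUnion]
    exact ⟨s, Finset.mem_range.2 (by omega), h0, h1, h2⟩
  · refine le_trans ?_ (kap_nn_le j)
    have h1 := nn_mono (par_lt hj).le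
    have h2 := kap_pos j
    have h3 : nn j ≤ kap j * nn j := Nat.le_mul_of_pos_left _ h2
    omega

end Pool.Agent.Helper70.Fr
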