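import Pool.Agent.Helper70.Fr4

/-!
# Population bound before the first ignition of a type `≥ l`
-/

open MeasureTheory Filter Topology
open scoped ENNReal NNReal

namespace Pool.Agent.Helper70.Fr

/-- validity up to time `t` -/
def Val (t : ℕ) (x : Pth) : Prop := ∀ s < t, x.2 s ≤ s

lemma Val.congr {t : ℕ} {x y : Pth} (h : Agr t x y) : Val t x ↔ Val t y := by
  unfold Val
  constructor
  · intro h1 s hs; rw [← h.2 s hs]; exact h1 s hs
  · intro h1 s hs; rw [h.2 s hs]; exact h1 s hs

lemma Val.of_upd {t v w : ℕ} {x : Pth} (h : Val (t + 1) (upd x t v w)) : Val t x := by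
  rw [← Val.congr (agr_upd x t v w)]
  intro s hs
  exact h s (by omega)

lemma dg_new {t : ℕ} {x : Pth} (h : Val t x) {u : ℕ} (hu : t ≤ u) : dg x.2 t u = 0 := by
  unfold dg
  rw [Finset.card_eq_zero, Finset.filter_eq_empty_iff]
  intro r hr h'
  have h2 := Finset.mem_range.1 hr
  have h1 := h r h2
  omega

/-- general potential step -/
lemma pot_step {F : ℕ → ℕ → ℝ} {p : ℕ → ℝ≥0∞} (hF : ∀ i j, 1 ≤ F i j) (hp : ∑' w, p w = 1)
    {V : Pth → ℝ≥0∞} {x : Pth} {t : ℕ} (u um up b : ℕ → ℝ) (bbar cst c : ℝ) (hcst : 0 ≤ cst)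
    (hum : ∀ r ≤ t, 0 ≤ um r) (hup : ∀ r ≤ t, 0 ≤ up r) (hbbar : 0 ≤ bbar)
    (hb : ∑' w, p w * ENNReal.ofReal (b w) ≤ ENNReal.ofReal bbar)
    (hV : ∀ v ≤ t, ∀ w, V (upd x t v w) ≤
      ENNReal.ofReal (cst * (∑ r ∈ Finset.range (t + 1), um r + (up v - um v) + b w)))
    (hstep : ∀ r ≤ t, um r + F (dg x.2 t r) (x.1 r) / ZZ F x t * (up r - um r + bbar) ≤
      u r * (1 + c / ZZ F x t)) :
    KK F p t V x ≤ ENNReal.ofReal (cst * ((∑ r ∈ Finset.range (t + 1), u r) *
      (1 + c / ZZ F x t))) := by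
  apply KK_le hF hp (fun v => cst * (∑ r ∈ Finset.range (t + 1), um r + (up v - um v)))
    (fun w => cst * b w) (cst * bbar)
  · intro v hv
    apply mul_nonneg hcst
    have h1 : um v ≤ ∑ r ∈ Finset.range (t + 1), um r :=
      Finset.single_le_sum (fun r hr => hum r (by have := Finset.mem_range.1 hr; omega))
        (Finset.mem_range.2 (by omega))
    have := hup v hv
    linarith
  · positivity
  · simp_rw [ENNReal.ofReal_mul hcst]
    calc ∑' w, p w * (ENNReal.ofReal cst * ENNReal.ofReal (b w))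
        = ENNReal.ofReal cst * ∑' w, p w * ENNReal.ofReal (b w) := by
          rw [← ENNReal.tsum_mul_left]
          apply tsum_congr
          intro w
          ring
      _ ≤ _ := by gcongr
  · intro v hv w
    refine (hV v hv w).trans (le_of_eq ?_)
    congr 1
    ring
  · have h1 : ∑ v ∈ Finset.range (t + 1), F (dg x.2 t v) (x.1 v) / ZZ F x t *
        (cst * (∑ r ∈ Finset.range (t + 1), um r + (up v - um v))) + cst * bbar =
        cst * (∑ v ∈ Finset.range (t + 1),
          (um v + F (dg x.2 t v) (x.1 v) / ZZ F x t * (up v - um v + bbar))) := by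
      have h2 : ∀ v ∈ Finset.range (t + 1), F (dg x.2 t v) (x.1 v) / ZZ F x t *
        (cst * (∑ r ∈ Finset.range (t + 1), um r + (up v - um v))) =
        (cst * ∑ r ∈ Finset.range (t + 1), um r) * (F (dg x.2 t v) (x.1 v) / ZZ F x t) +
         cst * (F (dg x.2 t v) (x.1 v) / ZZ F x t * (up v - um v)) := by
        intro v _; ring
      have h3 : ∀ v ∈ Finset.range (t + 1),
          (um v + F (dg x.2 t v) (x.1 v) / ZZ F x t * (up v - um v + bbar)) =
          um v + F (dg x.2 t v) (x.1 v) / ZZ F x t * (up v - um v) +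
            bbar * (F (dg x.2 t v) (x.1 v) / ZZ F x t) := by
        intro v _; ring
      rw [Finset.sum_congr rfl h2, Finset.sum_congr rfl h3, Finset.sum_add_distrib,
        Finset.sum_add_distrib, Finset.sum_add_distrib, ← Finset.mul_sum, ← Finset.mul_sum,
        ← Finset.mul_sum, sum_div_ZZ hF]
      ring
    rw [h1]
    apply mul_le_mul_of_nonneg_left _ hcst
    rw [Finset.sum_mul]
    apply Finset.sum_le_sum
    intro r hr
    exact hstep r (by have := Finset.mem_range.1 hr; omega)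

/-- change of an additive functional under an update -/
lemma sum_upd (w : ℕ → ℕ → ℝ) {x : Pth} {t v k : ℕ} (hx : Val t x) (hv : v ≤ t) :
    ∑ r ∈ Finset.range (t + 2), w (dg (upd x t v k).2 (t + 1) r) ((upd x t v k).1 r) =
      ∑ r ∈ Finset.range (t + 1), w (dg x.2 t r) (x.1 r) +
        (w (dg x.2 t v + 1) (x.1 v) - w (dg x.2 t v) (x.1 v)) + w 0 k := by
  rw [Finset.sum_range_succ]
  have h1 : dg (upd x t v k).2 (t + 1) (t + 1) = 0 := by
    rw [dg_upd_succ, dg_new hx (by omega)]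
    have : v ≠ t + 1 := by omega
    simp [this]
  rw [h1, upd_fst_self]
  congr 1
  have h2 : ∀ r ∈ Finset.range (t + 1), w (dg (upd x t v k).2 (t + 1) r) ((upd x t v k).1 r) =
      w (dg x.2 t r) (x.1 r) +
        (if r = v then (w (dg x.2 t v + 1) (x.1 v) - w (dg x.2 t v) (x.1 v)) else 0) := by
    intro r hr
    rw [dg_upd_succ, upd_fst_of_le x (by have := Finset.mem_range.1 hr; omega)]
    by_cases h : r = v
    · subst h; simp
    · have h' : v ≠ r := fun h' => h h'.symm
      simp [h, h']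
  rw [Finset.sum_congr rfl h2, Finset.sum_add_distrib, Finset.sum_ite_eq' _ v,
    if_pos (Finset.mem_range.2 (by omega))]

/-! ### the potential -/

/-- growth rate bound -/
def lam (l : ℕ) : ℕ := if l ≤ 1 then 4 else 4 * Qd (l - 1)

lemma lam_ge (l : ℕ) : 4 ≤ lam l := by
  unfold lam
  split_ifs
  · exact le_rfl
  · have := Qd_pos (l - 1); omega

lemma lam_ge' {j l : ℕ} (hj : 1 ≤ j) (hjl : j < l) : 4 * Qd j ≤ lam l := by
  unfold lam
  rw [if_neg (by omega)]
  have := Qd_mono (show j ≤ l - 1 by omega)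
  omega

/-- the potential of a vertex of degree `i` and type `j` -/
noncomputable def w2 (l i j : ℕ) : ℝ :=
  if j = 0 then 2
  else if j < l then
    (if i < gg j then 2 + phi j + 3 * nn j * ((1 + (lam l : ℝ) / phi j) ^ (gg j - i))⁻¹
     else 2 + 3 * ((gg j + nn j - i : ℕ) : ℝ))
  else 2 + phi j

lemma w2_ge (l i j : ℕ) : 2 ≤ w2 l i j := by
  unfold w2
  have h1 : (0 : ℝ) ≤ phi j := Nat.cast_nonneg _
  split_ifs
  · exact le_rfl
  · have : 0 ≤ 3 * (nn j : ℝ) * ((1 + (lam l : ℝ) / phi j) ^ (gg j - i))⁻¹ := by positivity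
    linarith
  · have : (0 : ℝ) ≤ 3 * ((gg j + nn j - i : ℕ) : ℝ) := by positivity
    linarith
  · linarith

lemma rho_pow_ge {j l : ℕ} (hj : 1 ≤ j) (hjl : j < l) :
    3 * (nn j : ℝ) ≤ (1 + (lam l : ℝ) / phi j) ^ (gg j) := by
  have hphi : (0 : ℝ) < phi j := by exact_mod_cast phi_pos hj
  have hphi4 : (4 : ℝ) * Qd j ≤ phi j := by exact_mod_cast phi_ge hj
  have hlam4 : (4 : ℝ) * Qd j ≤ lam l := by exact_mod_cast lam_ge' hj hjl
  have hD1 : (100 : ℝ) ≤ DD j := by exact_mod_cast DD_ge hj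
  have hQ : (1 : ℝ) ≤ Qd j := by exact_mod_cast Qd_pos j
  set y : ℝ := 4 * Qd j / phi j with hy
  have hy0 : 0 ≤ y := by positivity
  have hy1 : y ≤ 1 := by rw [hy, div_le_one hphi]; exact hphi4
  have h1 : 1 + y ≤ 1 + (lam l : ℝ) / phi j := by
    have : y ≤ (lam l : ℝ) / phi j := by rw [hy]; gcongr
    linarith
  have h2 : Real.exp (y / 2) ≤ 1 + y := by
    have h3 := Real.add_one_le_exp (-(y / (1 + y)))
    have h0 : (0 : ℝ) < 1 + y := by linarith
    have h4 : -(y / (1 + y)) + 1 = 1 / (1 + y) := by field_simp; ring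
    rw [h4, Real.exp_neg] at h3
    have h5 := inv_anti₀ (by positivity) h3
    rw [inv_inv, one_div, inv_inv] at h5
    refine le_trans (Real.exp_le_exp.2 ?_) h5
    rw [div_le_div_iff₀ (by norm_num) h0]
    nlinarith
  have h6 : Real.exp ((gg j : ℝ) * (y / 2)) ≤ (1 + (lam l : ℝ) / phi j) ^ (gg j) := by
    rw [Real.exp_nat_mul]
    exact pow_le_pow_left₀ (Real.exp_pos _).le (h2.trans h1) _
  refine le_trans ?_ h6
  have h7 : (gg j : ℝ) * (y / 2) = 2 * DD j * Qd j := by
    rw [gg_real, hy]; field_simp; ring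
  rw [h7]
  have h8 : (nn j : ℝ) = 2 ^ (4 * Qd j) := by rw [nn_def]; push_cast; rfl
  have h9 := exp_ge_two_pow (4 * Qd j + 2)
  calc 3 * (nn j : ℝ) ≤ 2 ^ (4 * Qd j + 2) := by
        rw [h8, pow_add]
        have : (0 : ℝ) < 2 ^ (4 * Qd j) := by positivity
        linarith
    _ ≤ Real.exp ((4 * Qd j + 2 : ℕ) : ℝ) := h9
    _ ≤ _ := by
      apply Real.exp_le_exp.2
      push_cast
      nlinarith

lemma w2_zero_le {l m : ℕ} (hm : 1 ≤ m) : w2 l 0 m ≤ 2 + (phi m + 3) := by
  unfold w2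
  have h1 : (0 : ℝ) ≤ phi m := Nat.cast_nonneg _
  have hg := gg_pos hm
  split_ifs with h2 h3
  · linarith
  · have h4 := rho_pow_ge hm h3
    have h5 : (0 : ℝ) < (1 + (lam l : ℝ) / phi m) ^ (gg m) := by positivity
    have h6 : 3 * (nn m : ℝ) * ((1 + (lam l : ℝ) / phi m) ^ (gg m - 0))⁻¹ ≤ 1 := by
      rw [Nat.sub_zero, ← div_eq_mul_inv, div_le_one h5]
      exact h4
    linarith
  · linarith

/-- one-vertex inequality -/
lemma w2_step {l i j : ℕ} (hl : 1 ≤ l) (h : l ≤ j → i < gg j) :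
    FF i j * (w2 l (i + 1) j - w2 l i j + 5 / 2) ≤ lam l * w2 l i j := by
  have hlam : (4 : ℝ) ≤ lam l := by exact_mod_cast lam_ge l
  rcases Nat.eq_zero_or_pos j with hj | hj
  · subst hj
    rw [FF_type_zero]
    simp only [w2, if_true]
    linarith
  have hphi : (0 : ℝ) < phi j := by exact_mod_cast phi_pos hj
  have hj0 : j ≠ 0 := by omega
  have hn : (0 : ℝ) < nn j := by exact_mod_cast nn_pos j
  by_cases hjl : j < l
  · by_cases hi : i < gg j
    · rw [FF_pre hj hi]
      set ρ : ℝ := 1 + (lam l : ℝ) / phi j with hρ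
      have hρ1 : 0 < ρ := by positivity
      set X : ℝ := 3 * nn j * (ρ ^ (gg j - i))⁻¹ with hX
      have hX0 : 0 ≤ X := by positivity
      have e1 : w2 l i j = 2 + phi j + X := by
        simp only [w2, hj0, if_false, hjl, if_true, hi]
        rfl
      by_cases hi2 : i + 1 < gg j
      · have e2 : w2 l (i + 1) j = 2 + phi j + X * ρ := by
          simp only [w2, hj0, if_false, hjl, if_true, hi2]
          rw [hX, ← hρ]
          have : gg j - i = (gg j - (i + 1)) + 1 := by omega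
          rw [this, pow_succ, mul_inv]
          field_simp
        rw [e1, e2]
        have e3 : (phi j : ℝ) * (2 + phi j + X * ρ - (2 + phi j + X) + 5 / 2) =
            lam l * X + phi j * (5 / 2) := by
          rw [hρ]; field_simp; ring
        rw [e3]
        nlinarith
      · have hgi : gg j = i + 1 := by omega
        have e2 : w2 l (i + 1) j = 2 + X * ρ := by
          simp only [w2, hj0, if_false, hjl, if_true, hi2]
          rw [hX]
          have : gg j - i = 1 := by omega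
          rw [this, pow_one, mul_assoc, inv_mul_cancel₀ hρ1.ne', mul_one]
          have : gg j + nn j - (i + 1) = nn j := by omega
          rw [this]
        rw [e1, e2]
        have e3 : (phi j : ℝ) * (2 + X * ρ - (2 + phi j + X) + 5 / 2) =
            lam l * X - phi j * phi j + phi j * (5 / 2) := by
          rw [hρ]; field_simp; ring
        rw [e3]
        nlinarith
    · push Not at hi
      by_cases hi2 : i < gg j + nn j
      · rw [FF_burst hj hi hi2]
        have e1 : w2 l i j = 2 + 3 * ((gg j + nn j - i : ℕ) : ℝ) := by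
          rw [w2, if_neg hj0, if_pos hjl, if_neg (by omega)]
        have e2 : w2 l (i + 1) j = 2 + 3 * ((gg j + nn j - i : ℕ) : ℝ) - 3 := by
          rw [w2, if_neg hj0, if_pos hjl, if_neg (by omega)]
          have : gg j + nn j - i = (gg j + nn j - (i + 1)) + 1 := by omega
          rw [this]; push_cast; ring
        rw [e2, e1]
        have h5 : (nn j : ℝ) ^ 2 * (2 + 3 * ((gg j + nn j - i : ℕ) : ℝ) - 3 -
            (2 + 3 * ((gg j + nn j - i : ℕ) : ℝ)) + 5 / 2) ≤ 0 := by nlinarith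
        have h6 : 0 ≤ (lam l : ℝ) * (2 + 3 * ((gg j + nn j - i : ℕ) : ℝ)) := by positivity
        linarith
      · push Not at hi2
        rw [FF_post hj hi2]
        have e1 : w2 l i j = 2 := by
          rw [w2, if_neg hj0, if_pos hjl, if_neg (by omega)]
          have : gg j + nn j - i = 0 := by omega
          rw [this]; simp
        have e2 : w2 l (i + 1) j = 2 := by
          rw [w2, if_neg hj0, if_pos hjl, if_neg (by omega)]
          have : gg j + nn j - (i + 1) = 0 := by omega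
          rw [this]; simp
        rw [e1, e2]
        linarith
  · have hi := h (by omega)
    rw [FF_pre hj hi]
    have e1 : w2 l i j = 2 + phi j := by simp only [w2, hj0, if_false, hjl]
    have e2 : w2 l (i + 1) j = 2 + phi j := by simp only [w2, hj0, if_false, hjl]
    rw [e1, e2]
    nlinarith

/-- no vertex of type `≥ l` is ignited at time `t`. -/
def Reg0 (l t : ℕ) (x : Pth) : Prop := ∀ v ≤ t, l ≤ x.1 v → dg x.2 t v < gg (x.1 v)

lemma Reg0.congr {l t : ℕ} {x y : Pth} (h : Agr t x y) : Reg0 l t x ↔ Reg0 l t y := by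
  unfold Reg0
  constructor
  · intro h1 v hv
    rw [← h.1 v hv, ← dg_congr h le_rfl]; exact h1 v hv
  · intro h1 v hv
    rw [h.1 v hv, dg_congr h le_rfl]; exact h1 v hv

lemma Reg0.anti {l s t : ℕ} (hst : s ≤ t) {x : Pth} (h : Reg0 l t x) : Reg0 l s x := by
  intro v hv hlv
  exact lt_of_le_of_lt (dg_mono x.2 hst v) (h v (hv.trans hst) hlv)

/-- discount factor -/
noncomputable def disc (c : ℝ) (x : Pth) (a t : ℕ) : ℝ :=
  ∏ s ∈ Finset.Ico a t, (1 + c / ZZ FF x s)⁻¹

lemma disc_congr (c : ℝ) {a t : ℕ} {x y : Pth} (h : Agr t x y) {s : ℕ} (hs : s ≤ t + 1) :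
    disc c x a s = disc c y a s := by
  unfold disc
  apply Finset.prod_congr rfl
  intro r hr
  rw [ZZ_congr FF h (by have := Finset.mem_Ico.1 hr; omega)]

lemma disc_nonneg {c : ℝ} (hc : 0 ≤ c) (x : Pth) (a t : ℕ) : 0 ≤ disc c x a t := by
  unfold disc
  apply Finset.prod_nonneg
  intro r _
  have := ZZ_pos FF_ge x r
  positivity

lemma disc_succ (c : ℝ) (x : Pth) {a t : ℕ} (h : a ≤ t) :
    disc c x a (t + 1) = disc c x a t * (1 + c / ZZ FF x t)⁻¹ := by
  unfold disc
  rw [Finset.prod_Ico_succ_top h]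

lemma disc_ge {c : ℝ} (hc : 0 ≤ c) (x : Pth) {a t : ℕ} (h : a ≤ t) :
    Real.exp (-(c * (AA FF x t - AA FF x a))) ≤ disc c x a t := by
  induction t, h using Nat.le_induction with
  | base => simp [disc]
  | succ t ht ih =>
    rw [disc_succ c x ht, AA_succ]
    have hZ := ZZ_pos FF_ge x t
    have h1 : Real.exp (-(c * (AA FF x t + 1 / ZZ FF x t - AA FF x a))) =
        Real.exp (-(c * (AA FF x t - AA FF x a))) * Real.exp (-(c / ZZ FF x t)) := by
      rw [← Real.exp_add]; congr 1; ring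
    rw [h1]
    apply mul_le_mul ih _ (Real.exp_pos _).le (disc_nonneg hc x a t)
    rw [Real.exp_neg]
    apply inv_anti₀ (by positivity)
    have := Real.add_one_le_exp (c / ZZ FF x t)
    linarith

open Classical in
/-- the supermartingale for the population bound -/
noncomputable def V2 (l t : ℕ) (x : Pth) : ℝ≥0∞ :=
  if x.1 0 = 1 ∧ Val t x ∧ Reg0 l t x then
    ENNReal.ofReal (disc (lam l) x 0 t * ∑ v ∈ Finset.range (t + 1), w2 l (dg x.2 t v) (x.1 v))
  else 0

lemma V2_adp (l t : ℕ) : Adp t (V2 l t) := by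
  intro x y h
  unfold V2
  have h1 : ∑ v ∈ Finset.range (t + 1), w2 l (dg x.2 t v) (x.1 v) =
      ∑ v ∈ Finset.range (t + 1), w2 l (dg y.2 t v) (y.1 v) := by
    apply Finset.sum_congr rfl
    intro v hv
    rw [h.1 v (by have := Finset.mem_range.1 hv; omega), dg_congr h le_rfl]
  rw [h.1 0 (Nat.zero_le _), h1, disc_congr _ h (Nat.le_succ t),
    show Val t x = Val t y from propext (Val.congr h),
    show Reg0 l t x = Reg0 l t y from propext (Reg0.congr h)]

theorem V2_step {l : ℕ} (hl : 1 ≤ l) (t : ℕ) (x : Pth) :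
    KK FF pe t (V2 l (t + 1)) x ≤ V2 l t x := by
  classical
  by_cases hx : x.1 0 = 1 ∧ Val t x ∧ Reg0 l t x
  · obtain ⟨hx0, hxv, hxr⟩ := hx
    have hlam : (0 : ℝ) ≤ lam l := Nat.cast_nonneg _
    have hZ := ZZ_pos FF_ge x t
    have h1 := pot_step FF_ge tsum_pe (V := V2 l (t + 1)) (x := x) (t := t)
      (fun r => w2 l (dg x.2 t r) (x.1 r)) (fun r => w2 l (dg x.2 t r) (x.1 r))
      (fun r => w2 l (dg x.2 t r + 1) (x.1 r)) (fun w => w2 l 0 w) (5 / 2)
      (disc (lam l) x 0 (t + 1)) (lam l) (disc_nonneg hlam x 0 (t + 1))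
      (fun r _ => zero_le_two.trans (w2_ge _ _ _)) (fun r _ => zero_le_two.trans (w2_ge _ _ _))
      (by norm_num)
      (by
        have := tsum_pe_mul_le (fun w => w2 l 0 w) 2 (by norm_num) (by simp [w2])
          (fun m hm => w2_zero_le hm)
        refine this.trans (le_of_eq ?_)
        congr 1
        norm_num)
      (fun v hv w => by
        unfold V2
        split_ifs
        · apply le_of_eq
          congr 1
          rw [disc_congr _ (agr_upd x t v w) (le_refl (t + 1)), sum_upd (w2 l) hxv hv]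
        · exact zero_le)
      (fun r hr => by
        have h2 := w2_step hl (hxr r hr)
        have h3 : FF (dg x.2 t r) (x.1 r) / ZZ FF x t *
          (w2 l (dg x.2 t r + 1) (x.1 r) - w2 l (dg x.2 t r) (x.1 r) + 5 / 2) =
          (FF (dg x.2 t r) (x.1 r) * (w2 l (dg x.2 t r + 1) (x.1 r) -
            w2 l (dg x.2 t r) (x.1 r) + 5 / 2)) / ZZ FF x t := by ring
        rw [h3]
        have h4 : (FF (dg x.2 t r) (x.1 r) * (w2 l (dg x.2 t r + 1) (x.1 r) -
            w2 l (dg x.2 t r) (x.1 r) + 5 / 2)) / ZZ FF x t ≤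
            (lam l * w2 l (dg x.2 t r) (x.1 r)) / ZZ FF x t := by gcongr
        calc w2 l (dg x.2 t r) (x.1 r) + _ ≤ w2 l (dg x.2 t r) (x.1 r) +
              (lam l * w2 l (dg x.2 t r) (x.1 r)) / ZZ FF x t := by gcongr
          _ = _ := by ring)
    refine h1.trans ?_
    unfold V2
    rw [if_pos ⟨hx0, hxv, hxr⟩]
    apply ENNReal.ofReal_le_ofReal
    rw [disc_succ _ x (Nat.zero_le t)]
    have h5 : 0 < 1 + (lam l : ℝ) / ZZ FF x t := by positivity
    apply le_of_eq
    field_simp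
  · have hz : ∀ v ≤ t, ∀ w, V2 l (t + 1) (upd x t v w) ≤ 0 := by
      intro v hv w
      unfold V2
      rw [if_neg]
      rintro ⟨h0, h1, h2⟩
      rw [upd_fst_of_le x (Nat.zero_le _)] at h0
      apply hx
      refine ⟨h0, h1.of_upd, ?_⟩
      rw [← Reg0.congr (agr_upd x t v w)]
      exact h2.anti (Nat.le_succ t)
    exact (KK_const FF_ge tsum_pe 0 hz).trans zero_le

/-- population constant -/
def Kl (l : ℕ) : ℕ := (3 + phi 1) * 2 ^ (l + 20)
lemma Kl_def (l : ℕ) : Kl l = (3 + phi 1) * 2 ^ (l + 20) := rfl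
attribute [irreducible] Kl

/-- the population bound fails before the first ignition of a type `≥ l` -/
def BadP (l : ℕ) : Set Pth :=
  {x | x.1 0 = 1 ∧ ∃ t, Reg0 l t x ∧ Kl l * Real.exp (lam l * AA FF x t) < t + 1}

theorem badP_le {Q : Measure Pth} (hQ : IsLaw FF pe Q) {l : ℕ} (hl : 1 ≤ l) :
    Q (BadP l) ≤ pe 1 * ENNReal.ofReal ((1 / 2 : ℝ) ^ (l + 20)) := by
  classical
  have h1 := ville hQ (V2 l) 0 (V2_adp l) (fun t _ x => V2_step hl t x)
    (ENNReal.ofReal (2 * Kl l))
  have h2 : ∫⁻ x, V2 l 0 x ∂Q ≤ pe 1 * ENNReal.ofReal (5 + phi 1) := by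
    have h3 : ∫⁻ x, V2 l 0 x ∂Q ≤
        ∫⁻ x, ({x : Pth | x.1 0 = 1} : Set Pth).indicator
          (fun _ => ENNReal.ofReal (5 + phi 1)) x ∂Q := by
      apply lintegral_mono
      intro x
      simp only
      unfold V2
      split_ifs with h
      · rw [Set.indicator_of_mem (by exact h.1)]
        apply ENNReal.ofReal_le_ofReal
        simp only [disc, Finset.Ico_self, Finset.prod_empty, one_mul, zero_add,
          Finset.range_one, Finset.sum_singleton, dg_zero, h.1]
        have := w2_zero_le (l := l) (le_refl 1)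
        linarith
      · exact zero_le
    refine h3.trans (le_of_eq ?_)
    rw [lintegral_indicator_const, hQ.init, mul_comm]
    exact measurableSet_eq_fun ((measurable_pi_apply 0).comp measurable_fst) measurable_const
  have hK : (0 : ℝ) < Kl l := by
    rw [Kl_def]; positivity
  have h4 : Q (BadP l) ≤ Q {x | ∃ t, 0 ≤ t ∧ ENNReal.ofReal (2 * Kl l) ≤ V2 l t x} := by
    apply measure_mono_ae
    filter_upwards [hQ.valid] with x hxv
    rintro ⟨h0, t, hr, ht⟩
    refine ⟨t, Nat.zero_le _, ?_⟩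
    unfold V2
    rw [if_pos ⟨h0, fun s _ => hxv s, hr⟩]
    apply ENNReal.ofReal_le_ofReal
    have h5 := disc_ge (c := lam l) (Nat.cast_nonneg _) x (Nat.zero_le t)
    rw [AA_zero, sub_zero] at h5
    have h6 : (2 : ℝ) * (t + 1) ≤ ∑ v ∈ Finset.range (t + 1), w2 l (dg x.2 t v) (x.1 v) := by
      calc (2 : ℝ) * (t + 1) = ∑ v ∈ Finset.range (t + 1), (2 : ℝ) := by
            simp; ring
        _ ≤ _ := Finset.sum_le_sum (fun v _ => w2_ge _ _ _)
    calc 2 * (Kl l : ℝ) = Real.exp (-(lam l * AA FF x t)) *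
          (2 * (Kl l * Real.exp (lam l * AA FF x t))) := by
          rw [Real.exp_neg]
          field_simp
      _ ≤ Real.exp (-(lam l * AA FF x t)) * (2 * (t + 1)) := by gcongr
      _ ≤ _ := mul_le_mul h5 h6 (by positivity) (disc_nonneg (Nat.cast_nonneg _) _ _ _)
  have h7 := (mul_le_mul_right h4 (ENNReal.ofReal (2 * Kl l))).trans (h1.trans h2)
  have h8 := meas_le_of_mul (a := 2 * Kl l) (ε := 1 / (2 * Kl l)) (by positivity) h7
    (by rw [one_div, inv_mul_cancel₀ (by positivity)])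
  refine h8.trans ?_
  rw [mul_assoc, ← ENNReal.ofReal_mul (by positivity)]
  gcongr
  rw [mul_one_div, div_le_iff₀ (by positivity), Kl_def]
  push_cast
  have h9 : (1 / 2 : ℝ) ^ (l + 20) * 2 ^ (l + 20) = 1 := by rw [← mul_pow]; norm_num
  have : (1 / 2 : ℝ) ^ (l + 20) * (2 * ((3 + phi 1) * 2 ^ (l + 20))) =
      2 * (3 + phi 1) * ((1 / 2 : ℝ) ^ (l + 20) * 2 ^ (l + 20)) := by ring
  rw [this, h9]
  have hphi0 : (0 : ℝ) ≤ phi 1 := Nat.cast_nonneg _
  linarith

end Pool.Agent.Helper70.Fr
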