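import Pool.Agent.Helper70.Fr5

/-!
# Population bound in the window after an ignition
-/

open MeasureTheory Filter Topology
open scoped ENNReal NNReal

namespace Pool.Agent.Helper70.Fr

/-- remaining burst picks -/
def rem (i j : ℕ) : ℕ := min (nn j) (gg j + nn j - i)

open Classical in
/-- the discount factor of the burst of an unignited new vertex -/
noncomputable def th (l : ℕ) (old : Prop) (i j : ℕ) (a : ℝ) : ℝ :=
  if old ∨ gg j ≤ i then 1 else (1 / 2 : ℝ) ^ (gg j - i) * Real.exp (phi j * (100 * l + 2 - a))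

open Classical in
/-- potential in the window. `act`: the burst of this vertex is accounted for. -/
noncomputable def w1 (l : ℕ) (old sp : Prop) (i j : ℕ) (a : ℝ) : ℝ :=
  if j = 0 then 1 else if j < l ∨ sp then 1 + phi j + 3 * rem i j * th l (old ∨ sp) i j a
    else 1 + phi j

lemma th_nonneg (l : ℕ) (old : Prop) (i j : ℕ) (a : ℝ) : 0 ≤ th l old i j a := by
  unfold th
  split_ifs <;> positivity

lemma w1_ge (l : ℕ) (old sp : Prop) (i j : ℕ) (a : ℝ) : 1 ≤ w1 l old sp i j a := by
  unfold w1
  have h1 : (0 : ℝ) ≤ phi j := Nat.cast_nonneg _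
  have h2 := th_nonneg l (old ∨ sp) i j a
  split_ifs
  · exact le_rfl
  · have : 0 ≤ 3 * (rem i j : ℝ) * th l (old ∨ sp) i j a := by positivity
    linarith
  · linarith

lemma exp_three_le : Real.exp 3 ≤ 32 := by
  have h := Real.exp_one_lt_d9
  have h1 : Real.exp 3 = Real.exp 1 ^ 3 := by rw [← Real.exp_nat_mul]; norm_num
  rw [h1]
  have h0 := Real.exp_pos 1
  calc Real.exp 1 ^ 3 ≤ (2.7182818286 : ℝ) ^ 3 := pow_le_pow_left₀ h0.le h.le 3
    _ ≤ 32 := by norm_num

/-- newborn potential -/
lemma w1_new {l m : ℕ} (hm : 1 ≤ m) {a : ℝ} (ha : 100 * l - 1 / 2 ≤ a) :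
    w1 l False False 0 m a ≤ 1 + (phi m + 3) := by
  have h1 : (0 : ℝ) ≤ phi m := Nat.cast_nonneg _
  have hg := gg_pos hm
  have hm0 : m ≠ 0 := by omega
  unfold w1
  rw [if_neg hm0]
  split_ifs with h2
  · have hr : rem 0 m = nn m := by unfold rem; omega
    rw [hr]
    unfold th
    rw [if_neg (by simp; omega)]
    have h3 : (nn m : ℝ) * ((1 / 2 : ℝ) ^ (gg m - 0) * Real.exp (phi m * (100 * l + 2 - a))) ≤ 1 := by
      have h4 : Real.exp (phi m * (100 * l + 2 - a)) ≤ 32 ^ (phi m) := by
        calc Real.exp (phi m * (100 * l + 2 - a)) ≤ Real.exp (phi m * 3) := by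
              apply Real.exp_le_exp.2
              apply mul_le_mul_of_nonneg_left _ h1
              linarith
          _ = Real.exp 3 ^ (phi m) := by rw [← Real.exp_nat_mul]
          _ ≤ _ := pow_le_pow_left₀ (Real.exp_pos _).le exp_three_le _
      have h5 : (nn m : ℝ) = 2 ^ (4 * Qd m) := by rw [nn_def]; push_cast; rfl
      have h6 : (2 : ℝ) ^ (4 * Qd m) * 32 ^ (phi m) ≤ 2 ^ (gg m) := by
        have : (32 : ℝ) = 2 ^ 5 := by norm_num
        rw [this, ← pow_mul, ← pow_add]
        apply pow_le_pow_right₀ (by norm_num)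
        have h7 := phi_ge hm
        have h8 := DD_ge hm
        rw [gg_def]
        nlinarith
      rw [h5, Nat.sub_zero]
      calc (2 : ℝ) ^ (4 * Qd m) * ((1 / 2 : ℝ) ^ (gg m) * Real.exp (phi m * (100 * l + 2 - a)))
          ≤ (2 : ℝ) ^ (4 * Qd m) * ((1 / 2 : ℝ) ^ (gg m) * 32 ^ (phi m)) := by gcongr
        _ = ((2 : ℝ) ^ (4 * Qd m) * 32 ^ (phi m)) * (1 / 2 : ℝ) ^ (gg m) := by ring
        _ ≤ 2 ^ (gg m) * (1 / 2 : ℝ) ^ (gg m) := by gcongr
        _ = 1 := by rw [← mul_pow]; norm_num
    nlinarith
  · linarith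

/-- one-vertex inequality in the window -/
lemma w1_step {l i j : ℕ} (old sp : Prop) {a Z : ℝ} (hZ : 0 < Z)
    (ha : a + 1 / Z ≤ 100 * l + 2)
    (h : l ≤ j → ¬ sp → i < gg j) (hsp : sp → gg j ≤ i) :
    w1 l old sp i j (a + 1 / Z) + FF i j / Z * (w1 l old sp (i + 1) j (a + 1 / Z) -
      w1 l old sp i j (a + 1 / Z) + 3 / 2) ≤ w1 l old sp i j a * (1 + 2 / Z) := by
  classical
  have h1Z : 0 < 1 / Z := by positivity
  have e2 : ∀ y : ℝ, y * (1 + 2 / Z) = y + (1 / Z) * (2 * y) := by intro y; ring
  have e3 : FF i j / Z = (1 / Z) * FF i j := by ring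
  rw [e2, e3]
  rcases Nat.eq_zero_or_pos j with hj | hj
  · subst hj
    rw [FF_type_zero]
    simp only [w1, if_true]
    nlinarith
  have hphi : (0 : ℝ) < phi j := by exact_mod_cast phi_pos hj
  have hj0 : j ≠ 0 := by omega
  have hn : (1 : ℝ) ≤ nn j := by exact_mod_cast nn_pos j
  by_cases hact : j < l ∨ sp
  · by_cases hi : gg j ≤ i
    · -- ignited
      have hth : ∀ b, th l (old ∨ sp) i j b = 1 := by
        intro b; unfold th; rw [if_pos (Or.inr hi)]
      have hth' : ∀ b, th l (old ∨ sp) (i + 1) j b = 1 := by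
        intro b; unfold th; rw [if_pos (Or.inr (by omega))]
      have e1 : ∀ b, w1 l old sp i j b = 1 + phi j + 3 * rem i j := by
        intro b; rw [w1, if_neg hj0, if_pos hact, hth, mul_one]
      have e1' : ∀ b, w1 l old sp (i + 1) j b = 1 + phi j + 3 * rem (i + 1) j := by
        intro b; rw [w1, if_neg hj0, if_pos hact, hth', mul_one]
      rw [e1, e1, e1']
      by_cases hi2 : i < gg j + nn j
      · rw [FF_burst hj hi hi2]
        have h3 : (rem i j : ℝ) = rem (i + 1) j + 1 := by
          have : rem i j = rem (i + 1) j + 1 := by unfold rem; omega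
          rw [this]; push_cast; ring
        rw [h3]
        have h4 : (0 : ℝ) ≤ rem (i + 1) j := Nat.cast_nonneg _
        have h5 : (nn j : ℝ) ^ 2 * (1 + phi j + 3 * (rem (i + 1) j : ℝ) -
            (1 + phi j + 3 * (rem (i + 1) j + 1)) + 3 / 2) ≤ 0 := by nlinarith
        have h6 : 0 ≤ 2 * (1 + phi j + 3 * ((rem (i + 1) j : ℝ) + 1)) := by positivity
        nlinarith
      · push Not at hi2
        rw [FF_post hj hi2]
        have h3 : rem i j = 0 := by unfold rem; omega
        have h4 : rem (i + 1) j = 0 := by unfold rem; omega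
        rw [h3, h4]
        simp only [Nat.cast_zero, mul_zero, add_zero]
        nlinarith
    · -- unignited
      push Not at hi
      have hnsp : ¬ sp := fun h' => by have := hsp h'; omega
      rw [FF_pre hj hi]
      have hr : rem i j = nn j := by unfold rem; omega
      have hr' : rem (i + 1) j = nn j := by unfold rem; omega
      by_cases hold : old
      · have hth : ∀ k b, th l (old ∨ sp) k j b = 1 := by
          intro k b; unfold th; rw [if_pos (Or.inl (Or.inl hold))]
        have e1 : ∀ b, w1 l old sp i j b = 1 + phi j + 3 * nn j := by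
          intro b; rw [w1, if_neg hj0, if_pos hact, hth, mul_one, hr]
        have e1' : ∀ b, w1 l old sp (i + 1) j b = 1 + phi j + 3 * nn j := by
          intro b; rw [w1, if_neg hj0, if_pos hact, hth, mul_one, hr']
        rw [e1, e1, e1']
        nlinarith
      · set E : ℝ := (1 / 2 : ℝ) ^ (gg j - i) * Real.exp (phi j * (100 * l + 2 - a)) with hE
        have hE0 : 0 < E := by positivity
        set y : ℝ := phi j * (1 / Z) with hy
        have hy0 : 0 < y := by positivity
        have hno : ¬ (old ∨ sp) := by tauto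
        have e1 : w1 l old sp i j a = 1 + phi j + 3 * nn j * E := by
          rw [w1, if_neg hj0, if_pos hact, hr, th, if_neg (by
            rintro (h' | h')
            · exact hno h'
            · omega)]
        have e1' : w1 l old sp i j (a + 1 / Z) = 1 + phi j + 3 * nn j * (E * Real.exp (-y)) := by
          rw [w1, if_neg hj0, if_pos hact, hr, th, if_neg (by
            rintro (h' | h')
            · exact hno h'
            · omega), hE, mul_assoc ((1 / 2 : ℝ) ^ _), ← Real.exp_add]
          congr 4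
          rw [hy]; ring
        have e2' : w1 l old sp (i + 1) j (a + 1 / Z) ≤
            1 + phi j + 3 * nn j * (2 * (E * Real.exp (-y))) := by
          rw [w1, if_neg hj0, if_pos hact, hr', th]
          have h8 : E * Real.exp (-y) = (1 / 2 : ℝ) ^ (gg j - i) *
              Real.exp (phi j * (100 * l + 2 - (a + 1 / Z))) := by
            rw [hE, mul_assoc ((1 / 2 : ℝ) ^ _), ← Real.exp_add]
            congr 2
            rw [hy]; ring
          have h9 : gg j - i = (gg j - (i + 1)) + 1 := by omega
          split_ifs with h7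
          · have h10 : gg j - i = 1 := by
              rcases h7 with h7 | h7
              · exact absurd h7 hno
              · omega
            have h11 : 1 ≤ Real.exp (phi j * (100 * l + 2 - (a + 1 / Z))) := by
              apply Real.one_le_exp
              apply mul_nonneg hphi.le
              linarith
            rw [h8, h10, pow_one]
            nlinarith
          · rw [h8, h9, pow_succ]
            apply le_of_eq
            ring
        rw [e1, e1']
        have h12 := exp_mul_le y
        have h13 := Real.exp_pos (-y)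
        have h14 : 0 < 3 * (nn j : ℝ) * E := by positivity
        calc 1 + (phi j : ℝ) + 3 * nn j * (E * Real.exp (-y)) + 1 / Z * phi j *
              (w1 l old sp (i + 1) j (a + 1 / Z) -
                (1 + phi j + 3 * nn j * (E * Real.exp (-y))) + 3 / 2)
            ≤ 1 + (phi j : ℝ) + 3 * nn j * (E * Real.exp (-y)) + 1 / Z * phi j *
              (1 + phi j + 3 * nn j * (2 * (E * Real.exp (-y))) -
                (1 + phi j + 3 * nn j * (E * Real.exp (-y))) + 3 / 2) := by gcongr
          _ = 1 + phi j + (3 * nn j * E) * (Real.exp (-y) * (1 + y)) + y * (3 / 2) := by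
              rw [hy]; ring
          _ ≤ 1 + phi j + (3 * nn j * E) * 1 + y * (3 / 2) := by gcongr
          _ ≤ _ := by
              rw [hy]
              nlinarith [mul_pos h1Z hphi, mul_pos h1Z h14]
  · -- inactive
    have hi : i < gg j := by
      apply h
      · by_contra h'; exact hact (Or.inl (by omega))
      · intro h'; exact hact (Or.inr h')
    rw [FF_pre hj hi]
    have e1 : ∀ k b, w1 l old sp k j b = 1 + phi j := by
      intro k b; rw [w1, if_neg hj0, if_neg hact]
    rw [e1, e1, e1]
    nlinarith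

/-- the regime after the first ignition (at time `z`, of vertex `v`) -/
structure Reg1 (Ev : Pth → Prop) (l z v t : ℕ) (x : Pth) : Prop where
  root : x.1 0 = 1
  ev : Ev x
  val : Val t x
  zt : z ≤ t
  zNb : z ≤ Nb l
  pre : Reg0 l (z - 1) x
  vz : v < z
  typ : x.1 v = l
  ign : gg l ≤ dg x.2 z v
  oth : ∀ u ≤ t, l ≤ x.1 u → u ≠ v → dg x.2 t u < gg (x.1 u)
  old : ∀ u, 1 ≤ u → u ≤ z → par (x.1 u) < l
  lo : 100 * (l : ℝ) - 1 / 2 ≤ AA FF x z
  hi : AA FF x t ≤ 100 * l + 3 / 2

lemma Reg1.congr {Ev : Pth → Prop} {s0 : ℕ} (hEv : ∀ x y, Agr s0 x y → Ev x → Ev y)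
    {l z v t : ℕ} (hs : s0 ≤ z) {x y : Pth} (h : Agr t x y) (hr : Reg1 Ev l z v t x) :
    Reg1 Ev l z v t y := by
  have hz := hr.zt
  refine ⟨?_, ?_, ?_, hr.zt, hr.zNb, ?_, hr.vz, ?_, ?_, ?_, ?_, ?_, ?_⟩
  · rw [← h.1 0 (Nat.zero_le _)]; exact hr.root
  · exact hEv x y (h.mono (hs.trans hz)) hr.ev
  · exact (Val.congr h).1 hr.val
  · exact (Reg0.congr (h.mono (by omega))).1 hr.pre
  · rw [← h.1 v (by have := hr.vz; omega)]; exact hr.typ
  · rw [← dg_congr h hz]; exact hr.ign
  · intro u hu
    rw [← h.1 u hu, ← dg_congr h le_rfl]; exact hr.oth u hu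
  · intro u hu1 hu2
    rw [← h.1 u (by omega)]; exact hr.old u hu1 hu2
  · rw [← AA_congr FF h (by omega : z ≤ t + 1)]; exact hr.lo
  · rw [← AA_congr FF h (by omega : t ≤ t + 1)]; exact hr.hi

/-- going back one step in the regime -/
lemma Reg1.of_upd {Ev : Pth → Prop} {s0 : ℕ} (hEv : ∀ x y, Agr s0 x y → Ev x → Ev y)
    {l z v t u k : ℕ} (hs : s0 ≤ z) (hzt : z ≤ t) {x : Pth}
    (hr : Reg1 Ev l z v (t + 1) (upd x t u k)) :
    Reg1 Ev l z v t x := by
  have h := agr_upd x t u k
  apply Reg1.congr hEv hs h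
  refine ⟨hr.root, hr.ev, fun s hs => hr.val s (by omega), hzt, hr.zNb, hr.pre, hr.vz, hr.typ,
    hr.ign, ?_, hr.old, hr.lo, ?_⟩
  · intro r hr1 hr2 hr3
    exact lt_of_le_of_lt (dg_mono _ (Nat.le_succ t) r) (hr.oth r (by omega) hr2 hr3)
  · exact (AA_mono FF_ge _ (Nat.le_succ t)).trans hr.hi

open Classical in
/-- total potential in the window -/
noncomputable def S1 (l z v t : ℕ) (x : Pth) : ℝ :=
  ∑ r ∈ Finset.range (t + 1), w1 l (r ≤ z) (r = v) (dg x.2 t r) (x.1 r) (AA FF x t)

open Classical in
/-- the supermartingale in the window -/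
noncomputable def U1 (Ev : Pth → Prop) (l z v t : ℕ) (x : Pth) : ℝ≥0∞ :=
  if Reg1 Ev l z v t x then ENNReal.ofReal (disc 2 x z t * S1 l z v t x) else 0

lemma S1_congr (l z v : ℕ) {t : ℕ} {x y : Pth} (h : Agr t x y) : S1 l z v t x = S1 l z v t y := by
  unfold S1
  apply Finset.sum_congr rfl
  intro r hr
  rw [h.1 r (by have := Finset.mem_range.1 hr; omega), dg_congr h le_rfl,
    AA_congr FF h (Nat.le_succ t)]

lemma U1_adp {Ev : Pth → Prop} {s0 : ℕ} (hEv : ∀ x y, Agr s0 x y → Ev x → Ev y)
    (l z v : ℕ) (hs : s0 ≤ z) (t : ℕ) : Adp t (U1 Ev l z v t) := by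
  intro x y h
  unfold U1
  rw [show Reg1 Ev l z v t x = Reg1 Ev l z v t y from
    propext ⟨Reg1.congr hEv hs h, Reg1.congr hEv hs h.symm⟩, S1_congr l z v h,
    disc_congr _ h (Nat.le_succ t)]

theorem U1_step {Ev : Pth → Prop} {s0 : ℕ} (hEv : ∀ x y, Agr s0 x y → Ev x → Ev y)
    {l z v t : ℕ} (hs : s0 ≤ z) (hzt : z ≤ t) (x : Pth) :
    KK FF pe t (U1 Ev l z v (t + 1)) x ≤ U1 Ev l z v t x := by
  classical
  by_cases hx : Reg1 Ev l z v t x ∧ AA FF x (t + 1) ≤ 100 * l + 3 / 2
  · obtain ⟨hr, hA⟩ := hx
    have hZ := ZZ_pos FF_ge x t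
    have hA1 : AA FF x (t + 1) = AA FF x t + 1 / ZZ FF x t := AA_succ FF x t
    have h1 := pot_step FF_ge tsum_pe (V := U1 Ev l z v (t + 1)) (x := x) (t := t)
      (fun r => w1 l (r ≤ z) (r = v) (dg x.2 t r) (x.1 r) (AA FF x t))
      (fun r => w1 l (r ≤ z) (r = v) (dg x.2 t r) (x.1 r) (AA FF x t + 1 / ZZ FF x t))
      (fun r => w1 l (r ≤ z) (r = v) (dg x.2 t r + 1) (x.1 r) (AA FF x t + 1 / ZZ FF x t))
      (fun w => w1 l False False 0 w (AA FF x t + 1 / ZZ FF x t)) (3 / 2)
      (disc 2 x z (t + 1)) 2 (disc_nonneg (by norm_num) x z (t + 1))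
      (fun r _ => zero_le_one.trans (w1_ge _ _ _ _ _ _))
      (fun r _ => zero_le_one.trans (w1_ge _ _ _ _ _ _))
      (by norm_num)
      (by
        have := tsum_pe_mul_le (fun w => w1 l False False 0 w (AA FF x t + 1 / ZZ FF x t)) 1
          (by norm_num) (by simp [w1])
          (fun m hm => w1_new hm (by
            have h2 := hr.lo
            have h3 := AA_mono FF_ge x hr.zt
            have h4 : 0 < 1 / ZZ FF x t := by positivity
            linarith))
        refine this.trans (le_of_eq ?_)
        congr 1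
        norm_num)
      (fun u hu k => by
        unfold U1
        split_ifs
        · apply le_of_eq
          congr 1
          rw [disc_congr _ (agr_upd x t u k) (le_refl (t + 1))]
          congr 1
          unfold S1
          rw [Finset.sum_range_succ]
          have h3 : dg (upd x t u k).2 (t + 1) (t + 1) = 0 := by
            rw [dg_upd_succ, dg_new hr.val (by omega)]
            have : u ≠ t + 1 := by omega
            simp [this]
          have hv1 : ¬ (t + 1 = v) := by have := hr.vz; omega
          have hz1 : ¬ (t + 1 ≤ z) := by omega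
          rw [h3, upd_fst_self, AA_upd FF x (le_refl (t + 1)), hA1]
          simp only [hv1, hz1]
          congr 1
          have h4 : ∀ r ∈ Finset.range (t + 1), w1 l (r ≤ z) (r = v)
              (dg (upd x t u k).2 (t + 1) r) ((upd x t u k).1 r) (AA FF x t + 1 / ZZ FF x t) =
              w1 l (r ≤ z) (r = v) (dg x.2 t r) (x.1 r) (AA FF x t + 1 / ZZ FF x t) +
              (if r = u then (w1 l (u ≤ z) (u = v) (dg x.2 t u + 1) (x.1 u)
                (AA FF x t + 1 / ZZ FF x t) - w1 l (u ≤ z) (u = v) (dg x.2 t u) (x.1 u)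
                (AA FF x t + 1 / ZZ FF x t)) else 0) := by
            intro r hr'
            rw [dg_upd_succ, upd_fst_of_le x (by have := Finset.mem_range.1 hr'; omega)]
            by_cases h : r = u
            · subst h; simp
            · have h' : u ≠ r := fun h' => h h'.symm
              simp [h, h']
          rw [Finset.sum_congr rfl h4, Finset.sum_add_distrib, Finset.sum_ite_eq' _ u,
            if_pos (Finset.mem_range.2 (by omega))]
        · exact zero_le)
      (fun r hr' => by
        apply w1_step (r ≤ z) (r = v) hZ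
        · rw [← hA1]; linarith
        · intro h2 h3
          exact hr.oth r hr' h2 h3
        · intro h2
          subst h2
          rw [hr.typ]
          exact hr.ign.trans (dg_mono _ hr.zt _))
    refine h1.trans ?_
    unfold U1
    rw [if_pos hr]
    apply ENNReal.ofReal_le_ofReal
    rw [disc_succ _ x hzt]
    have h5 : 0 < 1 + (2 : ℝ) / ZZ FF x t := by positivity
    apply le_of_eq
    unfold S1
    field_simp
  · have hz : ∀ u ≤ t, ∀ k, U1 Ev l z v (t + 1) (upd x t u k) ≤ 0 := by
      intro u hu k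
      unfold U1
      rw [if_neg]
      intro hr
      apply hx
      refine ⟨Reg1.of_upd hEv hs hzt hr, ?_⟩
      have := hr.hi
      rwa [AA_upd FF x (le_refl (t + 1))] at this
    exact (KK_const FF_ge tsum_pe 0 hz).trans zero_le

end Pool.Agent.Helper70.Fr
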