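import Pool.Agent.Helper70.Fr6

/-!
# Probability of the window events
-/

open MeasureTheory Filter Topology
open scoped ENNReal NNReal

namespace Pool.Agent.Helper70.Fr

lemma Qd_succ (l : ℕ) : Qd (l + 1) = Qd l * 2 ^ (2 * l + 41) := by
  have h : (l + 1 + 20) ^ 2 = (l + 20) ^ 2 + (2 * l + 41) := by ring
  rw [Qd_def, Qd_def, h, pow_add]

lemma four_Qd_le {l : ℕ} (hl : 1 ≤ l) : 4 * Qd (l - 1) ≤ Qd l := by
  obtain ⟨k, rfl⟩ := Nat.exists_eq_add_of_le' hl
  rw [Nat.add_sub_cancel, Qd_succ]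
  have h1 : 4 ≤ 2 ^ (2 * k + 41) := by
    calc 4 = 2 ^ 2 := by norm_num
      _ ≤ _ := Nat.pow_le_pow_right (by norm_num) (by omega)
  calc 4 * Qd k = Qd k * 4 := by ring
    _ ≤ _ := Nat.mul_le_mul_left _ h1

lemma phi_le_nn {j k : ℕ} (h : par j ≤ k) : phi j ≤ nn k := by
  have h1 := phi_le j
  have h2 := Qd_ge_par j
  have h3 := Qd_mono h
  rw [nn_def]
  refine h1.trans (Nat.pow_le_pow_right (by norm_num) ?_)
  omega

lemma five_le {l : ℕ} (hl : 1 ≤ l) : 5 * (Nb l + 1) * nn (l - 1) ≤ nn l := by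
  have h1 := four_Qd_le hl
  have h2 := Qd_ge_add l
  have h3 : Nb l + 1 ≤ 2 ^ (Qd l + 1) := by
    rw [Nb_def, pow_succ]
    have : 1 ≤ 2 ^ Qd l := Nat.one_le_two_pow
    omega
  have h4 : nn (l - 1) ≤ 2 ^ (Qd l) := by
    rw [nn_def]; exact Nat.pow_le_pow_right (by norm_num) h1
  calc 5 * (Nb l + 1) * nn (l - 1) ≤ 8 * 2 ^ (Qd l + 1) * 2 ^ (Qd l) := by gcongr; norm_num
    _ = 2 ^ (3 + (Qd l + 1) + Qd l) := by
      rw [show (8 : ℕ) = 2 ^ 3 by norm_num, ← pow_add, ← pow_add]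
    _ ≤ nn l := by
      rw [nn_def]; exact Nat.pow_le_pow_right (by norm_num) (by omega)

/-- bound on the potential at ignition -/
lemma S1_init {Ev : Pth → Prop} {l z v : ℕ} (hl : 1 ≤ l) {x : Pth} (hr : Reg1 Ev l z v z x) :
    S1 l z v z x ≤ 4 * nn l := by
  classical
  have hz := hr.zNb
  have hvz := hr.vz
  have h5 : ((5 * (Nb l + 1) * nn (l - 1) : ℕ) : ℝ) ≤ nn l := by exact_mod_cast five_le hl
  push_cast at h5
  have hn1 : (1 : ℝ) ≤ nn (l - 1) := by exact_mod_cast nn_pos (l - 1)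
  have hterm : ∀ r ∈ Finset.range (z + 1),
      w1 l (r ≤ z) (r = v) (dg x.2 z r) (x.1 r) (AA FF x z) ≤
        5 * nn (l - 1) + (if r = v then 3 * (nn l : ℝ) else 0) := by
    intro r hrr
    have hrz : r ≤ z := by have := Finset.mem_range.1 hrr; omega
    have hpar : par (x.1 r) < l := by
      rcases Nat.eq_zero_or_pos r with h | h
      · subst h; rw [hr.root, par_one]; omega
      · exact hr.old r h hrz
    have hphi : (phi (x.1 r) : ℝ) ≤ nn (l - 1) := by
      exact_mod_cast phi_le_nn (by omega : par (x.1 r) ≤ l - 1)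
    have hth : th l (r ≤ z ∨ r = v) (dg x.2 z r) (x.1 r) (AA FF x z) = 1 := by
      unfold th; rw [if_pos (Or.inl (Or.inl hrz))]
    have hrem : rem (dg x.2 z r) (x.1 r) ≤ nn (x.1 r) := by unfold rem; exact min_le_left _ _
    have hrem' : (rem (dg x.2 z r) (x.1 r) : ℝ) ≤ nn (x.1 r) := by exact_mod_cast hrem
    have hnl : (0 : ℝ) ≤ nn l := Nat.cast_nonneg _
    have hif : (0 : ℝ) ≤ (if r = v then 3 * (nn l : ℝ) else 0) := by
      split_ifs <;> positivity
    unfold w1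
    by_cases h1 : x.1 r = 0
    · rw [if_pos h1]; linarith
    rw [if_neg h1]
    by_cases h2 : x.1 r < l ∨ r = v
    · rw [if_pos h2, hth]
      by_cases h3 : r = v
      · subst h3
        rw [if_pos rfl]
        rw [hr.typ] at hrem' hphi ⊢
        linarith
      · rw [if_neg h3]
        have h4 : x.1 r < l := by
          rcases h2 with h2 | h2
          · exact h2
          · exact absurd h2 h3
        have h6 : (nn (x.1 r) : ℝ) ≤ nn (l - 1) := by
          exact_mod_cast nn_mono (by omega : x.1 r ≤ l - 1)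
        linarith
    · rw [if_neg h2]; linarith
  unfold S1
  calc _ ≤ ∑ r ∈ Finset.range (z + 1), (5 * (nn (l - 1) : ℝ) + (if r = v then 3 * (nn l : ℝ) else 0)) :=
        Finset.sum_le_sum hterm
    _ = (z + 1) * (5 * nn (l - 1)) + 3 * nn l := by
      rw [Finset.sum_add_distrib, Finset.sum_ite_eq' _ v, if_pos (Finset.mem_range.2 (by omega))]
      simp
    _ ≤ (Nb l + 1) * (5 * nn (l - 1)) + 3 * nn l := by
      have : (z : ℝ) ≤ Nb l := by exact_mod_cast hz
      gcongr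
    _ ≤ _ := by nlinarith

lemma S1_ge (l z v t : ℕ) (x : Pth) : (t : ℝ) + 1 ≤ S1 l z v t x := by
  unfold S1
  calc (t : ℝ) + 1 = ∑ r ∈ Finset.range (t + 1), (1 : ℝ) := by simp
    _ ≤ _ := Finset.sum_le_sum (fun r _ => w1_ge _ _ _ _ _ _)

/-- the population exceeds `c n_l` in the window after the ignition -/
def BadW (Ev : Pth → Prop) (l s0 c : ℕ) : Set Pth :=
  {x | ∃ z v t, s0 ≤ z ∧ Reg1 Ev l z v t x ∧ c * nn l ≤ t + 1}

lemma Reg1.at_z {Ev : Pth → Prop} {l z v t : ℕ} {x : Pth} (h : Reg1 Ev l z v t x) :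
    Reg1 Ev l z v z x := by
  refine ⟨h.root, h.ev, fun s hs => h.val s (lt_of_lt_of_le hs h.zt), le_rfl, h.zNb, h.pre, h.vz,
    h.typ, h.ign, ?_, h.old, h.lo, (AA_mono FF_ge x h.zt).trans h.hi⟩
  intro u hu h1 h2
  exact lt_of_le_of_lt (dg_mono _ h.zt u) (h.oth u (hu.trans h.zt) h1 h2)

lemma Reg1.unique {Ev Ev' : Pth → Prop} {l z v z' v' : ℕ} {x : Pth}
    (h : Reg1 Ev l z v z x) (h' : Reg1 Ev' l z' v' z' x) : z = z' ∧ v = v' := by
  have hzz : ∀ {Ev Ev' : Pth → Prop} {z v z' v' : ℕ}, Reg1 Ev l z v z x → Reg1 Ev' l z' v' z' x →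
      ¬ z < z' := by
    intro Ev Ev' z v z' v' h h' hlt
    have h1 := h'.pre v (by have := h.vz; omega) (le_of_eq h.typ.symm)
    rw [h.typ] at h1
    have h2 := h.ign
    have h3 := dg_mono x.2 (by omega : z ≤ z' - 1) v
    omega
  have hz : z = z' := by
    have h1 := hzz h h'
    have h2 := hzz h' h
    omega
  subst hz
  refine ⟨rfl, ?_⟩
  by_contra hne
  have h1 := h.oth v' (by have := h'.vz; omega) (le_of_eq h'.typ.symm) (fun h => hne h.symm)
  rw [h'.typ] at h1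
  have := h'.ign
  omega

theorem badW_one {Q : Measure Pth} (hQ : IsLaw FF pe Q) {Ev : Pth → Prop} {s0 : ℕ}
    (hEv : ∀ x y, Agr s0 x y → Ev x → Ev y) {l : ℕ} (hl : 1 ≤ l) (z v : ℕ) (hs : s0 ≤ z)
    (c : ℕ) (hc : 1 ≤ c) :
    Q {x | ∃ t, Reg1 Ev l z v t x ∧ c * nn l ≤ t + 1} ≤
      Q {x | Reg1 Ev l z v z x} * ENNReal.ofReal (256 / c) := by
  classical
  have hn : (0 : ℝ) < nn l := by exact_mod_cast nn_pos l
  have hc0 : (0 : ℝ) < c := by exact_mod_cast (by omega : 0 < c)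
  set a : ℝ := Real.exp (-4) * (c * nn l) with ha
  have ha0 : 0 < a := by positivity
  set V : ℕ → Pth → ℝ≥0∞ := fun t x => if z ≤ t then U1 Ev l z v t x else 0 with hV
  have h1 := ville hQ V z (fun t => by
    by_cases h : z ≤ t
    · simp only [hV, h, if_true]
      exact U1_adp hEv l z v hs t
    · simp only [hV, h, if_false]
      intro x y _
      rfl) (fun t ht x => by
    simp only [hV, ht, if_true, (by omega : z ≤ t + 1)]
    exact U1_step hEv hs ht x) (ENNReal.ofReal a)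
  have hBm : MeasurableSet {x | Reg1 Ev l z v z x} :=
    Adp.measurableSet (t := z) (fun x y h hx => Reg1.congr hEv hs h hx)
  have h2 : ∫⁻ x, V z x ∂Q ≤ ENNReal.ofReal (4 * nn l) * Q {x | Reg1 Ev l z v z x} := by
    have h3 : ∫⁻ x, V z x ∂Q ≤ ∫⁻ x, ({x | Reg1 Ev l z v z x} : Set Pth).indicator
        (fun _ => ENNReal.ofReal (4 * nn l)) x ∂Q := by
      apply lintegral_mono
      intro x
      simp only [hV, le_refl, if_true]
      unfold U1
      split_ifs with h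
      · rw [Set.indicator_of_mem (by exact h)]
        apply ENNReal.ofReal_le_ofReal
        simp only [disc, Finset.Ico_self, Finset.prod_empty, one_mul]
        exact S1_init hl h
      · exact zero_le
    refine h3.trans (le_of_eq ?_)
    rw [lintegral_indicator_const hBm]
  have h4 : {x | ∃ t, Reg1 Ev l z v t x ∧ c * nn l ≤ t + 1} ⊆
      {x | ∃ t, z ≤ t ∧ ENNReal.ofReal a ≤ V t x} := by
    rintro x ⟨t, hr, ht⟩
    refine ⟨t, hr.zt, ?_⟩
    simp only [hV, hr.zt, if_true]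
    unfold U1
    rw [if_pos hr]
    apply ENNReal.ofReal_le_ofReal
    have h5 := disc_ge (c := 2) (by norm_num) x hr.zt
    have h6 : Real.exp (-4) ≤ Real.exp (-(2 * (AA FF x t - AA FF x z))) := by
      apply Real.exp_le_exp.2
      have := hr.lo
      have := hr.hi
      linarith
    have h7 : (c : ℝ) * nn l ≤ t + 1 := by exact_mod_cast ht
    rw [ha]
    exact mul_le_mul (h6.trans h5) (h7.trans (S1_ge l z v t x)) (by positivity)
      (disc_nonneg (by norm_num) _ _ _)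
  have h7 := (mul_le_mul_right (measure_mono h4) (ENNReal.ofReal a)).trans (h1.trans h2)
  have h8 := meas_le_of_mul (a := a) (ε := 1 / a) ha0 h7 (by
    rw [one_div, inv_mul_cancel₀ ha0.ne'])
  refine h8.trans ?_
  rw [mul_comm (ENNReal.ofReal (4 * nn l)), mul_assoc, ← ENNReal.ofReal_mul (by positivity)]
  gcongr
  rw [ha, mul_one_div, div_le_div_iff₀ (by positivity) hc0]
  have h9 : 1 ≤ Real.exp (-4) * 64 := by
    have h10 := Real.exp_one_lt_d9
    have h11 : Real.exp 4 ≤ 64 := by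
      have h12 : Real.exp 4 = Real.exp 1 ^ 4 := by rw [← Real.exp_nat_mul]; norm_num
      rw [h12]
      calc Real.exp 1 ^ 4 ≤ (2.7182818286 : ℝ) ^ 4 :=
            pow_le_pow_left₀ (Real.exp_pos 1).le h10.le 4
        _ ≤ 64 := by norm_num
    rw [Real.exp_neg]
    rw [inv_mul_eq_div, le_div_iff₀ (Real.exp_pos _)]
    linarith
  have h10 : (0 : ℝ) ≤ 4 * nn l * c := by positivity
  calc 4 * (nn l : ℝ) * c = (4 * nn l * c) * 1 := by ring
    _ ≤ (4 * nn l * c) * (Real.exp (-4) * 64) := mul_le_mul_of_nonneg_left h9 h10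
    _ = _ := by ring

theorem badW_le {Q : Measure Pth} (hQ : IsLaw FF pe Q) {Ev : Pth → Prop} {s0 : ℕ}
    (hEv : ∀ x y, Agr s0 x y → Ev x → Ev y) {l : ℕ} (hl : 1 ≤ l) (c : ℕ) (hc : 1 ≤ c) :
    Q (BadW Ev l s0 c) ≤ Q {x | x.1 0 = 1 ∧ Ev x} * ENNReal.ofReal (256 / c) := by
  classical
  set B : ℕ × ℕ → Set Pth := fun i => {x | s0 ≤ i.1 ∧ Reg1 Ev l i.1 i.2 i.1 x} with hB
  set W : ℕ × ℕ → Set Pth := fun i =>
    {x | s0 ≤ i.1 ∧ ∃ t, Reg1 Ev l i.1 i.2 t x ∧ c * nn l ≤ t + 1} with hW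
  have h1 : ∀ i, Q (W i) ≤ Q (B i) * ENNReal.ofReal (256 / c) := by
    intro i
    by_cases hi : s0 ≤ i.1
    · simp only [hB, hW, hi, true_and]
      exact badW_one hQ hEv hl i.1 i.2 hi c hc
    · simp [hW, hi]
  have hBm : ∀ i, MeasurableSet (B i) := by
    intro i
    by_cases hi : s0 ≤ i.1
    · simp only [hB, hi, true_and]
      exact Adp.measurableSet (t := i.1) (fun x y h hx => Reg1.congr hEv hi h hx)
    · simp [hB, hi]
  have hdisj : Pairwise (Function.onFun Disjoint B) := by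
    intro i i' hne
    rw [Function.onFun, Set.disjoint_left]
    rintro x ⟨_, h⟩ ⟨_, h'⟩
    obtain ⟨e1, e2⟩ := Reg1.unique h h'
    exact hne (Prod.ext e1 e2)
  calc Q (BadW Ev l s0 c) ≤ Q (⋃ i, W i) := by
        apply measure_mono
        rintro x ⟨z, v, t, h1, h2, h3⟩
        exact Set.mem_iUnion.2 ⟨(z, v), h1, t, h2, h3⟩
    _ ≤ ∑' i, Q (W i) := measure_iUnion_le _
    _ ≤ ∑' i, Q (B i) * ENNReal.ofReal (256 / c) := ENNReal.tsum_le_tsum h1
    _ = Q (⋃ i, B i) * ENNReal.ofReal (256 / c) := by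
        rw [ENNReal.tsum_mul_right, measure_iUnion hdisj hBm]
    _ ≤ _ := by
        gcongr
        intro x hx
        obtain ⟨i, _, h⟩ := Set.mem_iUnion.1 hx
        exact ⟨h.root, h.ev⟩

end Pool.Agent.Helper70.Fr
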