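import Pool.Agent.Helper70.Fr7

/-!
# Events about the types only
-/

open MeasureTheory Filter Topology
open scoped ENNReal NNReal

namespace Pool.Agent.Helper70.Fr

open Classical in
lemma type_step {Q : Measure Pth} (hQ : IsLaw FF pe Q) (t : ℕ) {A : Pth → Prop}
    (hA : ∀ x y, Agr t x y → A x → A y) {M : Pth → ℕ → Prop}
    (hM : ∀ x y, Agr t x y → ∀ m, M x m → M y m) (ε : ℝ≥0∞)
    (hε : ∀ x, A x → ∑' m, (if M x m then pe m else 0) ≤ ε) :
    Q {x | A x ∧ M x (x.1 (t + 1))} ≤ Q {x | A x} * ε := by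
  have hA' : ∀ x y, Agr t x y → (A x ↔ A y) := fun x y h => ⟨hA x y h, hA y x h.symm⟩
  have hM' : ∀ x y, Agr t x y → ∀ m, (M x m ↔ M y m) :=
    fun x y h m => ⟨hM x y h m, hM y x h.symm m⟩
  set V : Pth → ℝ≥0∞ := fun x => if A x ∧ M x (x.1 (t + 1)) then 1 else 0 with hV
  have hVadp : Adp (t + 1) V := by
    intro x y h
    simp only [hV]
    rw [h.1 (t + 1) le_rfl, show A x = A y from propext (hA' x y (h.mono (Nat.le_succ t))),
      show M x (y.1 (t + 1)) = M y (y.1 (t + 1)) from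
        propext (hM' x y (h.mono (Nat.le_succ t)) _)]
  have h1 := hQ.step t V hVadp
  have hS1 : MeasurableSet {x | A x ∧ M x (x.1 (t + 1))} := by
    apply Adp.measurableSet (t := t + 1)
    rintro x y h ⟨ha, hm⟩
    refine ⟨hA x y (h.mono (Nat.le_succ t)) ha, ?_⟩
    have := hM x y (h.mono (Nat.le_succ t)) _ hm
    rwa [← h.1 (t + 1) le_rfl]
  have hS2 : MeasurableSet {x | A x} := Adp.measurableSet (t := t) hA
  have h2 : ∫⁻ x, V x ∂Q = Q {x | A x ∧ M x (x.1 (t + 1))} := by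
    rw [← lintegral_indicator_one hS1]
    apply lintegral_congr
    intro x
    simp only [hV]
    by_cases h : A x ∧ M x (x.1 (t + 1))
    · rw [if_pos h, Set.indicator_of_mem (by exact h)]; rfl
    · rw [if_neg h, Set.indicator_of_notMem (by exact h)]
  rw [← h2, h1, mul_comm, ← lintegral_indicator_const hS2]
  apply lintegral_mono
  intro x
  by_cases hx : A x
  · rw [Set.indicator_of_mem (by exact hx)]
    have h3 : ∀ v, ∑' w, pe w * V (upd x t v w) ≤ ε := by
      intro v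
      refine le_trans (ENNReal.tsum_le_tsum fun w => ?_) (hε x hx)
      simp only [hV, upd_fst_self]
      by_cases h4 : M x w
      · rw [if_pos h4]
        split_ifs <;> simp
      · rw [if_neg h4, if_neg]
        · simp
        · rintro ⟨_, h5⟩
          exact h4 ((hM' _ _ (agr_upd x t v w) w).1 h5)
    calc KK FF pe t V x ≤ ∑ v ∈ Finset.range (t + 1),
          ENNReal.ofReal (FF (dg x.2 t v) (x.1 v) / ZZ FF x t) * ε := by
          unfold KK
          apply Finset.sum_le_sum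
          intro v _
          gcongr
          exact h3 v
      _ = ε := by
        rw [← Finset.sum_mul, ← ENNReal.ofReal_sum_of_nonneg, sum_div_ZZ FF_ge,
          ENNReal.ofReal_one, one_mul]
        intro v _
        exact div_ZZ_nonneg FF_ge x t v
  · rw [Set.indicator_of_notMem (by exact hx)]
    have h3 : ∀ v w, V (upd x t v w) = 0 := by
      intro v w
      simp only [hV]
      rw [if_neg]
      rintro ⟨h4, _⟩
      exact hx ((hA' _ _ (agr_upd x t v w)).1 h4)
    unfold KK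
    simp [h3]

lemma root_meas {Q : Measure Pth} (hQ : IsLaw FF pe Q) : Q {x | x.1 0 = 1} = pe 1 := hQ.init 1

/-- a special type appears too early -/
def BadU (l : ℕ) : Set Pth :=
  {x | x.1 0 = 1 ∧ ∃ s, 1 ≤ s ∧ s ≤ Nb l ∧ l ≤ par (x.1 s)}

open Classical in
lemma tsum_far {l : ℕ} (hl : 1 ≤ l) :
    ∑' m, (if l ≤ par m then pe m else 0) ≤ ENNReal.ofReal ((1 / 2 : ℝ) ^ (3 * Qd l)) := by
  have h1 : ∀ m, (if l ≤ par m then pe m else 0) ≤
      ENNReal.ofReal ((1 / 2 : ℝ) ^ (3 * Qd l)) * ENNReal.ofReal ((1 / 2 : ℝ) ^ (m + 2)) := by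
    intro m
    split_ifs with h
    · have hm : m ≠ 0 := by
        rintro rfl
        rw [par_zero] at h
        omega
      rw [pe_of_ne hm, ← ENNReal.ofReal_mul (by positivity)]
      apply ENNReal.ofReal_le_ofReal
      rw [pr_def, ← pow_add]
      apply pow_le_pow_of_le_one (by norm_num) (by norm_num)
      have h2 := Qd_mono h
      have h3 := Qd_ge_par m
      rw [EE_def]
      nlinarith
    · exact zero_le
  refine (ENNReal.tsum_le_tsum h1).trans ?_
  rw [ENNReal.tsum_mul_left, tsum_half]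
  calc ENNReal.ofReal ((1 / 2 : ℝ) ^ (3 * Qd l)) * ENNReal.ofReal (1 / 2)
      ≤ ENNReal.ofReal ((1 / 2 : ℝ) ^ (3 * Qd l)) * 1 := by
        gcongr
        rw [ENNReal.ofReal_le_one]; norm_num
    _ = _ := mul_one _

theorem badU_le {Q : Measure Pth} (hQ : IsLaw FF pe Q) {l : ℕ} (hl : 1 ≤ l) :
    Q (BadU l) ≤ pe 1 * ENNReal.ofReal ((1 / 2 : ℝ) ^ (l + 20)) := by
  classical
  have h1 : ∀ t, Q {x | x.1 0 = 1 ∧ l ≤ par (x.1 (t + 1))} ≤
      pe 1 * ENNReal.ofReal ((1 / 2 : ℝ) ^ (3 * Qd l)) := by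
    intro t
    rw [← root_meas hQ]
    apply type_step hQ t (A := fun x => x.1 0 = 1) (M := fun _ m => l ≤ par m)
    · intro x y h hx
      rw [← h.1 0 (Nat.zero_le _)]; exact hx
    · intro x y _ m h; exact h
    · intro x _
      have h9 := tsum_far hl
      convert h9
  calc Q (BadU l) ≤ Q (⋃ t ∈ Finset.range (Nb l), {x | x.1 0 = 1 ∧ l ≤ par (x.1 (t + 1))}) := by
        apply measure_mono
        rintro x ⟨h0, s, h1, h2, h3⟩
        simp only [Set.mem_iUnion]
        obtain ⟨t, rfl⟩ := Nat.exists_eq_add_of_le' h1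
        exact ⟨t, Finset.mem_range.2 (by omega), h0, h3⟩
    _ ≤ ∑ t ∈ Finset.range (Nb l), Q {x | x.1 0 = 1 ∧ l ≤ par (x.1 (t + 1))} :=
        measure_biUnion_finset_le _ _
    _ ≤ ∑ t ∈ Finset.range (Nb l), pe 1 * ENNReal.ofReal ((1 / 2 : ℝ) ^ (3 * Qd l)) :=
        Finset.sum_le_sum (fun t _ => h1 t)
    _ = pe 1 * ((Nb l : ℝ≥0∞) * ENNReal.ofReal ((1 / 2 : ℝ) ^ (3 * Qd l))) := by
        rw [Finset.sum_const, Finset.card_range, nsmul_eq_mul]; ring
    _ ≤ _ := by
        gcongr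
        rw [← ENNReal.ofReal_natCast, ← ENNReal.ofReal_mul (Nat.cast_nonneg _)]
        apply ENNReal.ofReal_le_ofReal
        have h4 := Qd_ge_add l
        have h5 : (Nb l : ℝ) = 2 ^ (Qd l) := by rw [Nb_def]; push_cast; rfl
        rw [h5, show 3 * Qd l = Qd l + 2 * Qd l by ring, pow_add, ← mul_assoc, ← mul_pow]
        norm_num
        apply pow_le_pow_of_le_one (by norm_num) (by norm_num)
        omega

/-- no special vertex below `n_l` -/
def BadN (l : ℕ) : Set Pth :=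
  {x | x.1 0 = 1 ∧ ∀ s, 1 ≤ s → s ≤ nn l → par (x.1 s) ≠ l}

lemma pr_of_par {m l : ℕ} (h : par m = l) : pr m = 1 / ((kap l : ℝ) ^ 2 * nn l) := by
  have h1 := pr_eq m
  rw [h] at h1
  have h2 : (0 : ℝ) < (kap l : ℝ) ^ 2 * nn l := by
    have := kap_pos l
    have := nn_pos l
    positivity
  rw [eq_div_iff h2.ne', h1]

lemma par_of_mem {l m : ℕ} (h1 : 8 ^ (l + 20) ≤ m) (h2 : m < 8 ^ (l + 21)) : par m = l := by
  unfold par
  have : Nat.log 8 m = l + 20 := by
    rw [Nat.log_eq_iff (Or.inl (by omega))]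
    exact ⟨h1, h2⟩
  omega

open Classical in
lemma tsum_special {l : ℕ} (_hl : 1 ≤ l) :
    ENNReal.ofReal ((kap l : ℝ) / nn l) ≤ ∑' m, (if par m = l then pe m else 0) := by
  have hk := kap_pos l
  have hn := nn_pos l
  have h1 : ∑ m ∈ Finset.Ico (8 ^ (l + 20)) (8 ^ (l + 21)), (if par m = l then pe m else 0) ≤
      ∑' m, (if par m = l then pe m else 0) := ENNReal.sum_le_tsum _
  refine le_trans ?_ h1
  have h2 : ∀ m ∈ Finset.Ico (8 ^ (l + 20)) (8 ^ (l + 21)), (if par m = l then pe m else 0) =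
      ENNReal.ofReal (1 / ((kap l : ℝ) ^ 2 * nn l)) := by
    intro m hm
    have h3 := Finset.mem_Ico.1 hm
    have h4 := par_of_mem h3.1 h3.2
    rw [if_pos h4, pe_of_ne, pr_of_par h4]
    have : 0 < 8 ^ (l + 20) := by positivity
    omega
  rw [Finset.sum_congr rfl h2, Finset.sum_const, Nat.card_Ico, nsmul_eq_mul,
    ← ENNReal.ofReal_natCast, ← ENNReal.ofReal_mul (Nat.cast_nonneg _)]
  apply ENNReal.ofReal_le_ofReal
  have h5 : ((kap l : ℝ)) ^ 3 ≤ ((8 ^ (l + 21) - 8 ^ (l + 20) : ℕ) : ℝ) := by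
    have h6 : kap l ^ 3 ≤ 8 ^ (l + 21) - 8 ^ (l + 20) := by
      rw [kap_def, ← pow_mul, mul_comm, pow_mul]
      norm_num
      have : 8 ^ (l + 21) = 8 * 8 ^ (l + 20) := by rw [pow_succ]; ring
      omega
    exact_mod_cast h6
  have hk' : (0 : ℝ) < kap l := by exact_mod_cast hk
  have hn' : (0 : ℝ) < nn l := by exact_mod_cast hn
  rw [mul_one_div, div_le_div_iff₀ hn' (by positivity)]
  calc (kap l : ℝ) * ((kap l : ℝ) ^ 2 * nn l) = (kap l : ℝ) ^ 3 * nn l := by ring
    _ ≤ _ := by gcongr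

open Classical in
lemma tsum_nonspecial {l : ℕ} (hl : 1 ≤ l) :
    ∑' m, (if par m ≠ l then pe m else 0) ≤ ENNReal.ofReal (1 - (kap l : ℝ) / nn l) := by
  have h1 : ∑' m, (if par m = l then pe m else 0) + ∑' m, (if par m ≠ l then pe m else 0) = 1 := by
    rw [← ENNReal.tsum_add, ← tsum_pe]
    apply tsum_congr
    intro m
    by_cases h : par m = l <;> simp [h]
  have h2 := tsum_special hl
  have h3 : (0 : ℝ) ≤ (kap l : ℝ) / nn l := by positivity
  rw [ENNReal.ofReal_sub _ h3, ENNReal.ofReal_one]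
  have h4 : ENNReal.ofReal ((kap l : ℝ) / nn l) + ∑' m, (if par m ≠ l then pe m else 0) ≤ 1 := by
    rw [← h1]; gcongr
  exact ENNReal.le_sub_of_add_le_left ENNReal.ofReal_ne_top h4

theorem badN_le {Q : Measure Pth} (hQ : IsLaw FF pe Q) {l : ℕ} (hl : 1 ≤ l) :
    Q (BadN l) ≤ pe 1 * ENNReal.ofReal ((1 / 2 : ℝ) ^ (l + 20)) := by
  classical
  set q : ℝ := (kap l : ℝ) / nn l with hq
  have hn' : (0 : ℝ) < nn l := by exact_mod_cast nn_pos l
  have hk' : (0 : ℝ) < kap l := by exact_mod_cast kap_pos l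
  have hq1 : q ≤ 1 := by
    rw [hq, div_le_one hn']
    have : kap l ≤ nn l := by
      rw [kap_def, nn_def]
      apply Nat.pow_le_pow_right (by norm_num)
      have := Qd_ge_add l
      omega
    exact_mod_cast this
  have h1 : ∀ t, Q {x | x.1 0 = 1 ∧ ∀ s, 1 ≤ s → s ≤ t → par (x.1 s) ≠ l} ≤
      pe 1 * ENNReal.ofReal ((1 - q) ^ t) := by
    intro t
    induction t with
    | zero =>
      rw [pow_zero, ENNReal.ofReal_one, mul_one, ← root_meas hQ]
      apply measure_mono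
      rintro x ⟨h, _⟩
      exact h
    | succ t ih =>
      have h2 := type_step hQ t
        (A := fun x => x.1 0 = 1 ∧ ∀ s, 1 ≤ s → s ≤ t → par (x.1 s) ≠ l)
        (M := fun _ m => par m ≠ l) (by
          rintro x y h ⟨hx, hx2⟩
          refine ⟨by rw [← h.1 0 (Nat.zero_le _)]; exact hx, fun s h1 h2 => ?_⟩
          rw [← h.1 s h2]; exact hx2 s h1 h2) (fun x y _ m h => h)
        (ENNReal.ofReal (1 - q)) (fun x _ => by
          have h9 := tsum_nonspecial hl
          convert h9)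
      calc Q {x | x.1 0 = 1 ∧ ∀ s, 1 ≤ s → s ≤ t + 1 → par (x.1 s) ≠ l}
          ≤ Q {x | (x.1 0 = 1 ∧ ∀ s, 1 ≤ s → s ≤ t → par (x.1 s) ≠ l) ∧
              par (x.1 (t + 1)) ≠ l} := by
            apply measure_mono
            rintro x ⟨h, h'⟩
            exact ⟨⟨h, fun s h1 h2 => h' s h1 (by omega)⟩, h' (t + 1) (by omega) le_rfl⟩
        _ ≤ _ := h2
        _ ≤ (pe 1 * ENNReal.ofReal ((1 - q) ^ t)) * ENNReal.ofReal (1 - q) := by gcongr
        _ = _ := by
          rw [mul_assoc, ← ENNReal.ofReal_mul (pow_nonneg (by linarith) _), ← pow_succ]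
  refine (h1 (nn l)).trans ?_
  gcongr
  have h3 : (1 - q) ^ (nn l) ≤ Real.exp (-(kap l : ℝ)) := by
    have h4 : 1 - q ≤ Real.exp (-q) := by
      have := Real.add_one_le_exp (-q); linarith
    calc (1 - q) ^ (nn l) ≤ (Real.exp (-q)) ^ (nn l) :=
          pow_le_pow_left₀ (by linarith) h4 _
      _ = Real.exp (-(kap l : ℝ)) := by
        rw [← Real.exp_nat_mul]
        congr 1
        rw [hq]; field_simp
  refine h3.trans ?_
  rw [Real.exp_neg]
  have h5 := exp_ge_two_pow (kap l)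
  have h6 : (1 / 2 : ℝ) ^ (l + 20) = ((2 : ℝ) ^ (l + 20))⁻¹ := by
    rw [one_div, inv_pow]
  rw [h6]
  apply inv_anti₀ (by positivity)
  refine le_trans ?_ h5
  apply pow_le_pow_right₀ (by norm_num)
  rw [kap_def]
  exact Nat.lt_two_pow_self.le

/-- `s` is the first special vertex for `l` -/
def Fst (l s : ℕ) (x : Pth) : Prop :=
  1 ≤ s ∧ par (x.1 s) = l ∧ ∀ r, 1 ≤ r → r < s → par (x.1 r) ≠ l

/-- the type of the first special vertex occurs again below `κ_l n_l`. -/
def BadD (l : ℕ) : Set Pth :=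
  {x | x.1 0 = 1 ∧ ∃ s, Fst l s x ∧ ∃ s', s < s' ∧ s' ≤ kap l * nn l ∧ x.1 s' = x.1 s}

lemma Fst.congr {l s t : ℕ} (hst : s ≤ t) {x y : Pth} (h : Agr t x y) (hx : Fst l s x) :
    Fst l s y := by
  refine ⟨hx.1, ?_, fun r h1 h2 => ?_⟩
  · rw [← h.1 s hst]; exact hx.2.1
  · rw [← h.1 r (by omega)]; exact hx.2.2 r h1 h2

lemma Fst.unique {l s s' : ℕ} {x : Pth} (h : Fst l s x) (h' : Fst l s' x) : s = s' := by
  rcases lt_trichotomy s s' with hlt | heq | hlt
  · exact absurd h.2.1 (h'.2.2 s h.1 hlt)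
  · exact heq
  · exact absurd h'.2.1 (h.2.2 s' h'.1 hlt)

theorem badD_le {Q : Measure Pth} (hQ : IsLaw FF pe Q) {l : ℕ} (hl : 1 ≤ l) :
    Q (BadD l) ≤ pe 1 * ENNReal.ofReal ((1 / 2 : ℝ) ^ (l + 20)) := by
  classical
  have hk' : (0 : ℝ) < kap l := by exact_mod_cast kap_pos l
  have hn' : (0 : ℝ) < nn l := by exact_mod_cast nn_pos l
  set π : ℝ := 1 / ((kap l : ℝ) ^ 2 * nn l) with hπ
  have hπ0 : 0 < π := by positivity
  set F : ℕ → Set Pth := fun s => {x | x.1 0 = 1 ∧ Fst l s x} with hF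
  have h1 : ∀ s t, s ≤ t → Q {x | (x.1 0 = 1 ∧ Fst l s x) ∧ x.1 (t + 1) = x.1 s} ≤
      Q (F s) * ENNReal.ofReal π := by
    intro s t hst
    apply type_step hQ t (A := fun x => x.1 0 = 1 ∧ Fst l s x) (M := fun x m => m = x.1 s)
    · rintro x y h ⟨hx, hx2⟩
      exact ⟨by rw [← h.1 0 (Nat.zero_le _)]; exact hx, hx2.congr hst h⟩
    · intro x y h m hm
      rw [← h.1 s hst]; exact hm
    · rintro x ⟨_, hx⟩
      have h9 : ∑' m, (if m = x.1 s then pe m else 0) = pe (x.1 s) := by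
        rw [tsum_eq_single (x.1 s)]
        · simp
        · intro b hb; simp [hb]
      refine le_trans (le_of_eq ?_) (le_of_eq_of_le h9 ?_)
      · apply tsum_congr; intro m; congr
      have hne : x.1 s ≠ 0 := by
        intro h0
        have := hx.2.1
        rw [h0, par_zero] at this
        omega
      rw [pe_of_ne hne, pr_of_par hx.2.1]
  have h2 : ∀ s, Q {x | (x.1 0 = 1 ∧ Fst l s x) ∧ ∃ s', s < s' ∧ s' ≤ kap l * nn l ∧
      x.1 s' = x.1 s} ≤ Q (F s) * ENNReal.ofReal ((1 / 2 : ℝ) ^ (l + 20)) := by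
    intro s
    calc Q {x | (x.1 0 = 1 ∧ Fst l s x) ∧ ∃ s', s < s' ∧ s' ≤ kap l * nn l ∧ x.1 s' = x.1 s}
        ≤ Q (⋃ t ∈ Finset.range (kap l * nn l),
          {x | s ≤ t ∧ (x.1 0 = 1 ∧ Fst l s x) ∧ x.1 (t + 1) = x.1 s}) := by
          apply measure_mono
          rintro x ⟨h, s', h1, h2, h3⟩
          simp only [Set.mem_iUnion]
          obtain ⟨t, rfl⟩ := Nat.exists_eq_add_of_le' (by omega : 1 ≤ s')
          exact ⟨t, Finset.mem_range.2 (by omega), by omega, h, h3⟩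
      _ ≤ ∑ t ∈ Finset.range (kap l * nn l),
          Q {x | s ≤ t ∧ (x.1 0 = 1 ∧ Fst l s x) ∧ x.1 (t + 1) = x.1 s} :=
          measure_biUnion_finset_le _ _
      _ ≤ ∑ t ∈ Finset.range (kap l * nn l), Q (F s) * ENNReal.ofReal π := by
          apply Finset.sum_le_sum
          intro t _
          by_cases hst : s ≤ t
          · simp only [hst, true_and]
            exact h1 s t hst
          · simp [hst]
      _ = Q (F s) * (((kap l * nn l : ℕ) : ℝ≥0∞) * ENNReal.ofReal π) := by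
          rw [Finset.sum_const, Finset.card_range, nsmul_eq_mul]; ring
      _ ≤ _ := by
          gcongr
          rw [← ENNReal.ofReal_natCast, ← ENNReal.ofReal_mul (Nat.cast_nonneg _)]
          apply ENNReal.ofReal_le_ofReal
          rw [hπ]
          push_cast
          have : (kap l : ℝ) * nn l * (1 / ((kap l : ℝ) ^ 2 * nn l)) = 1 / kap l := by
            field_simp
          rw [this, kap_def]
          push_cast
          rw [one_div, one_div, inv_pow]
  have hFm : ∀ s, MeasurableSet (F s) := by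
    intro s
    apply Adp.measurableSet (t := s)
    rintro x y h ⟨hx, hx2⟩
    exact ⟨by rw [← h.1 0 (Nat.zero_le _)]; exact hx, hx2.congr le_rfl h⟩
  have hFd : Pairwise (Function.onFun Disjoint F) := by
    intro s s' hne
    rw [Function.onFun, Set.disjoint_left]
    rintro x ⟨_, h⟩ ⟨_, h'⟩
    exact hne (h.unique h')
  calc Q (BadD l) ≤ Q (⋃ s, {x | (x.1 0 = 1 ∧ Fst l s x) ∧ ∃ s', s < s' ∧ s' ≤ kap l * nn l ∧
      x.1 s' = x.1 s}) := by
        apply measure_mono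
        rintro x ⟨h0, s, h1, h2⟩
        exact Set.mem_iUnion.2 ⟨s, ⟨h0, h1⟩, h2⟩
    _ ≤ ∑' s, Q {x | (x.1 0 = 1 ∧ Fst l s x) ∧ ∃ s', s < s' ∧ s' ≤ kap l * nn l ∧
      x.1 s' = x.1 s} := measure_iUnion_le _
    _ ≤ ∑' s, Q (F s) * ENNReal.ofReal ((1 / 2 : ℝ) ^ (l + 20)) := ENNReal.tsum_le_tsum h2
    _ = Q (⋃ s, F s) * ENNReal.ofReal ((1 / 2 : ℝ) ^ (l + 20)) := by
        rw [ENNReal.tsum_mul_right, measure_iUnion hFd hFm]
    _ ≤ _ := by
        gcongr
        rw [← root_meas hQ]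
        apply measure_mono
        intro x hx
        obtain ⟨s, h, _⟩ := Set.mem_iUnion.1 hx
        exact h

/-- another type `1` vertex below `κ_0 n_0` -/
def BadZ : Set Pth := {x | x.1 0 = 1 ∧ ∃ s, 1 ≤ s ∧ s ≤ kap 0 * nn 0 ∧ x.1 s = 1}

theorem badZ_le {Q : Measure Pth} (hQ : IsLaw FF pe Q) :
    Q BadZ ≤ pe 1 * ENNReal.ofReal ((1 / 2 : ℝ) ^ 20) := by
  classical
  have hk' : (0 : ℝ) < kap 0 := by exact_mod_cast kap_pos 0
  have hn' : (0 : ℝ) < nn 0 := by exact_mod_cast nn_pos 0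
  have h1 : ∀ t, Q {x | x.1 0 = 1 ∧ x.1 (t + 1) = 1} ≤ pe 1 * pe 1 := by
    intro t
    nth_rewrite 1 [← root_meas hQ]
    apply type_step hQ t (A := fun x => x.1 0 = 1) (M := fun _ m => m = 1)
    · intro x y h hx
      rw [← h.1 0 (Nat.zero_le _)]; exact hx
    · intro x y _ m h; exact h
    · intro x _
      have h9 : ∑' m, (if m = 1 then pe m else 0) = pe 1 := by
        rw [tsum_eq_single 1]
        · simp
        · intro b hb; simp [hb]
      refine le_trans (le_of_eq ?_) (le_of_eq h9)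
      apply tsum_congr; intro m; congr
  calc Q BadZ ≤ Q (⋃ t ∈ Finset.range (kap 0 * nn 0), {x | x.1 0 = 1 ∧ x.1 (t + 1) = 1}) := by
        apply measure_mono
        rintro x ⟨h0, s, h1, h2, h3⟩
        simp only [Set.mem_iUnion]
        obtain ⟨t, rfl⟩ := Nat.exists_eq_add_of_le' h1
        exact ⟨t, Finset.mem_range.2 (by omega), h0, h3⟩
    _ ≤ ∑ t ∈ Finset.range (kap 0 * nn 0), Q {x | x.1 0 = 1 ∧ x.1 (t + 1) = 1} :=
        measure_biUnion_finset_le _ _
    _ ≤ ∑ t ∈ Finset.range (kap 0 * nn 0), pe 1 * pe 1 := Finset.sum_le_sum (fun t _ => h1 t)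
    _ = pe 1 * (((kap 0 * nn 0 : ℕ) : ℝ≥0∞) * pe 1) := by
        rw [Finset.sum_const, Finset.card_range, nsmul_eq_mul]; ring
    _ ≤ _ := by
        gcongr
        rw [pe_of_ne one_ne_zero, pr_of_par par_one, ← ENNReal.ofReal_natCast,
          ← ENNReal.ofReal_mul (Nat.cast_nonneg _)]
        apply ENNReal.ofReal_le_ofReal
        push_cast
        have : (kap 0 : ℝ) * nn 0 * (1 / ((kap 0 : ℝ) ^ 2 * nn 0)) = 1 / kap 0 := by
          field_simp
        rw [this, kap_def]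
        push_cast
        norm_num

end Pool.Agent.Helper70.Fr
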