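import Pool.Agent.Helper70.Fr8

/-!
# The deterministic argument
-/

open MeasureTheory Filter Topology
open scoped ENNReal NNReal

namespace Pool.Agent.Helper70.Fr

/-- A good path -/
structure Good (x : Pth) : Prop where
  val : ∀ t, x.2 t ≤ t
  root : x.1 0 = 1
  U : ∀ l, 1 ≤ l → x ∉ BadU l
  N : ∀ l, 1 ≤ l → x ∉ BadN l
  D : ∀ l, 1 ≤ l → x ∉ BadD l
  Z : x ∉ BadZ
  C : ∀ l, 1 ≤ l → x ∉ BadC l
  L : ∀ l, 1 ≤ l → x ∉ BadL l
  P : ∀ l, 1 ≤ l → x ∉ BadP l
  W : ∀ l, 1 ≤ l → x ∉ BadW (fun _ => True) l 0 (kap l)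

/-- time slack -/
noncomputable def ee (l : ℕ) : ℝ := (1 - (1 / 2 : ℝ) ^ l) / 4
/-- window length -/
noncomputable def bb (l : ℕ) : ℝ := 5 / 4 + (1 / 2 : ℝ) ^ (l + 2)

lemma half_pow_pos (l : ℕ) : (0 : ℝ) < (1 / 2 : ℝ) ^ l := by positivity
lemma half_pow_le_one (l : ℕ) : (1 / 2 : ℝ) ^ l ≤ 1 := pow_le_one₀ (by norm_num) (by norm_num)

lemma ee_zero : ee 0 = 0 := by simp [ee]
lemma ee_nonneg (l : ℕ) : 0 ≤ ee l := by
  unfold ee; have := half_pow_le_one l; linarith
lemma ee_le (l : ℕ) : ee l ≤ 1 / 4 := by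
  unfold ee; have := half_pow_pos l; linarith
lemma bb_ge (l : ℕ) : 5 / 4 ≤ bb l := by
  unfold bb; have := half_pow_pos (l + 2); linarith
lemma bb_le (l : ℕ) : bb l ≤ 3 / 2 := by
  unfold bb
  have : (1 / 2 : ℝ) ^ (l + 2) ≤ (1 / 2) ^ 2 :=
    pow_le_pow_of_le_one (by norm_num) (by norm_num) (by omega)
  norm_num at this ⊢
  linarith

lemma half_pow_lt {i l : ℕ} (h : i < l) : 2 * (1 / 2 : ℝ) ^ l ≤ (1 / 2 : ℝ) ^ i := by
  have h1 : (1 / 2 : ℝ) ^ l ≤ (1 / 2 : ℝ) ^ (i + 1) :=
    pow_le_pow_of_le_one (by norm_num) (by norm_num) (by omega)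
  rw [pow_succ] at h1
  linarith

lemma ee_gap {i l : ℕ} (h : i < l) : ee i + 2 * del l ≤ ee l := by
  unfold ee del
  have := half_pow_lt h
  rw [pow_add]
  norm_num at this ⊢
  linarith

lemma bb_gap {i l : ℕ} (h : i < l) : bb l + 2 * del l ≤ bb i := by
  unfold bb del
  have := half_pow_lt h
  rw [pow_add, pow_add, pow_add]
  norm_num at this ⊢
  linarith

/-! ### numerical facts -/

lemma Nb_le_nn (l : ℕ) : Nb l ≤ nn l := by
  rw [Nb_def, nn_def]; exact Nat.pow_le_pow_right (by norm_num) (by omega)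

lemma nn_le_kap_nn (l : ℕ) : nn l ≤ kap l * nn l := Nat.le_mul_of_pos_left _ (kap_pos l)

lemma Kl_le (l : ℕ) : Kl l ≤ 2 ^ (l + 983) := by
  rw [Kl_def]
  have h1 : phi 1 ≤ 2 ^ 961 := by
    have := phi_le 1
    have h : (1 + 30) ^ 2 = 961 := by norm_num
    rwa [h] at this
  have h2 : 3 + phi 1 ≤ 2 ^ 963 := by
    have e1 : (2 : ℕ) ^ 963 = 4 * 2 ^ 961 := by
      rw [show 963 = 2 + 961 from rfl, pow_add]; norm_num
    have e2 : 1 ≤ 2 ^ 961 := Nat.one_le_two_pow
    rw [e1]
    omega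
  calc (3 + phi 1) * 2 ^ (l + 20) ≤ 2 ^ 963 * 2 ^ (l + 20) := Nat.mul_le_mul_right _ h2
    _ = 2 ^ (l + 983) := by rw [← pow_add]; congr 1; omega

lemma exp_nat_le (k : ℕ) : Real.exp k ≤ 2 ^ (2 * k) := by
  have h := Real.exp_one_lt_d9
  calc Real.exp k = Real.exp 1 ^ k := by rw [← Real.exp_nat_mul]; simp
    _ ≤ 4 ^ k := pow_le_pow_left₀ (Real.exp_pos 1).le (by linarith) k
    _ = _ := by rw [pow_mul]; norm_num

lemma Qd_ge_441 {l : ℕ} (_hl : 1 ≤ l) : 2 ^ (400 + 40 * l) ≤ Qd l := by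
  rw [Qd_def]
  apply Nat.pow_le_pow_right (by norm_num)
  nlinarith

lemma exponent_le {l : ℕ} (hl : 1 ≤ l) : l + 983 + 2 * (lam l * (100 * l + 1)) ≤ Qd l := by
  have h400 : (2 : ℕ) ^ 20 ≤ 2 ^ 400 := Nat.pow_le_pow_right (by norm_num) (by norm_num)
  have hl2 : l < 2 ^ l := Nat.lt_two_pow_self
  rcases Nat.lt_or_ge 1 l with h | h
  · -- l ≥ 2
    obtain ⟨k, rfl⟩ := Nat.exists_eq_add_of_le' hl
    have hk : 1 ≤ k := by omega
    have h1 : lam (k + 1) = 4 * Qd k := by
      unfold lam; rw [if_neg (by omega), Nat.add_sub_cancel]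
    have h2 := Qd_ge_441 hk
    have h3 : (2 : ℕ) ^ 20 ≤ Qd k := by
      refine le_trans ?_ h2
      exact Nat.pow_le_pow_right (by norm_num) (by omega)
    rw [h1, Qd_succ]
    have h4 : 8 * (100 * (k + 1) + 1) + (k + 1) + 983 ≤ 2 ^ (2 * k + 41) := by
      have h5 : k < 2 ^ k := Nat.lt_two_pow_self
      have h6 : (2 : ℕ) ^ (2 * k + 41) = 2 ^ k * (2 ^ k * 2 ^ 41) := by
        rw [← pow_add, ← pow_add]; congr 1; ring
      rw [h6]
      have h7 : 1 ≤ 2 ^ k := Nat.one_le_two_pow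
      have h8 : (2 : ℕ) ^ k * 2 ^ 41 ≥ 2 ^ 41 := Nat.le_mul_of_pos_left _ h7
      have h9 : 2 ^ k * (2 ^ k * 2 ^ 41) ≥ (k + 1) * 2 ^ 41 := Nat.mul_le_mul (by omega) h8
      norm_num at h9 ⊢
      nlinarith
    have h10 : 1 ≤ Qd k := Qd_pos k
    calc k + 1 + 983 + 2 * (4 * Qd k * (100 * (k + 1) + 1))
        ≤ Qd k * (k + 1 + 983) + 2 * (4 * Qd k * (100 * (k + 1) + 1)) := by
          have : k + 1 + 983 ≤ Qd k * (k + 1 + 983) := Nat.le_mul_of_pos_left _ h10
          omega
      _ = Qd k * (8 * (100 * (k + 1) + 1) + (k + 1) + 983) := by ring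
      _ ≤ _ := Nat.mul_le_mul_left _ h4
  · have : l = 1 := by omega
    subst this
    have h1 : lam 1 = 4 := by unfold lam; simp
    rw [h1]
    have h2 := Qd_ge_441 (le_refl 1)
    have h3 : (2 : ℕ) ^ 20 ≤ 2 ^ (400 + 40 * 1) := Nat.pow_le_pow_right (by norm_num) (by norm_num)
    have h4 : (2 : ℕ) ^ 20 = 1048576 := by norm_num
    omega

lemma pop_le_Nb {l : ℕ} (hl : 1 ≤ l) {A : ℝ} (hA : A ≤ 100 * l + 1) :
    Kl l * Real.exp (lam l * A) ≤ Nb l := by
  have h1 : Real.exp (lam l * A) ≤ 2 ^ (2 * (lam l * (100 * l + 1))) := by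
    refine le_trans ?_ (exp_nat_le _)
    apply Real.exp_le_exp.2
    push_cast
    exact mul_le_mul_of_nonneg_left hA (Nat.cast_nonneg _)
  have h2 : (Kl l : ℝ) ≤ 2 ^ (l + 983) := by exact_mod_cast Kl_le l
  calc Kl l * Real.exp (lam l * A) ≤ 2 ^ (l + 983) * 2 ^ (2 * (lam l * (100 * l + 1))) := by
        gcongr
    _ = 2 ^ (l + 983 + 2 * (lam l * (100 * l + 1))) := by rw [← pow_add]
    _ ≤ 2 ^ (Qd l) := pow_le_pow_right₀ (by norm_num) (exponent_le hl)
    _ = _ := by rw [Nb_def]; push_cast; rfl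

lemma pop_root' (l : ℕ) {A : ℝ} (hA : A ≤ 3 / 2) :
    Kl 1 * Real.exp (lam 1 * A) ≤ kap l * nn l := by
  have h1 : lam 1 = 4 := by unfold lam; simp
  have h2 : Real.exp (lam 1 * A) ≤ 2 ^ (2 * 6) := by
    refine le_trans ?_ (exp_nat_le 6)
    apply Real.exp_le_exp.2
    rw [h1]
    push_cast
    linarith
  have h3 : (Kl 1 : ℝ) ≤ 2 ^ (1 + 983) := by exact_mod_cast Kl_le 1
  have h4 : (1 : ℝ) ≤ kap l := by exact_mod_cast kap_pos l
  have h5 : (2 : ℝ) ^ (1 + 983 + 2 * 6) ≤ nn l := by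
    have h6 : (2 : ℕ) ^ (1 + 983 + 2 * 6) ≤ nn l := by
      rw [nn_def]
      apply Nat.pow_le_pow_right (by norm_num)
      have h7 := Qd_ge l
      have h8 : 30 ^ 2 ≤ (l + 30) ^ 2 := Nat.pow_le_pow_left (by omega) 2
      omega
    exact_mod_cast h6
  calc Kl 1 * Real.exp (lam 1 * A) ≤ 2 ^ (1 + 983) * 2 ^ (2 * 6) := by gcongr
    _ = 2 ^ (1 + 983 + 2 * 6) := by rw [← pow_add]
    _ ≤ nn l := h5
    _ ≤ _ := by
      have : (0 : ℝ) ≤ nn l := Nat.cast_nonneg _
      nlinarith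

lemma pop_root {A : ℝ} (hA : A ≤ 3 / 2) : Kl 1 * Real.exp (lam 1 * A) ≤ kap 0 * nn 0 :=
  pop_root' 0 hA

section det
variable {x : Pth} (hx : Good x)
include hx

lemma Good.v (t : ℕ) : Val t x := fun s _ => hx.val s

lemma Good.pop {l t : ℕ} (hl : 1 ≤ l) (h : Reg0 l t x) :
    (t : ℝ) + 1 ≤ Kl l * Real.exp (lam l * AA FF x t) := by
  by_contra hc
  push Not at hc
  exact hx.P l hl ⟨hx.root, t, h, hc⟩

lemma Good.early {j s t : ℕ} (hj : 1 ≤ j) (hs : s ≤ kap j * nn j) (hsj : x.1 s = j) (hst : s ≤ t)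
    (hg : gg j ≤ dg x.2 t s) : 100 * (j : ℝ) - 100 * par j - del j ≤ AA FF x t - AA FF x s := by
  by_contra hc
  push Not at hc
  apply hx.C j hj
  refine ⟨hx.root, s, hs, hsj, t, hst, hg, ?_⟩
  rw [DD_eq]
  exact hc

lemma Good.lt_of_dg {t s : ℕ} (h : 0 < dg x.2 t s) : s < t := by
  by_contra hc
  rw [dg_new (hx.v t) (by omega)] at h
  omega

omit hx in
lemma reg0_zero {l : ℕ} (hl : 1 ≤ l) : Reg0 l 0 x := by
  intro v _ h
  rw [dg_zero]
  exact gg_pos (hl.trans h)

omit hx in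
/-- the first ignition time -/
lemma first_ign {l t : ℕ} (hl : 1 ≤ l) (h : ¬ Reg0 l t x) :
    ∃ z, 1 ≤ z ∧ z ≤ t ∧ Reg0 l (z - 1) x ∧ ¬ Reg0 l z x := by
  classical
  have hex : ∃ t, ¬ Reg0 l t x := ⟨t, h⟩
  refine ⟨Nat.find hex, ?_, Nat.find_min' hex h, ?_, Nat.find_spec hex⟩
  · by_contra hc
    have h0 : Nat.find hex = 0 := by omega
    have := Nat.find_spec hex
    rw [h0] at this
    exact this (reg0_zero hl)
  · by_contra hc
    have h1 := Nat.find_min' hex hc
    have h0 : Nat.find hex ≠ 0 := by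
      intro h0
      have := Nat.find_spec hex
      rw [h0] at this
      exact this (reg0_zero hl)
    omega

/-- population at the first ignition time -/
lemma Good.z_le_Nb {l z : ℕ} (hl : 1 ≤ l) (hz : 1 ≤ z) (h : Reg0 l (z - 1) x)
    (hA : AA FF x z ≤ 100 * l + 1) : z ≤ Nb l := by
  have h1 := hx.pop hl h
  have h2 : AA FF x (z - 1) ≤ AA FF x z := AA_mono FF_ge x (by omega)
  have h3 := pop_le_Nb hl (h2.trans hA)
  have h4 : ((z - 1 : ℕ) : ℝ) + 1 = z := by
    rw [Nat.cast_sub hz]; push_cast; ring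
  rw [h4] at h1
  exact_mod_cast h1.trans h3

theorem Good.lower (l : ℕ) : 1 ≤ l → ∀ t, ¬ Reg0 l t x → 100 * (l : ℝ) - ee l ≤ AA FF x t := by
  induction l using Nat.strong_induction_on with
  | _ l ih =>
    intro hl t ht
    obtain ⟨z, hz1, hzt, hreg, hnreg⟩ := first_ign hl ht
    refine le_trans ?_ (AA_mono FF_ge x hzt)
    by_contra hc
    push Not at hc
    have hee := ee_nonneg l
    have hzNb := hx.z_le_Nb hl hz1 hreg (by linarith)
    unfold Reg0 at hnreg
    push Not at hnreg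
    obtain ⟨v, hvz, hlv, hgv⟩ := hnreg
    set j := x.1 v with hj
    have hj1 : 1 ≤ j := hl.trans hlv
    have hvkap : v ≤ kap j * nn j :=
      (hvz.trans hzNb).trans ((Nb_le_nn l).trans ((nn_mono hlv).trans (nn_le_kap_nn j)))
    have hearly := hx.early hj1 hvkap rfl hvz hgv
    -- birth time of v
    have hbirth : 100 * (par j : ℝ) - ee (par j) ≤ AA FF x v := by
      rcases Nat.eq_zero_or_pos v with hv0 | hv0
      · subst hv0
        rw [AA_zero]
        have : j = 1 := hx.root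
        rw [this, par_one, ee_zero]
        simp
      · have hpar : par j < l := by
          by_contra hcc
          push Not at hcc
          exact hx.U l hl ⟨hx.root, v, hv0, hvz.trans hzNb, hcc⟩
        rcases Nat.eq_zero_or_pos (par j) with hp0 | hp0
        · rw [hp0, ee_zero]
          simp only [Nat.cast_zero, mul_zero, sub_zero]
          exact AA_nonneg FF_ge x v
        · have hvNb : Nb (par j) < v := by
            by_contra hcc
            push Not at hcc
            exact hx.U (par j) hp0 ⟨hx.root, v, hv0, hcc, le_rfl⟩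
          by_contra hcc
          push Not at hcc
          have hr : Reg0 (par j) v x := by
            by_contra hr
            have := ih (par j) hpar hp0 v hr
            linarith
          have h1 := hx.pop hp0 hr
          have h2 := pop_le_Nb hp0 (A := AA FF x v) (by
            have := ee_nonneg (par j)
            linarith)
          have h3 : (v : ℝ) + 1 ≤ Nb (par j) := h1.trans h2
          have h4 : v + 1 ≤ Nb (par j) := by exact_mod_cast h3
          omega
    have hgap := ee_gap (par_lt hj1)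
    have hdel := del_pos j
    have h1 : 100 * (j : ℝ) - ee j ≤ AA FF x z := by linarith
    have h2 : 100 * (l : ℝ) - ee l ≤ 100 * (j : ℝ) - ee j := by
      rcases Nat.eq_or_lt_of_le hlv with h | h
      · rw [← h]
      · have : ((l : ℝ) + 1) ≤ j := by exact_mod_cast h
        have := ee_le j
        linarith
    linarith

lemma Good.born {l s : ℕ} (hl : 1 ≤ l) (hs : Nb l < s) : 100 * (l : ℝ) - ee l ≤ AA FF x s := by
  by_contra hcc
  push Not at hcc
  have hr : Reg0 l s x := by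
    by_contra hr
    have := hx.lower l hl s hr
    linarith
  have h1 := hx.pop hl hr
  have h2 := pop_le_Nb hl (A := AA FF x s) (by
    have := ee_nonneg l
    linarith)
  have h4 : s + 1 ≤ Nb l := by exact_mod_cast h1.trans h2
  omega

/-- non-explosion -/
lemma Good.unbdd (a : ℝ) : ∃ t, a < AA FF x t := by
  by_contra hc
  push Not at hc
  obtain ⟨l, hl⟩ := exists_nat_gt (max a 1)
  have hl1 : 1 ≤ l := by
    have : (1 : ℝ) < l := lt_of_le_of_lt (le_max_right _ _) hl
    have : 1 < l := by exact_mod_cast this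
    omega
  have ha : a < l := lt_of_le_of_lt (le_max_left _ _) hl
  have hreg : ∀ t, Reg0 l t x := by
    intro t
    by_contra hr
    have h1 := hx.lower l hl1 t hr
    have h2 := hc t
    have h3 := ee_le l
    have h4 : (1 : ℝ) ≤ l := by exact_mod_cast hl1
    linarith
  have h5 := hx.pop hl1 (hreg (Nb l))
  have h6 := pop_le_Nb hl1 (A := AA FF x (Nb l)) (by
    have := hc (Nb l)
    have h4 : (1 : ℝ) ≤ l := by exact_mod_cast hl1
    linarith)
  linarith

omit hx in
/-- a seed: the unique early vertex of type `l` -/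
structure Seed (x : Pth) (l s : ℕ) : Prop where
  one : 1 ≤ l
  typ : x.1 s = l
  idx : s ≤ nn (par l)
  lo : 100 * (par l : ℝ) - ee (par l) ≤ AA FF x s
  hi : AA FF x s ≤ 100 * par l + ee (par l)
  oth : ∀ s', s' ≠ s → x.1 s' = l → 100 * (par l : ℝ) + bb (par l) ≤ AA FF x s'

lemma Good.other {l s : ℕ} (hS : Seed x l s) {u t : ℕ} (hu : u ≤ kap l * nn l) (hut : u ≤ t)
    (hlu : l ≤ x.1 u) (hus : u ≠ s) (hg : gg (x.1 u) ≤ dg x.2 t u) :
    100 * (l : ℝ) + bb l < AA FF x t := by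
  rcases Nat.eq_or_lt_of_le hlu with h | h
  · rw [← h] at hg
    have h1 := hx.early hS.one hu h.symm hut hg
    have h2 := hS.oth u hus h.symm
    have h3 := bb_gap (par_lt hS.one)
    have h4 := del_pos l
    linarith
  · have h1 : ¬ Reg0 (l + 1) t x := by
      intro hr
      have := hr u hut h
      omega
    have h2 := hx.lower (l + 1) (by omega) t h1
    have h3 := ee_le (l + 1)
    have h4 := bb_le l
    push_cast at h2
    linarith

/-- the burst of the seed -/
lemma Good.burst {l s : ℕ} (hS : Seed x l s) :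
    ∃ t, s ≤ t ∧ gg l + nn l ≤ dg x.2 t s ∧ AA FF x t ≤ 100 * l + ee l := by
  classical
  have hex := hx.unbdd (AA FF x s + DD l + del l)
  have hex' : ∃ t, AA FF x s + DD l + del l ≤ AA FF x t := by
    obtain ⟨t, ht⟩ := hex; exact ⟨t, ht.le⟩
  set t := Nat.find hex' with ht
  have ht1 : AA FF x s + DD l + del l ≤ AA FF x t := Nat.find_spec hex'
  have hD : (100 : ℝ) ≤ DD l := by exact_mod_cast DD_ge hS.one
  have hdel := del_pos l
  have hst : s ≤ t := by
    by_contra hc
    have := AA_mono FF_ge x (by omega : t ≤ s)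
    linarith
  have hdg : gg l + nn l ≤ dg x.2 t s := by
    by_contra hc
    apply hx.L l hS.one
    exact ⟨hx.root, s, hS.idx, hS.typ, t, hst, by omega, by linarith⟩
  refine ⟨t, hst, hdg, ?_⟩
  have htn : nn l ≤ t := by
    have : dg x.2 t s ≤ t := by
      unfold dg
      exact (Finset.card_filter_le _ _).trans (by simp)
    omega
  have hn := nn_pos l
  have ht0 : 1 ≤ t := by omega
  have h2 : AA FF x (t - 1) < AA FF x s + DD l + del l := by
    by_contra hc
    push Not at hc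
    have := Nat.find_min' hex' hc
    omega
  have h3 := AA_step_le FF_ge x (t - 1)
  have h4 : ((t - 1 : ℕ) : ℝ) + 1 = t := by
    rw [Nat.cast_sub ht0]; push_cast; ring
  rw [Nat.sub_add_cancel ht0, h4] at h3
  have h5 : 1 / (t : ℝ) ≤ del l := by
    have h6 : (2 : ℝ) ^ (l + 3) ≤ t := by
      have h7 : 2 ^ (l + 3) ≤ nn l := by
        rw [nn_def]
        apply Nat.pow_le_pow_right (by norm_num)
        have := Qd_ge_add l
        omega
      exact_mod_cast h7.trans htn
    unfold del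
    rw [one_div, one_div, inv_pow]
    exact inv_anti₀ (by positivity) h6
  have h6 := ee_gap (par_lt hS.one)
  have h7 := hS.hi
  have h8 : (DD l : ℝ) = 100 * l - 100 * par l := DD_eq
  linarith

/-- the ignition of the seed is the first ignition of a type `≥ l` -/
lemma Good.ignite {l s : ℕ} (hS : Seed x l s) :
    ∃ z, z ≤ Nb l ∧ Reg0 l (z - 1) x ∧ s < z ∧ gg l ≤ dg x.2 z s ∧
      100 * (l : ℝ) - ee l ≤ AA FF x z ∧ AA FF x z ≤ 100 * l + ee l := by
  obtain ⟨t, hst, hdg, hAt⟩ := hx.burst hS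
  have hnr : ¬ Reg0 l t x := by
    intro hr
    have := hr s hst (le_of_eq hS.typ.symm)
    rw [hS.typ] at this
    omega
  obtain ⟨z, hz1, hzt, hreg, hnreg⟩ := first_ign hS.one hnr
  have hAz : AA FF x z ≤ 100 * l + ee l := (AA_mono FF_ge x hzt).trans hAt
  have hzNb := hx.z_le_Nb hS.one hz1 hreg (by have := ee_le l; linarith)
  have hlow := hx.lower l hS.one z hnreg
  have hnreg' := hnreg
  unfold Reg0 at hnreg'
  push Not at hnreg'
  obtain ⟨u, huz, hlu, hgu⟩ := hnreg'
  have hus : u = s := by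
    by_contra hne
    have h1 := hx.other hS ((huz.trans hzNb).trans ((Nb_le_nn l).trans (nn_le_kap_nn l))) huz hlu
      hne hgu
    have := ee_le l
    have := bb_ge l
    linarith
  subst hus
  rw [hS.typ] at hgu
  exact ⟨z, hzNb, hreg, hx.lt_of_dg (lt_of_lt_of_le (gg_pos hS.one) hgu), hgu, hlow, hAz⟩

/-- the regime holds in the whole window -/
lemma Good.regime {l s z : ℕ} (hS : Seed x l s) (hz : z ≤ Nb l) (hreg : Reg0 l (z - 1) x)
    (hsz : s < z) (hg : gg l ≤ dg x.2 z s) (hlo : 100 * (l : ℝ) - ee l ≤ AA FF x z)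
    {Ev : Pth → Prop} (hEv : Ev x) :
    ∀ t, z ≤ t → AA FF x t ≤ 100 * l + bb l → Reg1 Ev l z s t x := by
  have hmk : ∀ (Ev : Pth → Prop), Ev x → ∀ t, z ≤ t → AA FF x t ≤ 100 * l + bb l →
      (∀ u ≤ t, l ≤ x.1 u → u ≠ s → dg x.2 t u < gg (x.1 u)) → Reg1 Ev l z s t x := by
    intro Ev hEv t hzt hA hoth
    refine ⟨hx.root, hEv, hx.v t, hzt, hz, hreg, hsz, hS.typ, hg, hoth, ?_, ?_, ?_⟩
    · intro u hu1 hu2
      by_contra hc
      push Not at hc
      exact hx.U l hS.one ⟨hx.root, u, hu1, hu2.trans hz, hc⟩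
    · have := ee_le l; linarith
    · have := bb_le l; linarith
  intro t hzt
  induction t, hzt using Nat.le_induction with
  | base =>
    intro hA
    apply hmk Ev hEv z le_rfl hA
    intro u hu hlu hus
    by_contra hc
    push Not at hc
    have := hx.other hS ((hu.trans hz).trans ((Nb_le_nn l).trans (nn_le_kap_nn l))) hu hlu hus hc
    linarith
  | succ t hzt ih =>
    intro hA
    have hA' : AA FF x t ≤ 100 * l + bb l := (AA_mono FF_ge x (Nat.le_succ t)).trans hA
    have hR := ih hA'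
    have hR' : Reg1 (fun _ => True) l z s t x :=
      ⟨hR.root, trivial, hR.val, hR.zt, hR.zNb, hR.pre, hR.vz, hR.typ, hR.ign, hR.oth, hR.old,
        hR.lo, hR.hi⟩
    have ht : t + 1 < kap l * nn l := by
      by_contra hc
      push Not at hc
      exact hx.W l hS.one ⟨z, s, t, Nat.zero_le _, hR', hc⟩
    apply hmk Ev hEv (t + 1) (by omega) hA
    intro u hu hlu hus
    by_contra hc
    push Not at hc
    have := hx.other hS (by omega) hu hlu hus hc
    linarith

/-- end of the window -/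
lemma Good.window_end {l s : ℕ} (hS : Seed x l s) : 100 * (l : ℝ) + bb l < AA FF x (kap l * nn l) := by
  obtain ⟨z, hz, hreg, hsz, hg, hlo, _⟩ := hx.ignite hS
  by_contra hc
  push Not at hc
  have hR := hx.regime hS hz hreg hsz hg hlo (Ev := fun _ => True) trivial (kap l * nn l)
    (hz.trans ((Nb_le_nn l).trans (nn_le_kap_nn l))) hc
  exact hx.W l hS.one ⟨z, s, kap l * nn l, Nat.zero_le _, hR, by omega⟩

lemma Good.window_start {l s : ℕ} (hS : Seed x l s) : AA FF x (nn l) ≤ 100 * l + ee l := by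
  obtain ⟨t, hst, hdg, hAt⟩ := hx.burst hS
  refine le_trans (AA_mono FF_ge x ?_) hAt
  have : dg x.2 t s ≤ t := by
    unfold dg
    exact (Finset.card_filter_le _ _).trans (by simp)
  omega

/-- the next seed -/
lemma Good.next {l s : ℕ} (hS : Seed x l s) :
    ∃ s', Fst l s' x ∧ s' ≤ nn l ∧ par (x.1 s') = l ∧ Seed x (x.1 s') s' := by
  classical
  have h1 : ∃ s, 1 ≤ s ∧ s ≤ nn l ∧ par (x.1 s) = l := by
    by_contra hc
    push Not at hc
    exact hx.N l hS.one ⟨hx.root, fun s h1 h2 => hc s h1 h2⟩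
  have hex : ∃ s, 1 ≤ s ∧ par (x.1 s) = l := by
    obtain ⟨s, h1, _, h2⟩ := h1; exact ⟨s, h1, h2⟩
  set s' := Nat.find hex with hs'
  obtain ⟨hs1, hs2⟩ : 1 ≤ s' ∧ par (x.1 s') = l := Nat.find_spec hex
  have hs3 : s' ≤ nn l := by
    obtain ⟨s, h1, h2, h3⟩ := h1
    exact (Nat.find_min' hex ⟨h1, h3⟩).trans h2
  have hfst : Fst l s' x := by
    refine ⟨hs1, hs2, fun r hr1 hr2 hr3 => ?_⟩
    have := Nat.find_min' hex ⟨hr1, hr3⟩
    omega
  have hNb : Nb l < s' := by
    by_contra hc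
    push Not at hc
    exact hx.U l hS.one ⟨hx.root, s', hs1, hc, le_of_eq hs2.symm⟩
  have hm1 : 1 ≤ x.1 s' := by
    by_contra hc
    have h0 : x.1 s' = 0 := by omega
    rw [h0, par_zero] at hs2
    have := hS.one
    omega
  refine ⟨s', hfst, hs3, hs2, hm1, rfl, by rw [hs2]; exact hs3, ?_, ?_, ?_⟩
  · rw [hs2]; exact hx.born hS.one hNb
  · rw [hs2]; exact (AA_mono FF_ge x hs3).trans (hx.window_start hS)
  · intro r hr1 hr2
    rw [hs2]
    have hr0 : 1 ≤ r := by
      by_contra hc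
      have : r = 0 := by omega
      rw [this, hx.root] at hr2
      rw [← hr2, par_one] at hs2
      have := hS.one
      omega
    have hrs : s' < r := by
      rcases lt_trichotomy r s' with h | h | h
      · exact absurd (by rw [hr2]; exact hs2) (hfst.2.2 r hr0 h)
      · exact absurd h hr1
      · exact h
    have hrk : kap l * nn l < r := by
      by_contra hc
      push Not at hc
      exact hx.D l hS.one ⟨hx.root, s', hfst, r, hrs, hc, hr2⟩
    exact (hx.window_end hS).le.trans (AA_mono FF_ge x hrk.le)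

/-- the root is a seed -/
lemma Good.seed_one : Seed x 1 0 := by
  refine ⟨le_rfl, hx.root, Nat.zero_le _, ?_, ?_, ?_⟩
  · rw [par_one, ee_zero, AA_zero]; simp
  · rw [par_one, ee_zero, AA_zero]; simp
  · intro r hr0 hr1
    rw [par_one]
    have hb : bb 0 = 3 / 2 := by unfold bb; norm_num
    rw [hb]
    simp only [Nat.cast_zero, mul_zero, zero_add]
    have hrk : kap 0 * nn 0 < r := by
      by_contra hc
      push Not at hc
      exact hx.Z ⟨hx.root, r, by omega, hc, hr1⟩
    by_contra hc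
    push Not at hc
    have hreg : Reg0 1 r x := by
      by_contra hnr
      have h1 := hx.lower 1 le_rfl r hnr
      have h2 := ee_le 1
      push_cast at h1
      linarith
    have h1 := hx.pop le_rfl hreg
    have h2 := pop_root hc.le
    have h3 : r + 1 ≤ kap 0 * nn 0 := by exact_mod_cast h1.trans h2
    omega

end det

/-- `l` is the `k`-th type of the chain, as seen from the types of index `≤ N`. -/
inductive OnC (N : ℕ) (x : Pth) : ℕ → ℕ → Prop
  | zero : OnC N x 0 1
  | succ {k i s : ℕ} : OnC N x k i → Fst i s x → s ≤ N → OnC N x (k + 1) (x.1 s)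

lemma OnC.mono {N N' : ℕ} (h : N ≤ N') {x : Pth} {k l : ℕ} (hx : OnC N x k l) : OnC N' x k l := by
  induction hx with
  | zero => exact OnC.zero
  | succ _ hf hs ih => exact OnC.succ ih hf (hs.trans h)

lemma OnC.congr {N : ℕ} {x y : Pth} (h : Agr N x y) {k l : ℕ} (hx : OnC N x k l) : OnC N y k l := by
  induction hx with
  | zero => exact OnC.zero
  | succ _ hf hs ih =>
    rw [h.1 _ hs]
    exact OnC.succ ih (hf.congr hs h) hs

lemma OnC.unique {N N' : ℕ} {x : Pth} {k l l' : ℕ} (hx : OnC N x k l) (hx' : OnC N' x k l') :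
    l = l' := by
  induction hx generalizing l' with
  | zero => cases hx' with
    | zero => rfl
  | succ _ hf hs ih => cases hx' with
    | succ h' hf' hs' =>
      have e := ih h'
      subst e
      rw [hf.unique hf']

lemma OnC.ge {N : ℕ} {x : Pth} {k l : ℕ} (hx : OnC N x k l) : k + 1 ≤ l := by
  induction hx with
  | zero => exact le_rfl
  | @succ k i s h hf hs ih =>
    have h1 := hf.2.1
    have h2 : 1 ≤ x.1 s := by
      by_contra hc
      have h0 : x.1 s = 0 := by omega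
      rw [h0, par_zero] at h1
      omega
    have := par_lt h2
    omega

lemma Good.chain {x : Pth} (hx : Good x) (k : ℕ) : ∃ l s, Seed x l s ∧ OnC (nn (par l)) x k l := by
  induction k with
  | zero => exact ⟨1, 0, hx.seed_one, OnC.zero⟩
  | succ k ih =>
    obtain ⟨l, s, hS, hC⟩ := ih
    obtain ⟨s', hf, hs', hp, hS'⟩ := hx.next hS
    refine ⟨x.1 s', s', hS', ?_⟩
    rw [hp]
    exact OnC.succ (hC.mono (nn_mono (par_lt hS.one).le)) hf hs'

/-- the constant-factor window event at level `k` fails -/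
def BadK (k : ℕ) : Set Pth :=
  {x | ∃ l, 1 ≤ l ∧ x ∈ BadW (fun y => OnC (nn (par l)) y k l) l (nn (par l)) 1024}

theorem Good.drop {x : Pth} (hx : Good x) {k : ℕ} (hk : 1 ≤ k) (hK : x ∉ BadK k) :
    ∃ l, k ≤ l ∧ 1 ≤ AA FF x (1024 * nn l) - AA FF x (nn l) := by
  obtain ⟨k', rfl⟩ := Nat.exists_eq_add_of_le' hk
  obtain ⟨i, si, hSi, hCi⟩ := hx.chain k'
  obtain ⟨s, hf, hs, hp, hS⟩ := hx.next hSi
  set l := x.1 s with hl
  have hC : OnC (nn (par l)) x (k' + 1) l := by
    rw [hp]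
    exact OnC.succ (hCi.mono (nn_mono (par_lt hSi.one).le)) hf hs
  refine ⟨l, by have := hC.ge; omega, ?_⟩
  obtain ⟨z, hz, hreg, hsz, hg, hlo, hhi⟩ := hx.ignite hS
  have h1 : 100 * (l : ℝ) + bb l < AA FF x (1024 * nn l) := by
    by_contra hc
    push Not at hc
    have hzt : z ≤ 1024 * nn l := by
      have := Nb_le_nn l
      omega
    have hR := hx.regime hS hz hreg hsz hg hlo (Ev := fun y => OnC (nn (par l)) y (k' + 1) l) hC
      (1024 * nn l) hzt hc
    apply hK
    refine ⟨l, hS.one, z, s, 1024 * nn l, ?_, hR, by omega⟩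
    -- nn (par l) ≤ z
    by_contra hcc
    push Not at hcc
    have h2 := AA_mono FF_ge x hcc.le
    rw [hp] at h2
    have h3 := hx.window_start hSi
    have h4 := ee_le i
    have h5 := ee_le l
    have h6 := par_lt hS.one
    rw [hp] at h6
    have h7 : (i : ℝ) + 1 ≤ l := by exact_mod_cast h6
    linarith
  have h2 := hx.window_start hS
  have h3 := bb_ge l
  have h4 := ee_le l
  linarith

end Pool.Agent.Helper70.Fr
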