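import Pool.Agent.Helper43.TTF.G
import Pool.Agent.Helper68.G2b2

/-!
# Smoothing along the modular group: the smoothing operator and the Gaussian kernels
-/

open scoped InnerProductSpace Topology BoundedContinuousFunction
open ContinuousLinearMap Filter MeasureTheory

namespace Pool.Agent.Helper70.U8

open Pool.Agent.Helper23

variable {H : Type*} [NormedAddCommGroup H] [InnerProductSpace ℂ H] [CompleteSpace H]
variable {A : VonNeumannAlgebra H} {ξ : H} {R : H →L[ℂ] H} {D : H →L[ℝ] H}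
  {Ψ : (ℝ →ᵇ ℂ) →⋆ₐ[ℂ] (H →L[ℂ] H)}

/-- the unitary group -/
noncomputable def U (Ψ : (ℝ →ᵇ ℂ) →⋆ₐ[ℂ] (H →L[ℂ] H)) (t : ℝ) : H →L[ℂ] H :=
  Ψ (expB (2 * Real.pi * t))

/-- the inverse of the unitary group -/
noncomputable def V (Ψ : (ℝ →ᵇ ℂ) →⋆ₐ[ℂ] (H →L[ℂ] H)) (t : ℝ) : H →L[ℂ] H :=
  Ψ (expB (-(2 * Real.pi * t)))

lemma U_star (t : ℝ) : star (U Ψ t) = V Ψ t := by
  unfold U V
  rw [← map_star, expB_star]

lemma V_star (t : ℝ) : star (V Ψ t) = U Ψ t := by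
  rw [← U_star, star_star]

lemma U_norm (t : ℝ) (v : H) : ‖U Ψ t v‖ = ‖v‖ := psi_expB_norm Ψ _ v

lemma V_norm (t : ℝ) (v : H) : ‖V Ψ t v‖ = ‖v‖ := psi_expB_norm Ψ _ v

lemma U_cont (h : Modular A ξ R D Ψ) (v : H) : Continuous fun t => U Ψ t v :=
  (h.U_cont v).comp (by fun_prop : Continuous fun t : ℝ => 2 * Real.pi * t)

lemma V_cont (h : Modular A ξ R D Ψ) (v : H) : Continuous fun t => V Ψ t v :=
  (h.U_cont v).comp (by fun_prop : Continuous fun t : ℝ => -(2 * Real.pi * t))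

lemma cont_apply {T : ℝ → H →L[ℂ] H} (hT : ∀ t v, ‖T t v‖ ≤ ‖v‖)
    (hc : ∀ v, Continuous fun t => T t v) {f : ℝ → H} (hf : Continuous f) :
    Continuous fun t => T t (f t) := by
  rw [continuous_iff_continuousAt]
  intro t₀
  rw [ContinuousAt, tendsto_iff_norm_sub_tendsto_zero]
  have h1 : Tendsto (fun t => ‖f t - f t₀‖ + ‖T t (f t₀) - T t₀ (f t₀)‖) (𝓝 t₀) (𝓝 0) := by
    have e1 := tendsto_iff_norm_sub_tendsto_zero.1 (hf.tendsto t₀)
    have e2 := tendsto_iff_norm_sub_tendsto_zero.1 ((hc (f t₀)).tendsto t₀)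
    simpa using e1.add e2
  refine squeeze_zero (fun _ => norm_nonneg _) (fun t => ?_) h1
  have h2 : T t (f t) - T t₀ (f t₀) = T t (f t - f t₀) + (T t (f t₀) - T t₀ (f t₀)) := by
    rw [map_sub]; abel
  rw [h2]
  refine (norm_add_le _ _).trans ?_
  gcongr
  exact hT _ _

lemma orbit_cont (h : Modular A ξ R D Ψ) (z : H →L[ℂ] H) (w : H) :
    Continuous fun t => U Ψ t (z (V Ψ t w)) :=
  cont_apply (fun t v => (U_norm t v).le) (U_cont h) (z.continuous.comp (V_cont h w))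

lemma orbit_norm (z : H →L[ℂ] H) (w : H) (t : ℝ) : ‖U Ψ t (z (V Ψ t w))‖ ≤ ‖z‖ * ‖w‖ := by
  rw [U_norm]
  refine (z.le_opNorm _).trans ?_
  rw [V_norm]

lemma orbit_int (h : Modular A ξ R D Ψ) {k : ℝ → ℂ} (hk : Integrable k) (z : H →L[ℂ] H) (w : H) :
    Integrable fun t => k t • U Ψ t (z (V Ψ t w)) :=
  hk.smul_bdd (C := ‖z‖ * ‖w‖) (orbit_cont h z w).aestronglyMeasurable
    (Eventually.of_forall fun t => orbit_norm z w t)

/-- the smoothing operator -/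
noncomputable def sm (h : Modular A ξ R D Ψ) {k : ℝ → ℂ} (hk : Integrable k) (z : H →L[ℂ] H) :
    H →L[ℂ] H :=
  LinearMap.mkContinuous
    { toFun := fun w => ∫ t, k t • U Ψ t (z (V Ψ t w))
      map_add' := by
        intro v w
        rw [← integral_add (orbit_int h hk z v) (orbit_int h hk z w)]
        congr 1
        funext t
        simp only [map_add, smul_add]
      map_smul' := by
        intro c w
        rw [RingHom.id_apply, ← integral_smul]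
        congr 1
        funext t
        simp only [map_smul]
        rw [smul_comm] }
    ((∫ t, ‖k t‖) * ‖z‖) (by
      intro w
      refine (norm_integral_le_integral_norm _).trans ?_
      have h1 : ∫ t, ‖k t • U Ψ t (z (V Ψ t w))‖ ≤ ∫ t, ‖k t‖ * (‖z‖ * ‖w‖) := by
        refine integral_mono (orbit_int h hk z w).norm (hk.norm.mul_const _) fun t => ?_
        change ‖k t • U Ψ t (z (V Ψ t w))‖ ≤ ‖k t‖ * (‖z‖ * ‖w‖)
        rw [norm_smul]
        gcongr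
        exact orbit_norm z w t
      refine h1.trans ?_
      rw [integral_mul_const, mul_assoc])

lemma sm_apply (h : Modular A ξ R D Ψ) {k : ℝ → ℂ} (hk : Integrable k) (z : H →L[ℂ] H) (w : H) :
    sm h hk z w = ∫ t, k t • U Ψ t (z (V Ψ t w)) := rfl

lemma sm_norm (h : Modular A ξ R D Ψ) {k : ℝ → ℂ} (hk : Integrable k) (z : H →L[ℂ] H) :
    ‖sm h hk z‖ ≤ (∫ t, ‖k t‖) * ‖z‖ :=
  LinearMap.mkContinuous_norm_le _
    (mul_nonneg (integral_nonneg fun _ => norm_nonneg _) (norm_nonneg _)) _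

lemma inner_sm (h : Modular A ξ R D Ψ) {k : ℝ → ℂ} (hk : Integrable k) (z : H →L[ℂ] H) (v w : H) :
    ⟪v, sm h hk z w⟫_ℂ = ∫ t, k t * ⟪v, U Ψ t (z (V Ψ t w))⟫_ℂ := by
  rw [sm_apply, ← integral_inner (orbit_int h hk z w)]
  congr 1
  funext t
  rw [inner_smul_right]

lemma sm_mem (h : Modular A ξ R D Ψ) {k : ℝ → ℂ} (hk : Integrable k) {B : VonNeumannAlgebra H}
    (hB : ∀ (t : ℝ), ∀ a ∈ B, Ψ (expB t) * a * Ψ (expB (-t)) ∈ B) {z : H →L[ℂ] H} (hz : z ∈ B) :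
    sm h hk z ∈ B := by
  rw [mem_iff_commutes]
  intro g hg
  ext w
  rw [mul_apply_eq_comp, mul_apply_eq_comp, sm_apply, sm_apply,
    ← ContinuousLinearMap.integral_comp_comm g (orbit_int h hk z w)]
  congr 1
  funext t
  rw [map_smul]
  congr 1
  have h1 := hB (2 * Real.pi * t) z hz
  have h2 := commute_apply h1 hg w
  simp only [mul_apply_eq_comp] at h2
  exact h2.symm

lemma sm_star (h : Modular A ξ R D Ψ) {k : ℝ → ℂ} (hk : Integrable k)
    (hr : ∀ t, (starRingEnd ℂ) (k t) = k t) (z : H →L[ℂ] H) :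
    star (sm h hk z) = sm h hk (star z) := by
  ext w
  refine ext_inner_left ℂ fun v => ?_
  rw [inner_star_right, ← inner_conj_symm, inner_sm, inner_sm, ← integral_conj]
  congr 1
  funext t
  rw [map_mul, hr, inner_conj_symm, ← inner_star_right (U Ψ t), U_star, ← inner_star_right z,
    ← inner_star_right (V Ψ t), V_star]

lemma V_xi (h : Modular A ξ R D Ψ) (t : ℝ) : V Ψ t ξ = ξ := by
  unfold V
  rw [h.psi_xi, expB_apply, mul_zero, Complex.ofReal_zero, zero_mul, Complex.exp_zero, one_smul]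

lemma sm_xi (h : Modular A ξ R D Ψ) {k : ℝ → ℂ} (hk : Integrable k) {K : ℝ →ᵇ ℂ}
    (hK : ∀ ρ, K ρ = ∫ t, k t * expB (2 * Real.pi * t) ρ) (z : H →L[ℂ] H) :
    sm h hk z ξ = Ψ K (z ξ) := by
  refine ext_inner_left ℂ fun v => ?_
  rw [inner_sm, ← h.integral_psi hk hK]
  congr 1
  funext t
  rw [V_xi h]
  rfl

/-! ### Gaussian kernels -/

/-- the real Gaussian -/
noncomputable def ga (ε t : ℝ) : ℝ :=
  (√(Real.pi / (Real.pi ^ 2 / ε)))⁻¹ * Real.exp (-(Real.pi ^ 2 / ε) * t ^ 2)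

lemma ga_nonneg (ε t : ℝ) : 0 ≤ ga ε t := by
  unfold ga
  positivity

lemma ga_int {ε : ℝ} (hε : 0 < ε) : Integrable (ga ε) :=
  (integrable_exp_neg_mul_sq (by positivity : 0 < Real.pi ^ 2 / ε)).const_mul _

lemma ga_integral {ε : ℝ} (hε : 0 < ε) : ∫ t, ga ε t = 1 := by
  unfold ga
  rw [integral_const_mul, integral_gaussian, inv_mul_cancel₀]
  have : 0 < Real.pi / (Real.pi ^ 2 / ε) := by positivity
  exact (Real.sqrt_pos.2 this).ne'

/-- the kernels -/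
noncomputable def kg (ε κ t : ℝ) : ℂ :=
  (ga ε t : ℂ) * (Complex.exp ((-(Real.pi * κ / ε * t) : ℝ) * Complex.I) *
    (Real.exp (κ ^ 2 / (4 * ε)) : ℝ))

lemma kg_norm (ε κ t : ℝ) : ‖kg ε κ t‖ = ga ε t * Real.exp (κ ^ 2 / (4 * ε)) := by
  unfold kg
  rw [norm_mul, norm_mul, Complex.norm_real, Complex.norm_real, Complex.norm_exp_ofReal_mul_I,
    one_mul, Real.norm_of_nonneg (ga_nonneg _ _), Real.norm_of_nonneg (Real.exp_pos _).le]

lemma kg_cont (ε κ : ℝ) : Continuous (kg ε κ) := by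
  unfold kg ga
  fun_prop

lemma kg_int {ε : ℝ} (hε : 0 < ε) (κ : ℝ) : Integrable (kg ε κ) := by
  refine Integrable.mono' ((ga_int hε).mul_const (Real.exp (κ ^ 2 / (4 * ε))))
    (kg_cont ε κ).aestronglyMeasurable (Eventually.of_forall fun t => ?_)
  rw [kg_norm]

lemma kg_integral_norm {ε : ℝ} (hε : 0 < ε) (κ : ℝ) :
    ∫ t, ‖kg ε κ t‖ = Real.exp (κ ^ 2 / (4 * ε)) := by
  simp only [kg_norm]
  rw [integral_mul_const, ga_integral hε, one_mul]

lemma kg_real (ε t : ℝ) : (starRingEnd ℂ) (kg ε 0 t) = kg ε 0 t := by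
  have : kg ε 0 t = ((ga ε t : ℝ) : ℂ) := by
    unfold kg
    simp
  rw [this, Complex.conj_ofReal]

lemma kg_fourier {ε : ℝ} (hε : 0 < ε) (κ ρ : ℝ) :
    ((Real.exp (-(ε * ρ ^ 2) + κ * ρ) : ℝ) : ℂ) =
      ∫ t, kg ε κ t * expB (2 * Real.pi * t) ρ := by
  have hpi : (Real.pi : ℂ) ≠ 0 := by exact_mod_cast Real.pi_ne_zero
  have hε' : (ε : ℂ) ≠ 0 := by exact_mod_cast hε.ne'
  have hb : (-((Real.pi : ℂ) ^ 2 / ε)).re < 0 := by
    have : (-((Real.pi : ℂ) ^ 2 / ε)) = ((-(Real.pi ^ 2 / ε) : ℝ) : ℂ) := by push_cast; ring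
    rw [this, Complex.ofReal_re]
    have : 0 < Real.pi ^ 2 / ε := by positivity
    linarith
  have hq := integral_cexp_quadratic hb
    (-(Real.pi * κ / ε) * Complex.I + 2 * Real.pi * ρ * Complex.I) ((κ : ℂ) ^ 2 / (4 * ε))
  have h1 : (fun t : ℝ => kg ε κ t * expB (2 * Real.pi * t) ρ) = fun t : ℝ =>
      ((√(Real.pi / (Real.pi ^ 2 / ε)))⁻¹ : ℂ) * Complex.exp (-((Real.pi : ℂ) ^ 2 / ε) * t ^ 2 +
        (-(Real.pi * κ / ε) * Complex.I + 2 * Real.pi * ρ * Complex.I) * t +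
        (κ : ℂ) ^ 2 / (4 * ε)) := by
    funext t
    rw [expB_apply, kg, ga]
    push_cast
    rw [Complex.exp_add, Complex.exp_add]
    have h2 : (-((Real.pi : ℂ) * κ / ε) * Complex.I + 2 * Real.pi * ρ * Complex.I) * t =
        -(Real.pi * κ / ε * t) * Complex.I + 2 * Real.pi * t * ρ * Complex.I := by ring
    rw [h2, Complex.exp_add]
    ring
  rw [h1, integral_const_mul, hq]
  have h3 : ((Real.pi : ℂ) / - -((Real.pi : ℂ) ^ 2 / ε)) ^ (1 / 2 : ℂ) =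
      ((√(Real.pi / (Real.pi ^ 2 / ε)) : ℝ) : ℂ) := by
    rw [Real.sqrt_eq_rpow, Complex.ofReal_cpow (by positivity), neg_neg]
    push_cast
    rfl
  rw [h3, ← mul_assoc]
  have h4 : ((√(Real.pi / (Real.pi ^ 2 / ε)) : ℝ) : ℂ) ≠ 0 := by
    have : 0 < Real.pi / (Real.pi ^ 2 / ε) := by positivity
    exact_mod_cast (Real.sqrt_pos.2 this).ne'
  rw [inv_mul_cancel₀ h4, one_mul, Complex.ofReal_exp]
  congr 1
  push_cast
  have h5 : (-((Real.pi : ℂ) * κ / ε) * Complex.I + 2 * Real.pi * ρ * Complex.I) ^ 2 =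
      -(-((Real.pi : ℂ) * κ / ε) + 2 * Real.pi * ρ) ^ 2 := by
    rw [← add_mul, mul_pow, Complex.I_sq]
    ring
  rw [h5]
  field_simp
  ring

/-- the Gaussian -/
noncomputable def GB (ε : ℝ) (hε : 0 < ε) (κ : ℝ) : ℝ →ᵇ ℂ :=
  BoundedContinuousFunction.ofNormedAddCommGroup
    (fun ρ : ℝ => ((Real.exp (-(ε * ρ ^ 2) + κ * ρ) : ℝ) : ℂ)) (by fun_prop)
    (Real.exp (κ ^ 2 / (4 * ε))) (by
      intro ρ
      rw [Complex.norm_real, Real.norm_of_nonneg (Real.exp_pos _).le, Real.exp_le_exp]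
      rw [le_div_iff₀ (by positivity)]
      nlinarith [sq_nonneg (2 * ε * ρ - κ)])

lemma GB_apply {ε : ℝ} (hε : 0 < ε) (κ ρ : ℝ) :
    GB ε hε κ ρ = ((Real.exp (-(ε * ρ ^ 2) + κ * ρ) : ℝ) : ℂ) := rfl

end Pool.Agent.Helper70.U8
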